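import Pool.Agent.Lib.P07318g.Defs
import Pool.Agent.Lib.P07318s.AFE

/-!
# The error of the approximate functional equations, in mean

PROOF. `z_j = ‖ζ(1/2+i y_j)‖²`, `f_j = Fd (y_j)`, `y_j = x + (h_j - α) ∈ [U, 11U]`, `‖z_j - f_j‖ ≤ C U^(-1/2+1/8)` (`afe (1/8)`), so `‖z_j‖, ‖f_j‖ ≤ z_j + C` and (telescoping,
`Finset.prod_sub_prod..`, or induction) `‖∏ z_j - ∏ f_j‖ ≤ n C U^(-3/8) ∏_j (z_j + C)` (take `C ≥ 1`). The integral over `h` and `x` (enorm of an integral `≤` lintegral of the enorm;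
Tonelli, `lintegral` of a product over the box: `lintegral_fintype_prod_eq_prod` or `volume_pi`, or by induction on `n` with `MeasurableEquiv.piFinSuccAbove`) is
`≤ n C U^(-3/8) ∫ ‖G x‖ ∏_j (∫_{β_j}^{β_j+U} (‖ζ(1/2+i(x+h-α))‖² + C) dh) dx`, the inner integrals are at most `∫_U^{12U} (‖ζ‖² + C) ≤ (C+1) 11U + ∫_U^{12U} ‖ζ‖⁴ ≤ C U^(1+ε)` (`t² ≤ 1 + t⁴`,
`LongPartAux.fourth_long`), and `∫ ‖G‖ ≤ C U^(1+ε)` (support in `[α-U, α+4U] ⊂ [U, 10U]`): total `≤ C U^(-3/8 + (n+1)(1+ε))`, `ε = 1/(8(n+1))`, so `c = 1/4`.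
-/

set_option autoImplicit false

namespace Pool.Agent.P07318g

open MeasureTheory Complex Pool.Agent.P07318s Pool.Agent.P07318f

namespace AfeNAux

theorem lint_pi (n : ℕ) (μ : Fin n → Measure ℝ) [∀ i, SigmaFinite (μ i)] (f : Fin n → ℝ → ENNReal)
    (hf : ∀ i, Measurable (f i)) :
    ∫⁻ x, ∏ i, f i (x i) ∂(Measure.pi μ) = ∏ i, ∫⁻ x, f i x ∂(μ i) := by
  induction n with
  | zero => simp
  | succ n ih =>
    have h := measurePreserving_piFinSuccAbove μ 0
    rw [← (h.symm (MeasurableEquiv.piFinSuccAbove (fun _ => ℝ) 0)).lintegral_comp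
      (f := fun x => ∏ i, f i (x i)) (by
        refine Finset.measurable_prod _ fun i _ => (hf i).comp (measurable_pi_apply i))]
    have e : ∀ y : ℝ × (Fin n → ℝ),
        (∏ i, f i ((MeasurableEquiv.piFinSuccAbove (fun _ => ℝ) 0).symm y i)) =
          f 0 y.1 * ∏ i : Fin n, f i.succ (y.2 i) := by
      intro y
      rw [Fin.prod_univ_succ]
      simp [MeasurableEquiv.piFinSuccAbove]
    simp_rw [e]
    rw [lintegral_prod_mul (f := f 0) (g := fun z : Fin n → ℝ => ∏ i : Fin n, f i.succ (z i)) (hf 0).aemeasurable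
      (Finset.measurable_prod _ fun i _ => (hf i.succ).comp (measurable_pi_apply i)).aemeasurable]
    rw [Fin.prod_univ_succ]
    congr 1
    exact ih (fun i => μ i.succ) (fun i => f i.succ) (fun i => hf i.succ)

theorem prod_diff {ι : Type*} (s : Finset ι) (a b : ι → ℂ) (m : ι → ℝ) {δ : ℝ} (hδ : 0 ≤ δ)
    (hm : ∀ i ∈ s, 1 ≤ m i) (ha : ∀ i ∈ s, ‖a i‖ ≤ m i) (hb : ∀ i ∈ s, ‖b i‖ ≤ m i)
    (hab : ∀ i ∈ s, ‖a i - b i‖ ≤ δ) :
    ‖∏ i ∈ s, a i - ∏ i ∈ s, b i‖ ≤ s.card * δ * ∏ i ∈ s, m i := by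
  classical
  induction s using Finset.induction_on with
  | empty => simp
  | insert i s hi ih =>
    have h1 := ih (fun j hj => hm j (Finset.mem_insert_of_mem hj))
      (fun j hj => ha j (Finset.mem_insert_of_mem hj)) (fun j hj => hb j (Finset.mem_insert_of_mem hj))
      (fun j hj => hab j (Finset.mem_insert_of_mem hj))
    have h2 : ‖∏ j ∈ s, b j‖ ≤ ∏ j ∈ s, m j := by
      rw [norm_prod]
      exact Finset.prod_le_prod (fun j _ => norm_nonneg _) fun j hj => hb j (Finset.mem_insert_of_mem hj)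
    have hm0 : 0 ≤ ∏ j ∈ s, m j :=
      Finset.prod_nonneg fun j hj => by linarith [hm j (Finset.mem_insert_of_mem hj)]
    have hmi := hm i (Finset.mem_insert_self _ _)
    rw [Finset.prod_insert hi, Finset.prod_insert hi, Finset.prod_insert hi,
      Finset.card_insert_of_notMem hi]
    have e : a i * ∏ j ∈ s, a j - b i * ∏ j ∈ s, b j =
        a i * (∏ j ∈ s, a j - ∏ j ∈ s, b j) + (a i - b i) * ∏ j ∈ s, b j := by ring
    rw [e]
    refine (norm_add_le _ _).trans ?_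
    rw [norm_mul, norm_mul]
    have h3 : ‖a i‖ * ‖∏ j ∈ s, a j - ∏ j ∈ s, b j‖ ≤ m i * (s.card * δ * ∏ j ∈ s, m j) :=
      mul_le_mul (ha i (Finset.mem_insert_self _ _)) h1 (norm_nonneg _) (by linarith)
    have h4 : ‖a i - b i‖ * ‖∏ j ∈ s, b j‖ ≤ δ * ∏ j ∈ s, m j :=
      mul_le_mul (hab i (Finset.mem_insert_self _ _)) h2 (norm_nonneg _) hδ
    have h5 : δ * ∏ j ∈ s, m j ≤ m i * (δ * ∏ j ∈ s, m j) :=
      le_mul_of_one_le_left (mul_nonneg hδ hm0) hmi
    push_cast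
    calc _ ≤ m i * (s.card * δ * ∏ j ∈ s, m j) + m i * (δ * ∏ j ∈ s, m j) := by linarith
      _ = _ := by ring

/-- the majorant of the factors -/
noncomputable def Ph (C : ℝ) (y : ℝ) : ENNReal :=
  ENNReal.ofReal (‖riemannZeta (1 / 2 + (y : ℂ) * I)‖ ^ 2 + C)

theorem zcont : Continuous (fun x : ℝ => riemannZeta (1 / 2 + (x : ℂ) * I)) := by
  refine continuous_iff_continuousAt.2 fun v => ?_
  refine ContinuousAt.comp (g := riemannZeta) ?_ (by fun_prop)
  refine (differentiableAt_riemannZeta ?_).continuousAt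
  intro h
  have := congrArg Complex.re h
  norm_num at this

theorem Ph_meas (C : ℝ) : Measurable (Ph C) :=
  (ENNReal.continuous_ofReal.comp ((zcont.norm.pow 2).add continuous_const)).measurable

/-- the integral of one factor -/
theorem Ph_int {C C4 ε U x α b : ℝ} (hC : 0 ≤ C) (hU : 1 ≤ U) (hε : 0 < ε)
    (h4 : ∫ x in U..(12 * U), ‖riemannZeta (1 / 2 + x * I)‖ ^ 4 ≤ C4 * U ^ (1 + ε))
    (hx1 : α - U ≤ x) (hx2 : x ≤ α + 4 * U) (hb1 : 2 * U ≤ b) (hb2 : b ≤ 6 * U) :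
    ∫⁻ h in Set.Icc b (b + U), Ph C (x + (h - α)) ≤
      ENNReal.ofReal ((11 * (1 + C) + C4) * U ^ (1 + ε)) := by
  have hU0 : 0 < U := by linarith
  have e1 : ∫⁻ h in Set.Icc b (b + U), Ph C (x + (h - α)) ≤ ∫⁻ y in Set.Icc U (12 * U), Ph C y := by
    rw [← lintegral_indicator measurableSet_Icc, ← lintegral_indicator measurableSet_Icc,
      ← lintegral_add_right_eq_self (fun y => (Set.Icc U (12 * U)).indicator (Ph C) y) (x - α)]
    refine lintegral_mono fun h => ?_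
    by_cases hh : h ∈ Set.Icc b (b + U)
    · rw [Set.indicator_of_mem hh, Set.indicator_of_mem]
      · rw [show h + (x - α) = x + (h - α) by ring]
      · rw [Set.mem_Icc] at hh ⊢
        constructor <;> linarith
    · rw [Set.indicator_of_notMem hh]
      exact zero_le
  refine e1.trans ?_
  unfold Ph
  have hc2 : Continuous (fun x : ℝ => ‖riemannZeta (1 / 2 + (x : ℂ) * I)‖ ^ 2 + C) :=
    (zcont.norm.pow 2).add continuous_const
  have hc4 : Continuous (fun x : ℝ => ‖riemannZeta (1 / 2 + (x : ℂ) * I)‖ ^ 4) := zcont.norm.pow 4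
  rw [← ofReal_integral_eq_lintegral_ofReal (hc2.integrableOn_Icc)
    (Filter.Eventually.of_forall fun x => by positivity)]
  refine ENNReal.ofReal_le_ofReal ?_
  have hle : U ≤ 12 * U := by linarith
  rw [integral_Icc_eq_integral_Ioc, ← intervalIntegral.integral_of_le hle]
  have h5 : ∫ x in U..(12 * U), (‖riemannZeta (1 / 2 + x * I)‖ ^ 2 + C) ≤
      ∫ x in U..(12 * U), (‖riemannZeta (1 / 2 + x * I)‖ ^ 4 + (1 + C)) := by
    refine intervalIntegral.integral_mono_on hle (hc2.intervalIntegrable _ _)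
      ((hc4.add continuous_const).intervalIntegrable _ _) fun y _ => ?_
    have h6 : ∀ t : ℝ, t ^ 2 ≤ t ^ 4 + 1 := fun t => by nlinarith [sq_nonneg (t ^ 2 - 1), sq_nonneg (t ^ 2)]
    have := h6 ‖riemannZeta (1 / 2 + y * I)‖
    linarith
  refine h5.trans ?_
  rw [intervalIntegral.integral_add (hc4.intervalIntegrable _ _) (continuous_const.intervalIntegrable _ _),
    intervalIntegral.integral_const, smul_eq_mul]
  have h7 : U ≤ U ^ (1 + ε) := by
    calc U = U ^ (1 : ℝ) := (Real.rpow_one U).symm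
      _ ≤ U ^ (1 + ε) := Real.rpow_le_rpow_of_exponent_le hU (by linarith)
  have h8 : (12 * U - U) * (1 + C) ≤ 11 * (1 + C) * U ^ (1 + ε) := by
    have : (12 * U - U) * (1 + C) = 11 * (1 + C) * U := by ring
    rw [this]
    exact mul_le_mul_of_nonneg_left h7 (by positivity)
  linarith

end AfeNAux

open AfeNAux in
theorem afe_n (n : ℕ) : ∃ C : ℝ, 0 < C ∧ ∀ (U α : ℝ) (β : Fin n → ℝ) (G : ℝ → ℂ), 1 ≤ U → 2 * U ≤ α → α ≤ 6 * U →
    (∀ j, 2 * U ≤ β j) → (∀ j, β j ≤ 6 * U) → Measurable G → (∀ x, x < α - U → G x = 0) → (∀ x, α + 4 * U < x → G x = 0) →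
    (∀ x : ℝ, ‖G x‖ ≤ ‖riemannZeta (1 / 2 + x * I)‖ ^ 4) →
    ∫⁻ h in Set.Icc β (fun j => β j + U), ‖∫ x, G x * (((∏ j, ‖riemannZeta (1 / 2 + ((x + (h j - α) : ℝ) : ℂ) * I)‖ ^ 2 : ℝ) : ℂ) -
        ∏ j, Fd (x + (h j - α)))‖ₑ ≤ ENNReal.ofReal (C * U ^ ((n : ℝ) + 1 - 1 / 4)) := by
  obtain ⟨C0, hC0, hafe⟩ := afe (1 / 8) (by norm_num)
  set D : ℝ := max C0 1 with hD
  have hD1 : 1 ≤ D := le_max_right _ _
  have hDC : C0 ≤ D := le_max_left _ _
  have hD0 : 0 ≤ D := by linarith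
  set ε : ℝ := 1 / (8 * ((n : ℝ) + 1)) with hε
  have hn1 : (0 : ℝ) < (n : ℝ) + 1 := by positivity
  have hε0 : 0 < ε := by rw [hε]; positivity
  have hεn : ((n : ℝ) + 1) * ε = 1 / 8 := by
    rw [hε]
    field_simp
  have hε1 : ε ≤ 1 := by
    rw [hε, div_le_one (by positivity)]
    nlinarith
  obtain ⟨C4, hC4, hz4⟩ := LongPartAux.fourth_long ε hε0 hε1
  set K : ℝ := 11 * (1 + D) + C4 with hK
  have hK0 : 0 < K := by positivity
  refine ⟨((n : ℝ) + 1) * D * C4 * K ^ n, by positivity, ?_⟩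
  intro U α β G hU hα1 hα2 hβ1 hβ2 hGm hG1 hG2 hG3
  have hU0 : 0 < U := by linarith
  set δ : ℝ := D * U ^ (-(3 / 8) : ℝ) with hδ
  have hδ0 : 0 ≤ δ := by rw [hδ]; positivity
  have hδD : δ ≤ D := by
    rw [hδ]
    have : U ^ (-(3 / 8) : ℝ) ≤ 1 := Real.rpow_le_one_of_one_le_of_nonpos hU (by norm_num)
    nlinarith
  -- pointwise bound
  have hpt : ∀ h ∈ Set.Icc β (fun j => β j + U), ∀ x : ℝ,
      ‖G x * (((∏ j, ‖riemannZeta (1 / 2 + ((x + (h j - α) : ℝ) : ℂ) * I)‖ ^ 2 : ℝ) : ℂ) -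
        ∏ j, Fd (x + (h j - α)))‖ₑ ≤
      ‖G x‖ₑ * (ENNReal.ofReal ((n : ℝ) * δ) * ∏ j, Ph D (x + (h j - α))) := by
    intro h hh x
    rw [enorm_mul]
    by_cases hx : α - U ≤ x ∧ x ≤ α + 4 * U
    · refine mul_le_mul_right ?_ _
      have hy : ∀ j, U ≤ x + (h j - α) := by
        intro j
        have h1 : β j ≤ h j := hh.1 j
        have h2 := hβ1 j
        linarith [hx.1]
      have herr : ∀ j, ‖((‖riemannZeta (1 / 2 + ((x + (h j - α) : ℝ) : ℂ) * I)‖ ^ 2 : ℝ) : ℂ) -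
          Fd (x + (h j - α))‖ ≤ δ := by
        intro j
        refine (hafe _ (hU.trans (hy j))).trans ?_
        rw [hδ]
        refine mul_le_mul hDC ?_ (Real.rpow_nonneg (by linarith [hy j]) _) hD0
        have e1 : (-(1 / 2) + 1 / 8 : ℝ) = -(3 / 8) := by norm_num
        rw [e1]
        exact Real.rpow_le_rpow_of_nonpos hU0 (hy j) (by norm_num)
      have hza : ∀ j, ‖((‖riemannZeta (1 / 2 + ((x + (h j - α) : ℝ) : ℂ) * I)‖ ^ 2 : ℝ) : ℂ)‖ ≤
          ‖riemannZeta (1 / 2 + ((x + (h j - α) : ℝ) : ℂ) * I)‖ ^ 2 + D := by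
        intro j
        rw [Complex.norm_real, Real.norm_of_nonneg (by positivity)]
        linarith
      have hzb : ∀ j, ‖Fd (x + (h j - α))‖ ≤
          ‖riemannZeta (1 / 2 + ((x + (h j - α) : ℝ) : ℂ) * I)‖ ^ 2 + D := by
        intro j
        have h1 := herr j
        have h2 : ‖Fd (x + (h j - α))‖ ≤
            ‖((‖riemannZeta (1 / 2 + ((x + (h j - α) : ℝ) : ℂ) * I)‖ ^ 2 : ℝ) : ℂ)‖ +
            ‖((‖riemannZeta (1 / 2 + ((x + (h j - α) : ℝ) : ℂ) * I)‖ ^ 2 : ℝ) : ℂ) -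
              Fd (x + (h j - α))‖ := by
          have h3 := norm_sub_le (((‖riemannZeta (1 / 2 + ((x + (h j - α) : ℝ) : ℂ) * I)‖ ^ 2 : ℝ) : ℂ))
            (((‖riemannZeta (1 / 2 + ((x + (h j - α) : ℝ) : ℂ) * I)‖ ^ 2 : ℝ) : ℂ) - Fd (x + (h j - α)))
          rwa [sub_sub_cancel] at h3
        rw [Complex.norm_real, Real.norm_of_nonneg (by positivity)] at h2
        linarith
      have hprod := prod_diff Finset.univ
        (fun j => ((‖riemannZeta (1 / 2 + ((x + (h j - α) : ℝ) : ℂ) * I)‖ ^ 2 : ℝ) : ℂ))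
        (fun j => Fd (x + (h j - α)))
        (fun j => ‖riemannZeta (1 / 2 + ((x + (h j - α) : ℝ) : ℂ) * I)‖ ^ 2 + D) hδ0
        (fun j _ => by
          have : 0 ≤ ‖riemannZeta (1 / 2 + ((x + (h j - α) : ℝ) : ℂ) * I)‖ ^ 2 := by positivity
          linarith)
        (fun j _ => hza j) (fun j _ => hzb j) (fun j _ => herr j)
      rw [Finset.card_univ, Fintype.card_fin] at hprod
      rw [← ofReal_norm]
      unfold Ph
      have e3 : ∏ j, ENNReal.ofReal (‖riemannZeta (1 / 2 + ((x + (h j - α) : ℝ) : ℂ) * I)‖ ^ 2 + D) =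
          ENNReal.ofReal (∏ j, (‖riemannZeta (1 / 2 + ((x + (h j - α) : ℝ) : ℂ) * I)‖ ^ 2 + D)) :=
        (ENNReal.ofReal_prod_of_nonneg (fun j _ => add_nonneg (by positivity) hD0)).symm
      rw [e3, ← ENNReal.ofReal_mul (mul_nonneg (Nat.cast_nonneg n) hδ0)]
      refine ENNReal.ofReal_le_ofReal ?_
      have e2 : ((∏ j, ‖riemannZeta (1 / 2 + ((x + (h j - α) : ℝ) : ℂ) * I)‖ ^ 2 : ℝ) : ℂ) =
          ∏ j, ((‖riemannZeta (1 / 2 + ((x + (h j - α) : ℝ) : ℂ) * I)‖ ^ 2 : ℝ) : ℂ) :=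
        Complex.ofReal_prod _ _
      rw [e2]
      exact hprod
    · have h0 : G x = 0 := by
        rw [not_and_or, not_le, not_le] at hx
        rcases hx with hx | hx
        · exact hG1 x hx
        · exact hG2 x hx
      rw [h0, enorm_zero, zero_mul]
      exact zero_le
  -- the integral of `G`
  have hGint : ∫⁻ x, ‖G x‖ₑ ≤ ENNReal.ofReal (C4 * U ^ (1 + ε)) := by
    have h1 := LongPartAux.G_lint (G := fun t => G (t + α)) hU (hz4 U hU) hα1 hα2
      (fun t ht => hG1 _ (by linarith)) (fun t ht => hG2 _ (by linarith)) (fun t => hG3 _)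
    rw [lintegral_add_right_eq_self (fun x => ‖G x‖ₑ) α] at h1
    exact h1
  -- the box
  have hbox : Set.Icc β (fun j => β j + U) =
      Set.pi Set.univ (fun i => Set.Icc (β i) (β i + U)) := (Set.pi_univ_Icc _ _).symm
  have hvol : (volume : Measure (Fin n → ℝ)).restrict (Set.Icc β (fun j => β j + U)) =
      Measure.pi (fun i => volume.restrict (Set.Icc (β i) (β i + U))) := by
    rw [hbox, volume_pi, Measure.restrict_pi_pi]
  have hinner : ∀ x : ℝ, ‖G x‖ₑ * (∫⁻ h in Set.Icc β (fun j => β j + U), ∏ j, Ph D (x + (h j - α))) ≤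
      ‖G x‖ₑ * ENNReal.ofReal (K * U ^ (1 + ε)) ^ n := by
    intro x
    by_cases hx : α - U ≤ x ∧ x ≤ α + 4 * U
    · refine mul_le_mul_right ?_ _
      rw [hvol, lint_pi n _ (fun _ y => Ph D (x + (y - α)))
        (fun i => (Ph_meas D).comp (measurable_const.add (measurable_id.sub_const α)))]
      calc ∏ i : Fin n, ∫⁻ y in Set.Icc (β i) (β i + U), Ph D (x + (y - α)) ≤
          ∏ _i : Fin n, ENNReal.ofReal (K * U ^ (1 + ε)) :=
            Finset.prod_le_prod' fun i _ => Ph_int hD0 hU hε0 (hz4 U hU) hx.1 hx.2 (hβ1 i) (hβ2 i)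
        _ = _ := by rw [Finset.prod_const, Finset.card_univ, Fintype.card_fin]
    · have h0 : G x = 0 := by
        rw [not_and_or, not_le, not_le] at hx
        rcases hx with hx | hx
        · exact hG1 x hx
        · exact hG2 x hx
      rw [h0, enorm_zero, zero_mul, zero_mul]
  have hmeas2 : Measurable (fun z : (Fin n → ℝ) × ℝ =>
      ‖G z.2‖ₑ * (ENNReal.ofReal ((n : ℝ) * δ) * ∏ j, Ph D (z.2 + (z.1 j - α)))) := by
    refine ((hGm.comp measurable_snd).enorm).mul (measurable_const.mul ?_)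
    refine Finset.measurable_prod _ fun j _ => (Ph_meas D).comp ?_
    exact measurable_snd.add (((measurable_pi_apply j).comp measurable_fst).sub measurable_const)
  calc ∫⁻ h in Set.Icc β (fun j => β j + U), ‖∫ x, G x * (((∏ j, ‖riemannZeta (1 / 2 + ((x + (h j - α) : ℝ) : ℂ) * I)‖ ^ 2 : ℝ) : ℂ) -
        ∏ j, Fd (x + (h j - α)))‖ₑ
      ≤ ∫⁻ h in Set.Icc β (fun j => β j + U), ∫⁻ x, ‖G x‖ₑ * (ENNReal.ofReal ((n : ℝ) * δ) *
          ∏ j, Ph D (x + (h j - α))) := by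
        refine setLIntegral_mono' measurableSet_Icc fun h hh => ?_
        exact (enorm_integral_le_lintegral_enorm _).trans (lintegral_mono (hpt h hh))
    _ = ∫⁻ x, ∫⁻ h in Set.Icc β (fun j => β j + U), ‖G x‖ₑ * (ENNReal.ofReal ((n : ℝ) * δ) *
          ∏ j, Ph D (x + (h j - α))) := by
        rw [lintegral_lintegral_swap]
        exact hmeas2.aemeasurable
    _ = ∫⁻ x, ENNReal.ofReal ((n : ℝ) * δ) * (‖G x‖ₑ *
          ∫⁻ h in Set.Icc β (fun j => β j + U), ∏ j, Ph D (x + (h j - α))) := by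
        refine lintegral_congr fun x => ?_
        have hm3 : Measurable (fun h : Fin n → ℝ => ∏ j, Ph D (x + (h j - α))) :=
          Finset.measurable_prod _ fun j _ => (Ph_meas D).comp
            (measurable_const.add ((measurable_pi_apply j).sub measurable_const))
        rw [lintegral_const_mul _ (hm3.const_mul _), lintegral_const_mul _ hm3]
        ring
    _ ≤ ∫⁻ x, ENNReal.ofReal ((n : ℝ) * δ) * (‖G x‖ₑ * ENNReal.ofReal (K * U ^ (1 + ε)) ^ n) :=
        lintegral_mono fun x => mul_le_mul_right (hinner x) _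
    _ = ENNReal.ofReal ((n : ℝ) * δ) * ((∫⁻ x, ‖G x‖ₑ) * ENNReal.ofReal (K * U ^ (1 + ε)) ^ n) := by
        rw [lintegral_const_mul _ (hGm.enorm.mul_const _), lintegral_mul_const _ hGm.enorm]
    _ ≤ ENNReal.ofReal ((n : ℝ) * δ) * (ENNReal.ofReal (C4 * U ^ (1 + ε)) *
          ENNReal.ofReal (K * U ^ (1 + ε)) ^ n) := by gcongr
    _ = ENNReal.ofReal (((n : ℝ) * δ) * ((C4 * U ^ (1 + ε)) * (K * U ^ (1 + ε)) ^ n)) := by
        rw [← ENNReal.ofReal_pow (by positivity), ← ENNReal.ofReal_mul (by positivity),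
          ← ENNReal.ofReal_mul (by positivity)]
    _ ≤ ENNReal.ofReal (((n : ℝ) + 1) * D * C4 * K ^ n * U ^ ((n : ℝ) + 1 - 1 / 4)) := by
        refine ENNReal.ofReal_le_ofReal ?_
        have e3 : U ^ ((n : ℝ) + 1 - 1 / 4) = U ^ (-(3 / 8) : ℝ) * (U ^ (1 + ε) * (U ^ (1 + ε)) ^ n) := by
          rw [← pow_succ', ← Real.rpow_natCast, ← Real.rpow_mul hU0.le, ← Real.rpow_add hU0]
          congr 1
          push_cast
          linarith
        rw [e3, mul_pow, hδ]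
        have e4 : (n : ℝ) * (D * U ^ (-(3 / 8) : ℝ)) * (C4 * U ^ (1 + ε) * (K ^ n * (U ^ (1 + ε)) ^ n)) =
            (n : ℝ) * (D * C4 * K ^ n * (U ^ (-(3 / 8) : ℝ) * (U ^ (1 + ε) * (U ^ (1 + ε)) ^ n))) := by
          ring
        have e5 : ((n : ℝ) + 1) * D * C4 * K ^ n * (U ^ (-(3 / 8) : ℝ) * (U ^ (1 + ε) * (U ^ (1 + ε)) ^ n)) =
            ((n : ℝ) + 1) * (D * C4 * K ^ n * (U ^ (-(3 / 8) : ℝ) * (U ^ (1 + ε) * (U ^ (1 + ε)) ^ n))) := by
          ring
        rw [e4, e5]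
        refine mul_le_mul_of_nonneg_right (by linarith) ?_
        positivity

end Pool.Agent.P07318g
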