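import Pool.Agent.Lib.P07318f.SAvg
import Pool.Agent.Lib.P07318f.MBound

/-!
# Bound of the mean of the six swap terms

`s_avg`, and the lemmas of `MBoundAux` (P07318f/MBound.lean), which are stated for an abstract `H`.
-/

set_option autoImplicit false

namespace Pool.Agent.P07318g

open MeasureTheory Complex Pool.Agent.P07318s Pool.Agent.P07318f

namespace AvBAux

open MBoundAux

lemma integrand_eq (H : (Fin 4 → ℂ) → ℂ) (x : ℝ) (z : Fin 4 → ℂ) :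
    RR H ![z 0, z 1, -z 2, -z 3] * X2 x ((z 0 + z 1 - z 2 - z 3) / 2) * vdm z ^ 2 / ∏ i, z i ^ 4 =
      Phi H x z := by
  unfold Phi
  congr 1
  have hv : vdm z = (z 1 - z 0) * (z 3 - z 2) * Pi4 ![z 0, z 1, -z 2, -z 3] := by
    unfold vdm Pi4
    simp only [Matrix.cons_val_zero, Matrix.cons_val_one, Matrix.cons_val]
    ring
  by_cases h : Pi4 ![z 0, z 1, -z 2, -z 3] = 0
  · have hv0 : vdm z = 0 := by rw [hv, h, mul_zero]
    rw [hv0]
    ring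
  · unfold RR
    have h2 : H ![z 0, z 1, -z 2, -z 3] / Pi4 ![z 0, z 1, -z 2, -z 3] * vdm z =
        H ![z 0, z 1, -z 2, -z 3] * ((z 1 - z 0) * (z 3 - z 2)) := by
      rw [hv]
      field_simp
    calc H ![z 0, z 1, -z 2, -z 3] / Pi4 ![z 0, z 1, -z 2, -z 3] *
          X2 x ((z 0 + z 1 - z 2 - z 3) / 2) * vdm z ^ 2 =
        (H ![z 0, z 1, -z 2, -z 3] / Pi4 ![z 0, z 1, -z 2, -z 3] * vdm z) *
          (X2 x ((z 0 + z 1 - z 2 - z 3) / 2) * vdm z) := by ring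
      _ = _ := by
        rw [h2]
        ring

end AvBAux

open MBoundAux AvBAux in
theorem av_bound (κ : ℝ) (hκ : 0 < κ) (hκ1 : κ ≤ 1 / 16) : ∃ C : ℝ, 0 < C ∧ ∀ (x L B : ℝ) (H : (Fin 4 → ℂ) → ℂ), 1 ≤ x →
    1 / 2 ≤ L → Hol4 L B H → Sym4 H → ‖av (fun s => Six H x s)‖ ≤ C * B * x ^ (2 * κ) := by
  obtain ⟨k, hk⟩ : ∃ k, k = min κ (1 / 1000) := ⟨_, rfl⟩
  have hk0 : 0 < k := by rw [hk]; exact lt_min hκ (by norm_num)
  have hk1 : k ≤ 1 / 1000 := by rw [hk]; exact min_le_right _ _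
  have hkκ : k ≤ κ := by rw [hk]; exact min_le_left _ _
  refine ⟨‖(4 * (2 * Real.pi * I) ^ 4 : ℂ)⁻¹‖ * ((2 * Real.pi) ^ 4 * k ^ 4 * (16 / k ^ 16)) + 1, by positivity, ?_⟩
  intro x L B H hx hL hH hS
  have hx0 : 0 < x := by linarith
  have hB0 : 0 ≤ B := by
    refine (norm_nonneg (H 0)).trans (hH.bound 0 ?_)
    intro i
    simp
    linarith
  rw [s_avg x L B H hx0 hL hH hS]
  have e1 : (∯ z in T((0 : Fin 4 → ℂ), fun _ => 1 / 16), RR H ![z 0, z 1, -z 2, -z 3] *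
      X2 x ((z 0 + z 1 - z 2 - z 3) / 2) * vdm z ^ 2 / ∏ i, z i ^ 4) =
      ∯ z in T((0 : Fin 4 → ℂ), fun _ => 1 / 16), Phi H x z := by
    congr 1
    funext z
    exact integrand_eq H x z
  rw [e1, phi_all hH hL hx0 hk0 (by linarith), norm_mul]
  have h1 : ‖∯ z in T((0 : Fin 4 → ℂ), fun _ => k), Phi H x z‖ ≤
      ((2 * Real.pi) ^ 4 * ∏ _i : Fin 4, |k|) * (B * (16 * x) ^ (2 * k) / k ^ 16) := by
    refine norm_torusIntegral_le_of_norm_le_const fun θ => ?_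
    refine phi_bound hH hL hx le_rfl (by linarith) hk0 hk1 _ fun j => ?_
    exact torusMap_norm (fun _ => k) (fun _ => hk0) θ j
  have h2 : (16 * x) ^ (2 * k) ≤ 16 * x ^ (2 * κ) := by
    rw [Real.mul_rpow (by norm_num) hx0.le]
    refine mul_le_mul ?_ (Real.rpow_le_rpow_of_exponent_le hx (by linarith)) (by positivity) (by norm_num)
    calc (16 : ℝ) ^ (2 * k) ≤ 16 ^ (1 : ℝ) := Real.rpow_le_rpow_of_exponent_le (by norm_num) (by linarith)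
      _ = 16 := Real.rpow_one _
  have h3 : ((2 * Real.pi) ^ 4 * ∏ _i : Fin 4, |k|) * (B * (16 * x) ^ (2 * k) / k ^ 16) ≤
      ((2 * Real.pi) ^ 4 * k ^ 4 * (16 / k ^ 16)) * (B * x ^ (2 * κ)) := by
    rw [abs_of_pos hk0, Finset.prod_const, Finset.card_univ, Fintype.card_fin]
    calc ((2 * Real.pi) ^ 4 * k ^ 4) * (B * (16 * x) ^ (2 * k) / k ^ 16) ≤
        ((2 * Real.pi) ^ 4 * k ^ 4) * (B * (16 * x ^ (2 * κ)) / k ^ 16) := by gcongr
      _ = _ := by ring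
  have h4 : 0 ≤ B * x ^ (2 * κ) := by positivity
  calc ‖(4 * (2 * Real.pi * I) ^ 4 : ℂ)⁻¹‖ * ‖∯ z in T((0 : Fin 4 → ℂ), fun _ => k), Phi H x z‖ ≤
      ‖(4 * (2 * Real.pi * I) ^ 4 : ℂ)⁻¹‖ * (((2 * Real.pi) ^ 4 * k ^ 4 * (16 / k ^ 16)) * (B * x ^ (2 * κ))) :=
        mul_le_mul_of_nonneg_left (h1.trans h3) (norm_nonneg _)
    _ ≤ _ := by
        rw [mul_assoc (_ + 1) B, add_mul, one_mul]
        linarith [h4]

end Pool.Agent.P07318g
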