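import Pool.Agent.Lib.P07318g.DefsB
import Pool.Agent.Lib.P07318s.Final
import Pool.Agent.Lib.P07318s.ZetaGood

/-!
# The bad heights

PROOF. `bad_n`: `h` is not good iff `¬ Good κ .. (h j - α)` for some `j` or `¬ Good κ .. (h i - h j)` for some `i ≠ j`: these are the pairs `(j.succ, 0)`, `(i.succ, j.succ)` of `Fin.cons α h` (`Fin.cons_zero`, `Fin.cons_succ`). For each
pair `FinalAux.pair_bound` (P07318s/Final.lean) with `H = T`, `α₀ = α`, and `zeta_good κ` (P07318s/ZetaGood.lean, `U := T`, `H := T`, `T^(1/2) ≤ T`): measure `≤ C T^n T^(-κ')`, and there are at most `(n+1)²` pairs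
(`measure_biUnion_finset_le`; see the end of P07318s/Final.lean).
`good_half`: `(T/2)^κ ≤ T^κ ≤ 2 (T/2)^κ` (`κ ≤ 1`): `Final6Aux.good_half` in P07318f/Final6.lean for `Good` (copy it).
`good_shift`: the differences of `(x, x + (h - α))` are those of `(α, h)`.
-/

set_option autoImplicit false

namespace Pool.Agent.P07318g

open MeasureTheory Complex Pool.Agent.P07318s Pool.Agent.P07318f

namespace BadNAux

theorem good_half1 {κ T B δ : ℝ} (hκ : 0 ≤ κ) (hκ1 : κ ≤ 1) (hT : 0 < T) (hB : 0 ≤ B)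
    (h : Good κ (T ^ κ) (B * T ^ κ) δ) :
    Good κ ((T / 2) ^ κ) (2 * B * (T / 2) ^ κ) δ := by
  have h1 : (T / 2) ^ κ ≤ T ^ κ := Real.rpow_le_rpow (by linarith) (by linarith) hκ
  have h2 : T ^ κ ≤ 2 * (T / 2) ^ κ := by
    have e : T = 2 * (T / 2) := by ring
    conv_lhs => rw [e]
    rw [Real.mul_rpow (by norm_num) (by linarith)]
    refine mul_le_mul_of_nonneg_right ?_ (Real.rpow_nonneg (by linarith) _)
    calc (2 : ℝ) ^ κ ≤ 2 ^ (1 : ℝ) := Real.rpow_le_rpow_of_exponent_le (by norm_num) hκ1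
      _ = 2 := Real.rpow_one 2
  refine ⟨by linarith [h.1], fun σ v h3 h4 h5 => ?_⟩
  refine (h.2 σ v h3 h4 (h5.trans (by linarith))).trans ?_
  calc B * T ^ κ ≤ B * (2 * (T / 2) ^ κ) := mul_le_mul_of_nonneg_left h2 hB
    _ = 2 * B * (T / 2) ^ κ := by ring

end BadNAux

open BadNAux

theorem bad_n (n : ℕ) (κ : ℝ) (hκ : 0 < κ) (hκ2 : κ ≤ 1 / 4) : ∃ B C κ' : ℝ, 0 < B ∧ 0 < C ∧ 0 < κ' ∧ ∀ (T α : ℝ)
    (β : Fin n → ℝ), 1 ≤ T → T ≤ α → α ≤ 2 * T → (∀ j, T ≤ β j) → (∀ j, β j ≤ 2 * T) →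
    volume {h ∈ Set.Icc β (fun j => β j + T) | ¬ GoodN κ (T ^ κ) (B * T ^ κ) α h} ≤
      ENNReal.ofReal (C * T ^ ((n : ℝ) - κ')) := by
  obtain ⟨B, C1, κ', hB, hC1, hκ', hZG⟩ := zeta_good κ hκ hκ2
  refine ⟨B, ((n : ℝ) + 1) ^ 2 * C1, κ', hB, by positivity, hκ', ?_⟩
  intro T α β hT h0 h0' hβ hβ'
  have hT0 : 0 < T := by linarith
  have hTH : T ^ (1 / 2 : ℝ) ≤ T := by
    calc T ^ (1 / 2 : ℝ) ≤ T ^ (1 : ℝ) := Real.rpow_le_rpow_of_exponent_le hT (by norm_num)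
      _ = T := Real.rpow_one T
  set P : Finset (Fin (n + 1) × Fin (n + 1)) := Finset.univ.filter (fun q => q.1 ≠ q.2) with hP
  set Sb : Fin (n + 1) × Fin (n + 1) → Set (Fin n → ℝ) := fun q =>
    {h ∈ Set.Icc β (fun j => β j + T) |
      ¬ Good κ (T ^ κ) (B * T ^ κ) ((Fin.cons α h : Fin (n + 1) → ℝ) q.1 -
        (Fin.cons α h : Fin (n + 1) → ℝ) q.2)} with hSb
  have hsub : {h ∈ Set.Icc β (fun j => β j + T) | ¬ GoodN κ (T ^ κ) (B * T ^ κ) α h} ⊆
      ⋃ q ∈ P, Sb q := by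
    rintro h ⟨hh, hh'⟩
    by_contra hcon
    apply hh'
    have hgood : ∀ i j, i ≠ j → Good κ (T ^ κ) (B * T ^ κ)
        ((Fin.cons α h : Fin (n + 1) → ℝ) i - (Fin.cons α h : Fin (n + 1) → ℝ) j) := by
      intro i j hij
      by_contra hg
      apply hcon
      rw [Set.mem_iUnion₂]
      exact ⟨(i, j), Finset.mem_filter.2 ⟨Finset.mem_univ _, hij⟩, hh, hg⟩
    refine ⟨fun j => ?_, fun i j hij => ?_⟩
    · have := hgood j.succ 0 (Fin.succ_ne_zero j)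
      rwa [Fin.cons_succ, Fin.cons_zero] at this
    · have := hgood i.succ j.succ (fun h => hij (Fin.succ_injective _ h))
      rwa [Fin.cons_succ, Fin.cons_succ] at this
  have hfin2 : ∀ q ∈ P, volume (Sb q) ≤ ENNReal.ofReal (C1 * T ^ n * T ^ (-κ')) := by
    intro q hq
    have hne := (Finset.mem_filter.1 hq).2
    exact FinalAux.pair_bound (κ' := κ') hT hT0.le le_rfl hC1.le (fun a ha ha' =>
      hZG T a T hT hTH ha ha') h0 h0' hβ hβ' q.1 q.2 hne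
  have hPcard : (P.card : ℝ) ≤ ((n : ℝ) + 1) ^ 2 := by
    have h1 : P.card ≤ (n + 1) * (n + 1) := by
      refine (Finset.card_filter_le _ _).trans ?_
      simp
    have h2 : (P.card : ℝ) ≤ ((n + 1) * (n + 1) : ℕ) := by exact_mod_cast h1
    push_cast at h2
    linarith [h2]
  calc volume {h ∈ Set.Icc β (fun j => β j + T) | ¬ GoodN κ (T ^ κ) (B * T ^ κ) α h}
      ≤ volume (⋃ q ∈ P, Sb q) := measure_mono hsub
    _ ≤ ∑ q ∈ P, volume (Sb q) := measure_biUnion_finset_le _ _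
    _ ≤ ∑ q ∈ P, ENNReal.ofReal (C1 * T ^ n * T ^ (-κ')) := Finset.sum_le_sum hfin2
    _ = ENNReal.ofReal (P.card * (C1 * T ^ n * T ^ (-κ'))) := by
        rw [Finset.sum_const, nsmul_eq_mul, 
          ENNReal.ofReal_mul (by positivity : (0 : ℝ) ≤ (P.card : ℝ)), ENNReal.ofReal_natCast]
    _ ≤ _ := by
        apply ENNReal.ofReal_le_ofReal
        have h1 : (P.card : ℝ) * (C1 * T ^ n * T ^ (-κ')) ≤
            ((n : ℝ) + 1) ^ 2 * (C1 * T ^ n * T ^ (-κ')) :=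
          mul_le_mul_of_nonneg_right hPcard (by positivity)
        refine h1.trans (le_of_eq ?_)
        rw [sub_eq_add_neg, Real.rpow_add hT0, Real.rpow_natCast]
        ring

theorem good_half {n : ℕ} {κ B T α : ℝ} {h : Fin n → ℝ} (hκ : 0 ≤ κ) (hκ1 : κ ≤ 1) (hT : 0 < T) (hB : 0 ≤ B)
    (hg : GoodN κ (T ^ κ) (B * T ^ κ) α h) : GoodN κ ((T / 2) ^ κ) (2 * B * (T / 2) ^ κ) α h :=
  ⟨fun j => good_half1 hκ hκ1 hT hB (hg.1 j), fun i j hij => good_half1 hκ hκ1 hT hB (hg.2 i j hij)⟩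

theorem good_shift {n : ℕ} {κ Y B x α : ℝ} {h : Fin n → ℝ} (hg : GoodN κ Y B α h) :
    GoodN κ Y B x fun j => x + (h j - α) := by
  refine ⟨fun j => ?_, fun i j hij => ?_⟩
  · have e : x + (h j - α) - x = h j - α := by ring
    rw [e]
    exact hg.1 j
  · have e : x + (h i - α) - (x + (h j - α)) = h i - h j := by ring
    rw [e]
    exact hg.2 i j hij

end Pool.Agent.P07318g
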