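import Pool.Agent.Lib.P07318g.SmoothN

/-!
# Chebyshev's inequality

PROOF. (1) `cheb_box`: for a box of side `U`. `h ↦ En Ω α h` is a.e. measurable on the good set: `En` is the integral over `x` of `GI (h, x)` = the integrand cut off to the open set
`{(h, x) | 0 < x, 0 < x + (h j - α), 1 < |h j - α|, 1 < |h i - h j|}`, which is measurable (`mn_cont`; see `Final6Aux.GI`, `measurable_GI`, `measurable_ind`, `cheb` in P07318f/Final6.lean, `n = 1`), and for good `h` (differences `> 4 U^κ ≥ 4`) the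
cut-off changes nothing. Then `mul_meas_ge_le_lintegral₀` / `meas_ge_le_lintegral_div` on the restricted measure: measure `≤ C U^(n+1-c) / l`.
(2) the box `[β, β + 2U]` is covered by the `2^n` boxes `[γ, γ + U]`, `γ j ∈ {β j, β j + U}` (`γ = fun j => if e j then β j + U else β j`, `e : Fin n → Bool`), `measure_iUnion_fintype_le`.
-/

set_option autoImplicit false

namespace Pool.Agent.P07318g

open MeasureTheory Complex Pool.Agent.P07318s Pool.Agent.P07318f

namespace ChebNAux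

theorem zhc : Continuous (fun x : ℝ => riemannZeta (1 / 2 + x * I)) := by
  rw [continuous_iff_continuousAt]
  intro x
  have h1 : ((1:ℂ) / 2 + x * I) ≠ 1 := by
    intro h
    have := congrArg Complex.re h
    simp at this
  exact ContinuousAt.comp (g := riemannZeta) (f := fun x : ℝ => (1:ℂ) / 2 + x * I)
    (differentiableAt_riemannZeta h1).continuousAt (by fun_prop)

theorem gf_cont2 {n : ℕ} {X : Type*} [TopologicalSpace X] {u : X → ℝ} {v : X → Fin n → ℝ}
    (hu : Continuous u) (hv : ∀ j, Continuous fun p => v p j) :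
    Continuous (fun p => gf (u p) (v p)) := by
  unfold gf
  have h1 : Continuous (fun p => ‖riemannZeta (1 / 2 + (u p : ℝ) * I)‖ ^ 4) :=
    (zhc.comp hu).norm.pow 4
  have h2 : Continuous (fun p => ∏ j, ‖riemannZeta (1 / 2 + (v p j : ℝ) * I)‖ ^ 2) := by
    refine continuous_finsetProd _ fun j _ => ?_
    exact (zhc.comp (hv j)).norm.pow 2
  exact h1.mul h2

/-- the region of continuity -/
def PPn {n : ℕ} (α : ℝ) : Set ((Fin n → ℝ) × ℝ) :=
  {p | 0 < p.2 ∧ (∀ j, 0 < p.2 + (p.1 j - α)) ∧ (∀ j, 1 < |p.1 j - α|) ∧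
    ∀ i j, i ≠ j → 1 < |p.1 i - p.1 j|}

/-- the integrand as a function of all the variables -/
noncomputable def Fn {n : ℕ} (Ω : ℝ → ℂ) (α : ℝ) (p : (Fin n → ℝ) × ℝ) : ℂ :=
  Ω p.2 * ((gf p.2 (fun j => p.2 + (p.1 j - α)) : ℂ) - Mn p.2 fun j => p.2 + (p.1 j - α))

/-- the integrand, cut off -/
noncomputable def GIn {n : ℕ} (Ω : ℝ → ℂ) (α : ℝ) : (Fin n → ℝ) × ℝ → ℂ :=
  (PPn α).indicator (Fn Ω α)

theorem measurableSet_PPn {n : ℕ} (α : ℝ) : MeasurableSet (PPn (n := n) α) := by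
  have a1 : IsOpen {p : (Fin n → ℝ) × ℝ | 0 < p.2} := isOpen_lt continuous_const continuous_snd
  have a2 : IsOpen {p : (Fin n → ℝ) × ℝ | ∀ j, 0 < p.2 + (p.1 j - α)} := by
    simp only [Set.setOf_forall]
    exact isOpen_iInter_of_finite fun j => isOpen_lt continuous_const (by fun_prop)
  have a3 : IsOpen {p : (Fin n → ℝ) × ℝ | ∀ j, 1 < |p.1 j - α|} := by
    simp only [Set.setOf_forall]
    exact isOpen_iInter_of_finite fun j => isOpen_lt continuous_const (by fun_prop)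
  have a4 : IsOpen {p : (Fin n → ℝ) × ℝ | ∀ i j, i ≠ j → 1 < |p.1 i - p.1 j|} := by
    simp only [Set.setOf_forall]
    refine isOpen_iInter_of_finite fun i => isOpen_iInter_of_finite fun j => ?_
    by_cases hij : i = j
    · subst hij
      simp
    · simp only [ne_eq, hij, not_false_eq_true, Set.iInter_true]
      exact isOpen_lt continuous_const (by fun_prop)
  exact (a1.inter (a2.inter (a3.inter a4))).measurableSet

theorem cont_Fn {n : ℕ} (Ω : ℝ → ℂ) (hΩ : Continuous Ω) (α : ℝ) :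
    ContinuousOn (Fn Ω α) (PPn (n := n) α) := by
  have hmap : Continuous (fun p : (Fin n → ℝ) × ℝ =>
      ((p.2, fun j => p.2 + (p.1 j - α)) : ℝ × (Fin n → ℝ))) := by fun_prop
  have hmaps : Set.MapsTo (fun p : (Fin n → ℝ) × ℝ =>
      ((p.2, fun j => p.2 + (p.1 j - α)) : ℝ × (Fin n → ℝ))) (PPn α)
      {p | 0 < p.1 ∧ (∀ j, 0 < p.2 j) ∧ (∀ j, 1 < |p.2 j - p.1|) ∧
        ∀ i j, i ≠ j → 1 < |p.2 i - p.2 j|} := by
    rintro p ⟨h1, h2, h3, h4⟩
    refine ⟨h1, h2, fun j => ?_, fun i j hij => ?_⟩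
    · have e : p.2 + (p.1 j - α) - p.2 = p.1 j - α := by ring
      change 1 < |p.2 + (p.1 j - α) - p.2|
      rw [e]
      exact h3 j
    · have e : p.2 + (p.1 i - α) - (p.2 + (p.1 j - α)) = p.1 i - p.1 j := by ring
      change 1 < |p.2 + (p.1 i - α) - (p.2 + (p.1 j - α))|
      rw [e]
      exact h4 i j hij
  have hc1 : ContinuousOn (fun p : (Fin n → ℝ) × ℝ => Mn p.2 fun j => p.2 + (p.1 j - α)) (PPn α) :=
    ContinuousOn.comp (g := fun p : ℝ × (Fin n → ℝ) => Mn p.1 p.2)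
      (f := fun p : (Fin n → ℝ) × ℝ => ((p.2, fun j => p.2 + (p.1 j - α)) : ℝ × (Fin n → ℝ)))
      (mn_cont n) hmap.continuousOn hmaps
  have hc0 : Continuous (fun p : (Fin n → ℝ) × ℝ => gf p.2 (fun j => p.2 + (p.1 j - α))) :=
    gf_cont2 (by fun_prop) (fun j => by fun_prop)
  have hc2 : Continuous (fun p : (Fin n → ℝ) × ℝ => ((gf p.2 (fun j => p.2 + (p.1 j - α)) : ℝ) : ℂ)) :=
    continuous_ofReal.comp hc0
  have hc3 : Continuous (fun p : (Fin n → ℝ) × ℝ => Ω p.2) := hΩ.comp continuous_snd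
  exact hc3.continuousOn.mul (hc2.continuousOn.sub hc1)

theorem measurable_GIn {n : ℕ} (Ω : ℝ → ℂ) (hΩ : Continuous Ω) (α : ℝ) :
    Measurable (GIn (n := n) Ω α) := by
  classical
  unfold GIn
  rw [← Set.piecewise_eq_indicator]
  exact (cont_Fn Ω hΩ α).measurable_piecewise continuousOn_const (measurableSet_PPn α)

theorem measurable_ind {n : ℕ} (Ω : ℝ → ℂ) (hΩ : Continuous Ω) (α : ℝ) :
    Measurable (fun h : Fin n → ℝ => ∫ x, GIn Ω α (h, x)) :=
  ((measurable_GIn Ω hΩ α).stronglyMeasurable.integral_prod_right').measurable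

/-- Chebyshev on a good set -/
theorem cheb_set {n : ℕ} {G : Set (Fin n → ℝ)} (hG : MeasurableSet G) {Ω : ℝ → ℂ}
    (hΩ : Continuous Ω) {α : ℝ}
    (hGW : ∀ h ∈ G, (∀ j, 1 < |h j - α|) ∧ (∀ i j, i ≠ j → 1 < |h i - h j|) ∧
      ∀ x, Ω x ≠ 0 → 0 < x ∧ ∀ j, 0 < x + (h j - α))
    {R l : ℝ} (hl : 0 < l)
    (hR : ∫⁻ h in G, ‖En Ω α h‖ₑ ≤ ENNReal.ofReal R) :
    volume {h ∈ G | l < ‖En Ω α h‖} ≤ ENNReal.ofReal (R / l) := by
  have hEq : ∀ h ∈ G, En Ω α h = ∫ x, GIn Ω α (h, x) := by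
    intro h hh
    unfold En
    refine integral_congr_ae (Filter.Eventually.of_forall fun x => ?_)
    obtain ⟨h1, h2, h3⟩ := hGW h hh
    change Ω x * ((gf x (fun j => x + (h j - α)) : ℂ) - Mn x fun j => x + (h j - α)) =
      (PPn α).indicator (Fn Ω α) (h, x)
    by_cases hx : Ω x = 0
    · have e1 : Fn Ω α (h, x) = 0 := by
        change Ω x * _ = 0
        rw [hx, zero_mul]
      rw [hx, zero_mul]
      by_cases hp : ((h, x) : (Fin n → ℝ) × ℝ) ∈ PPn α
      · rw [Set.indicator_of_mem hp, e1]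
      · rw [Set.indicator_of_notMem hp]
    · obtain ⟨h4, h5⟩ := h3 x hx
      have hp : ((h, x) : (Fin n → ℝ) × ℝ) ∈ PPn α := ⟨h4, h5, h1, h2⟩
      rw [Set.indicator_of_mem hp]
      rfl
  have hmeas : AEMeasurable (fun h => ‖En Ω α h‖ₑ) (volume.restrict G) := by
    refine AEMeasurable.congr (measurable_ind Ω hΩ α).enorm.aemeasurable ?_
    refine (ae_restrict_iff' hG).2 (Filter.Eventually.of_forall fun h hh => ?_)
    simp only
    rw [hEq h hh]
  have hl0 : ENNReal.ofReal l ≠ 0 := by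
    rw [Ne, ENNReal.ofReal_eq_zero, not_le]
    exact hl
  have h1 := meas_ge_le_lintegral_div hmeas hl0 ENNReal.ofReal_ne_top
  rw [Measure.restrict_apply' hG] at h1
  calc volume {h ∈ G | l < ‖En Ω α h‖} ≤
      volume ({h | ENNReal.ofReal l ≤ ‖En Ω α h‖ₑ} ∩ G) := by
        refine measure_mono ?_
        rintro h ⟨hh, hh'⟩
        refine ⟨?_, hh⟩
        change ENNReal.ofReal l ≤ ‖En Ω α h‖ₑ
        rw [← ofReal_norm_eq_enorm]
        exact ENNReal.ofReal_le_ofReal hh'.le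
    _ ≤ (∫⁻ h in G, ‖En Ω α h‖ₑ) / ENNReal.ofReal l := h1
    _ ≤ ENNReal.ofReal R / ENNReal.ofReal l := ENNReal.div_le_div_right hR _
    _ = ENNReal.ofReal (R / l) := (ENNReal.ofReal_div_of_pos hl).symm

end ChebNAux

open ChebNAux

theorem cheb_n (n : ℕ) (B : ℝ) : ∃ c C : ℝ, 0 < c ∧ 0 < C ∧ ∀ (U Δ α l : ℝ) (β : Fin n → ℝ) (Ω : ℝ → ℂ), 1 ≤ U →
    U ^ (1 - 1 / 1000 : ℝ) ≤ Δ → Δ ≤ U → 2 * U ≤ α → α ≤ 6 * U → (∀ j, 2 * U ≤ β j) → (∀ j, β j ≤ 5 * U) → Adm U Δ Ω →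
    (∀ x, Ω x ≠ 0 → U ≤ x ∧ α - U ≤ x ∧ x ≤ α + 4 * U) → 0 < l →
    volume {h ∈ Set.Icc β (fun j => β j + 2 * U) | GoodN (kp n) (U ^ kp n) (B * U ^ kp n) α h ∧ l < ‖En Ω α h‖} ≤
      ENNReal.ofReal (C * U ^ ((n : ℝ) + 1 - c) / l) := by
  obtain ⟨c, C, hc, hC, hs⟩ := smooth_n n B
  refine ⟨c, 2 ^ n * C, hc, by positivity, ?_⟩
  intro U Δ α l β Ω hU hΔ1 hΔ2 hα1 hα2 hβ1 hβ2 hAdm hΩ hl
  have hU0 : 0 < U := by linarith
  set κ := kp n with hκ
  have hκ0 : 0 < κ := kp_pos n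
  have hUκ : 1 ≤ U ^ κ := Real.one_le_rpow hU hκ0.le
  have hΩc : Continuous Ω := hAdm.1.continuous
  -- one box of side `U`
  have hbox : ∀ γ : Fin n → ℝ, (∀ j, 2 * U ≤ γ j) → (∀ j, γ j ≤ 6 * U) →
      volume {h ∈ {h ∈ Set.Icc γ (fun j => γ j + U) | GoodN κ (U ^ κ) (B * U ^ κ) α h} | l < ‖En Ω α h‖} ≤
      ENNReal.ofReal (C * U ^ ((n : ℝ) + 1 - c) / l) := by
    intro γ hγ1 hγ2
    refine cheb_set (measurableSet_Icc.inter (good_meas κ (U ^ κ) (B * U ^ κ) α)) hΩc ?_ hl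
      (hs U Δ α γ Ω hU hΔ1 hΔ2 hα1 hα2 hγ1 hγ2 hAdm hΩ)
    rintro h ⟨hh1, hh2⟩
    refine ⟨fun j => ?_, fun i j hij => ?_, fun x hx => ⟨?_, fun j => ?_⟩⟩
    · have := (hh2.1 j).1
      linarith
    · have := (hh2.2 i j hij).1
      linarith
    · have := (hΩ x hx).1
      linarith
    · have h1 := (hΩ x hx).2.1
      have h2 := hh1.1 j
      have h3 := hγ1 j
      linarith
  -- covering
  set γ : (Fin n → Bool) → Fin n → ℝ := fun e j => if e j then β j + U else β j with hγ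
  have hsub : {h ∈ Set.Icc β (fun j => β j + 2 * U) | GoodN κ (U ^ κ) (B * U ^ κ) α h ∧ l < ‖En Ω α h‖} ⊆
      ⋃ e : Fin n → Bool, {h ∈ {h ∈ Set.Icc (γ e) (fun j => γ e j + U) |
        GoodN κ (U ^ κ) (B * U ^ κ) α h} | l < ‖En Ω α h‖} := by
    rintro h ⟨hh, hh1, hh2⟩
    rw [Set.mem_iUnion]
    refine ⟨fun j => decide (β j + U ≤ h j), ⟨⟨fun j => ?_, fun j => ?_⟩, hh1⟩, hh2⟩
    · simp only [hγ]
      split_ifs with hd
      · exact of_decide_eq_true hd
      · exact hh.1 j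
    · simp only [hγ]
      split_ifs with hd
      · have := hh.2 j
        simp only at this
        linarith
      · have : ¬ (β j + U ≤ h j) := fun h' => hd (decide_eq_true h')
        linarith
  calc volume {h ∈ Set.Icc β (fun j => β j + 2 * U) | GoodN κ (U ^ κ) (B * U ^ κ) α h ∧ l < ‖En Ω α h‖}
      ≤ volume (⋃ e : Fin n → Bool, {h ∈ {h ∈ Set.Icc (γ e) (fun j => γ e j + U) |
        GoodN κ (U ^ κ) (B * U ^ κ) α h} | l < ‖En Ω α h‖}) := measure_mono hsub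
    _ ≤ ∑ e : Fin n → Bool, volume {h ∈ {h ∈ Set.Icc (γ e) (fun j => γ e j + U) |
        GoodN κ (U ^ κ) (B * U ^ κ) α h} | l < ‖En Ω α h‖} := measure_iUnion_fintype_le _ _
    _ ≤ ∑ _e : Fin n → Bool, ENNReal.ofReal (C * U ^ ((n : ℝ) + 1 - c) / l) := by
        refine Finset.sum_le_sum fun e _ => hbox (γ e) (fun j => ?_) (fun j => ?_)
        · simp only [hγ]
          split_ifs
          · linarith [hβ1 j]
          · exact hβ1 j
        · simp only [hγ]
          split_ifs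
          · linarith [hβ2 j]
          · linarith [hβ2 j]
    _ = ENNReal.ofReal (2 ^ n * C * U ^ ((n : ℝ) + 1 - c) / l) := by
        rw [Finset.sum_const, Finset.card_univ, Fintype.card_fun, Fintype.card_bool, Fintype.card_fin,
          nsmul_eq_mul]
        have e1 : ((2 ^ n : ℕ) : ENNReal) = ENNReal.ofReal (2 ^ n) := by
          rw [← ENNReal.ofReal_natCast]
          congr 1
          push_cast
          rfl
        rw [e1, ← ENNReal.ofReal_mul (by positivity)]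
        congr 1
        ring

end Pool.Agent.P07318g
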