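import Pool.Agent.Lib.P07318f.DefsC
import Pool.Agent.Lib.P07318f.LongPart
import Pool.Agent.Lib.P07318f.SumMI
import Pool.Agent.Lib.P07318s.Regroup
import Pool.Agent.Lib.P07318s.Tele

/-!
The moments of the Riemann zeta function with a genuine fourth power and `n` free shifts: definitions.
-/

set_option autoImplicit false

namespace Pool.Agent.P07318g

open MeasureTheory Complex Pool.Agent.P07318s Pool.Agent.P07318f

/-! ### tuples of reduced fractions -/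

/-- product of the numerators -/
def nu {n : ℕ} (q : Fin n → Q) : ℕ+ := ∏ j, (q j).1.1

/-- product of the denominators -/
def de {n : ℕ} (q : Fin n → Q) : ℕ+ := ∏ j, (q j).1.2

/-- the product, as a reduced fraction -/
noncomputable def rp {n : ℕ} (q : Fin n → Q) : Q := (Regroup.ge.symm (nu q, de q)).1

open Classical in
/-- `1` if one of the fractions has height `> Y`, otherwise `0` -/
noncomputable def tl {n : ℕ} (Y : ℝ) (q : Fin n → Q) : ℝ := if ∃ j, Y < hgt (q j).1 then 1 else 0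

/-- the coefficients -/
noncomputable def wn {n : ℕ} (y τ : Fin n → ℝ) (q : Fin n → Q) : ℂ :=
  ∏ j, ((((hgt (q j).1) ^ (-(1 / 2) : ℝ) * Om (hgt (q j).1) (y j) : ℝ) : ℂ) * ex (τ j) (q j).1)

/-- the weights of the dual sums -/
noncomputable def kn {n : ℕ} (δ U : ℝ) (q : Fin n → Q) : ℝ := ∏ j, (kap δ U (hgt (q j).1) * (hgt (q j).1)⁻¹)

/-- the weights `1 / (1 + k ^ 2)` -/
noncomputable def pk (k : ℤ) : ℝ := 1 / (1 + (k : ℝ) ^ 2)

/-- the character `e(k x / 32 U)` -/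
noncomputable def ek (U : ℝ) (k : ℤ) (x : ℝ) : ℂ := cexp (((2 * Real.pi * k * x / (32 * U) : ℝ) : ℂ) * I)

/-- good heights: all differences are good -/
def GoodN {n : ℕ} (κ Y B x : ℝ) (y : Fin n → ℝ) : Prop :=
  (∀ j, Good κ Y B (y j - x)) ∧ ∀ i j, i ≠ j → Good κ Y B (y i - y j)

/-! ### general coefficients -/

/-- `ζ(1+u₁+u₃) ∑ c_i EE(r_i; u)` -/
noncomputable def TA {ι : Type} (c : ι → ℂ) (r : ι → Q) (u : Fin 4 → ℂ) : ℂ :=
  riemannZeta (1 + u 1 + u 3) * ∑' i, c i * EE (r i).1.1 (r i).1.2 (u 0) (u 1) (u 2) (u 3)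

/-- the diagonal part -/
noncomputable def DA (T : (Fin 4 → ℂ) → ℂ) (s : ℂ) (x : ℝ) : ℂ :=
  (2 * Real.pi : ℂ)⁻¹ * ∫ v : ℝ, Gw s (cz + v * I) / (cz + v * I) * X2 x (2 * (cz + v * I)) *
    T (uD s (cz + v * I))

/-- the zero frequency part -/
noncomputable def ZA (T : (Fin 4 → ℂ) → ℂ) (s α β : ℂ) (x : ℝ) : ℂ :=
  ((2 * Real.pi : ℂ) ^ 3)⁻¹ * ∫ v : ℝ × ℝ × ℝ, Zker s α β x (cw + v.1 * I) (cz + v.2.1 * I) (cz + v.2.2 * I) *
    T (uZ s α β (cw + v.1 * I) (cz + v.2.1 * I) (cz + v.2.2 * I))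

/-! ### the main term -/

/-- the arguments `z` -/
noncomputable def zv {n : ℕ} (x : ℝ) (y : Fin n → ℝ) (u : Fin 4 → ℂ) (w : Fin n → ℂ) : Fin (n + 2) → ℂ :=
  Fin.cons (u 0 + x * I) (Fin.cons (u 1 + x * I) fun j => w j + y j * I)

/-- the arguments `z'` -/
noncomputable def zv' {n : ℕ} (x : ℝ) (y : Fin n → ℝ) (u : Fin 4 → ℂ) (w : Fin n → ℂ) : Fin (n + 2) → ℂ :=
  Fin.cons (-u 2 + x * I) (Fin.cons (-u 3 + x * I) fun j => -w j + y j * I)

/-- `G` (for `k = n + 2`) -/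
noncomputable def Gn {n : ℕ} (x : ℝ) (y : Fin n → ℝ) (u : Fin 4 → ℂ) (w : Fin n → ℂ) : ℂ :=
  GG (zv x y u w) (zv' x y u w)

/-- the zeta factors with two free variables -/
noncomputable def ZW {n : ℕ} (y : Fin n → ℝ) (w : Fin n → ℂ) : ℂ :=
  ∏ i, ∏ l ∈ Finset.univ.erase i, riemannZeta (1 + w i + w l + (y i - y l) * I)

/-- the zeta factors with one free variable -/
noncomputable def ZU {n : ℕ} (x : ℝ) (y : Fin n → ℝ) (u : Fin 4 → ℂ) (w : Fin n → ℂ) : ℂ :=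
  ∏ j, (riemannZeta (1 + u 0 + w j - (y j - x) * I) * riemannZeta (1 + u 1 + w j - (y j - x) * I) *
    (riemannZeta (1 + u 2 + w j + (y j - x) * I) * riemannZeta (1 + u 3 + w j + (y j - x) * I)))

/-- `Gn` without the factors `ζ(1 + u_i + u_j) (u_i + u_j)⁻¹` and `ζ(1 + 2 w_j)` : regular -/
noncomputable def HFn {n : ℕ} (x : ℝ) (y : Fin n → ℝ) (u : Fin 4 → ℂ) (w : Fin n → ℂ) : ℂ :=
  AA (zv x y u w) (zv' x y u w) *
    (P4f18dfV.zE (1 + u 0 + u 2) * P4f18dfV.zE (1 + u 0 + u 3) *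
      (P4f18dfV.zE (1 + u 1 + u 2) * P4f18dfV.zE (1 + u 1 + u 3))) * (ZU x y u w * ZW y w)

/-- the residue in the free variables -/
noncomputable def Rn {n : ℕ} (x : ℝ) (y : Fin n → ℝ) (u : Fin 4 → ℂ) : ℂ :=
  ((Real.pi * I) ^ n)⁻¹ * ∯ w in T((0 : Fin n → ℂ), fun _ => 1 / 8), (∏ j, (X2 (y j) (w j) / w j)) * Gn x y u w

/-- numerator of `Rn` -/
noncomputable def HHn {n : ℕ} (x : ℝ) (y : Fin n → ℝ) (u : Fin 4 → ℂ) : ℂ :=
  ((Real.pi * I) ^ n)⁻¹ * ∯ w in T((0 : Fin n → ℂ), fun _ => 1 / 8),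
    (∏ j, (X2 (y j) (w j) / w j * riemannZeta (1 + 2 * w j))) * HFn x y u w

/-- the sum over the tuples of fractions -/
noncomputable def TTn {n : ℕ} (x : ℝ) (y : Fin n → ℝ) (u : Fin 4 → ℂ) : ℂ :=
  TA (wn y fun j => y j - x) rp u

/-- the main term -/
noncomputable def Mn {n : ℕ} (x : ℝ) (y : Fin n → ℝ) : ℂ :=
  (4 * (2 * Real.pi * I) ^ 4)⁻¹ * ∯ z in T((0 : Fin 4 → ℂ), fun _ => 1 / 16),
    Rn x y ![z 0, z 1, -z 2, -z 3] * X2 x ((z 0 + z 1 - z 2 - z 3) / 2) * vdm z ^ 2 / ∏ i, z i ^ 4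

/-! ### elementary facts -/

lemma tl_zero {n : ℕ} {Y : ℝ} {q : Fin n → Q} (h : ∀ j, hgt (q j).1 ≤ Y) : tl Y q = 0 := by
  unfold tl
  rw [if_neg]
  push Not
  exact h

lemma tl_one {n : ℕ} {Y : ℝ} {q : Fin n → Q} {j : Fin n} (h : Y < hgt (q j).1) : tl Y q = 1 := by
  unfold tl
  rw [if_pos ⟨j, h⟩]

lemma tl_nonneg {n : ℕ} (Y : ℝ) (q : Fin n → Q) : 0 ≤ tl Y q := by
  unfold tl
  split_ifs
  · exact zero_le_one
  · exact le_rfl

lemma tl_le_one {n : ℕ} (Y : ℝ) (q : Fin n → Q) : tl Y q ≤ 1 := by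
  unfold tl
  split_ifs
  · exact le_rfl
  · exact zero_le_one

lemma pk_pos (k : ℤ) : 0 < pk k := by unfold pk; positivity

lemma norm_ek (U : ℝ) (k : ℤ) (x : ℝ) : ‖ek U k x‖ = 1 := norm_exp_ofReal_mul_I _

lemma ek_add (U : ℝ) (k : ℤ) (x y : ℝ) : ek U k (x + y) = ek U k x * ek U k y := by
  unfold ek
  rw [← Complex.exp_add]
  congr 1
  push_cast
  ring

lemma kn_nonneg {n : ℕ} {δ U : ℝ} (hU : 0 ≤ U) (q : Fin n → Q) : 0 ≤ kn δ U q :=
  Finset.prod_nonneg fun j _ => mul_nonneg (kap_nonneg hU (hgt_pos (q j).1).le)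
    (inv_nonneg.2 (hgt_pos (q j).1).le)

lemma ge_rp {n : ℕ} (q : Fin n → Q) : ∃ g : ℕ+, nu q = g * (rp q).1.1 ∧ de q = g * (rp q).1.2 := by
  refine ⟨(Regroup.ge.symm (nu q, de q)).2, ?_⟩
  have h := Regroup.ge.apply_symm_apply (nu q, de q)
  rw [Regroup.ge_apply] at h
  unfold Regroup.gm at h
  rw [Prod.mk.injEq] at h
  exact ⟨h.1.symm, h.2.symm⟩

lemma lgr_prod {n : ℕ} (q : Fin n → Q) : lgr (nu q, de q) = ∑ j, lgr (q j).1 := by
  unfold lgr nu de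
  rw [Finset.sum_sub_distrib]
  congr 1
  · rw [← Real.log_prod]
    · congr 1
      push_cast
      rfl
    · intro j _
      exact_mod_cast (q j).1.1.ne_zero
  · rw [← Real.log_prod]
    · congr 1
      push_cast
      rfl
    · intro j _
      exact_mod_cast (q j).1.2.ne_zero

lemma lgr_rp {n : ℕ} (q : Fin n → Q) : lgr (rp q).1 = ∑ j, lgr (q j).1 := by
  rw [← lgr_prod]
  have h := Regroup.lgr_gm (Regroup.ge.symm (nu q, de q))
  rw [← Regroup.ge_apply, Regroup.ge.apply_symm_apply] at h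
  exact h.symm

lemma ex_rp {n : ℕ} (x : ℝ) (q : Fin n → Q) : ex x (rp q).1 = ∏ j, ex x (q j).1 := by
  unfold ex
  rw [← Complex.exp_sum, lgr_rp]
  congr 1
  push_cast
  rw [← Finset.sum_mul, Finset.sum_neg_distrib, ← Finset.mul_sum]

lemma hgt_rp_le {n : ℕ} (q : Fin n → Q) : hgt (rp q).1 ≤ ∏ j, hgt (q j).1 := by
  have h1 : hgt (nu q, de q) = ∏ j, hgt (q j).1 := by
    unfold hgt nu de
    rw [Finset.prod_mul_distrib]
    push_cast
    rfl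
  have h := Regroup.hgt_gm (Regroup.ge.symm (nu q, de q))
  rw [← Regroup.ge_apply, Regroup.ge.apply_symm_apply] at h
  rw [← h1, h]
  have h2 := Regroup.gone (Regroup.ge.symm (nu q, de q)).2
  have h3 : 0 < hgt (rp q).1 := hgt_pos _
  have h4 : (1 : ℝ) ≤ (((Regroup.ge.symm (nu q, de q)).2 : ℕ) : ℝ) ^ 2 := one_le_pow₀ h2
  exact le_mul_of_one_le_left h3.le h4

end Pool.Agent.P07318g
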