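import Pool.Agent.Lib.P07318g.Defs

/-!
Definitions for the main terms.
-/

set_option autoImplicit false

namespace Pool.Agent.P07318g

open MeasureTheory Complex Pool.Agent.P07318s Pool.Agent.P07318f

/-- the exponent of the good heights -/
noncomputable def kp (n : ℕ) : ℝ := 1 / (20000 * ((n : ℝ) + 1) ^ 2)

/-- a term of the sum over the tuples of reduced fractions -/
noncomputable def tq {n : ℕ} (x : ℝ) (y : Fin n → ℝ) (u : Fin 4 → ℂ) (w : Fin n → ℂ) (q : Fin n → Q) : ℂ :=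
  (∏ j, (((hgt (q j).1 : ℝ) : ℂ) ^ (-(1 / 2 + w j)) * ex (y j - x) (q j).1)) *
    EE (rp q).1.1 (rp q).1.2 (u 0) (u 1) (u 2) (u 3)

/-- region in which `HFn` is regular -/
def RegH (n : ℕ) : Set (((ℝ × (Fin n → ℝ)) × (Fin 4 → ℂ)) × (Fin n → ℂ)) :=
  {p | (∀ i, |(p.1.2 i).re| < 1 / 8) ∧ (∀ j, |(p.2 j).re| < 4 / 25) ∧
    (∀ i j, |(p.1.2 i).im| + |(p.2 j).im| < |p.1.1.2 j - p.1.1.1|) ∧
    ∀ i j, i ≠ j → |(p.2 i).im| + |(p.2 j).im| < |p.1.1.2 i - p.1.1.2 j|}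

/-- the line -/
noncomputable def ln {n : ℕ} (c : ℝ) (v : Fin n → ℝ) : Fin n → ℂ := fun j => (c : ℂ) + v j * I

/-- the weight of one free variable -/
noncomputable def pe (y : ℝ) (w : ℂ) : ℂ := cexp (w ^ 2) / w * (X2 y w * riemannZeta (1 + 2 * w))

/-- the polybox -/
def Bo (n : ℕ) (L : ℝ) : Set (Fin n → ℂ) := {w | ∀ j, |(w j).re| < 4 / 25 ∧ |(w j).im| < 3 / 2 * L}

/-- functions holomorphic in each variable, and bounded, in a polybox -/
structure HolW {n : ℕ} (L B : ℝ) (F : (Fin n → ℂ) → ℂ) : Prop where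
  cont : ContinuousOn F (Bo n L)
  holo : ∀ w ∈ Bo n L, ∀ j, DifferentiableAt ℂ (fun z => F (Function.update w j z)) (w j)
  bound : ∀ w, (∀ j, |(w j).re| ≤ 3 / 20 ∧ |(w j).im| ≤ L) → ‖F w‖ ≤ B

/-- the integral over the cube on the line `Re w = c` -/
noncomputable def CU {n : ℕ} (L c : ℝ) (y : Fin n → ℝ) (F : (Fin n → ℂ) → ℂ) : ℂ :=
  ∫ v in Set.Icc (fun _ : Fin n => -L) (fun _ => L), (∏ j, pe (y j) (ln c v j)) * F (ln c v)

/-- the final line -/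
noncomputable def cn (n : ℕ) : ℝ := 1 / (40 * ((n : ℝ) + 1))

/-- the moment integrand -/
noncomputable def gf {n : ℕ} (x : ℝ) (y : Fin n → ℝ) : ℝ :=
  ‖riemannZeta (1 / 2 + x * I)‖ ^ 4 * ∏ j, ‖riemannZeta (1 / 2 + y j * I)‖ ^ 2

/-- the smoothed error term -/
noncomputable def En {n : ℕ} (Ω : ℝ → ℂ) (α : ℝ) (h : Fin n → ℝ) : ℂ :=
  ∫ x, Ω x * ((gf x (fun j => x + (h j - α)) : ℂ) - Mn x fun j => x + (h j - α))

lemma kp_pos (n : ℕ) : 0 < kp n := by unfold kp; positivity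

lemma cn_pos (n : ℕ) : 0 < cn n := by unfold cn; positivity

lemma kp_le (n : ℕ) : kp n ≤ 1 / 20000 := by
  unfold kp
  have h : (0 : ℝ) ≤ n := Nat.cast_nonneg n
  apply one_div_le_one_div_of_le (by norm_num)
  nlinarith

lemma cn_le (n : ℕ) : cn n ≤ 1 / 40 := by
  unfold cn
  have h : (0 : ℝ) ≤ n := Nat.cast_nonneg n
  apply one_div_le_one_div_of_le (by norm_num)
  linarith

lemma cn_n (n : ℕ) : (n : ℝ) * cn n ≤ 1 / 40 := by
  unfold cn
  have h : (0 : ℝ) ≤ n := Nat.cast_nonneg n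
  rw [mul_one_div, div_le_div_iff₀ (by positivity) (by norm_num)]
  linarith

lemma kp_n (n : ℕ) : ((n : ℝ) + 1) ^ 2 * kp n = 1 / 20000 := by
  unfold kp
  have h : (0 : ℝ) ≤ n := Nat.cast_nonneg n
  have h2 : ((n : ℝ) + 1) ^ 2 ≠ 0 := by positivity
  field_simp

end Pool.Agent.P07318g
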