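import Pool.Agent.Lib.P07318g.DefsB
import Pool.Agent.Lib.P07318f.DirD

/-!
# The Dirichlet series of the diagonal terms, `n` free variables

PROOF. Copy of P07318f/DirD.lean (210 lines): `ff`, `ff_norm`, `ff_hasSum`, `ff_summable` with `Fin 3` replaced by `Fin (n + 2)` (`euler_g`, `ed2_*` hold for every `k`), `z = zv x y u w`,
`z' = zv' x y u w`. The equivalence is
`(Fin (n + 2) → ℕ+ × ℕ+) ≃ (Fin n → ℕ+ × ℕ+) × ((ℕ+ × ℕ+) × (ℕ+ × ℕ+))`, `p ↦ (fun j => p j.succ.succ, (((p 0).1, (p 1).1), ((p 0).2, (p 1).2)))` (inverse by `Fin.cons`), products and sums over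
`Fin (n + 2)` by `Fin.prod_univ_succ`, `Fin.sum_univ_succ` twice, `Fin.cons_zero`, `Fin.cons_succ`. `lam p = 0 ↔ (∏ a_j) m₁ m₂ = (∏ b_j) n₁ n₂` (`ed2_lam`), and then
`lgr (p 0) + lgr (p 1) + ∑ lgr (p j.succ.succ) = 0`, so the phase `exp(-ix(lgr (p 0) + lgr (p 1)) - i ∑ y_j lgr_j)` is `∏ ex (y_j - x) (p_j)`. The constant `c = min` over the finitely many real parts
(`ed_exists_min`, for `n = 0` take `c` from `u` alone).
-/

set_option autoImplicit false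

namespace Pool.Agent.P07318g

open MeasureTheory Complex Pool.Agent.P07318s Pool.Agent.P07318f

namespace DirDnAux

/-- the term of a tuple of fractions -/
noncomputable def ff {k : ℕ} (z z' : Fin k → ℂ) (p : Fin k → ℕ+ × ℕ+) : ℂ :=
  ∏ j, (((p j).1 : ℕ) : ℂ) ^ (-(1 / 2 + z j)) * (((p j).2 : ℕ) : ℂ) ^ (-(1 / 2 - z' j))

theorem ff_norm {k : ℕ} (z z' : Fin k → ℂ) {c : ℝ} (hz : ∀ j, c ≤ (z j).re)
    (hz' : ∀ j, (z' j).re ≤ -c)
    (p : Fin k → ℕ+ × ℕ+) : ‖ff z z' p‖ ≤ ∏ j, (hgt (p j)) ^ (-(1 / 2 + c)) := by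
  unfold ff
  rw [norm_prod]
  refine Finset.prod_le_prod (fun _ _ => norm_nonneg _) fun j _ => ?_
  have h1 : (1 : ℝ) ≤ (((p j).1 : ℕ) : ℝ) := by exact_mod_cast (p j).1.2
  have h2 : (1 : ℝ) ≤ (((p j).2 : ℕ) : ℝ) := by exact_mod_cast (p j).2.2
  rw [norm_mul, Complex.norm_natCast_cpow_of_pos (PNat.pos _),
    Complex.norm_natCast_cpow_of_pos (PNat.pos _)]
  unfold hgt
  rw [Real.mul_rpow (by positivity) (by positivity)]
  refine mul_le_mul (Real.rpow_le_rpow_of_exponent_le h1 ?_)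
    (Real.rpow_le_rpow_of_exponent_le h2 ?_) (by positivity) (by positivity)
  · have : (-(1 / 2 + z j)).re = -(1 / 2 + (z j).re) := by simp
    rw [this]
    linarith [hz j]
  · have : (-(1 / 2 - z' j)).re = -(1 / 2 - (z' j).re) := by simp
    rw [this]
    linarith [hz' j]

theorem ff_hasSum {k : ℕ} (z z' : Fin k → ℂ) {c : ℝ} (hc : 0 < c) (hz : ∀ j, c ≤ (z j).re)
    (hz' : ∀ j, (z' j).re ≤ -c) :
    HasSum (fun p : Fin k → ℕ+ × ℕ+ => if lam p = 0 then ff z z' p else 0) (GG z z') := by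
  have hmain : HasSum (fun y : Ed2S k => ff z z' (ed2_map y).1) (GG z z') := by
    refine HasSum.sigma_of_hasSum (euler_g z z' (fun j => hc.trans_le (hz j))
      (fun j => (hz' j).trans_lt (by linarith))).2 (fun N => ?_) ?_
    · have h1 := hasSum_fintype (fun y : (Nat.finMulAntidiag k N) × (Nat.finMulAntidiag k N) =>
        ff z z' (ed2_map (⟨N, y⟩ : Ed2S k)).1)
      convert! h1 using 1
      rw [Fintype.sum_prod_type]
      unfold hh
      rw [Finset.sum_mul_sum, ← Finset.sum_coe_sort (Nat.finMulAntidiag k N)]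
      refine Finset.sum_congr rfl fun m _ => ?_
      rw [← Finset.sum_coe_sort (Nat.finMulAntidiag k N)]
      refine Finset.sum_congr rfl fun n _ => ?_
      rw [← Finset.prod_mul_distrib]
      rfl
    · refine Summable.of_norm_bounded (ed2_summable_aux c hc) fun y => ?_
      exact ff_norm z z' hz hz' _
  have h2 := (ed2_hasSum_iff (fun p : Fin k → ℕ+ × ℕ+ => ff z z' p) (GG z z')).2 hmain
  convert! h2

theorem ff_summable {k : ℕ} (z z' : Fin k → ℂ) {c : ℝ} (hc : 0 < c) (hz : ∀ j, c ≤ (z j).re)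
    (hz' : ∀ j, (z' j).re ≤ -c) :
    Summable (fun p : Fin k → ℕ+ × ℕ+ => ‖if lam p = 0 then ff z z' p else 0‖) := by
  refine Summable.of_nonneg_of_le (fun _ => norm_nonneg _) (fun p => ?_)
    (euler_D2_summable (k := k) c hc)
  by_cases h : lam p = 0
  · rw [if_pos h, if_pos h]
    exact ff_norm z z' hz hz' p
  · rw [if_neg h, if_neg h, norm_zero]

/-- the rearrangement -/
def eqv (n : ℕ) : (Fin (n + 2) → ℕ+ × ℕ+) ≃ (Fin n → ℕ+ × ℕ+) × ((ℕ+ × ℕ+) × (ℕ+ × ℕ+)) where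
  toFun p := (fun j => p j.succ.succ, (((p 0).1, (p 1).1), ((p 0).2, (p 1).2)))
  invFun r := Fin.cons (r.2.1.1, r.2.2.1) (Fin.cons (r.2.1.2, r.2.2.2) r.1)
  left_inv p := by
    funext j
    refine Fin.cases ?_ (fun i => Fin.cases ?_ (fun l => ?_) i) j
    · rfl
    · rfl
    · rfl
  right_inv r := rfl

/-- the rearranged term -/
noncomputable def gg {n : ℕ} (x : ℝ) (y : Fin n → ℝ) (u : Fin 4 → ℂ) (w : Fin n → ℂ)
    (r : (Fin n → ℕ+ × ℕ+) × ((ℕ+ × ℕ+) × (ℕ+ × ℕ+))) : ℂ :=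
  (∏ j, (((hgt (r.1 j) : ℝ) : ℂ) ^ (-(1 / 2 + w j)) * ex (y j - x) (r.1 j))) *
    (if (∏ j, (r.1 j).1) * r.2.1.1 * r.2.1.2 = (∏ j, (r.1 j).2) * r.2.2.1 * r.2.2.2 then
      pw r.2.1.1 (u 0) * pw r.2.1.2 (u 1) * (pw r.2.2.1 (u 2) * pw r.2.2.2 (u 3)) else 0)

theorem cpN (n : ℕ+) (z : ℂ) : (((n : ℕ) : ℂ)) ^ z = cexp (z * (Real.log (n : ℕ) : ℝ)) := by
  have h1 : (0 : ℝ) < ((n : ℕ) : ℝ) := by exact_mod_cast n.2
  have e1 : ((n : ℕ) : ℂ) = (((n : ℕ) : ℝ) : ℂ) := by norm_cast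
  rw [e1, Complex.cpow_def_of_ne_zero (by exact_mod_cast h1.ne'), ← Complex.ofReal_log h1.le,
    mul_comm]

theorem eqv_apply {n : ℕ} (p : Fin (n + 2) → ℕ+ × ℕ+) :
    eqv n p = (fun j => p j.succ.succ, (((p 0).1, (p 1).1), ((p 0).2, (p 1).2))) := rfl

/-- a factor with a free variable -/
theorem fac_free (x y : ℝ) (w : ℂ) (p : ℕ+ × ℕ+) :
    ((p.1 : ℕ) : ℂ) ^ (-(1 / 2 + (w + y * I))) * ((p.2 : ℕ) : ℂ) ^ (-(1 / 2 - (-w + y * I))) =
      (((hgt p : ℝ) : ℂ) ^ (-(1 / 2 + w)) * ex (y - x) p) * cexp (-(x * I) * (lgr p : ℂ)) := by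
  have h1 : (0 : ℝ) < ((p.1 : ℕ) : ℝ) := by exact_mod_cast p.1.2
  have h2 : (0 : ℝ) < ((p.2 : ℕ) : ℝ) := by exact_mod_cast p.2.2
  have hh2 : ((hgt p : ℝ) : ℂ) ^ (-(1 / 2 + w)) =
      cexp (-(1 / 2 + w) * ((Real.log (p.1 : ℕ) + Real.log (p.2 : ℕ) : ℝ) : ℂ)) := by
    rw [Complex.cpow_def_of_ne_zero (by exact_mod_cast (hgt_pos p).ne'),
      ← Complex.ofReal_log (hgt_pos _).le, mul_comm]
    unfold hgt
    rw [Real.log_mul h1.ne' h2.ne']
  rw [hh2]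
  simp only [cpN, ex]
  simp only [← Complex.exp_add]
  congr 1
  unfold lgr
  push_cast
  ring

/-- a factor without a free variable -/
theorem fac_pair (x : ℝ) (u v : ℂ) (p : ℕ+ × ℕ+) :
    ((p.1 : ℕ) : ℂ) ^ (-(1 / 2 + (u + x * I))) * ((p.2 : ℕ) : ℂ) ^ (-(1 / 2 - (-v + x * I))) =
      pw p.1 u * pw p.2 v * cexp (-(x * I) * (lgr p : ℂ)) := by
  unfold pw
  simp only [cpN]
  simp only [← Complex.exp_add]
  congr 1
  unfold lgr
  push_cast
  ring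

theorem gg_eqv {n : ℕ} (x : ℝ) (y : Fin n → ℝ) (u : Fin 4 → ℂ) (w : Fin n → ℂ)
    (p : Fin (n + 2) → ℕ+ × ℕ+) :
    gg x y u w (eqv n p) = if lam p = 0 then ff (zv x y u w) (zv' x y u w) p else 0 := by
  have h10 : (1 : Fin (n + 2)) = Fin.succ 0 := rfl
  have hiff : lam p = 0 ↔ (∏ j : Fin n, (p j.succ.succ).1) * (p 0).1 * (p 1).1 =
      (∏ j : Fin n, (p j.succ.succ).2) * (p 0).2 * (p 1).2 := by
    rw [ed2_lam, Fin.prod_univ_succ, Fin.prod_univ_succ, Fin.prod_univ_succ, Fin.prod_univ_succ,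
      ← PNat.coe_inj]
    simp only [PNat.mul_coe, ← h10]
    have e1 : ((∏ j : Fin n, (p j.succ.succ).1 : ℕ+) : ℕ) = ∏ j : Fin n, ((p j.succ.succ).1 : ℕ) :=
      map_prod PNat.coeMonoidHom _ _
    have e2 : ((∏ j : Fin n, (p j.succ.succ).2 : ℕ+) : ℕ) = ∏ j : Fin n, ((p j.succ.succ).2 : ℕ) :=
      map_prod PNat.coeMonoidHom _ _
    rw [e1, e2]
    constructor
    · intro h
      calc _ = ((p 0).1 : ℕ) * (((p 1).1 : ℕ) * ∏ j : Fin n, ((p j.succ.succ).1 : ℕ)) := by ring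
        _ = _ := by rw [h]; ring
    · intro h
      calc _ = (∏ j : Fin n, ((p j.succ.succ).1 : ℕ)) * ((p 0).1 : ℕ) * ((p 1).1 : ℕ) := by ring
        _ = _ := by rw [h]; ring
  rw [eqv_apply]
  unfold gg
  dsimp only
  by_cases h : lam p = 0
  · rw [if_pos h, if_pos (hiff.1 h)]
    have hl : (lgr (p 0) : ℂ) + (lgr (p 1) + ∑ j : Fin n, (lgr (p j.succ.succ) : ℂ)) = 0 := by
      unfold lam at h
      rw [Fin.sum_univ_succ, Fin.sum_univ_succ, ← h10] at h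
      exact_mod_cast h
    have e0 : ff (zv x y u w) (zv' x y u w) p =
        (((p 0).1 : ℕ) : ℂ) ^ (-(1 / 2 + (u 0 + x * I))) *
          (((p 0).2 : ℕ) : ℂ) ^ (-(1 / 2 - (-u 2 + x * I))) *
        ((((p 1).1 : ℕ) : ℂ) ^ (-(1 / 2 + (u 1 + x * I))) *
          (((p 1).2 : ℕ) : ℂ) ^ (-(1 / 2 - (-u 3 + x * I))) *
        ∏ j : Fin n, ((((p j.succ.succ).1 : ℕ) : ℂ) ^ (-(1 / 2 + (w j + y j * I))) *
          (((p j.succ.succ).2 : ℕ) : ℂ) ^ (-(1 / 2 - (-w j + y j * I))))) := by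
      unfold ff
      rw [Fin.prod_univ_succ, Fin.prod_univ_succ]
      rfl
    rw [e0, fac_pair, fac_pair]
    have e1 : ∏ j : Fin n, ((((p j.succ.succ).1 : ℕ) : ℂ) ^ (-(1 / 2 + (w j + y j * I))) *
          (((p j.succ.succ).2 : ℕ) : ℂ) ^ (-(1 / 2 - (-w j + y j * I)))) =
        (∏ j : Fin n, (((hgt (p j.succ.succ) : ℝ) : ℂ) ^ (-(1 / 2 + w j)) *
          ex (y j - x) (p j.succ.succ))) *
          cexp (-(x * I) * ∑ j : Fin n, (lgr (p j.succ.succ) : ℂ)) := by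
      rw [Finset.mul_sum, Complex.exp_sum, ← Finset.prod_mul_distrib]
      exact Finset.prod_congr rfl fun j _ => fac_free x (y j) (w j) _
    rw [e1]
    have e2 : cexp (-(x * I) * (lgr (p 0) : ℂ)) * (cexp (-(x * I) * (lgr (p 1) : ℂ)) *
        cexp (-(x * I) * ∑ j : Fin n, (lgr (p j.succ.succ) : ℂ))) = 1 := by
      rw [← Complex.exp_add, ← Complex.exp_add, ← mul_add, ← mul_add, hl, mul_zero, Complex.exp_zero]
    linear_combination (-(∏ j : Fin n, (((hgt (p j.succ.succ) : ℝ) : ℂ) ^ (-(1 / 2 + w j)) *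
          ex (y j - x) (p j.succ.succ))) * (pw (p 0).1 (u 0) * pw (p 1).1 (u 1) *
            (pw (p 0).2 (u 2) * pw (p 1).2 (u 3)))) * e2
  · rw [if_neg h, if_neg (fun h' => h (hiff.2 h')), mul_zero]

theorem exists_c {n : ℕ} (u : Fin 4 → ℂ) (w : Fin n → ℂ) (hu : ∀ i, 0 < (u i).re)
    (hw : ∀ j, 0 < (w j).re) : ∃ c : ℝ, 0 < c ∧ (∀ i, c ≤ (u i).re) ∧ ∀ j, c ≤ (w j).re := by
  obtain ⟨c1, hc1, hu1⟩ := ed_exists_min u hu
  obtain ⟨c2, hc2, hw1⟩ := ed_exists_min w hw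
  exact ⟨min c1 c2, lt_min hc1 hc2, fun i => (min_le_left _ _).trans (hu1 i),
    fun j => (min_le_right _ _).trans (hw1 j)⟩

end DirDnAux

open DirDnAux in
theorem dir_dn {n : ℕ} (x : ℝ) (y : Fin n → ℝ) (u : Fin 4 → ℂ) (w : Fin n → ℂ) (hu : ∀ i, 0 < (u i).re)
    (hw : ∀ j, 0 < (w j).re) :
    (Summable fun p : Fin n → ℕ+ × ℕ+ => ‖(∏ j, (((hgt (p j) : ℝ) : ℂ) ^ (-(1 / 2 + w j)) * ex (y j - x) (p j))) *
      DD (∏ j, (p j).1) (∏ j, (p j).2) (u 0) (u 1) (u 2) (u 3)‖) ∧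
    ∑' p : Fin n → ℕ+ × ℕ+, (∏ j, (((hgt (p j) : ℝ) : ℂ) ^ (-(1 / 2 + w j)) * ex (y j - x) (p j))) *
      DD (∏ j, (p j).1) (∏ j, (p j).2) (u 0) (u 1) (u 2) (u 3) = Gn x y u w := by
  obtain ⟨c, hc, hcu, hcw⟩ := exists_c u w hu hw
  have hz : ∀ j, c ≤ (zv x y u w j).re := by
    intro j
    unfold zv
    refine Fin.cases ?_ (fun i => Fin.cases ?_ (fun l => ?_) i) j
    · simpa using hcu 0
    · simpa using hcu 1
    · simpa using hcw l
  have hz' : ∀ j, (zv' x y u w j).re ≤ -c := by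
    intro j
    unfold zv'
    refine Fin.cases ?_ (fun i => Fin.cases ?_ (fun l => ?_) i) j
    · simpa using hcu 2
    · simpa using hcu 3
    · simpa using hcw l
  have hS : HasSum (gg x y u w) (Gn x y u w) := by
    rw [← (eqv n).hasSum_iff]
    have h1 := ff_hasSum (zv x y u w) (zv' x y u w) hc hz hz'
    have h2 : gg x y u w ∘ eqv n = fun p => if lam p = 0 then
        ff (zv x y u w) (zv' x y u w) p else 0 := by
      funext p
      exact gg_eqv x y u w p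
    rw [h2]
    exact h1
  have hN : Summable fun r => ‖gg x y u w r‖ := by
    rw [← (eqv n).summable_iff]
    have h1 := ff_summable (zv x y u w) (zv' x y u w) hc hz hz'
    refine h1.congr fun p => ?_
    rw [Function.comp_apply, gg_eqv]
  have hfib : ∀ p : Fin n → ℕ+ × ℕ+, ∑' q, gg x y u w (p, q) =
      (∏ j, (((hgt (p j) : ℝ) : ℂ) ^ (-(1 / 2 + w j)) * ex (y j - x) (p j))) *
        DD (∏ j, (p j).1) (∏ j, (p j).2) (u 0) (u 1) (u 2) (u 3) := by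
    intro p
    unfold DD
    rw [← tsum_mul_left]
    rfl
  have hfs : ∀ p : Fin n → ℕ+ × ℕ+, Summable fun q => ‖gg x y u w (p, q)‖ :=
    fun p => hN.prod_factor p
  constructor
  · refine Summable.of_nonneg_of_le (fun _ => norm_nonneg _) (fun p => ?_) hN.prod
    rw [← hfib]
    exact norm_tsum_le_tsum_norm (hfs p)
  · have h1 := hS.prod_fiberwise (fun p => (hfs p).of_norm.hasSum)
    simp_rw [hfib] at h1
    exact h1.tsum_eq

end Pool.Agent.P07318g
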