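import Pool.Agent.Lib.P07318g.DirDn
import Pool.Agent.Lib.P07318f.DirZ

/-!
# Regrouping over the tuples of reduced fractions

PROOF. Copy of `DirZAux.pos_case` (P07318f/DirZ.lean). `dir_dn`; the equivalence `(Fin n → ℕ+ × ℕ+) ≃ (Fin n → Q × ℕ+)` (`Equiv.piCongrRight` / `Equiv.arrowCongr` with `Regroup.ge`) `≃ (Fin n → Q) × (Fin n → ℕ+)`
(`Equiv.arrowProdEquivProdArrow`). For `p j = gm (q j, g j)`: `hgt (gm ..) ^ (-(1/2+w)) = hgt (q j)^(-(1/2+w)) (g j)^(-(1+2w))` (`DirZAux.hgt_cpow_gm`), `ex_gm`, and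
`DD (∏ (p j).1) (∏ (p j).2) = DD (G A) (G B) = DD A B = DD (g a) (g b) = DD a b = ζ(1+u₁+u₃) EE a b` with `G = ∏ g j`, `A = nu q`, `B = de q`, `(a,b) = (rp q).1` (`DirZAux.DD_smul` twice, `ge_rp`,
`(dd_summable _ _ huD).2`). The sum over `g : Fin n → ℕ+` is `∏ ζ(1 + 2 w j)` (`hasSum_pi_prod` of P07318s/PiSum, `zeta_pnat`). Summability over the product: transported from `dir_dn` by the equivalence
(`Summable.of_norm`, `HasSum.prod_fiberwise` or `Summable.tsum_prod`). If `∏ ..` are non zero factors, summability of `tq` follows by fixing `g = 1`.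
-/

set_option autoImplicit false

namespace Pool.Agent.P07318g

open MeasureTheory Complex Pool.Agent.P07318s Pool.Agent.P07318f

namespace DirPnAux

open Regroup

/-- the terms over all tuples of fractions -/
noncomputable def Fp {n : ℕ} (x : ℝ) (y : Fin n → ℝ) (u : Fin 4 → ℂ) (w : Fin n → ℂ)
    (p : Fin n → ℕ+ × ℕ+) : ℂ :=
  (∏ j, (((hgt (p j) : ℝ) : ℂ) ^ (-(1 / 2 + w j)) * ex (y j - x) (p j))) *
    DD (∏ j, (p j).1) (∏ j, (p j).2) (u 0) (u 1) (u 2) (u 3)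

/-- the equivalence -/
noncomputable def eqv (n : ℕ) : (Fin n → Q) × (Fin n → ℕ+) ≃ (Fin n → ℕ+ × ℕ+) :=
  (Equiv.arrowProdEquivProdArrow (Fin n) (fun _ => Q) (fun _ => ℕ+)).symm.trans
    (Equiv.piCongrRight fun _ => ge)

lemma eqv_apply {n : ℕ} (q : Fin n → Q) (g : Fin n → ℕ+) (j : Fin n) :
    eqv n (q, g) j = gm (q j, g j) := rfl

lemma Fp_eqv {n : ℕ} (x : ℝ) (y : Fin n → ℝ) {u : Fin 4 → ℂ} (w : Fin n → ℂ) (hu : u ∈ RegD)
    (q : Fin n → Q) (g : Fin n → ℕ+) :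
    Fp x y u w (eqv n (q, g)) = (riemannZeta (1 + u 1 + u 3) * tq x y u w q) *
      ∏ j, ((g j : ℕ) : ℂ) ^ (-(1 + 2 * w j)) := by
  have e1 : ∏ j, (eqv n (q, g) j).1 = (∏ j, g j) * nu q := by
    unfold nu
    rw [← Finset.prod_mul_distrib]
    exact Finset.prod_congr rfl fun j _ => rfl
  have e2 : ∏ j, (eqv n (q, g) j).2 = (∏ j, g j) * de q := by
    unfold de
    rw [← Finset.prod_mul_distrib]
    exact Finset.prod_congr rfl fun j _ => rfl
  obtain ⟨k, h1, h2⟩ := ge_rp q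
  unfold Fp
  rw [e1, e2, DirZAux.DD_smul, h1, h2, DirZAux.DD_smul, (dd_summable _ _ hu).2]
  have e3 : ∏ j, (((hgt (eqv n (q, g) j) : ℝ) : ℂ) ^ (-(1 / 2 + w j)) * ex (y j - x) (eqv n (q, g) j)) =
      (∏ j, (((hgt (q j).1 : ℝ) : ℂ) ^ (-(1 / 2 + w j)) * ex (y j - x) (q j).1)) *
        ∏ j, ((g j : ℕ) : ℂ) ^ (-(1 + 2 * w j)) := by
    rw [← Finset.prod_mul_distrib]
    refine Finset.prod_congr rfl fun j _ => ?_
    rw [eqv_apply, DirZAux.hgt_cpow_gm, ex_gm]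
    ring
  rw [e3]
  unfold tq
  ring

end DirPnAux

open DirPnAux in
theorem pos_n {n : ℕ} (x : ℝ) (y : Fin n → ℝ) (u : Fin 4 → ℂ) (w : Fin n → ℂ) (hu : ∀ i, 0 < (u i).re)
    (hw : ∀ j, 0 < (w j).re) :
    riemannZeta (1 + u 1 + u 3) * ((∏ j, riemannZeta (1 + 2 * w j)) * ∑' q : Fin n → Q, tq x y u w q) =
      Gn x y u w := by
  have h0 := hu 0
  have h1 := hu 1
  have h2 := hu 2
  have h3 := hu 3
  have huD : u ∈ RegD := by
    refine ⟨?_, ?_, ?_, ?_⟩ <;> rw [add_re] <;> linarith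
  obtain ⟨hs, hD⟩ := dir_dn x y u w hu hw
  have hz : ∀ j, 1 < (1 + 2 * w j).re := by
    intro j
    have e : (1 + 2 * w j).re = 1 + 2 * (w j).re := by simp
    rw [e]
    linarith [hw j]
  have hs1 : Summable fun z : (Fin n → Q) × (Fin n → ℕ+) => Fp x y u w (eqv n z) :=
    (eqv n).summable_iff.2 (Summable.of_norm hs)
  have hD1 : ∑' z : (Fin n → Q) × (Fin n → ℕ+), Fp x y u w (eqv n z) = Gn x y u w := by
    rw [(eqv n).tsum_eq (Fp x y u w)]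
    exact hD
  have hg := hasSum_pi_prod (fun j => fun m : ℕ+ => ((m : ℕ) : ℂ) ^ (-(1 + 2 * w j)))
    fun j => (EEregAux.zeta_pnat (hz j)).1
  have hg2 : ∑' g : Fin n → ℕ+, ∏ j, ((g j : ℕ) : ℂ) ^ (-(1 + 2 * w j)) =
      ∏ j, riemannZeta (1 + 2 * w j) := by
    rw [hg.tsum_eq]
    exact Finset.prod_congr rfl fun j _ => (EEregAux.zeta_pnat (hz j)).2.symm
  rw [← hD1, hs1.tsum_prod]
  have h4 : ∀ q : Fin n → Q, ∑' g : Fin n → ℕ+, Fp x y u w (eqv n (q, g)) =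
      riemannZeta (1 + u 1 + u 3) * (tq x y u w q * ∏ j, riemannZeta (1 + 2 * w j)) := by
    intro q
    have h5 : ∀ g : Fin n → ℕ+, Fp x y u w (eqv n (q, g)) =
        (riemannZeta (1 + u 1 + u 3) * tq x y u w q) * ∏ j, ((g j : ℕ) : ℂ) ^ (-(1 + 2 * w j)) :=
      fun g => Fp_eqv x y w huD q g
    rw [tsum_congr h5, tsum_mul_left, hg2]
    ring
  rw [tsum_congr h4, tsum_mul_left, tsum_mul_right]
  ring

end Pool.Agent.P07318g
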