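import Pool.Agent.Lib.P07318g.DefsB
import Pool.Agent.Lib.P07318s.EulerD2
import Pool.Agent.Lib.P5632c9.DivBound

/-!
# Sums over tuples of reduced fractions

PROOF. With `ε = c - c' > 0`, `A = nu q = g a`, `B = de q = g b`, `(a, b) = (rp q).1` (`ge_rp`; `Regroup.ge : Q × ℕ+ ≃ ℕ+ × ℕ+`, `gm`): `∏ hgt (q j) = A B = g² hgt (rp q)`. The map `q ↦ (nu q, de q)` has
fibres with at most `card (finMulAntidiag n A) card (finMulAntidiag n B) ≤ (τ(A) τ(B))^n ≤ K (A B)^ε` elements (`q` is determined by the numerators and the denominators; for the cardinality of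
`Nat.finMulAntidiag` see the proof of `ed2_summable_aux` in P07318s/EulerD2.lean; `card_divisors_le (ε/(n+1))`). So for every finite set of tuples the sum is
`≤ K ∑_{(A,B)} (A B)^(ε-1/2-c) f(reduced fraction of (A,B)) = K ∑_g g^(-1-2c') ∑_r (hgt r)^(-(1/2+c')) f r < ∞`. (Compare `DirZAux.sum_prod_div` in P07318f/DirZ.lean for the technique with an injective map
`q ↦ ((A,B), numerators, denominators)` into a sigma type.)
-/

set_option autoImplicit false

namespace Pool.Agent.P07318g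

open MeasureTheory Complex Pool.Agent.P07318s Pool.Agent.P07318f

namespace RpSumAux

open Regroup

/-- the height of a pair -/
theorem hgt_prod {n : ℕ} (q : Fin n → Q) : hgt (nu q, de q) = ∏ j, hgt (q j).1 := by
  unfold hgt nu de
  rw [Finset.prod_mul_distrib]
  push_cast
  rfl

theorem fib_card {n : ℕ} (P : ℕ+ × ℕ+) : Finite {q : Fin n → Q // (nu q, de q) = P} ∧
    (Nat.card {q : Fin n → Q // (nu q, de q) = P} : ℝ) ≤
      ((P.1 : ℕ).divisors.card : ℝ) ^ n * ((P.2 : ℕ).divisors.card : ℝ) ^ n := by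
  have hd1 : ∀ x : {q : Fin n → Q // (nu q, de q) = P}, ∀ j, ((x.1 j).1.1 : ℕ) ∈ (P.1 : ℕ).divisors := by
    rintro ⟨q, rfl⟩ j
    rw [Nat.mem_divisors]
    refine ⟨?_, (nu q).ne_zero⟩
    have : (q j).1.1 ∣ nu q := Finset.dvd_prod_of_mem (fun j => (q j).1.1) (Finset.mem_univ j)
    exact PNat.dvd_iff.1 this
  have hd2 : ∀ x : {q : Fin n → Q // (nu q, de q) = P}, ∀ j, ((x.1 j).1.2 : ℕ) ∈ (P.2 : ℕ).divisors := by
    rintro ⟨q, rfl⟩ j
    rw [Nat.mem_divisors]
    refine ⟨?_, (de q).ne_zero⟩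
    have : (q j).1.2 ∣ de q := Finset.dvd_prod_of_mem (fun j => (q j).1.2) (Finset.mem_univ j)
    exact PNat.dvd_iff.1 this
  have hinj : Function.Injective (fun x : {q : Fin n → Q // (nu q, de q) = P} =>
      ((fun j => ⟨((x.1 j).1.1 : ℕ), hd1 x j⟩, fun j => ⟨((x.1 j).1.2 : ℕ), hd2 x j⟩) :
        (Fin n → {d // d ∈ (P.1 : ℕ).divisors}) × (Fin n → {d // d ∈ (P.2 : ℕ).divisors}))) := by
    intro x y h
    apply Subtype.ext
    funext j
    rw [Prod.mk.injEq] at h
    have h1 := congrArg Subtype.val (congrFun h.1 j)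
    have h2 := congrArg Subtype.val (congrFun h.2 j)
    exact Subtype.ext (Prod.ext (PNat.eq h1) (PNat.eq h2))
  refine ⟨Finite.of_injective _ hinj, ?_⟩
  have hc := Nat.card_le_card_of_injective _ hinj
  rw [Nat.card_eq_fintype_card (α := _ × _), Fintype.card_prod, Fintype.card_pi_const,
    Fintype.card_pi_const, Fintype.card_coe, Fintype.card_coe] at hc
  exact_mod_cast hc

theorem sum_fib {n : ℕ} (H : ℕ+ × ℕ+ → ℝ) (hH : ∀ P, 0 ≤ H P)
    (hs : Summable fun P : ℕ+ × ℕ+ =>
      (((P.1 : ℕ).divisors.card : ℝ) ^ n * ((P.2 : ℕ).divisors.card : ℝ) ^ n) * H P) :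
    Summable fun q : Fin n → Q => H (nu q, de q) := by
  rw [← (Equiv.sigmaFiberEquiv (fun q : Fin n → Q => ((nu q, de q) : ℕ+ × ℕ+))).summable_iff]
  rw [summable_sigma_of_nonneg (fun y => by exact hH _)]
  have hconst : ∀ (P : ℕ+ × ℕ+) (x : {q : Fin n → Q // (nu q, de q) = P}),
      ((fun q : Fin n → Q => H (nu q, de q)) ∘
        (Equiv.sigmaFiberEquiv (fun q : Fin n → Q => ((nu q, de q) : ℕ+ × ℕ+)))) ⟨P, x⟩ = H P := by
    rintro P ⟨q, rfl⟩
    rfl
  refine ⟨fun P => ?_, ?_⟩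
  · haveI := (fib_card (n := n) P).1
    exact Summable.of_finite
  · refine Summable.of_nonneg_of_le (fun P => tsum_nonneg fun _ => hH _) (fun P => ?_) hs
    haveI := (fib_card (n := n) P).1
    haveI := Fintype.ofFinite {q : Fin n → Q // (nu q, de q) = P}
    rw [tsum_congr (hconst P), tsum_fintype, Finset.sum_const, Finset.card_univ, nsmul_eq_mul]
    have h := (fib_card (n := n) P).2
    rw [Nat.card_eq_fintype_card] at h
    exact mul_le_mul_of_nonneg_right h (hH P)

end RpSumAux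

open Regroup in
theorem rp_summable {n : ℕ} (c c' : ℝ) (hc' : 0 < c') (hc : c' < c) (f : Q → ℝ) (hf : ∀ r, 0 ≤ f r)
    (hs : Summable fun r : Q => (hgt r.1) ^ (-(1 / 2 + c')) * f r) :
    Summable fun q : Fin n → Q => (∏ j, (hgt (q j).1) ^ (-(1 / 2 + c))) * f (rp q) := by
  have hn : (0 : ℝ) < (n : ℝ) + 1 := by positivity
  obtain ⟨η, hη⟩ : ∃ η, η = (c - c') / ((n : ℝ) + 1) := ⟨_, rfl⟩
  have hη0 : 0 < η := by rw [hη]; exact div_pos (by linarith) hn
  have hηn : η * n ≤ c - c' := by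
    have h1 : η * ((n : ℝ) + 1) = c - c' := by rw [hη, div_mul_cancel₀ _ hn.ne']
    nlinarith
  obtain ⟨K, hK1, hK⟩ := Pool.Agent.Lib.P5632c9.card_divisors_le η hη0
  have hK0 : 0 ≤ K := by linarith
  have key := RpSumAux.sum_fib (n := n) (fun P => (hgt P) ^ (-(1 / 2 + c)) * f (ge.symm P).1)
    (fun P => mul_nonneg (Real.rpow_nonneg (hgt_pos P).le _) (hf _)) ?_
  · refine key.congr fun q => ?_
    rw [RpSumAux.hgt_prod, Real.finsetProd_rpow _ _ (fun j _ => (hgt_pos _).le)]
    rfl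
  · have base : Summable fun P : ℕ+ × ℕ+ => (hgt P) ^ (-(1 / 2 + c')) * f (ge.symm P).1 := by
      rw [← ge.summable_iff]
      have hg : Summable (fun g : ℕ+ => ((g : ℕ) : ℝ) ^ (-(1 + 2 * c'))) := by
        have h : Summable (fun g : ℕ => (g : ℝ) ^ (-(1 + 2 * c'))) :=
          Real.summable_nat_rpow.2 (by linarith)
        exact h.comp_injective PNat.coe_injective
      have hm := Summable.mul_of_nonneg hs hg
        (fun r => mul_nonneg (Real.rpow_nonneg (hgt_pos _).le _) (hf r))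
        (fun g => Real.rpow_nonneg (gpos g).le _)
      refine hm.congr fun z => ?_
      simp only [Function.comp_apply, Equiv.symm_apply_apply]
      rw [ge_apply, hgt_gm, Real.mul_rpow (by positivity) (hgt_pos _).le, ← Real.rpow_natCast,
        ← Real.rpow_mul (gpos _).le]
      have e : ((2 : ℕ) : ℝ) * (-(1 / 2 + c')) = -(1 + 2 * c') := by push_cast; ring
      rw [e]
      ring
    refine Summable.of_nonneg_of_le (fun P => ?_) (fun P => ?_) (base.mul_left (K ^ n * K ^ n))
    · have := hf (ge.symm P).1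
      have := (hgt_pos P).le
      positivity
    · have p1 : (0 : ℝ) < (P.1 : ℕ) := by exact_mod_cast P.1.2
      have p2 : (0 : ℝ) < (P.2 : ℕ) := by exact_mod_cast P.2.2
      have d1 := hK P.1 P.1.2.ne'
      have d2 := hK P.2 P.2.2.ne'
      have hh := hgt_pos P
      have h1 : ((P.1 : ℕ).divisors.card : ℝ) ^ n * ((P.2 : ℕ).divisors.card : ℝ) ^ n ≤
          K ^ n * K ^ n * (hgt P) ^ (c - c') := by
        calc ((P.1 : ℕ).divisors.card : ℝ) ^ n * ((P.2 : ℕ).divisors.card : ℝ) ^ n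
            ≤ (K * ((P.1 : ℕ) : ℝ) ^ η) ^ n * (K * ((P.2 : ℕ) : ℝ) ^ η) ^ n := by gcongr
          _ = K ^ n * K ^ n * (hgt P) ^ (η * n) := by
              rw [mul_pow, mul_pow, ← Real.rpow_natCast (((P.1 : ℕ) : ℝ) ^ η) n,
                ← Real.rpow_natCast (((P.2 : ℕ) : ℝ) ^ η) n, ← Real.rpow_mul p1.le,
                ← Real.rpow_mul p2.le]
              unfold hgt
              rw [Real.mul_rpow p1.le p2.le]
              ring
          _ ≤ K ^ n * K ^ n * (hgt P) ^ (c - c') := by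
              refine mul_le_mul_of_nonneg_left ?_ (by positivity)
              exact Real.rpow_le_rpow_of_exponent_le (one_le_hgt _) hηn
      have h2 : (hgt P) ^ (-(1 / 2 + c')) = (hgt P) ^ (c - c') * (hgt P) ^ (-(1 / 2 + c)) := by
        rw [← Real.rpow_add hh]
        congr 1
        ring
      have h3 := hf (ge.symm P).1
      calc (((P.1 : ℕ).divisors.card : ℝ) ^ n * ((P.2 : ℕ).divisors.card : ℝ) ^ n) *
            ((hgt P) ^ (-(1 / 2 + c)) * f (ge.symm P).1)
          ≤ (K ^ n * K ^ n * (hgt P) ^ (c - c')) * ((hgt P) ^ (-(1 / 2 + c)) * f (ge.symm P).1) := by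
            refine mul_le_mul_of_nonneg_right h1 ?_
            positivity
        _ = K ^ n * K ^ n * ((hgt P) ^ (-(1 / 2 + c')) * f (ge.symm P).1) := by
            rw [h2]
            ring

end Pool.Agent.P07318g
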