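import Pool.Agent.Lib.P07318g.DirPn
import Pool.Agent.Lib.P07318g.RpSum

/-!
# The Dirichlet series of the zero frequency terms, `n` free variables

PROOF. Copy of `dir_z` (P07318f/DirZ.lean). Summability: let `c = min_j (w j).re > 0` with `(u i).re + c > 0` for all `i` (finitely many conditions), `0 < c' < c` with `(u i).re + c' > 0`: `rp_summable` with
`f r = ∑' p, ‖tm r.1.1 r.1.2 u p‖` (`DirZAux.sum_MQ` with `w := c'`, `MQ u c' r = hgt^(-(1/2+c')) f r`, `DirZAux.norm_EE_le`), and `∏ hgt^(-(1/2+(w j).re)) ≤ ∏ hgt^(-(1/2+c))`. For `n = 0`: one term.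
Identity: both sides without the factor `ζ(1+u₁+u₃)` are holomorphic in `t`, `u + t`, on `Re t > -ε` : left side by `Complex.differentiableOn_tsum_of_summable_norm` with the majorant at `t = -ε`
(`tm_mono`), right side is `Rst = AA · ζ(1+u₀+u₂) ζ(1+u₀+u₃) ζ(1+u₁+u₂) · ZU · ZW · ∏ ζ(1+2 w j)` (the product `GG (zv ..) (zv' ..)` without the factor `(1, 1)`, computed with `Fin.prod_univ_succ`;
`aa_diff`: `RegA (n+2)`, `|Re w_j| ≤ 3/20 < 1/6`, `Re (u_i + t) > -3/20 - 1/61 > -1/6`; the zeta factors have arguments with real part `> 1`), they agree for `Re t > 3/20` by `pos_n`.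
-/

set_option autoImplicit false

namespace Pool.Agent.P07318g

open MeasureTheory Complex Pool.Agent.P07318s Pool.Agent.P07318f

namespace DirZnAux

open DirZAux EEregAux

/-- the inner zeta product of the arguments -/
theorem zsplit {n : ℕ} (z z' : Fin (n + 2) → ℂ) :
    GG z z' = riemannZeta (1 + z 1 - z' 1) * (AA z z' *
      ((riemannZeta (1 + z 0 - z' 0) * (riemannZeta (1 + z 0 - z' 1) *
          ∏ j : Fin n, riemannZeta (1 + z 0 - z' j.succ.succ))) *
        ((riemannZeta (1 + z 1 - z' 0) * ∏ j : Fin n, riemannZeta (1 + z 1 - z' j.succ.succ)) *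
          ∏ i : Fin n, (riemannZeta (1 + z i.succ.succ - z' 0) * (riemannZeta (1 + z i.succ.succ - z' 1) *
            ∏ j : Fin n, riemannZeta (1 + z i.succ.succ - z' j.succ.succ)))))) := by
  unfold GG
  simp only [Fin.prod_univ_succ, Fin.succ_zero_eq_one]
  ring

/-- `Gn` without the factor `ζ(1 + u₁ + u₃)` -/
noncomputable def Rsn {n : ℕ} (z z' : Fin (n + 2) → ℂ) : ℂ :=
  AA z z' *
      ((riemannZeta (1 + z 0 - z' 0) * (riemannZeta (1 + z 0 - z' 1) *
          ∏ j : Fin n, riemannZeta (1 + z 0 - z' j.succ.succ))) *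
        ((riemannZeta (1 + z 1 - z' 0) * ∏ j : Fin n, riemannZeta (1 + z 1 - z' j.succ.succ)) *
          ∏ i : Fin n, (riemannZeta (1 + z i.succ.succ - z' 0) * (riemannZeta (1 + z i.succ.succ - z' 1) *
            ∏ j : Fin n, riemannZeta (1 + z i.succ.succ - z' j.succ.succ)))))

theorem zv_zero {n : ℕ} (x : ℝ) (y : Fin n → ℝ) (u : Fin 4 → ℂ) (w : Fin n → ℂ) :
    zv x y u w 0 = u 0 + x * I := rfl

theorem zv_one {n : ℕ} (x : ℝ) (y : Fin n → ℝ) (u : Fin 4 → ℂ) (w : Fin n → ℂ) :
    zv x y u w 1 = u 1 + x * I := rfl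

theorem zv_ss {n : ℕ} (x : ℝ) (y : Fin n → ℝ) (u : Fin 4 → ℂ) (w : Fin n → ℂ) (j : Fin n) :
    zv x y u w j.succ.succ = w j + y j * I := rfl

theorem zv'_zero {n : ℕ} (x : ℝ) (y : Fin n → ℝ) (u : Fin 4 → ℂ) (w : Fin n → ℂ) :
    zv' x y u w 0 = -u 2 + x * I := rfl

theorem zv'_one {n : ℕ} (x : ℝ) (y : Fin n → ℝ) (u : Fin 4 → ℂ) (w : Fin n → ℂ) :
    zv' x y u w 1 = -u 3 + x * I := rfl

theorem zv'_ss {n : ℕ} (x : ℝ) (y : Fin n → ℝ) (u : Fin 4 → ℂ) (w : Fin n → ℂ) (j : Fin n) :
    zv' x y u w j.succ.succ = -w j + y j * I := rfl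

theorem gn_eq {n : ℕ} (x : ℝ) (y : Fin n → ℝ) (u : Fin 4 → ℂ) (w : Fin n → ℂ) :
    Gn x y u w = riemannZeta (1 + u 1 + u 3) * Rsn (zv x y u w) (zv' x y u w) := by
  unfold Gn
  rw [zsplit, zv_one, zv'_one, show 1 + (u 1 + x * I) - (-u 3 + x * I) = 1 + u 1 + u 3 by ring]
  rfl

/-- every index of `Fin (n + 2)` -/
theorem fin_cases2 {n : ℕ} {p : Fin (n + 2) → Prop} (h0 : p 0) (h1 : p 1) (h2 : ∀ j : Fin n, p j.succ.succ)
    (i : Fin (n + 2)) : p i := by
  refine Fin.cases h0 (fun i => ?_) i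
  exact Fin.cases h1 h2 i

/-- majorant of the terms -/
noncomputable def MN {n : ℕ} (u : Fin 4 → ℂ) (w : Fin n → ℂ) (q : Fin n → Q) : ℝ :=
  (∏ j, (hgt (q j).1) ^ (-(1 / 2 + (w j).re))) * ∑' p, ‖tm (rp q).1.1 (rp q).1.2 u p‖

theorem prod_nonneg' {n : ℕ} (w : Fin n → ℂ) (q : Fin n → Q) :
    0 ≤ ∏ j, (hgt (q j).1) ^ (-(1 / 2 + (w j).re)) :=
  Finset.prod_nonneg fun _ _ => Real.rpow_nonneg (hgt_pos _).le _

theorem sum_MN {n : ℕ} {u : Fin 4 → ℂ} {w : Fin n → ℂ} (hu : u ∈ RegE) (hw : ∀ j, 0 < (w j).re)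
    (huw : ∀ i j, 0 < (u i + w j).re) : Summable (MN u w) := by
  rcases Nat.eq_zero_or_pos n with hn | hn
  · subst hn
    exact (hasSum_fintype (MN u w)).summable
  have : Nonempty (Fin n) := ⟨⟨0, hn⟩⟩
  obtain ⟨j0, hj0⟩ := Finite.exists_min fun j => (w j).re
  obtain ⟨i0, hi0⟩ := Finite.exists_max fun i => -(u i).re
  have h1 := hw j0
  have h2 := huw i0 j0
  rw [add_re] at h2
  obtain ⟨c', hc', hc⟩ := exists_between (max_lt h1 (by linarith : -(u i0).re < (w j0).re))
  have hc0 : 0 < c' := (le_max_left _ _).trans_lt hc'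
  have hcu : ∀ i, 0 < (u i + (c' : ℂ)).re := by
    intro i
    have h3 : -(u i0).re < c' := (le_max_right _ _).trans_lt hc'
    have h4 := hi0 i
    rw [add_re, ofReal_re]
    linarith
  have hs := sum_MQ (w := (c' : ℂ)) hu (by rw [ofReal_re]; exact hc0) hcu
  rw [ofReal_re] at hs
  have hr := rp_summable (n := n) (w j0).re c' hc0 hc (fun r => ∑' p, ‖tm r.1.1 r.1.2 u p‖)
    (fun r => tsum_nonneg fun _ => norm_nonneg _) hs
  refine Summable.of_nonneg_of_le (fun q => mul_nonneg (prod_nonneg' w q)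
    (tsum_nonneg fun _ => norm_nonneg _)) (fun q => ?_) hr
  unfold MN
  refine mul_le_mul_of_nonneg_right ?_ (tsum_nonneg fun _ => norm_nonneg _)
  refine Finset.prod_le_prod (fun j _ => Real.rpow_nonneg (hgt_pos _).le _) fun j _ => ?_
  refine Real.rpow_le_rpow_of_exponent_le (one_le_hgt _) ?_
  have := hj0 j
  linarith

theorem norm_tq {n : ℕ} (x : ℝ) (y : Fin n → ℝ) {u : Fin 4 → ℂ} (w : Fin n → ℂ) (hu : u ∈ RegE)
    (q : Fin n → Q) : ‖tq x y u w q‖ ≤ MN u w q := by
  unfold tq MN
  rw [norm_mul, norm_prod]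
  refine mul_le_mul (le_of_eq ?_) (norm_EE_le _ _ hu) (norm_nonneg _) (prod_nonneg' w q)
  refine Finset.prod_congr rfl fun j _ => ?_
  rw [norm_mul, norm_hgt_cpow, norm_ex, mul_one]

theorem MN_mono {n : ℕ} {u v : Fin 4 → ℂ} (w : Fin n → ℂ) (hu : u ∈ RegE) (hv : v ∈ RegE)
    (h : ∀ i, (u i).re ≤ (v i).re) (q : Fin n → Q) : MN v w q ≤ MN u w q := by
  unfold MN
  refine mul_le_mul_of_nonneg_left ?_ (prod_nonneg' w q)
  exact Summable.tsum_le_tsum (fun p => tm_mono _ _ h p) (tm_summable _ _ hv) (tm_summable _ _ hu)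

theorem exists_eps {n : ℕ} {u : Fin 4 → ℂ} {w : Fin n → ℂ} (hu : u ∈ RegE)
    (huw : ∀ i j, 0 < (u i + w j).re) : ∃ ε : ℝ, 0 < ε ∧ ε < 1 / 61 ∧ 2 * ε < (u 0 + u 3).re ∧
      2 * ε < (u 1 + u 2).re ∧ 2 * ε < (u 0 + u 2).re ∧ ∀ i j, ε < (u i + w j).re := by
  obtain ⟨hP, hQ, hR⟩ := hu
  have ev : ∀ a : ℝ, 0 < a → ∀ᶠ ε in nhdsWithin (0 : ℝ) (Set.Ioi 0), ε < a := fun a ha =>
    nhdsWithin_le_nhds (Iio_mem_nhds ha)
  have h0 : ∀ᶠ ε in nhdsWithin (0 : ℝ) (Set.Ioi 0), 0 < ε := self_mem_nhdsWithin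
  have h6 : ∀ᶠ ε in nhdsWithin (0 : ℝ) (Set.Ioi 0), ∀ i j, ε < (u i + w j).re :=
    Filter.eventually_all.2 fun i => Filter.eventually_all.2 fun j => ev _ (huw i j)
  obtain ⟨ε, e0, e1, e2, e3, e4, e5⟩ := (h0.and ((ev (1 / 61) (by norm_num)).and
    ((ev _ (half_pos hP)).and ((ev _ (half_pos hQ)).and ((ev _ (half_pos hR)).and h6))))).exists
  exact ⟨ε, e0, e1, by linarith, by linarith, by linarith, e5⟩

end DirZnAux

open DirZAux DirZnAux EEregAux in
theorem dir_zn {n : ℕ} (x : ℝ) (y : Fin n → ℝ) (u : Fin 4 → ℂ) (w : Fin n → ℂ) (hu : u ∈ RegE) (hu2 : ∀ i, -(3 / 20) < (u i).re)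
    (hw : ∀ j, 0 < (w j).re) (hw1 : ∀ j, (w j).re ≤ 3 / 20) (huw : ∀ i j, 0 < (u i + w j).re) :
    (Summable fun q : Fin n → Q => (∏ j, (hgt (q j).1) ^ (-(1 / 2 + (w j).re))) *
      ‖EE (rp q).1.1 (rp q).1.2 (u 0) (u 1) (u 2) (u 3)‖) ∧
    riemannZeta (1 + u 1 + u 3) * ((∏ j, riemannZeta (1 + 2 * w j)) * ∑' q : Fin n → Q, tq x y u w q) =
      Gn x y u w := by
  constructor
  · refine Summable.of_nonneg_of_le (fun q => mul_nonneg (prod_nonneg' w q)
      (norm_nonneg _)) (fun q => ?_) (sum_MN hu hw huw)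
    exact mul_le_mul_of_nonneg_left (norm_EE_le _ _ hu) (prod_nonneg' w q)
  -- the identity
  obtain ⟨ε, hε, hε1, hεP, hεQ, hεR, hεw⟩ := exists_eps hu huw
  rw [add_re] at hεP hεQ hεR
  have hεw' : ∀ i j, ε < (u i).re + (w j).re := fun i j => by
    have := hεw i j
    rwa [add_re] at this
  set S : Set ℂ := {t | -ε < t.re} with hS
  have hSo : IsOpen S := isOpen_lt continuous_const continuous_re
  have hSc : IsPreconnected S := (convex_halfSpace_re_gt (-ε)).isPreconnected
  set v : ℂ → Fin 4 → ℂ := fun t i => u i + t with hv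
  have hvE : ∀ t : ℂ, -ε ≤ t.re → v t ∈ RegE := by
    intro t ht
    refine ⟨?_, ?_, ?_⟩ <;> simp only [hv, add_re] <;> linarith
  have hvd : ∀ i, DifferentiableOn ℂ (fun t => v t i) S := fun i =>
    (differentiableOn_id.const_add (u i))
  set m0 : Fin 4 → ℂ := v ((-ε : ℝ) : ℂ) with hm0
  have hm0E : m0 ∈ RegE := hvE _ (by rw [ofReal_re])
  have hm0w : ∀ i j, 0 < (m0 i + w j).re := by
    intro i j
    have := hεw' i j
    simp only [hm0, hv, add_re, ofReal_re]
    linarith
  have hsum := sum_MN hm0E hw hm0w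
  -- the left side
  have hL : DifferentiableOn ℂ (fun t => (∏ j, riemannZeta (1 + 2 * w j)) *
      ∑' q : Fin n → Q, tq x y (v t) w q) S := by
    refine DifferentiableOn.const_mul ?_ _
    refine Complex.differentiableOn_tsum_of_summable_norm (F := fun (q : Fin n → Q) t => tq x y (v t) w q)
      hsum (fun q => ?_) hSo (fun q t ht => ?_)
    · unfold tq
      refine DifferentiableOn.const_mul ?_ _
      exact ee_diff (rp q).1.1 (rp q).1.2 (fun i t => v t i) S hSo hvd (fun t ht => hvE t (le_of_lt ht))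
    · refine (norm_tq x y w (hvE t (le_of_lt ht)) q).trans
        (MN_mono w hm0E (hvE t (le_of_lt ht)) ?_ q)
      intro i
      have ht' : -ε < t.re := ht
      simp only [hm0, hv, add_re, ofReal_re]
      linarith
  -- the right side
  have hzd : ∀ i, DifferentiableOn ℂ (fun t => zv x y (v t) w i) S := by
    refine fin_cases2 ?_ ?_ fun j => ?_
    · exact (hvd 0).add_const _
    · exact (hvd 1).add_const _
    · exact differentiableOn_const _
  have hzd' : ∀ i, DifferentiableOn ℂ (fun t => zv' x y (v t) w i) S := by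
    refine fin_cases2 ?_ ?_ fun j => ?_
    · exact (hvd 2).neg.add_const _
    · exact (hvd 3).neg.add_const _
    · exact differentiableOn_const _
  have hvre : ∀ t ∈ S, ∀ i, (u i).re - ε < (v t i).re := by
    intro t ht i
    have ht' : -ε < t.re := ht
    simp only [hv, add_re]
    linarith
  have hxI : ∀ a : ℝ, ((a : ℂ) * I).re = 0 := fun a => by simp
  have hvP : ∀ t ∈ S, 0 < (v t 0).re + (v t 3).re ∧ 0 < (v t 1).re + (v t 2).re ∧
      0 < (v t 0).re + (v t 2).re := by
    intro t ht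
    have g0 := hvre t ht 0
    have g1 := hvre t ht 1
    have g2 := hvre t ht 2
    have g3 := hvre t ht 3
    refine ⟨?_, ?_, ?_⟩ <;> linarith
  have hvw : ∀ t ∈ S, ∀ i j, 0 < (v t i).re + (w j).re := by
    intro t ht i j
    have g := hvre t ht i
    have g' := hεw' i j
    linarith
  have hR : DifferentiableOn ℂ (fun t => Rsn (zv x y (v t) w) (zv' x y (v t) w)) S := by
    unfold Rsn
    refine DifferentiableOn.mul ?_ ?_
    · refine aa_diff (fun t => zv x y (v t) w) (fun t => zv' x y (v t) w) S hSo hzd hzd' ?_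
      intro t ht
      constructor
      · refine fin_cases2 ?_ ?_ fun j => ?_
        · have g := hvre t ht 0
          have g' := hu2 0
          show -(1 / 6) < (v t 0 + x * I).re
          rw [add_re, hxI]
          linarith
        · have g := hvre t ht 1
          have g' := hu2 1
          show -(1 / 6) < (v t 1 + x * I).re
          rw [add_re, hxI]
          linarith
        · have g := hw j
          show -(1 / 6) < (w j + y j * I).re
          rw [add_re, hxI]
          linarith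
      · refine fin_cases2 ?_ ?_ fun j => ?_
        · have g := hvre t ht 2
          have g' := hu2 2
          show (-v t 2 + x * I).re < 1 / 6
          rw [add_re, neg_re, hxI]
          linarith
        · have g := hvre t ht 3
          have g' := hu2 3
          show (-v t 3 + x * I).re < 1 / 6
          rw [add_re, neg_re, hxI]
          linarith
        · have g := hw j
          show (-w j + y j * I).re < 1 / 6
          rw [add_re, neg_re, hxI]
          linarith
    · have hz : ∀ i i' : Fin (n + 2), (∀ t ∈ S, 0 < (zv x y (v t) w i).re - (zv' x y (v t) w i').re) →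
          DifferentiableOn ℂ (fun t => riemannZeta (1 + zv x y (v t) w i - zv' x y (v t) w i')) S := by
        intro i i' h
        refine zeta_diff (((hzd i).const_add 1).sub (hzd' i')) fun t ht => ?_
        have := h t ht
        rw [sub_re, add_re, one_re]
        linarith
      have r0 : ∀ t, (zv x y (v t) w 0).re = (v t 0).re := fun t => by
        rw [zv_zero, add_re, hxI, add_zero]
      have r1 : ∀ t, (zv x y (v t) w 1).re = (v t 1).re := fun t => by
        rw [zv_one, add_re, hxI, add_zero]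
      have rj : ∀ t j, (zv x y (v t) w (Fin.succ (Fin.succ j))).re = (w j).re := fun t j => by
        rw [zv_ss, add_re, hxI, add_zero]
      have s0 : ∀ t, (zv' x y (v t) w 0).re = -(v t 2).re := fun t => by
        rw [zv'_zero, add_re, hxI, add_zero, neg_re]
      have s1 : ∀ t, (zv' x y (v t) w 1).re = -(v t 3).re := fun t => by
        rw [zv'_one, add_re, hxI, add_zero, neg_re]
      have sj : ∀ t j, (zv' x y (v t) w (Fin.succ (Fin.succ j))).re = -(w j).re := fun t j => by
        rw [zv'_ss, add_re, hxI, add_zero, neg_re]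
      have d00 := hz 0 0 fun t ht => by
        rw [r0, s0]
        have := (hvP t ht).2.2
        linarith
      have d01 := hz 0 1 fun t ht => by
        rw [r0, s1]
        have := (hvP t ht).1
        linarith
      have d0j : ∀ j : Fin n, _ := fun j => hz 0 j.succ.succ fun t ht => by
        rw [r0, sj]
        have := hvw t ht 0 j
        linarith
      have d10 := hz 1 0 fun t ht => by
        rw [r1, s0]
        have := (hvP t ht).2.1
        linarith
      have d1j : ∀ j : Fin n, _ := fun j => hz 1 j.succ.succ fun t ht => by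
        rw [r1, sj]
        have := hvw t ht 1 j
        linarith
      have di0 : ∀ j : Fin n, _ := fun j => hz j.succ.succ 0 fun t ht => by
        rw [rj, s0]
        have := hvw t ht 2 j
        linarith
      have di1 : ∀ j : Fin n, _ := fun j => hz j.succ.succ 1 fun t ht => by
        rw [rj, s1]
        have := hvw t ht 3 j
        linarith
      have dij : ∀ i j : Fin n, _ := fun i j => hz i.succ.succ j.succ.succ fun t ht => by
        rw [rj, sj]
        have h1 := hw i
        have h2 := hw j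
        linarith
      refine (d00.mul (d01.mul (DifferentiableOn.fun_finsetProd fun j _ => d0j j))).mul
        ((d10.mul (DifferentiableOn.fun_finsetProd fun j _ => d1j j)).mul
          (DifferentiableOn.fun_finsetProd fun i _ => (di0 i).mul ((di1 i).mul
            (DifferentiableOn.fun_finsetProd fun j _ => dij i j))))
  have hev : (fun t => (∏ j, riemannZeta (1 + 2 * w j)) * ∑' q : Fin n → Q, tq x y (v t) w q)
      =ᶠ[nhds (1 : ℂ)] fun t => Rsn (zv x y (v t) w) (zv' x y (v t) w) := by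
    have hO : {t : ℂ | 3 / 20 < t.re} ∈ nhds (1 : ℂ) :=
      (isOpen_lt continuous_const continuous_re).mem_nhds (by simp; norm_num)
    filter_upwards [hO] with t ht
    have ht' : 3 / 20 < t.re := ht
    have hpos : ∀ i, 0 < (v t i).re := by
      intro i
      have := hu2 i
      simp only [hv, add_re]
      linarith
    have h1 := pos_n x y (v t) w hpos hw
    rw [gn_eq] at h1
    have h2 : riemannZeta (1 + v t 1 + v t 3) ≠ 0 := by
      refine riemannZeta_ne_zero_of_one_lt_re ?_
      have a1 := hpos 1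
      have a3 := hpos 3
      rw [add_re, add_re, one_re]
      linarith
    exact mul_left_cancel₀ h2 h1
  have hEq := (hL.analyticOnNhd hSo).eqOn_of_preconnected_of_eventuallyEq (hR.analyticOnNhd hSo) hSc
    (show (1 : ℂ) ∈ S by simp [hS]; linarith) hev (show (0 : ℂ) ∈ S by simpa [hS] using hε)
  have hv0 : v 0 = u := by
    funext i
    simp [hv]
  simp only [hv0] at hEq
  rw [hEq, gn_eq]

end Pool.Agent.P07318g
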