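import Pool.Agent.Lib.P07318g.DefsB

/-!
# Algebra of the main terms

PROOF. `gn_eq`: `GG (zv ..) (zv' ..) = AA (zv ..) (zv' ..) ∏_{i l : Fin (n+2)} ζ(1 + z_i - z'_l)`, expand by `Fin.prod_univ_succ` twice in both variables (`Fin.cons_zero`, `Fin.cons_succ`): the factors are
`ζ(1+u_i+u_j)` (`i ∈ {0,1}`, `j ∈ {2,3}`; `Pi4 u ∏ ζ(1+u_i+u_j) = ∏ zE(1+u_i+u_j)`, `ResThreeAux.zE_add`-type: `zE (1+z) = z ζ(1+z)` for `z ≠ 0`, `P4f18dfV.zE_of_ne`),
`ζ(1+u₀+w_j-(y_j-x)i) ζ(1+u₁+w_j-(y_j-x)i)` and `ζ(1+u₂+w_j+(y_j-x)i) ζ(1+u₃+w_j+(y_j-x)i)` (`ZU`), and `∏_i ∏_l ζ(1+w_i+w_l+(y_i-y_l)i) = ∏_i ζ(1+2w_i) · ZW` (`Finset.mul_prod_erase`). Compare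
`rr_hh` in P07318f/HHreg.lean (`n = 1`).
`rn_eq`: `gn_eq` inside the torus integral (`torusIntegral_const_mul` or `torusIntegral_smul`).
`hhn_sym`: `HFn` is symmetric: `AA` is symmetric in `z` and in `z'` (swap of the first two arguments: `Afac` is a product over `Fin (n+2)`, `Fin.prod_univ_succ` twice; see `hh_sym`), `ZU` and the product of
the `zE` too (`ring` inside the product over `j`).
-/

set_option autoImplicit false

namespace Pool.Agent.P07318g

open MeasureTheory Complex Pool.Agent.P07318s Pool.Agent.P07318f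

namespace GnEqAux

lemma zE_add {z : ℂ} (hz : z ≠ 0) : P4f18dfV.zE (1 + z) = z * riemannZeta (1 + z) := by
  rw [P4f18dfV.zE_of_ne]
  · ring
  · intro h
    apply hz
    linear_combination h

/-- the product over pairs of free variables -/
lemma zz_prod {n : ℕ} (y : Fin n → ℝ) (w : Fin n → ℂ) :
    ∏ i, ∏ l, riemannZeta (1 + w i + w l + (y i - y l) * I) =
      (∏ j, riemannZeta (1 + 2 * w j)) * ZW y w := by
  unfold ZW
  rw [← Finset.prod_mul_distrib]
  refine Finset.prod_congr rfl fun i _ => ?_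
  rw [← Finset.mul_prod_erase Finset.univ _ (Finset.mem_univ i)]
  congr 2
  ring

lemma aa_perm {k : ℕ} (σ : Equiv.Perm (Fin k)) (z z' : Fin k → ℂ) : AA (z ∘ σ) z' = AA z z' := by
  unfold AA Afac
  congr 1
  funext p
  congr 1
  · exact Equiv.prod_comp σ (fun l => ∏ j, (1 - ((p : ℕ) : ℂ) ^ (-1 - z l + z' j)))
  · congr 1
    funext θ
    simp only [Finset.prod_mul_distrib]
    congr 1
    exact Equiv.prod_comp σ (fun j => (1 - ee θ / ((p : ℕ) : ℂ) ^ (1 / 2 + z j))⁻¹)

lemma aa_perm' {k : ℕ} (σ : Equiv.Perm (Fin k)) (z z' : Fin k → ℂ) : AA z (z' ∘ σ) = AA z z' := by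
  unfold AA Afac
  congr 1
  funext p
  congr 1
  · refine Finset.prod_congr rfl fun l _ => ?_
    exact Equiv.prod_comp σ (fun j => (1 - ((p : ℕ) : ℂ) ^ (-1 - z l + z' j)))
  · congr 1
    funext θ
    simp only [Finset.prod_mul_distrib]
    congr 1
    exact Equiv.prod_comp σ (fun j => (1 - ee (-θ) / ((p : ℕ) : ℂ) ^ (1 / 2 - z' j))⁻¹)

lemma cons_swap {n : ℕ} (a b : ℂ) (f : Fin n → ℂ) :
    (Fin.cons b (Fin.cons a f) : Fin (n + 2) → ℂ) =
      (Fin.cons a (Fin.cons b f) : Fin (n + 2) → ℂ) ∘ (Equiv.swap 0 1) := by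
  funext j
  have h10 : (1 : Fin (n + 2)) = Fin.succ 0 := rfl
  refine Fin.cases ?_ (fun i => Fin.cases ?_ (fun l => ?_) i) j
  · rw [Function.comp_apply, Equiv.swap_apply_left, h10]
    rfl
  · rw [Function.comp_apply, ← h10, Equiv.swap_apply_right, h10]
    rfl
  · rw [Function.comp_apply, Equiv.swap_apply_of_ne_of_ne]
    · rfl
    · exact Fin.succ_ne_zero _
    · rw [h10]
      intro h
      exact Fin.succ_ne_zero _ (Fin.succ_injective _ h)

end GnEqAux

open GnEqAux

theorem gn_eq {n : ℕ} (x : ℝ) (y : Fin n → ℝ) (u : Fin 4 → ℂ) (w : Fin n → ℂ) (h : Pi4 u ≠ 0) :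
    Pi4 u * Gn x y u w = (∏ j, riemannZeta (1 + 2 * w j)) * HFn x y u w := by
  have h02 : u 0 + u 2 ≠ 0 := by
    intro h'
    apply h
    unfold Pi4
    rw [h']
    ring
  have h03 : u 0 + u 3 ≠ 0 := by
    intro h'
    apply h
    unfold Pi4
    rw [h']
    ring
  have h12 : u 1 + u 2 ≠ 0 := by
    intro h'
    apply h
    unfold Pi4
    rw [h']
    ring
  have h13 : u 1 + u 3 ≠ 0 := by
    intro h'
    apply h
    unfold Pi4
    rw [h']
    ring
  have e02 := zE_add h02
  have e03 := zE_add h03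
  have e12 := zE_add h12
  have e13 := zE_add h13
  rw [← add_assoc] at e02 e03 e12 e13
  have hprod : ∏ i, ∏ j, riemannZeta (1 + zv x y u w i - zv' x y u w j) =
      (riemannZeta (1 + u 0 + u 2) * riemannZeta (1 + u 0 + u 3) *
        (riemannZeta (1 + u 1 + u 2) * riemannZeta (1 + u 1 + u 3))) *
      (ZU x y u w * ((∏ j, riemannZeta (1 + 2 * w j)) * ZW y w)) := by
    have f0 : ∀ i, ∏ j, riemannZeta (1 + zv x y u w i - zv' x y u w j) =
        riemannZeta (1 + zv x y u w i - (-u 2 + x * I)) *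
        (riemannZeta (1 + zv x y u w i - (-u 3 + x * I)) *
          ∏ j : Fin n, riemannZeta (1 + zv x y u w i - (-w j + y j * I))) := by
      intro i
      rw [Fin.prod_univ_succ, Fin.prod_univ_succ]
      rfl
    have f1 : ∏ i, (riemannZeta (1 + zv x y u w i - (-u 2 + x * I)) *
        (riemannZeta (1 + zv x y u w i - (-u 3 + x * I)) *
          ∏ j : Fin n, riemannZeta (1 + zv x y u w i - (-w j + y j * I)))) =
        (riemannZeta (1 + (u 0 + x * I) - (-u 2 + x * I)) *
        (riemannZeta (1 + (u 0 + x * I) - (-u 3 + x * I)) *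
          ∏ j : Fin n, riemannZeta (1 + (u 0 + x * I) - (-w j + y j * I)))) *
        ((riemannZeta (1 + (u 1 + x * I) - (-u 2 + x * I)) *
        (riemannZeta (1 + (u 1 + x * I) - (-u 3 + x * I)) *
          ∏ j : Fin n, riemannZeta (1 + (u 1 + x * I) - (-w j + y j * I)))) *
        ∏ i : Fin n, (riemannZeta (1 + (w i + y i * I) - (-u 2 + x * I)) *
        (riemannZeta (1 + (w i + y i * I) - (-u 3 + x * I)) *
          ∏ j : Fin n, riemannZeta (1 + (w i + y i * I) - (-w j + y j * I))))) := by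
      rw [Fin.prod_univ_succ, Fin.prod_univ_succ]
      rfl
    simp only [f0]
    rw [f1]
    have g00 : 1 + (u 0 + x * I) - (-u 2 + x * I) = 1 + u 0 + u 2 := by ring
    have g01 : 1 + (u 0 + x * I) - (-u 3 + x * I) = 1 + u 0 + u 3 := by ring
    have g10 : 1 + (u 1 + x * I) - (-u 2 + x * I) = 1 + u 1 + u 2 := by ring
    have g11 : 1 + (u 1 + x * I) - (-u 3 + x * I) = 1 + u 1 + u 3 := by ring
    have g02 : ∀ j : Fin n, 1 + (u 0 + x * I) - (-w j + y j * I) =
        1 + u 0 + w j - (y j - x) * I := fun j => by ring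
    have g12 : ∀ j : Fin n, 1 + (u 1 + x * I) - (-w j + y j * I) =
        1 + u 1 + w j - (y j - x) * I := fun j => by ring
    have g20 : ∀ j : Fin n, 1 + (w j + y j * I) - (-u 2 + x * I) =
        1 + u 2 + w j + (y j - x) * I := fun j => by ring
    have g21 : ∀ j : Fin n, 1 + (w j + y j * I) - (-u 3 + x * I) =
        1 + u 3 + w j + (y j - x) * I := fun j => by ring
    have g22 : ∀ i j : Fin n, 1 + (w i + y i * I) - (-w j + y j * I) =
        1 + w i + w j + (y i - y j) * I := fun i j => by ring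
    simp only [g00, g01, g10, g11, g02, g12, g20, g21, g22]
    rw [← zz_prod]
    unfold ZU
    simp only [Finset.prod_mul_distrib]
    ring
  unfold Gn GG
  rw [hprod]
  unfold HFn Pi4
  rw [e02, e03, e12, e13]
  ring

theorem rn_eq {n : ℕ} (x : ℝ) (y : Fin n → ℝ) (u : Fin 4 → ℂ) (h : Pi4 u ≠ 0) : Rn x y u = RR (HHn x y) u := by
  unfold RR Rn HHn
  have hfun : (fun w : Fin n → ℂ => (∏ j, (X2 (y j) (w j) / w j)) * Gn x y u w) =
      fun w => (Pi4 u)⁻¹ * ((∏ j, (X2 (y j) (w j) / w j * riemannZeta (1 + 2 * w j))) *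
        HFn x y u w) := by
    funext w
    rw [Finset.prod_mul_distrib, mul_assoc, ← gn_eq x y u w h]
    field_simp
  rw [hfun, torusIntegral_const_mul]
  ring

theorem hhn_sym {n : ℕ} (x : ℝ) (y : Fin n → ℝ) : Sym4 (HHn x y) := by
  have key : ∀ (u v : Fin 4 → ℂ), (∀ w, HFn x y u w = HFn x y v w) → HHn x y u = HHn x y v := by
    intro u v h
    unfold HHn
    simp only [h]
  intro a b c d
  refine ⟨key _ _ fun w => ?_, key _ _ fun w => ?_⟩
  · have h1 : zv x y ![b, a, c, d] w = zv x y ![a, b, c, d] w ∘ (Equiv.swap 0 1) := by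
      unfold zv
      exact cons_swap _ _ _
    have h2 : zv' x y ![b, a, c, d] w = zv' x y ![a, b, c, d] w := rfl
    have h3 : ZU x y ![b, a, c, d] w = ZU x y ![a, b, c, d] w := by
      unfold ZU
      refine Finset.prod_congr rfl fun j _ => ?_
      simp only [Matrix.cons_val_zero, Matrix.cons_val_one, Matrix.cons_val]
      ring
    unfold HFn
    rw [h1, h2, h3, aa_perm]
    simp only [Matrix.cons_val_zero, Matrix.cons_val_one, Matrix.cons_val]
    ring
  · have h1 : zv' x y ![a, b, d, c] w = zv' x y ![a, b, c, d] w ∘ (Equiv.swap 0 1) := by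
      unfold zv'
      exact cons_swap _ _ _
    have h2 : zv x y ![a, b, d, c] w = zv x y ![a, b, c, d] w := rfl
    have h3 : ZU x y ![a, b, d, c] w = ZU x y ![a, b, c, d] w := by
      unfold ZU
      refine Finset.prod_congr rfl fun j _ => ?_
      simp only [Matrix.cons_val_zero, Matrix.cons_val_one, Matrix.cons_val]
      ring
    unfold HFn
    rw [h1, h2, h3, aa_perm']
    simp only [Matrix.cons_val_zero, Matrix.cons_val_one, Matrix.cons_val]
    ring

end Pool.Agent.P07318g
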