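import Pool.Agent.Lib.P07318g.HolB
import Pool.Agent.Lib.P07318g.GnEq
import Pool.Agent.Lib.P07318g.AvB
import Pool.Agent.Lib.P07318f.SAvg

/-!
# The main term `Mn`

PROOF. `mn_eq`: copy of `mxy_eq` (P07318f/FullSum.lean): `s_avg` and `rn_eq` if `Pi4 ≠ 0`, otherwise `vdm z = 0`. `mn_bound`: `mn_eq`, `hhn_hol` and `av_bound` with `κ = min (ε / (20 (n+1)²)) (1/1000)`:
`‖Mn‖ ≤ C_κ U^(10(n+1)²κ) (16U)^(2κ) ≤ C U^ε` (`10 (n+1)² κ + 2κ ≤ 12 (n+1)² κ`). `mn_cont`: `Mn x y = (4 (2πi)⁴)⁻¹ ∯ K x y z`, `K = HHn x y ![z0,z1,-z2,-z3] X2 x ((z0+z1-z2-z3)/2) vdm z (z1-z0)(z3-z2) / ∏ z_i⁴`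
(`vdm z = (z1-z0)(z3-z2) Pi4 ![z0,z1,-z2,-z3]`; equality of the integrands for all `z`), continuous in `(x, y, z)` for `|z_i| = 1/16` (`hhn_cont`: `|Im z_i| + 1/4 < 1 < |y_j - x|`), `tor_cont` with the open set
`{p | 0 < p.1 ∧ ..}`. (See `phi_comp`, `m_cont` in P07318f/MBound.lean, `n = 1`.)
-/

set_option autoImplicit false

namespace Pool.Agent.P07318g

open MeasureTheory Complex Pool.Agent.P07318s Pool.Agent.P07318f

namespace MnBAux

lemma rn_term {n : ℕ} (x : ℝ) (y : Fin n → ℝ) (z : Fin 4 → ℂ) :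
    RR (HHn x y) ![z 0, z 1, -z 2, -z 3] * X2 x ((z 0 + z 1 - z 2 - z 3) / 2) * vdm z ^ 2 / ∏ i, z i ^ 4 =
      Rn x y ![z 0, z 1, -z 2, -z 3] * X2 x ((z 0 + z 1 - z 2 - z 3) / 2) * vdm z ^ 2 / ∏ i, z i ^ 4 := by
  by_cases h : Pi4 ![z 0, z 1, -z 2, -z 3] = 0
  · have h1 : vdm z = 0 := by
      unfold Pi4 at h
      simp only [Matrix.cons_val_zero, Matrix.cons_val_one, Matrix.cons_val] at h
      have e : vdm z = (z 1 - z 0) * (z 3 - z 2) *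
          ((z 0 + -z 2) * (z 0 + -z 3) * ((z 1 + -z 2) * (z 1 + -z 3))) := by
        unfold vdm
        ring
      rw [e, h, mul_zero]
    rw [h1]
    simp
  · rw [rn_eq x y _ h]

lemma mn_phi {n : ℕ} (x : ℝ) (y : Fin n → ℝ) : Mn x y = (4 * (2 * Real.pi * I) ^ 4)⁻¹ *
    ∯ z in T((0 : Fin 4 → ℂ), fun _ => 1 / 16), MBoundAux.Phi (HHn x y) x z := by
  unfold Mn
  congr 1
  congr 1
  funext z
  rw [← rn_term, AvBAux.integrand_eq]

lemma rgn_open (n : ℕ) : IsOpen {p : ℝ × (Fin n → ℝ) | 0 < p.1 ∧ (∀ j, 0 < p.2 j) ∧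
    (∀ j, 1 < |p.2 j - p.1|) ∧ ∀ i j, i ≠ j → 1 < |p.2 i - p.2 j|} := by
  have hc : ∀ j : Fin n, Continuous fun p : ℝ × (Fin n → ℝ) => p.2 j :=
    fun j => (continuous_apply j).comp continuous_snd
  have h1 : IsOpen {p : ℝ × (Fin n → ℝ) | 0 < p.1} := isOpen_lt continuous_const continuous_fst
  have h2 : IsOpen {p : ℝ × (Fin n → ℝ) | ∀ j, 0 < p.2 j} := by
    rw [Set.setOf_forall]
    exact isOpen_iInter_of_finite fun j => isOpen_lt continuous_const (hc j)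
  have h3 : IsOpen {p : ℝ × (Fin n → ℝ) | ∀ j, 1 < |p.2 j - p.1|} := by
    rw [Set.setOf_forall]
    exact isOpen_iInter_of_finite fun j =>
      isOpen_lt continuous_const ((hc j).sub continuous_fst).abs
  have h4 : IsOpen {p : ℝ × (Fin n → ℝ) | ∀ i j, i ≠ j → 1 < |p.2 i - p.2 j|} := by
    rw [Set.setOf_forall]
    refine isOpen_iInter_of_finite fun i => ?_
    rw [Set.setOf_forall]
    refine isOpen_iInter_of_finite fun j => ?_
    by_cases hij : i = j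
    · simp [hij]
    · have : {p : ℝ × (Fin n → ℝ) | i ≠ j → 1 < |p.2 i - p.2 j|} =
          {p : ℝ × (Fin n → ℝ) | 1 < |p.2 i - p.2 j|} := by
        ext p
        simp [hij]
      rw [this]
      exact isOpen_lt continuous_const ((hc i).sub (hc j)).abs
  exact h1.inter (h2.inter (h3.inter h4))

end MnBAux

open MnBAux

theorem mn_eq {n : ℕ} (x : ℝ) (y : Fin n → ℝ) (L B : ℝ) (hx : 0 < x) (hL : 1 / 2 ≤ L) (hH : Hol4 L B (HHn x y)) :
    av (fun s => Six (HHn x y) x s) = Mn x y := by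
  rw [s_avg x L B (HHn x y) hx hL hH (hhn_sym x y)]
  unfold Mn
  congr 1
  congr 1
  funext z
  exact rn_term x y z

theorem mn_bound (n : ℕ) (ε : ℝ) (hε : 0 < ε) : ∃ κ : ℝ, 0 < κ ∧ κ ≤ 1 / 1000 ∧ ∀ B : ℝ, ∃ C : ℝ, 0 < C ∧ ∀ (U x : ℝ)
    (y : Fin n → ℝ), 1 ≤ U → U ≤ x → x ≤ 16 * U → (∀ j, U ≤ y j) → (∀ j, y j ≤ 16 * U) →
    GoodN κ (U ^ κ) (B * U ^ κ) x y → ‖Mn x y‖ ≤ C * U ^ ε := by
  have hn : (0 : ℝ) < ((n : ℝ) + 1) ^ 2 := by positivity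
  have hn1 : (1 : ℝ) ≤ ((n : ℝ) + 1) ^ 2 := by
    have h0 : (0 : ℝ) ≤ n := Nat.cast_nonneg n
    nlinarith
  obtain ⟨κ, hκd⟩ : ∃ κ : ℝ, κ = min (ε / (20 * ((n : ℝ) + 1) ^ 2)) (1 / 1000) := ⟨_, rfl⟩
  have hκ : 0 < κ := by
    rw [hκd]
    exact lt_min (by positivity) (by norm_num)
  have hκ1 : κ ≤ 1 / 1000 := by rw [hκd]; exact min_le_right _ _
  have hκε : κ ≤ ε / (20 * ((n : ℝ) + 1) ^ 2) := by rw [hκd]; exact min_le_left _ _
  refine ⟨κ, hκ, hκ1, ?_⟩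
  intro B
  obtain ⟨C, hC, hCH⟩ := hhn_hol n κ hκ hκ1 B
  obtain ⟨D, hD, hav⟩ := av_bound κ hκ (by linarith)
  refine ⟨D * C * 16, by positivity, ?_⟩
  intro U x y hU hx1 hx2 hy1 hy2 hgood
  have hU0 : 0 < U := by linarith
  have hx : 1 ≤ x := by linarith
  have hL : 1 / 2 ≤ U ^ κ := by
    have := Real.one_le_rpow hU hκ.le
    linarith
  have hH := hCH U x y hU hx1 hx2 hy1 hy2 hgood
  have h1 := hav x _ _ (HHn x y) hx hL hH (hhn_sym x y)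
  rw [mn_eq x y _ _ (by linarith) hL hH] at h1
  have h2 : x ^ (2 * κ) ≤ 16 * U ^ (2 * κ) := by
    calc x ^ (2 * κ) ≤ (16 * U) ^ (2 * κ) := Real.rpow_le_rpow (by linarith) hx2 (by positivity)
      _ = 16 ^ (2 * κ) * U ^ (2 * κ) := Real.mul_rpow (by norm_num) hU0.le
      _ ≤ 16 * U ^ (2 * κ) := by
        apply mul_le_mul_of_nonneg_right _ (by positivity)
        calc (16 : ℝ) ^ (2 * κ) ≤ 16 ^ (1 : ℝ) :=
              Real.rpow_le_rpow_of_exponent_le (by norm_num) (by linarith)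
          _ = 16 := Real.rpow_one _
  have h3 : U ^ (10 * ((n : ℝ) + 1) ^ 2 * κ) * U ^ (2 * κ) ≤ U ^ ε := by
    rw [← Real.rpow_add hU0]
    apply Real.rpow_le_rpow_of_exponent_le hU
    rw [le_div_iff₀ (by positivity)] at hκε
    nlinarith
  calc ‖Mn x y‖ ≤ D * (C * U ^ (10 * ((n : ℝ) + 1) ^ 2 * κ)) * x ^ (2 * κ) := h1
    _ ≤ D * (C * U ^ (10 * ((n : ℝ) + 1) ^ 2 * κ)) * (16 * U ^ (2 * κ)) := by gcongr
    _ = D * C * 16 * (U ^ (10 * ((n : ℝ) + 1) ^ 2 * κ) * U ^ (2 * κ)) := by ring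
    _ ≤ D * C * 16 * U ^ ε := by gcongr

theorem mn_cont (n : ℕ) : ContinuousOn (fun p : ℝ × (Fin n → ℝ) => Mn p.1 p.2)
    {p | 0 < p.1 ∧ (∀ j, 0 < p.2 j) ∧ (∀ j, 1 < |p.2 j - p.1|) ∧ ∀ i j, i ≠ j → 1 < |p.2 i - p.2 j|} := by
  obtain ⟨Rg, hRg⟩ : ∃ Rg : Set (ℝ × (Fin n → ℝ)), Rg = {p | 0 < p.1 ∧ (∀ j, 0 < p.2 j) ∧
    (∀ j, 1 < |p.2 j - p.1|) ∧ ∀ i j, i ≠ j → 1 < |p.2 i - p.2 j|} := ⟨_, rfl⟩
  have hRgo : IsOpen Rg := by
    rw [hRg]
    exact rgn_open n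
  rw [← hRg]
  have h1 : (fun p : ℝ × (Fin n → ℝ) => Mn p.1 p.2) = fun p => (4 * (2 * Real.pi * I) ^ 4)⁻¹ *
      ∯ z in T((0 : Fin 4 → ℂ), fun _ => 1 / 16), MBoundAux.Phi (HHn p.1 p.2) p.1 z := by
    funext p
    exact mn_phi p.1 p.2
  rw [h1]
  apply ContinuousOn.mul continuousOn_const
  apply tor_cont (by norm_num : (0 : ℝ) ≤ 1 / 16)
    (fun (p : ℝ × (Fin n → ℝ)) z => MBoundAux.Phi (HHn p.1 p.2) p.1 z) Rg hRgo
  obtain ⟨S, hS⟩ : ∃ S : Set ((ℝ × (Fin n → ℝ)) × (Fin 4 → ℂ)),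
    S = Rg ×ˢ {w | ∀ j, ‖w j‖ = 1 / 16} := ⟨_, rfl⟩
  have hmem : ∀ q ∈ S, (0 < q.1.1 ∧ (∀ j, 0 < q.1.2 j) ∧ (∀ j, 1 < |q.1.2 j - q.1.1|) ∧
      ∀ i j, i ≠ j → 1 < |q.1.2 i - q.1.2 j|) ∧ ∀ j, ‖q.2 j‖ = 1 / 16 := by
    intro q hq
    rw [hS, Set.mem_prod, hRg] at hq
    exact hq
  rw [← hS]
  have cz : ∀ j, Continuous (fun q : (ℝ × (Fin n → ℝ)) × (Fin 4 → ℂ) => q.2 j) :=
    fun j => (continuous_apply j).comp continuous_snd
  have c2 : ContinuousOn (fun q : (ℝ × (Fin n → ℝ)) × (Fin 4 → ℂ) =>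
      HHn q.1.1 q.1.2 ![q.2 0, q.2 1, -q.2 2, -q.2 3]) S := by
    have hc : Continuous (fun q : (ℝ × (Fin n → ℝ)) × (Fin 4 → ℂ) =>
        (q.1, (![q.2 0, q.2 1, -q.2 2, -q.2 3] : Fin 4 → ℂ))) := by
      refine continuous_fst.prodMk ?_
      apply continuous_pi
      intro i
      fin_cases i
      · exact cz 0
      · exact cz 1
      · exact (cz 2).neg
      · exact (cz 3).neg
    have h2 := (hhn_cont n).comp hc.continuousOn (s := S) (by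
      intro q hq
      obtain ⟨⟨_, hy, hxy, hyy⟩, hw⟩ := hmem q hq
      have hn : ∀ i : Fin 4, ‖(![q.2 0, q.2 1, -q.2 2, -q.2 3] : Fin 4 → ℂ) i‖ = 1 / 16 := by
        intro i
        fin_cases i
        · exact hw 0
        · exact hw 1
        · show ‖-q.2 2‖ = 1 / 16
          rw [norm_neg]
          exact hw 2
        · show ‖-q.2 3‖ = 1 / 16
          rw [norm_neg]
          exact hw 3
      refine ⟨hy, ?_, ?_, ?_⟩
      · intro i
        refine lt_of_le_of_lt (abs_re_le_norm _) ?_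
        have := hn i
        simp only
        rw [this]
        norm_num
      · intro i j
        have h3 : |((![q.2 0, q.2 1, -q.2 2, -q.2 3] : Fin 4 → ℂ) i).im| ≤ 1 / 16 := by
          refine (abs_im_le_norm _).trans ?_
          rw [hn i]
        have := hxy j
        simp only
        linarith
      · intro i j hij
        have := hyy i j hij
        simp only
        linarith)
    exact h2
  have c4 : ContinuousOn (fun q : (ℝ × (Fin n → ℝ)) × (Fin 4 → ℂ) =>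
      X2 q.1.1 ((q.2 0 + q.2 1 - q.2 2 - q.2 3) / 2)) S := by
    unfold X2
    apply ContinuousOn.cpow
    · exact (Complex.continuous_ofReal.comp
        ((continuous_fst.comp continuous_fst).div_const _)).continuousOn
    · exact (((((cz 0).add (cz 1)).sub (cz 2)).sub (cz 3)).div_const 2).continuousOn
    · intro q hq
      rw [Complex.ofReal_mem_slitPlane]
      have := (hmem q hq).1.1
      positivity
  have c5 : Continuous (fun q : (ℝ × (Fin n → ℝ)) × (Fin 4 → ℂ) =>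
      vdm q.2 * ((q.2 1 - q.2 0) * (q.2 3 - q.2 2))) := by
    unfold vdm
    have d : ∀ i j, Continuous (fun q : (ℝ × (Fin n → ℝ)) × (Fin 4 → ℂ) => q.2 i - q.2 j) :=
      fun i j => (cz i).sub (cz j)
    exact ((((d 1 0).mul (d 2 0)).mul (d 3 0)).mul (((d 2 1).mul (d 3 1)).mul (d 3 2))).mul
      ((d 1 0).mul (d 3 2))
  have c6 : Continuous (fun q : (ℝ × (Fin n → ℝ)) × (Fin 4 → ℂ) => ∏ i, q.2 i ^ 4) :=
    continuous_finsetProd _ fun i _ => (cz i).pow 4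
  unfold MBoundAux.Phi
  refine ((c2.mul c4).mul c5.continuousOn).div c6.continuousOn ?_
  intro q hq
  rw [Finset.prod_ne_zero_iff]
  intro i _
  apply pow_ne_zero 4
  intro h
  have h2 := (hmem q hq).2 i
  rw [h, norm_zero] at h2
  norm_num at h2

end Pool.Agent.P07318g
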