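import Pool.Agent.Lib.P07318g.ChebN
import Pool.Agent.Lib.P07318g.BadN
import Pool.Agent.Lib.P07318g.MnB
import Pool.Agent.Lib.P07318f.Final6

/-!
# The moments with a fourth power and `n` free shifts

PROOF. Copy of the proof of `six_moment` (P07318f/Final6.lean, `n = 1`; `sandwich`, `Wts.smooth_weight`, `int_le`, `int_ge` etc. can be imported). `U = T/2`, `g(x) = gf x (x + (h - α))`, `M(x) = Mn x (x + (h - α))`.
Let `c` be the constant of `cheb_n` (with `B = 2 B₀`, `B₀` from `bad_n (kp n)`), `δ = min(c/8, 1/2000)`, `Δ₁ = T^(1-δ)`, `κ₂` the constant of `mn_bound (δ/2)`, `B₁` from `bad_n κ₂`. For `T ≤ T₀` the claim is trivial (the set has measure `≤ T^n`).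
Grid `V_i = i Δ₁`, `0 ≤ i ≤ N`, `N ≤ T^δ`; weights `Wp i`, `Wm i` as in `six_moment` (real valued, `Adm U (Δ₁/C₀)` as complex functions). Bad sets in the box `[β, β + T] = [β, β + 2U]`: (a), (b) `h` not good for `kp n` resp. `κ₂`: measure
`≤ C T^(n-κ')`; (c) `h` good and `‖En (Wp i) α h‖ > l` or `‖En (Wm i) α h‖ > l` for some `i`, `l = T^(1-c/4)`: `cheb_n`: measure `≤ 2(N+1) C U^(n+1-c) T^(-1+c/4) ≤ C T^(n-c/2)`. Outside these sets `sandwich` with `S = C U^(δ/2)`, `D = 5 Δ₁`.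
`M` is continuous on the interval (`mn_cont`, `1 < |h j - α|`, `1 < |h i - h j|`), `g` is continuous. `∫_0^V ..(t+α, t+h) dt = ∫_α^(α+V) ..(x, x + (h-α)) dx`.
-/

set_option autoImplicit false

namespace Pool.Agent.P07318g

open MeasureTheory Complex Pool.Agent.P07318s Pool.Agent.P07318f

namespace FinalNAux

open Final6Aux (zhc sandwich int_le int_ge)

theorem gf_nonneg {n : ℕ} (x : ℝ) (y : Fin n → ℝ) : 0 ≤ gf x y := by
  unfold gf
  exact mul_nonneg (by positivity) (Finset.prod_nonneg fun j _ => by positivity)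

theorem gf_cont {n : ℕ} (δ : Fin n → ℝ) : Continuous fun x : ℝ => gf x fun j => x + δ j := by
  unfold gf
  have h1 : Continuous (fun x : ℝ => ‖riemannZeta (1 / 2 + x * I)‖ ^ 4) := zhc.norm.pow 4
  refine h1.mul (continuous_finsetProd _ fun j _ => ?_)
  have h2 : Continuous fun x : ℝ => x + δ j := by fun_prop
  exact (zhc.comp h2).norm.pow 2

/-- the exponent may be taken at most one -/
theorem cheb_n' (n : ℕ) (B : ℝ) : ∃ c C : ℝ, 0 < c ∧ c ≤ 1 ∧ 0 < C ∧ ∀ (U Δ α l : ℝ) (β : Fin n → ℝ) (Ω : ℝ → ℂ), 1 ≤ U →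
    U ^ (1 - 1 / 1000 : ℝ) ≤ Δ → Δ ≤ U → 2 * U ≤ α → α ≤ 6 * U → (∀ j, 2 * U ≤ β j) → (∀ j, β j ≤ 5 * U) → Adm U Δ Ω →
    (∀ x, Ω x ≠ 0 → U ≤ x ∧ α - U ≤ x ∧ x ≤ α + 4 * U) → 0 < l →
    volume {h ∈ Set.Icc β (fun j => β j + 2 * U) | GoodN (kp n) (U ^ kp n) (B * U ^ kp n) α h ∧ l < ‖En Ω α h‖} ≤
      ENNReal.ofReal (C * U ^ ((n : ℝ) + 1 - c) / l) := by
  obtain ⟨c, C, hc, hC, h⟩ := cheb_n n B
  refine ⟨min c 1, C, lt_min hc one_pos, min_le_right _ _, hC, ?_⟩
  intro U Δ α l β Ω hU h1 h2 h3 h4 h5 h6 h7 h8 h9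
  refine (h U Δ α l β Ω hU h1 h2 h3 h4 h5 h6 h7 h8 h9).trans (ENNReal.ofReal_le_ofReal ?_)
  refine div_le_div_of_nonneg_right ?_ h9.le
  refine mul_le_mul_of_nonneg_left ?_ hC.le
  exact Real.rpow_le_rpow_of_exponent_le hU (by linarith [min_le_left c 1])

/-- Chebyshev for one weight -/
theorem chebWn {n : ℕ} {B c Cs C0 T α D l a b : ℝ} {β : Fin n → ℝ} {W : ℝ → ℝ}
    (hs : ∀ (U Δ α l : ℝ) (β : Fin n → ℝ) (Ω : ℝ → ℂ), 1 ≤ U →
    U ^ (1 - 1 / 1000 : ℝ) ≤ Δ → Δ ≤ U → 2 * U ≤ α → α ≤ 6 * U → (∀ j, 2 * U ≤ β j) → (∀ j, β j ≤ 5 * U) → Adm U Δ Ω →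
    (∀ x, Ω x ≠ 0 → U ≤ x ∧ α - U ≤ x ∧ x ≤ α + 4 * U) → 0 < l →
    volume {h ∈ Set.Icc β (fun j => β j + 2 * U) | GoodN (kp n) (U ^ kp n) (B * U ^ kp n) α h ∧ l < ‖En Ω α h‖} ≤
      ENNReal.ofReal (Cs * U ^ ((n : ℝ) + 1 - c) / l))
    (hT : 2 ≤ T) (hα1 : T ≤ α) (hα2 : α ≤ 2 * T) (hβ1 : ∀ j, T ≤ β j) (hβ2 : ∀ j, β j ≤ 2 * T)
    (hD8 : D * 8 ≤ T) (hD1 : (T / 2) ^ (1 - 1 / 1000 : ℝ) ≤ D / C0) (hD2 : D / C0 ≤ T / 2)
    (hl : 0 < l) (ha : α ≤ a) (hb : b ≤ α + T + D)
    (hWd : ContDiff ℝ 8 W) (hWl : ∀ x, x ≤ a - D → W x = 0) (hWr : ∀ x, b + D ≤ x → W x = 0)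
    (hWj : ∀ j : ℕ, j ≤ 8 → ∀ x, ‖iteratedDeriv j (fun x => (W x : ℂ)) x‖ ≤ ((D / C0)⁻¹) ^ j) :
    volume {h ∈ Set.Icc β (fun j => β j + T) | GoodN (kp n) ((T / 2) ^ kp n)
      (B * (T / 2) ^ kp n) α h ∧ l < ‖En (fun x => (W x : ℂ)) α h‖} ≤
      ENNReal.ofReal (Cs * (T / 2) ^ ((n : ℝ) + 1 - c) / l) := by
  set U : ℝ := T / 2 with hU
  have hU1 : 1 ≤ U := by rw [hU]; linarith
  have hTU : T = 2 * U := by rw [hU]; ring
  have hWx : ∀ x, W x ≠ 0 → α - D ≤ x ∧ x ≤ α + T + 2 * D := by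
    intro x hx
    constructor
    · by_contra hcon
      push Not at hcon
      exact hx (hWl x (by linarith))
    · by_contra hcon
      push Not at hcon
      exact hx (hWr x (by linarith))
  have hAdm : Adm U (D / C0) (fun x => (W x : ℂ)) := by
    refine ⟨?_, ?_, ?_, hWj⟩
    · exact (ofRealCLM.contDiff).comp hWd
    · intro x hx
      by_contra hcon
      have hW0 : W x ≠ 0 := fun h0 => hcon (by simp [h0])
      have := (hWx x hW0).1
      linarith
    · intro x hx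
      by_contra hcon
      have hW0 : W x ≠ 0 := fun h0 => hcon (by simp [h0])
      have := (hWx x hW0).2
      linarith
  have hkey := hs U (D / C0) α l β (fun x => (W x : ℂ)) hU1 hD1 hD2 (by linarith) (by linarith)
    (fun j => by linarith [hβ1 j]) (fun j => by linarith [hβ2 j]) hAdm (by
      intro x hx
      have hW0 : W x ≠ 0 := fun h0 => hx (by simp [h0])
      obtain ⟨h1, h2⟩ := hWx x hW0
      refine ⟨by linarith, by linarith, by linarith⟩) hl
  rw [← hTU] at hkey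
  exact hkey

end FinalNAux

open FinalNAux Final6Aux in
theorem moment_n (n : ℕ) : ∃ C η : ℝ, 0 < C ∧ 0 < η ∧ ∀ (T α : ℝ) (β : Fin n → ℝ), 1 ≤ T → T ≤ α → α ≤ 2 * T →
    (∀ j, T ≤ β j) → (∀ j, β j ≤ 2 * T) →
    volume {h | h ∈ Set.Icc β (fun j => β j + T) ∧ ∃ V ∈ Set.Icc 0 T, C * T ^ (1 - η) <
      ‖∫ t in (0:ℝ)..V, ((gf (t + α) (fun j => t + h j) : ℂ) - Mn (t + α) fun j => t + h j)‖} ≤
    ENNReal.ofReal (C * T ^ ((n : ℝ) - η)) := by
  have hkp0 := kp_pos n
  have hkp1 : kp n ≤ 1 / 20000 := kp_le n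
  obtain ⟨B0, Cz, kz, hB0, hCz, hkz, hz⟩ := bad_n n (kp n) hkp0 (by linarith)
  obtain ⟨c, Cs, hc, hc1, hCs, hs⟩ := cheb_n' n (2 * B0)
  obtain ⟨C0, hC0, hw⟩ := smooth_weight
  set δ : ℝ := min (c / 8) (1 / 2000) with hδ
  have hδ0 : 0 < δ := lt_min (by linarith) (by norm_num)
  have hδ1 : δ ≤ c / 8 := min_le_left _ _
  have hδ2 : δ ≤ 1 / 2000 := min_le_right _ _
  obtain ⟨κ, hκ, hκ1, hm⟩ := mn_bound n (δ / 2) (by linarith)
  obtain ⟨B1, C1, k1, hB1, hC1, hk1, hz1⟩ := bad_n n κ hκ (by linarith)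
  obtain ⟨Cm, hCm, hmb⟩ := hm (2 * B1)
  set η : ℝ := min (min (c / 4) (δ / 2)) (min kz k1) with hη
  have hη0 : 0 < η := lt_min (lt_min (by linarith) (by linarith)) (lt_min hkz hk1)
  have hη1 : η ≤ c / 4 := (min_le_left _ _).trans (min_le_left _ _)
  have hη2 : η ≤ δ / 2 := (min_le_left _ _).trans (min_le_right _ _)
  have hη3 : η ≤ kz := (min_le_right _ _).trans (min_le_left _ _)
  have hη4 : η ≤ k1 := (min_le_right _ _).trans (min_le_right _ _)
  set T0 : ℝ := C0 ^ (2000 : ℝ) + (8 : ℝ) ^ (1 / δ) + 2 with hT0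
  have hC0p : 0 < C0 := by linarith
  have hp1 : 0 < C0 ^ (2000 : ℝ) := Real.rpow_pos_of_pos hC0p _
  have hp2 : 0 < (8 : ℝ) ^ (1 / δ) := Real.rpow_pos_of_pos (by norm_num) _
  refine ⟨T0 + 3 + 10 * Cm + 8 * Cs + Cz + C1, η, by linarith, hη0, ?_⟩
  intro T α β hT1 hα1 hα2 hβ1 hβ2
  have hTpos : 0 < T := by linarith
  have hTη : 1 ≤ T ^ (1 - η) := Real.one_le_rpow hT1 (by linarith)
  set C : ℝ := T0 + 3 + 10 * Cm + 8 * Cs + Cz + C1 with hC
  have hTn0 : 0 < T ^ ((n : ℝ) - η) := Real.rpow_pos_of_pos hTpos _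
  rcases lt_or_ge T T0 with hTs | hTl
  · -- small heights
    have h1 : volume {h | h ∈ Set.Icc β (fun j => β j + T) ∧ ∃ V ∈ Set.Icc 0 T, C * T ^ (1 - η) <
      ‖∫ t in (0:ℝ)..V, ((gf (t + α) (fun j => t + h j) : ℂ) - Mn (t + α) fun j => t + h j)‖} ≤
        volume (Set.Icc β (fun j => β j + T)) := measure_mono fun h hh => hh.1
    refine h1.trans ?_
    rw [Real.volume_Icc_pi]
    have h3 : ∏ i : Fin n, ENNReal.ofReal (β i + T - β i) = ENNReal.ofReal (T ^ (n : ℝ)) := by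
      rw [Real.rpow_natCast, ENNReal.ofReal_pow hTpos.le]
      simp
    rw [h3]
    apply ENNReal.ofReal_le_ofReal
    have h2 : T0 ≤ C := by linarith
    have h4 : T ^ (n : ℝ) = T ^ ((n : ℝ) - η) * T ^ η := by
      rw [← Real.rpow_add hTpos]
      congr 1
      ring
    have h5 : T ^ η ≤ T := by
      calc T ^ η ≤ T ^ (1 : ℝ) := Real.rpow_le_rpow_of_exponent_le hT1 (by linarith)
        _ = T := Real.rpow_one T
    rw [h4, mul_comm]
    exact mul_le_mul_of_nonneg_right (by linarith) hTn0.le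
  -- large heights
  have hT2 : 2 ≤ T := by linarith
  have hC0T : C0 ≤ T ^ (1 / 2000 : ℝ) := by
    have h1 : C0 ^ (2000 : ℝ) ≤ T := by linarith
    calc C0 = (C0 ^ (2000 : ℝ)) ^ (1 / 2000 : ℝ) := by
          rw [← Real.rpow_mul hC0p.le]
          norm_num
      _ ≤ T ^ (1 / 2000 : ℝ) := Real.rpow_le_rpow hp1.le h1 (by norm_num)
  have h8 : 8 ≤ T ^ δ := by
    have h1 : (8 : ℝ) ^ (1 / δ) ≤ T := by linarith
    calc (8 : ℝ) = ((8 : ℝ) ^ (1 / δ)) ^ δ := by
          rw [← Real.rpow_mul (by norm_num), one_div_mul_cancel hδ0.ne', Real.rpow_one]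
      _ ≤ T ^ δ := Real.rpow_le_rpow hp2.le h1 hδ0.le
  set D : ℝ := T ^ (1 - δ) with hD
  have hDp : 0 < D := Real.rpow_pos_of_pos hTpos _
  have hDT : D * T ^ δ = T := by
    rw [hD, ← Real.rpow_add hTpos]
    simp
  have hD8 : D * 8 ≤ T := by
    have := mul_le_mul_of_nonneg_left h8 hDp.le
    linarith
  have hD1 : (T / 2) ^ (1 - 1 / 1000 : ℝ) ≤ D / C0 := by
    rw [le_div_iff₀ hC0p]
    calc (T / 2) ^ (1 - 1 / 1000 : ℝ) * C0 ≤ T ^ (1 - 1 / 1000 : ℝ) * T ^ (1 / 2000 : ℝ) := by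
          apply mul_le_mul _ hC0T hC0p.le (Real.rpow_nonneg hTpos.le _)
          exact Real.rpow_le_rpow (by linarith) (by linarith) (by norm_num)
      _ = T ^ (1 - 1 / 2000 : ℝ) := by
          rw [← Real.rpow_add hTpos]
          norm_num
      _ ≤ D := Real.rpow_le_rpow_of_exponent_le hT1 (by linarith)
  have hD2 : D / C0 ≤ T / 2 := by
    have h1 : D / C0 ≤ D := div_le_self hDp.le hC0
    linarith
  set l : ℝ := T ^ (1 - c / 4) with hl
  have hlp : 0 < l := Real.rpow_pos_of_pos hTpos _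
  choose Wp hWp using fun i : ℕ => hw α (α + (i + 1) * D) D hDp
    (by have : (0:ℝ) ≤ (i + 1) * D := by positivity
        linarith)
  choose Wm hWm using fun i : ℕ => hw (α + D) (max (α + D) (α + i * D - D)) D hDp
    (le_max_left _ _)
  set N : ℕ := ⌊T / D⌋₊ with hN
  have hND : (N : ℝ) * D ≤ T := by
    have h1 : (N : ℝ) ≤ T / D := Nat.floor_le (by positivity)
    rwa [le_div_iff₀ hDp] at h1
  have hiN : ∀ i ∈ Finset.range (N + 1), (i : ℝ) * D ≤ T := by
    intro i hi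
    have h1 : i ≤ N := Nat.lt_succ_iff.mp (Finset.mem_range.mp hi)
    have h2 : (i : ℝ) ≤ N := by exact_mod_cast h1
    exact (mul_le_mul_of_nonneg_right h2 hDp.le).trans hND
  -- the bad sets
  set Ba : Set (Fin n → ℝ) := {h ∈ Set.Icc β (fun j => β j + T) | ¬ GoodN (kp n) (T ^ kp n)
    (B0 * T ^ kp n) α h} with hBa
  set Bb : Set (Fin n → ℝ) := {h ∈ Set.Icc β (fun j => β j + T) |
    ¬ GoodN κ (T ^ κ) (B1 * T ^ κ) α h} with hBb
  set Bw : (ℝ → ℝ) → Set (Fin n → ℝ) := fun W => {h ∈ Set.Icc β (fun j => β j + T) |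
    GoodN (kp n) ((T / 2) ^ kp n) (2 * B0 * (T / 2) ^ kp n) α h ∧
      l < ‖En (fun x => (W x : ℂ)) α h‖} with hBw
  set R : ℝ := Cs * (T / 2) ^ ((n : ℝ) + 1 - c) / l with hR
  have hR0 : 0 ≤ R := by
    have : 0 ≤ (T / 2) ^ ((n : ℝ) + 1 - c) := Real.rpow_nonneg (by linarith) _
    positivity
  have mBa : volume Ba ≤ ENNReal.ofReal (Cz * T ^ ((n : ℝ) - kz)) :=
    hz T α β hT1 hα1 hα2 hβ1 hβ2
  have mBb : volume Bb ≤ ENNReal.ofReal (C1 * T ^ ((n : ℝ) - k1)) :=
    hz1 T α β hT1 hα1 hα2 hβ1 hβ2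
  have mBp : ∀ i ∈ Finset.range (N + 1), volume (Bw (Wp i)) ≤ ENNReal.ofReal R := by
    intro i hi
    obtain ⟨w1, w2, w3, w4, w5, w6, w7⟩ := hWp i
    have hi1 := hiN i hi
    exact chebWn hs hT2 hα1 hα2 hβ1 hβ2 hD8 hD1 hD2 hlp le_rfl (by linarith) w1 w5 w6 w7
  have mBm : ∀ i ∈ Finset.range (N + 1), volume (Bw (Wm i)) ≤ ENNReal.ofReal R := by
    intro i hi
    obtain ⟨w1, w2, w3, w4, w5, w6, w7⟩ := hWm i
    have hi1 := hiN i hi
    refine chebWn hs hT2 hα1 hα2 hβ1 hβ2 hD8 hD1 hD2 hlp (by linarith)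
      (max_le (by linarith) (by linarith)) w1 w5 w6 w7
  -- the inclusion
  have hincl : {h | h ∈ Set.Icc β (fun j => β j + T) ∧ ∃ V ∈ Set.Icc 0 T, C * T ^ (1 - η) <
      ‖∫ t in (0:ℝ)..V, ((gf (t + α) (fun j => t + h j) : ℂ) - Mn (t + α) fun j => t + h j)‖} ⊆
      (Ba ∪ Bb) ∪ ⋃ i ∈ Finset.range (N + 1), (Bw (Wp i) ∪ Bw (Wm i)) := by
    rintro h ⟨hh, V, hV, hlt⟩
    by_contra hcon
    rw [Set.mem_union, not_or, Set.mem_union, not_or] at hcon
    obtain ⟨⟨hna, hnb⟩, hnw⟩ := hcon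
    have hga : GoodN (kp n) (T ^ kp n) (B0 * T ^ kp n) α h := by
      by_contra h1
      exact hna ⟨hh, h1⟩
    have hgb : GoodN κ (T ^ κ) (B1 * T ^ κ) α h := by
      by_contra h1
      exact hnb ⟨hh, h1⟩
    have hga' := Pool.Agent.P07318g.good_half hkp0.le (by linarith) hTpos hB0.le hga
    have hgb' := Pool.Agent.P07318g.good_half hκ.le (by linarith) hTpos hB1.le hgb
    have hw' : ∀ i ∈ Finset.range (N + 1), ‖En (fun x => (Wp i x : ℂ)) α h‖ ≤ l ∧
        ‖En (fun x => (Wm i x : ℂ)) α h‖ ≤ l := by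
      intro i hi
      constructor
      · by_contra h1
        push Not at h1
        exact hnw (Set.mem_biUnion hi (Or.inl ⟨hh, hga', h1⟩))
      · by_contra h1
        push Not at h1
        exact hnw (Set.mem_biUnion hi (Or.inr ⟨hh, hga', h1⟩))
    have hTk : (1:ℝ) ≤ T ^ κ := Real.one_le_rpow hT1 hκ.le
    have habs : ∀ j, 1 < |h j - α| := by
      intro j
      linarith [(hgb.1 j).1]
    have habs2 : ∀ i j, i ≠ j → 1 < |h i - h j| := by
      intro i j hij
      linarith [(hgb.2 i j hij).1]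
    obtain ⟨hV0, hVT⟩ := hV
    obtain ⟨hh1, hh2⟩ := hh
    have hh1' : ∀ j, β j ≤ h j := fun j => hh1 j
    have hh2' : ∀ j, h j ≤ β j + T := fun j => hh2 j
    -- the interval of `V`
    set i : ℕ := ⌊V / D⌋₊ with hi
    have hi1 : (i : ℝ) * D ≤ V := by
      have h1 : (i : ℝ) ≤ V / D := Nat.floor_le (by positivity)
      rwa [le_div_iff₀ hDp] at h1
    have hi2 : V ≤ (i + 1) * D := by
      have h1 : V / D < i + 1 := Nat.lt_floor_add_one _
      rw [div_lt_iff₀ hDp] at h1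
      exact h1.le
    have hiR : i ∈ Finset.range (N + 1) := by
      rw [Finset.mem_range, Nat.lt_succ_iff]
      exact Nat.floor_le_floor (by gcongr)
    obtain ⟨hE1, hE2⟩ := hw' i hiR
    obtain ⟨p1, p2, p3, p4, p5, p6, p7⟩ := hWp i
    obtain ⟨m1, m2, m3, m4, m5, m6, m7⟩ := hWm i
    set J : Set ℝ := Set.Icc (α - D) (α + T + 2 * D) with hJ
    set Wm' : ℝ → ℝ := if 2 ≤ i then Wm i else fun _ => 0 with hWm'
    set S : ℝ := Cm * (T / 2) ^ (δ / 2) with hS
    have hS0 : 0 ≤ S := mul_nonneg hCm.le (Real.rpow_nonneg (by linarith) _)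
    have hWpJ : IntegrableOn (Wp i) J := p1.continuous.continuousOn.integrableOn_Icc
    have hWmc : Continuous Wm' := by
      rw [hWm']
      split_ifs
      · exact m1.continuous
      · exact continuous_const
    have hWmJ : IntegrableOn Wm' J := hWmc.continuousOn.integrableOn_Icc
    have hmax : 2 ≤ i → max (α + D) (α + i * D - D) = α + i * D - D := by
      intro h2i
      have h1 : (2 : ℝ) ≤ i := by exact_mod_cast h2i
      have h2 : 2 * D ≤ i * D := mul_le_mul_of_nonneg_right h1 hDp.le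
      exact max_eq_right (by linarith)
    have hMc : ContinuousOn (fun x => Mn x fun j => x + (h j - α)) J := by
      refine ContinuousOn.comp (g := fun p : ℝ × (Fin n → ℝ) => Mn p.1 p.2)
        (f := fun x : ℝ => ((x, fun j => x + (h j - α)) : ℝ × (Fin n → ℝ))) (mn_cont n)
        (by fun_prop) ?_
      rintro x ⟨hx1, hx2⟩
      refine ⟨?_, ?_, ?_, ?_⟩
      · change 0 < x
        linarith
      · intro j
        change 0 < x + (h j - α)
        linarith [hh1' j, hβ1 j]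
      · intro j
        change 1 < |x + (h j - α) - x|
        rw [add_sub_cancel_left]
        exact habs j
      · intro i j hij
        change 1 < |x + (h i - α) - (x + (h j - α))|
        rw [show x + (h i - α) - (x + (h j - α)) = h i - h j by ring]
        exact habs2 i j hij
    have hMS : ∀ x ∈ J, ‖Mn x fun j => x + (h j - α)‖ ≤ S := by
      rintro x ⟨hx1, hx2⟩
      exact hmb (T / 2) x (fun j => x + (h j - α)) (by linarith) (by linarith) (by linarith)
        (fun j => by linarith [hh1' j, hβ1 j]) (fun j => by linarith [hh2' j, hβ2 j])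
        (good_shift hgb')
    have hDint : ∫ x in J, (Wp i x - Wm' x) ≤ 5 * D := by
      rw [integral_sub hWpJ hWmJ]
      have h1 : ∫ x in J, Wp i x ≤ (α + (i + 1) * D + D) - (α - D) := by
        refine int_le measurableSet_Icc ?_ hWpJ p3 ?_
        · have : (0:ℝ) ≤ (i + 1) * D := by positivity
          linarith
        · intro x hx
          rw [Set.mem_Icc, not_and_or, not_le, not_le] at hx
          rcases hx with hx | hx
          · exact (p5 x hx.le).le
          · exact (p6 x hx.le).le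
      by_cases h2i : 2 ≤ i
      · have h2 : (α + i * D - D) - (α + D) ≤ ∫ x in J, Wm' x := by
          have h3 : (2 : ℝ) ≤ i := by exact_mod_cast h2i
          have h4 : 2 * D ≤ i * D := mul_le_mul_of_nonneg_right h3 hDp.le
          have e : Wm' = Wm i := by rw [hWm', if_pos h2i]
          refine int_ge (by linarith) hWmJ ?_ ?_ ?_
          · rw [e]
            exact m2
          · intro x hx
            have hx1 := hx.1
            have hx2 := hx.2
            refine ⟨by linarith, by linarith⟩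
          · rw [e]
            intro x hx
            exact m4 x hx.1 (by rw [hmax h2i]; exact hx.2)
        linarith
      · have e : Wm' = fun _ => (0:ℝ) := by rw [hWm', if_neg h2i]
        have h3 : (i : ℝ) ≤ 1 := by
          have : i ≤ 1 := by omega
          exact_mod_cast this
        have h4 : i * D ≤ 1 * D := mul_le_mul_of_nonneg_right h3 hDp.le
        rw [e, integral_zero]
        linarith
    have hEm : ‖∫ x, ((Wm' x : ℝ) : ℂ) * (((gf x (fun j => x + (h j - α)) : ℝ) : ℂ) -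
        Mn x fun j => x + (h j - α))‖ ≤ l := by
      by_cases h2i : 2 ≤ i
      · have e : Wm' = Wm i := by rw [hWm', if_pos h2i]
        rw [e]
        exact hE2
      · have e : Wm' = fun _ => (0:ℝ) := by rw [hWm', if_neg h2i]
        rw [e]
        simp only [ofReal_zero, zero_mul, integral_zero, norm_zero]
        exact hlp.le
    have hsw := sandwich (p := α - D) (q := α + T + 2 * D) (α := α) (V := V) (D := 5 * D) (S := S)
      (g := fun x => gf x fun j => x + (h j - α)) (M := fun x => Mn x fun j => x + (h j - α))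
      (Wp := Wp i)
      (Wm := Wm') (gf_cont fun j => h j - α) (fun x => gf_nonneg _ _) hMc hMS hS0
      p1.continuous hWmc (by linarith) hV0 (by linarith) p2
      (fun x hx => p4 x hx.1 (by linarith [hx.2]))
      (by
        intro x hx
        rw [Set.mem_Icc, not_and_or, not_le, not_le] at hx
        rcases hx with hx | hx
        · exact p5 x hx.le
        · exact p6 x (by linarith))
      (by
        intro x
        rw [hWm']
        split_ifs
        · exact m3 x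
        · exact zero_le_one)
      (by
        intro x hx
        rw [Set.mem_Icc, not_and_or, not_le, not_le] at hx
        by_cases h2i : 2 ≤ i
        · have e : Wm' = Wm i := by rw [hWm', if_pos h2i]
          rw [e]
          rcases hx with hx | hx
          · exact m5 x (by linarith)
          · refine m6 x ?_
            rw [hmax h2i]
            linarith
        · have e : Wm' = fun _ => (0:ℝ) := by rw [hWm', if_neg h2i]
          rw [e])
      hDint
    -- the integral in the shifted variable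
    have hint : ∫ t in (0:ℝ)..V, ((gf (t + α) (fun j => t + h j) : ℂ) - Mn (t + α) fun j => t + h j) =
        ∫ x in α..(α + V), (((gf x (fun j => x + (h j - α)) : ℝ) : ℂ) -
          Mn x fun j => x + (h j - α)) := by
      have e1 : (fun t : ℝ => ((gf (t + α) (fun j => t + h j) : ℂ) - Mn (t + α) fun j => t + h j)) =
          fun t : ℝ => (fun x : ℝ => (((gf x (fun j => x + (h j - α)) : ℝ) : ℂ) -
            Mn x fun j => x + (h j - α))) (t + α) := by
        funext t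
        have e2 : (fun j => t + α + (h j - α)) = fun j => t + h j := by
          funext j
          ring
        change _ = ((gf (t + α) (fun j => t + α + (h j - α)) : ℝ) : ℂ) -
          Mn (t + α) (fun j => t + α + (h j - α))
        rw [e2]
      rw [e1, intervalIntegral.integral_comp_add_right (fun x : ℝ =>
        (((gf x (fun j => x + (h j - α)) : ℝ) : ℂ) - Mn x fun j => x + (h j - α))) α, zero_add,
        add_comm V α]
    rw [hint] at hlt
    have hl1 : l ≤ T ^ (1 - η) := Real.rpow_le_rpow_of_exponent_le hT1 (by linarith)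
    have hSD : S * D ≤ Cm * T ^ (1 - η) := by
      calc S * D ≤ (Cm * T ^ (δ / 2)) * D := by
            refine mul_le_mul_of_nonneg_right ?_ hDp.le
            refine mul_le_mul_of_nonneg_left ?_ hCm.le
            exact Real.rpow_le_rpow (by linarith) (by linarith) (by linarith)
        _ = Cm * (T ^ (δ / 2) * T ^ (1 - δ)) := by rw [hD]; ring
        _ = Cm * T ^ (1 - δ / 2) := by
            rw [← Real.rpow_add hTpos]
            congr 2
            ring
        _ ≤ Cm * T ^ (1 - η) := by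
            refine mul_le_mul_of_nonneg_left ?_ hCm.le
            exact Real.rpow_le_rpow_of_exponent_le hT1 (by linarith)
    have hfin : ‖∫ x in α..(α + V), (((gf x (fun j => x + (h j - α)) : ℝ) : ℂ) -
        Mn x fun j => x + (h j - α))‖ ≤ (3 + 10 * Cm) * T ^ (1 - η) := by
      refine hsw.trans ?_
      have hE1' : ‖∫ x, ((Wp i x : ℝ) : ℂ) * (((gf x (fun j => x + (h j - α)) : ℝ) : ℂ) -
        Mn x fun j => x + (h j - α))‖ ≤ l := hE1
      have e3 : 2 * S * (5 * D) = 10 * (S * D) := by ring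
      have e4 : (3 + 10 * Cm) * T ^ (1 - η) = 3 * T ^ (1 - η) + 10 * (Cm * T ^ (1 - η)) := by ring
      rw [e3, e4]
      linarith
    have hC3 : (3 + 10 * Cm) * T ^ (1 - η) ≤ C * T ^ (1 - η) :=
      mul_le_mul_of_nonneg_right (by linarith) (by linarith)
    linarith
  -- the measure
  refine (measure_mono hincl).trans ?_
  have hunion : volume (⋃ i ∈ Finset.range (N + 1), (Bw (Wp i) ∪ Bw (Wm i))) ≤
      ENNReal.ofReal ((N + 1) * (2 * R)) := by
    refine (measure_biUnion_finset_le _ _).trans ?_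
    have h1 : ∀ i ∈ Finset.range (N + 1), volume (Bw (Wp i) ∪ Bw (Wm i)) ≤
        ENNReal.ofReal (2 * R) := by
      intro i hi
      refine (measure_union_le _ _).trans ((add_le_add (mBp i hi) (mBm i hi)).trans ?_)
      rw [← ENNReal.ofReal_add hR0 hR0, two_mul]
    refine (Finset.sum_le_sum h1).trans ?_
    have e5 : ((N + 1 : ℕ) : ENNReal) = ENNReal.ofReal ((N : ℝ) + 1) := by
      rw [ENNReal.ofReal_add (by positivity) zero_le_one, ENNReal.ofReal_natCast,
        ENNReal.ofReal_one]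
      push_cast
      exact rfl
    have e7 : (0 : ℝ) ≤ (N : ℝ) + 1 := by positivity
    have e6 : ENNReal.ofReal (((N : ℝ) + 1) * (2 * R)) =
        ENNReal.ofReal ((N : ℝ) + 1) * ENNReal.ofReal (2 * R) := ENNReal.ofReal_mul e7
    rw [Finset.sum_const, Finset.card_range, nsmul_eq_mul, e5, e6]
  have hsum : volume ((Ba ∪ Bb) ∪ ⋃ i ∈ Finset.range (N + 1), (Bw (Wp i) ∪ Bw (Wm i))) ≤
      ENNReal.ofReal (Cz * T ^ ((n : ℝ) - kz) + C1 * T ^ ((n : ℝ) - k1) + (N + 1) * (2 * R)) := by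
    have q1 : 0 ≤ Cz * T ^ ((n : ℝ) - kz) := by positivity
    have q2 : 0 ≤ C1 * T ^ ((n : ℝ) - k1) := by positivity
    have q3 : 0 ≤ ((N : ℝ) + 1) * (2 * R) := by positivity
    rw [ENNReal.ofReal_add (add_nonneg q1 q2) q3, ENNReal.ofReal_add q1 q2]
    refine (measure_union_le _ _).trans (add_le_add ?_ hunion)
    exact (measure_union_le _ _).trans (add_le_add mBa mBb)
  refine hsum.trans (ENNReal.ofReal_le_ofReal ?_)
  have r1 : Cz * T ^ ((n : ℝ) - kz) ≤ Cz * T ^ ((n : ℝ) - η) := by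
    refine mul_le_mul_of_nonneg_left ?_ hCz.le
    exact Real.rpow_le_rpow_of_exponent_le hT1 (by linarith)
  have r2 : C1 * T ^ ((n : ℝ) - k1) ≤ C1 * T ^ ((n : ℝ) - η) := by
    refine mul_le_mul_of_nonneg_left ?_ hC1.le
    exact Real.rpow_le_rpow_of_exponent_le hT1 (by linarith)
  have r3 : ((N : ℝ) + 1) * (2 * R) ≤ 8 * Cs * T ^ ((n : ℝ) - η) := by
    have hN1 : (N : ℝ) + 1 ≤ 2 * T ^ δ := by
      have h1 : (N : ℝ) ≤ T / D := Nat.floor_le (by positivity)
      have h2 : T / D = T ^ δ := by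
        rw [div_eq_iff hDp.ne', mul_comm]
        exact hDT.symm
      have h3 : (1:ℝ) ≤ T ^ δ := Real.one_le_rpow hT1 hδ0.le
      linarith
    have hn0 : (0 : ℝ) ≤ n := Nat.cast_nonneg n
    have hR1 : R ≤ Cs * T ^ ((n : ℝ) - 3 * c / 4) := by
      rw [hR]
      have h1 : (T / 2) ^ ((n : ℝ) + 1 - c) ≤ T ^ ((n : ℝ) + 1 - c) :=
        Real.rpow_le_rpow (by linarith) (by linarith) (by linarith)
      have h3 : T ^ ((n : ℝ) + 1 - c) / T ^ (1 - c / 4) = T ^ ((n : ℝ) - 3 * c / 4) := by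
        rw [← Real.rpow_sub hTpos]
        congr 1
        ring
      calc Cs * (T / 2) ^ ((n : ℝ) + 1 - c) / l ≤ Cs * T ^ ((n : ℝ) + 1 - c) / l := by gcongr
        _ = Cs * (T ^ ((n : ℝ) + 1 - c) / l) := by ring
        _ = Cs * T ^ ((n : ℝ) - 3 * c / 4) := by rw [hl, h3]
    calc ((N : ℝ) + 1) * (2 * R) ≤ (2 * T ^ δ) * (2 * (Cs * T ^ ((n : ℝ) - 3 * c / 4))) := by
          apply mul_le_mul hN1 _ (by linarith) (by positivity)
          linarith
      _ = 4 * Cs * (T ^ δ * T ^ ((n : ℝ) - 3 * c / 4)) := by ring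
      _ = 4 * Cs * T ^ ((n : ℝ) - 3 * c / 4 + δ) := by
          rw [← Real.rpow_add hTpos]
          congr 2
          ring
      _ ≤ 4 * Cs * T ^ ((n : ℝ) - η) := by
          refine mul_le_mul_of_nonneg_left ?_ (by linarith)
          exact Real.rpow_le_rpow_of_exponent_le hT1 (by linarith)
      _ ≤ 8 * Cs * T ^ ((n : ℝ) - η) := by
          have : 0 ≤ Cs * T ^ ((n : ℝ) - η) := by positivity
          linarith
  have hT00 : 0 ≤ T0 := by linarith
  have r4 : (Cz + C1 + 8 * Cs) * T ^ ((n : ℝ) - η) ≤ C * T ^ ((n : ℝ) - η) :=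
    mul_le_mul_of_nonneg_right (by linarith) hTn0.le
  linarith

end Pool.Agent.P07318g
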