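import Pool.Agent.Lib.P07318g.DefsB
import Pool.Agent.Lib.P07318f.ResThree

/-!
# `HFn` on the line of absolute convergence

PROOF. As `ResThreeAux.pa_bound`, `za_line`, `gI_cont` in P07318f/ResThree.lean (case `n = 1`). `(zv .., zv' ..) ∈ RegA (n + 2)` (`3/20 < 1/6`). The zeta factors have arguments with real part
`≥ 1 + 3/20 - 1/10 = 1 + 1/20` (`ZU`) and `1 + 3/10` (`ZW`): bounded by `zeta_bound_re (1/20)`, continuous (`differentiableAt_riemannZeta`, `≠ 1`). `‖zE (1 + u_i + u_j)‖ ≤ C (5 L)²` (`zE_bound (1/2)`).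
-/

set_option autoImplicit false

namespace Pool.Agent.P07318g

open MeasureTheory Complex Pool.Agent.P07318s Pool.Agent.P07318f

namespace HFlineAux

lemma mem_RegA {n : ℕ} {x : ℝ} {y : Fin n → ℝ} {u : Fin 4 → ℂ} {w : Fin n → ℂ}
    (hu : ∀ i, |(u i).re| < 1 / 10) (h1 : ∀ j, -(1 / 6) < (w j).re) :
    (zv x y u w, zv' x y u w) ∈ RegA (n + 2) := by
  have a0 := abs_lt.1 (hu 0)
  have a1 := abs_lt.1 (hu 1)
  have a2 := abs_lt.1 (hu 2)
  have a3 := abs_lt.1 (hu 3)
  constructor
  · intro j
    refine Fin.cases ?_ (fun j => Fin.cases ?_ (fun j => ?_) j) j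
    · simp [zv]
      linarith [a0.1]
    · simp [zv]
      linarith [a1.1]
    · simp [zv]
      linarith [h1 j]
  · intro j
    refine Fin.cases ?_ (fun j => Fin.cases ?_ (fun j => ?_) j) j
    · simp [zv']
      linarith [a2.1]
    · simp [zv']
      linarith [a3.1]
    · simp [zv']
      linarith [h1 j]

lemma ln_re {n : ℕ} (c : ℝ) (v : Fin n → ℝ) (j : Fin n) : (ln c v j).re = c := by
  simp [ln]

lemma re_p (n : ℕ) {u : Fin 4 → ℂ} (hu : ∀ i, |(u i).re| < 1 / 10) (v : Fin n → ℝ) (i : Fin 4)
    (j : Fin n) (t : ℂ) (ht : t.re = 0) : 1 + 1 / 20 ≤ (1 + u i + ln (3 / 20) v j + t).re := by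
  have a := abs_lt.1 (hu i)
  rw [add_re, add_re, add_re, one_re, ln_re, ht]
  linarith [a.1]

lemma ti_re (a b : ℝ) : (((a : ℂ) - b) * I).re = 0 := by simp

lemma ti_re' (a b : ℝ) : (-(((a : ℂ) - b) * I)).re = 0 := by simp

end HFlineAux

open HFlineAux in
theorem line_bound (n : ℕ) : ∃ C : ℝ, 0 < C ∧ ∀ (L x : ℝ) (y : Fin n → ℝ) (u : Fin 4 → ℂ) (v : Fin n → ℝ), 1 ≤ L → u ∈ Bx L →
    ‖HFn x y u (ln (3 / 20) v)‖ ≤ C * L ^ 8 := by
  obtain ⟨C1, hC1, h1⟩ := aa_bound (n + 2)
  obtain ⟨C2, hC2, h2⟩ := zE_bound (1 / 2) (by norm_num)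
  obtain ⟨Cz, hCz, hz⟩ := zeta_bound_re (1 / 20) (by norm_num)
  refine ⟨C1 * (25 * C2) ^ 4 * ((Cz ^ 4) ^ n * (Cz ^ (n - 1)) ^ n), by positivity, ?_⟩
  intro L x y u v hL hu
  have hu' : ∀ i, |(u i).re| < 1 / 10 := fun i => (hu i).1
  have hA := (h1 _ (mem_RegA (x := x) (y := y) (w := ln (3 / 20) v) hu'
    (fun j => by rw [ln_re]; norm_num))).2
  have hzE : ∀ i j, ‖P4f18dfV.zE (1 + u i + u j)‖ ≤ 25 * C2 * L ^ 2 := by
    intro i j
    have ni : ∀ k, ‖u k‖ ≤ 1 / 10 + L := fun k =>
      (Complex.norm_le_abs_re_add_abs_im _).trans (add_le_add (hu k).1.le (hu k).2.le)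
    have hre : (1 / 2 : ℝ) ≤ (1 + u i + u j).re := by
      have ai := abs_lt.1 (hu' i)
      have aj := abs_lt.1 (hu' j)
      simp only [add_re, one_re]
      linarith [ai.1, aj.1]
    have hn : ‖1 + u i + u j‖ ≤ 1 + (1 / 10 + L) + (1 / 10 + L) := by
      refine (norm_add_le _ _).trans (add_le_add ((norm_add_le _ _).trans ?_) (ni j))
      rw [norm_one]
      exact add_le_add le_rfl (ni i)
    calc ‖P4f18dfV.zE (1 + u i + u j)‖ ≤ C2 * (1 + ‖1 + u i + u j‖) ^ 2 := h2 _ hre
      _ ≤ C2 * (5 * L) ^ 2 := by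
          apply mul_le_mul_of_nonneg_left _ hC2.le
          apply pow_le_pow_left₀ (by positivity)
          linarith
      _ = 25 * C2 * L ^ 2 := by ring
  have hZU : ‖ZU x y u (ln (3 / 20) v)‖ ≤ (Cz ^ 4) ^ n := by
    unfold ZU
    rw [norm_prod]
    calc _ ≤ ∏ _j : Fin n, Cz ^ 4 := by
          refine Finset.prod_le_prod (fun j _ => norm_nonneg _) fun j _ => ?_
          have p : ∀ i, ‖riemannZeta (1 + u i + ln (3 / 20) v j + (y j - x) * I)‖ ≤ Cz := fun i =>
            hz _ (re_p n hu' v i j _ (ti_re _ _))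
          have m : ∀ i, ‖riemannZeta (1 + u i + ln (3 / 20) v j - (y j - x) * I)‖ ≤ Cz := fun i => by
            rw [sub_eq_add_neg]
            exact hz _ (re_p n hu' v i j _ (ti_re' _ _))
          rw [norm_mul, norm_mul, norm_mul]
          calc _ ≤ Cz * Cz * (Cz * Cz) := by
                gcongr
                · exact m 0
                · exact m 1
                · exact p 2
                · exact p 3
            _ = Cz ^ 4 := by ring
      _ = _ := by rw [Finset.prod_const, Finset.card_univ, Fintype.card_fin]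
  have hZW : ‖ZW y (ln (3 / 20) v)‖ ≤ (Cz ^ (n - 1)) ^ n := by
    unfold ZW
    rw [norm_prod]
    calc _ ≤ ∏ _j : Fin n, Cz ^ (n - 1) := by
          refine Finset.prod_le_prod (fun j _ => norm_nonneg _) fun i _ => ?_
          rw [norm_prod]
          calc _ ≤ ∏ _l ∈ Finset.univ.erase i, Cz := by
                refine Finset.prod_le_prod (fun j _ => norm_nonneg _) fun l _ => ?_
                apply hz
                rw [add_re, add_re, add_re, one_re, ln_re, ln_re, ti_re]
                norm_num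
            _ = Cz ^ (n - 1) := by
                rw [Finset.prod_const, Finset.card_erase_of_mem (Finset.mem_univ i), Finset.card_univ,
                  Fintype.card_fin]
      _ = _ := by rw [Finset.prod_const, Finset.card_univ, Fintype.card_fin]
  unfold HFn
  rw [norm_mul, norm_mul, norm_mul, norm_mul, norm_mul, norm_mul]
  calc _ ≤ C1 * (25 * C2 * L ^ 2 * (25 * C2 * L ^ 2) * (25 * C2 * L ^ 2 * (25 * C2 * L ^ 2))) *
        ((Cz ^ 4) ^ n * (Cz ^ (n - 1)) ^ n) := by
        gcongr
        · exact hzE 0 2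
        · exact hzE 0 3
        · exact hzE 1 2
        · exact hzE 1 3
    _ = _ := by ring

open HFlineAux in
theorem line_cont {n : ℕ} (x : ℝ) (y : Fin n → ℝ) (u : Fin 4 → ℂ) (hu : ∀ i, |(u i).re| < 1 / 10) :
    Continuous fun v : Fin n → ℝ => HFn x y u (ln (3 / 20) v) := by
  have hln : ∀ j, Continuous fun v : Fin n → ℝ => ln (3 / 20) v j := by
    intro j
    unfold ln
    exact continuous_const.add ((continuous_ofReal.comp (continuous_apply j)).mul continuous_const)
  have hne1 : ∀ z : ℂ, 1 + 1 / 20 ≤ z.re → z ≠ 1 := by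
    intro z hz h
    rw [h] at hz
    norm_num at hz
  have hzc : ∀ (g : (Fin n → ℝ) → ℂ), Continuous g → (∀ v, 1 + 1 / 20 ≤ (g v).re) →
      Continuous fun v => riemannZeta (g v) := by
    intro g hg h
    refine continuous_iff_continuousAt.2 fun v => ?_
    exact ContinuousAt.comp (g := riemannZeta)
      (differentiableAt_riemannZeta (hne1 _ (h v))).continuousAt hg.continuousAt
  have hAA : Continuous fun v : Fin n → ℝ =>
      AA (zv x y u (ln (3 / 20) v)) (zv' x y u (ln (3 / 20) v)) := by
    refine (aa_cont (n + 2)).comp_continuous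
      (f := fun v : Fin n → ℝ => (zv x y u (ln (3 / 20) v), zv' x y u (ln (3 / 20) v))) ?_ ?_
    · refine Continuous.prodMk (continuous_pi fun j => ?_) (continuous_pi fun j => ?_)
      · refine Fin.cases ?_ (fun j => Fin.cases ?_ (fun j => ?_) j) j
        · exact continuous_const
        · exact continuous_const
        · exact (hln j).add continuous_const
      · refine Fin.cases ?_ (fun j => Fin.cases ?_ (fun j => ?_) j) j
        · exact continuous_const
        · exact continuous_const
        · exact (hln j).neg.add continuous_const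
    · intro v
      exact mem_RegA hu (fun j => by rw [ln_re]; norm_num)
  have hZU : Continuous fun v : Fin n → ℝ => ZU x y u (ln (3 / 20) v) := by
    unfold ZU
    refine continuous_finsetProd _ fun j _ => ?_
    have p : ∀ i, Continuous fun v : Fin n → ℝ =>
        riemannZeta (1 + u i + ln (3 / 20) v j + (y j - x) * I) := fun i =>
      hzc _ ((continuous_const.add (hln j)).add continuous_const)
        fun v => re_p n hu v i j _ (ti_re _ _)
    have m : ∀ i, Continuous fun v : Fin n → ℝ =>
        riemannZeta (1 + u i + ln (3 / 20) v j - (y j - x) * I) := fun i =>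
      hzc _ ((continuous_const.add (hln j)).sub continuous_const) fun v => by
        rw [sub_eq_add_neg]
        exact re_p n hu v i j _ (ti_re' _ _)
    exact ((m 0).mul (m 1)).mul ((p 2).mul (p 3))
  have hZW : Continuous fun v : Fin n → ℝ => ZW y (ln (3 / 20) v) := by
    unfold ZW
    refine continuous_finsetProd _ fun i _ => continuous_finsetProd _ fun l _ => ?_
    refine hzc _ (((continuous_const.add (hln i)).add (hln l)).add continuous_const) fun v => ?_
    rw [add_re, add_re, add_re, one_re, ln_re, ln_re, ti_re]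
    norm_num
  exact (hAA.mul continuous_const).mul (hZU.mul hZW)

end Pool.Agent.P07318g
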