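import Pool.Agent.Lib.P07318g.DirZn
import Pool.Agent.Lib.P07318g.HFline
import Pool.Agent.Lib.P07318g.GnEq
import Pool.Agent.Lib.P07318f.OmMel

/-!
# The sum over the tuples as a multiple integral

PROOF. As `ResThreeAux.tt_int`, `pi4_tt` (P07318f/ResThree.lean, `n = 1`). `c = 3/20`. By `om_mellin` for each `j`, `∏_j Om (hgt (q j)) (y j) = (π^n)⁻¹ ∫_{v : Fin n → ℝ} ∏_j exp(w_j²)/w_j X2 (y j) (w_j) (hgt (q j))^(-w_j) ζ(1+2w_j)`
(`integral_fintype_prod_eq_prod` / `integral_fin_nat_prod_eq_prod`, `Integrable.fintype_prod`), `w = ln (3/20) v`. Interchange of `∑_q` and `∫ dv` (`hasSum_integral_of_summable_integral_norm`): the integral of the norm of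
the `q`-th term is `(∫ ∏ ‖A_j(v_j)‖) ∏ hgt^(-(1/2+3/20)) ‖EE (rp q)‖`, summable by `dir_zn`. The sum of the terms is `∏ pe-without-zeta .. · ∑' tq`, and
`ζ(1+u₁+u₃) (∏ ζ(1+2w_j)) ∑' q, tq x y u w q = Gn x y u w` (`dir_zn`: `Re (u_i + w_j) ≥ 3/20 - 1/10 > 0`), `Pi4 u * Gn x y u w = (∏ ζ(1+2w_j)) HFn x y u w` (`gn_eq`, `Pi4 u ≠ 0` by `RegE` and `u 1 + u 3 ≠ 0`).
(Note `TTn` is `TA (wn y (y - x)) rp u` and `wn` is the product of `hgt^(-1/2) Om · ex`.) `mel_int`: `∏ ‖pe (y j) (w_j)‖ ≤ C ∏ exp(-v_j²)`, `HFn` bounded (`line_bound` with `L` large) and continuous.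
-/

set_option autoImplicit false

namespace Pool.Agent.P07318g

open MeasureTheory Complex Pool.Agent.P07318s Pool.Agent.P07318f

namespace MelNAux

/-- the integrand of `om_mellin` on the line `Re = 3/20` -/
noncomputable def fo (h y t : ℝ) : ℂ :=
  cexp ((((3 / 20 : ℝ) : ℂ) + t * I) ^ 2) / (((3 / 20 : ℝ) : ℂ) + t * I) *
    (X2 y (((3 / 20 : ℝ) : ℂ) + t * I) * (h : ℂ) ^ (-(((3 / 20 : ℝ) : ℂ) + t * I)) *
      riemannZeta (1 + 2 * (((3 / 20 : ℝ) : ℂ) + t * I)))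

theorem fo_int {h y : ℝ} (hh : 1 ≤ h) (hy : 0 < y) : Integrable (fo h y) :=
  (om_mellin (c := 3 / 20) (by norm_num) hh hy).1

theorem om_fo {h y : ℝ} (hh : 1 ≤ h) (hy : 0 < y) :
    (Om h y : ℂ) = (Real.pi : ℂ)⁻¹ * ∫ t : ℝ, fo h y t :=
  (om_mellin (c := 3 / 20) (by norm_num) hh hy).2

/-- the product of the integrals of `om_mellin` -/
theorem prod_om {n : ℕ} {y : Fin n → ℝ} (hy : ∀ j, 0 < y j) {h : Fin n → ℝ} (hh : ∀ j, 1 ≤ h j) :
    Integrable (fun v : Fin n → ℝ => ∏ j, fo (h j) (y j) (v j)) ∧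
    ∏ j, (Om (h j) (y j) : ℂ) = ((Real.pi : ℂ) ^ n)⁻¹ * ∫ v : Fin n → ℝ, ∏ j, fo (h j) (y j) (v j) := by
  constructor
  · exact Integrable.fintype_prod fun j => fo_int (hh j) (hy j)
  · rw [integral_fintype_prod_volume_eq_prod]
    rw [Finset.prod_congr rfl fun j _ => om_fo (hh j) (hy j), Finset.prod_mul_distrib,
      Finset.prod_const, Finset.card_univ, Fintype.card_fin, inv_pow]

theorem fo_eq {h y : ℝ} (hh : 0 < h) (t : ℝ) (e : ℂ) :
    fo h y t * ((((h ^ (-(1 / 2) : ℝ) : ℝ)) : ℂ) * e) =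
      pe y (((3 / 20 : ℝ) : ℂ) + t * I) * ((h : ℂ) ^ (-(1 / 2 + (((3 / 20 : ℝ) : ℂ) + t * I))) * e) := by
  have h5 : (h : ℂ) ^ (-(1 / 2 + (((3 / 20 : ℝ) : ℂ) + t * I))) =
      (h : ℂ) ^ (-(((3 / 20 : ℝ) : ℂ) + t * I)) * (h : ℂ) ^ (((-(1 / 2) : ℝ)) : ℂ) := by
    rw [← Complex.cpow_add _ _ (by exact_mod_cast hh.ne')]
    congr 1
    push_cast
    ring
  rw [h5, Complex.ofReal_cpow hh.le]
  unfold fo pe
  ring

end MelNAux

open MelNAux in
theorem mel_n {n : ℕ} (x : ℝ) (y : Fin n → ℝ) (u : Fin 4 → ℂ) (hy : ∀ j, 0 < y j) (hu : ∀ i, |(u i).re| < 1 / 10)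
    (hE : u ∈ RegE) (h13 : u 1 + u 3 ≠ 0) :
    Pi4 u * TTn x y u = ((Real.pi : ℂ) ^ n)⁻¹ *
      ∫ v : Fin n → ℝ, (∏ j, pe (y j) (ln (3 / 20) v j)) * HFn x y u (ln (3 / 20) v) := by
  have hlre : ∀ (v : Fin n → ℝ) j, (ln (3 / 20) v j).re = 3 / 20 := by
    intro v j
    simp [ln]
  have hD := fun v : Fin n → ℝ => dir_zn x y u (ln (3 / 20) v) hE
    (fun i => by have := abs_lt.1 (hu i); linarith [this.1])
    (fun j => by rw [hlre]; norm_num) (fun j => by rw [hlre]) (fun i j => by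
      rw [add_re, hlre]
      have := abs_lt.1 (hu i)
      linarith [this.1])
  set E : (Fin n → Q) → ℂ := fun q => EE (rp q).1.1 (rp q).1.2 (u 0) (u 1) (u 2) (u 3) with hEdef
  set K : (Fin n → Q) → ℂ := fun q =>
    (∏ j, (((((hgt (q j).1) ^ (-(1 / 2) : ℝ) : ℝ)) : ℂ) * ex (y j - x) (q j).1)) * E q with hK
  set F : (Fin n → Q) → (Fin n → ℝ) → ℂ := fun q v =>
    (∏ j, fo (hgt (q j).1) (y j) (v j)) * K q with hF
  have hom := fun q : Fin n → Q => prod_om hy (h := fun j => hgt (q j).1)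
    (fun j => one_le_hgt (q j).1)
  have hFi : ∀ q, Integrable (F q) := fun q => (hom q).1.mul_const _
  have hOmF : ∀ q : Fin n → Q, (∏ j, (Om (hgt (q j).1) (y j) : ℂ)) * K q =
      ((Real.pi : ℂ) ^ n)⁻¹ * ∫ v, F q v := by
    intro q
    rw [(hom q).2, mul_assoc, ← integral_mul_const]
  set A : (Fin n → ℝ) → ℂ := fun v => ∏ j, pe (y j) (ln (3 / 20) v j) with hA
  have hFA : ∀ q v, F q v = A v * tq x y u (ln (3 / 20) v) q := by
    intro q v
    simp only [hF, hK, hA]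
    unfold tq
    rw [← mul_assoc, ← mul_assoc, ← Finset.prod_mul_distrib, ← Finset.prod_mul_distrib]
    congr 1
    refine Finset.prod_congr rfl fun j _ => ?_
    exact fo_eq (hgt_pos (q j).1) (v j) _
  have htqn : ∀ q (v : Fin n → ℝ), ‖tq x y u (ln (3 / 20) v) q‖ =
      (∏ j, (hgt (q j).1) ^ (-(1 / 2 + 3 / 20 : ℝ))) * ‖E q‖ := by
    intro q v
    unfold tq
    rw [norm_mul, norm_prod]
    congr 1
    refine Finset.prod_congr rfl fun j _ => ?_
    rw [norm_mul, norm_ex, mul_one, Complex.norm_cpow_eq_rpow_re_of_pos (hgt_pos (q j).1)]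
    congr 1
    rw [neg_re, add_re, hlre]
    norm_num
  have hsum : Summable fun q : Fin n → Q => ∫ v, ‖F q v‖ := by
    have h1 : ∀ q : Fin n → Q, ∫ v, ‖F q v‖ = (∫ v, ‖A v‖) *
        ((∏ j, (hgt (q j).1) ^ (-(1 / 2 + 3 / 20 : ℝ))) * ‖E q‖) := by
      intro q
      rw [← integral_mul_const]
      refine integral_congr_ae (Filter.Eventually.of_forall fun v => ?_)
      simp only
      rw [hFA, norm_mul, htqn]
    have h2 := (hD 0).1
    simp only [hlre] at h2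
    exact (h2.mul_left (∫ v, ‖A v‖)).congr (fun q => (h1 q).symm)
  have hHS := hasSum_integral_of_summable_integral_norm hFi hsum
  have hT : TTn x y u = riemannZeta (1 + u 1 + u 3) * (((Real.pi : ℂ) ^ n)⁻¹ *
      ∫ v, ∑' q, F q v) := by
    unfold TTn TA
    have h6 : ((Real.pi : ℂ) ^ n)⁻¹ * ∫ v, ∑' q, F q v =
        ∑' q : Fin n → Q, ((Real.pi : ℂ) ^ n)⁻¹ * ∫ v, F q v := by
      rw [← hHS.tsum_eq, tsum_mul_left]
    rw [h6]
    congr 1
    refine tsum_congr fun q => ?_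
    rw [← hOmF q]
    simp only [hK]
    unfold wn
    rw [← mul_assoc, ← Finset.prod_mul_distrib]
    congr 1
    refine Finset.prod_congr rfl fun j _ => ?_
    push_cast
    ring
  have hne : ∀ z : ℂ, 0 < z.re → z ≠ 0 := by
    intro z hz h
    rw [h] at hz
    exact lt_irrefl _ hz
  have hPi : Pi4 u ≠ 0 := by
    unfold Pi4
    exact mul_ne_zero (mul_ne_zero (hne _ hE.2.2) (hne _ hE.1)) (mul_ne_zero (hne _ hE.2.1) h13)
  have e1 : Pi4 u * TTn x y u = ((Real.pi : ℂ) ^ n)⁻¹ *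
      (Pi4 u * riemannZeta (1 + u 1 + u 3) * ∫ v, ∑' q, F q v) := by
    rw [hT]
    ring
  rw [e1, ← integral_const_mul]
  congr 1
  refine integral_congr_ae (Filter.Eventually.of_forall fun v => ?_)
  simp only
  have h4 : ∑' q, F q v = A v * ∑' q, tq x y u (ln (3 / 20) v) q := by
    rw [← tsum_mul_left]
    exact tsum_congr fun q => hFA q v
  have h7 := gn_eq x y u (ln (3 / 20) v) hPi
  rw [← (hD v).2] at h7
  set Z : ℂ := ∏ j, riemannZeta (1 + 2 * ln (3 / 20) v j) with hZ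
  set B : ℂ := ∏ j, (cexp (ln (3 / 20) v j ^ 2) / ln (3 / 20) v j * X2 (y j) (ln (3 / 20) v j)) with hB
  have h8 : A v = B * Z := by
    simp only [hA, hB, hZ]
    rw [← Finset.prod_mul_distrib]
    refine Finset.prod_congr rfl fun j _ => ?_
    unfold pe
    ring
  rw [h4, h8]
  calc Pi4 u * riemannZeta (1 + u 1 + u 3) * (B * Z * ∑' q, tq x y u (ln (3 / 20) v) q) =
      B * (Pi4 u * (riemannZeta (1 + u 1 + u 3) * (Z * ∑' q, tq x y u (ln (3 / 20) v) q))) := by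
        ring
    _ = B * (Z * HFn x y u (ln (3 / 20) v)) := by rw [h7]
    _ = B * Z * HFn x y u (ln (3 / 20) v) := by ring
    _ = A v * HFn x y u (ln (3 / 20) v) := by rw [h8]

end Pool.Agent.P07318g
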