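import Pool.Agent.Lib.P07318g.DefsB
import Pool.Agent.Lib.P07318s.Tele
import Pool.Agent.Lib.P07318s.OneVar
import Pool.Agent.Lib.P07318s.MainPoint

/-!
# From the lines `Re w = cn n` to the torus

PROOF. `L = U^κ`, `c = cn n`, `r = c/2`. First `tele` (P07318s/Tele.lean) with the curves `g₁ v = c + iv` on `[-L, L]`, `p₁ = exp(g₁²)/g₁ ζ(1+2g₁)`, and `g₂ θ = r exp(iθ)` on `[0, 2π]`,
`p₂ θ = I⁻¹ (r exp(iθ) i) ζ(1+2g₂)/g₂` (see `torus_eq`, and the last part of `MainPoint.main_pos` in P07318s/MainPoint.lean for the same step), `F' w = (∏ X2 (y j) (w j)) F w`, `P = {z | |Re z| ≤ c, |Im z| ≤ L} \ {0}`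
or just the union of the two curves. `‖p_i‖ ≤ M` (`M` depends on `n`), `ℓ = 2 L M` (`M ≥ 4`). For `w ∈ P^n`, `j`: `one_var` with `e = 7/20`, `r`, `c`, `X = y_j/2π`, `Y = L`,
`f s = (∏_{i ≠ j} X2 (y_i) (w_i)) F (Function.update w j s)`, bounded by `(16 U^c)^(n-1) B`, differentiable for `-3/20 ≤ Re s ≤ c`, `|Im s| ≤ L`
(`HolW.holo` at `Function.update w j s`, `Function.update_idem`): error `C (16 U^c)^(n-1) B ((y_j/2π)^(-3/20) + (y_j/2π)^c exp(-L²/2)) ≤ C B U^(1/40 - 3/20)` (`n c ≤ 1/40`, `cn_n`). Total: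
`n ℓ^(n-1) E ≤ C B U^((n-1)κ + 1/40 - 3/20) ≤ C B U^(-1/10)` (`n κ ≤ 1/1000`). Then `torus_radius` from `r` to `1/8`: the integrand is continuous for `r ≤ |w_j| ≤ 1/8` and differentiable in each variable there
(`HolW`; `1/8 < 4/25`, `1/8 < 3/2 L`; `ζ(1+2w)`, `w ≠ 0`). If `n = 0` everything is an equality.
-/

set_option autoImplicit false

namespace Pool.Agent.P07318g

open MeasureTheory Complex Pool.Agent.P07318s Pool.Agent.P07318f

namespace ShCircAux

/-- the integrand -/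
noncomputable def ff {n : ℕ} (y : Fin n → ℝ) (F : (Fin n → ℂ) → ℂ) (w : Fin n → ℂ) : ℂ :=
  (∏ j, (X2 (y j) (w j) / w j * riemannZeta (1 + 2 * w j))) * F w

/-- the remaining factors -/
noncomputable def fr {n : ℕ} (y : Fin n → ℝ) (F : (Fin n → ℂ) → ℂ) (w : Fin n → ℂ) (j : Fin n) (s : ℂ) : ℂ :=
  (∏ i ∈ Finset.univ.erase j, (X2 (y i) (w i) / w i * riemannZeta (1 + 2 * w i))) *
    F (Function.update w j s)

lemma ff_update {n : ℕ} (y : Fin n → ℝ) (F : (Fin n → ℂ) → ℂ) (w : Fin n → ℂ) (j : Fin n) (s : ℂ) :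
    ff y F (Function.update w j s) =
      ((y j / (2 * Real.pi) : ℝ) : ℂ) ^ s * riemannZeta (1 + 2 * s) / s * fr y F w j s := by
  unfold ff fr
  rw [← Finset.mul_prod_erase Finset.univ _ (Finset.mem_univ j), Function.update_self]
  have h1 : ∏ i ∈ Finset.univ.erase j, (X2 (y i) (Function.update w j s i) / Function.update w j s i *
      riemannZeta (1 + 2 * Function.update w j s i)) =
      ∏ i ∈ Finset.univ.erase j, (X2 (y i) (w i) / w i * riemannZeta (1 + 2 * w i)) := by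
    refine Finset.prod_congr rfl fun i hi => ?_
    rw [Function.update_of_ne (Finset.ne_of_mem_erase hi)]
  rw [h1]
  unfold X2
  ring

lemma z_ne {w : ℂ} (hw : w ≠ 0) : 1 + 2 * w ≠ 1 := by
  intro h
  apply hw
  have : 2 * w = 0 := by linear_combination h
  simpa using this

lemma X2_ne {y : ℝ} (hy : 0 < y) : ((y / (2 * Real.pi) : ℝ) : ℂ) ≠ 0 := by
  have : (0:ℝ) < y / (2 * Real.pi) := div_pos hy (by positivity)
  exact_mod_cast this.ne'

lemma fac_cont {n : ℕ} {y : Fin n → ℝ} (hy : ∀ j, 0 < y j) {S : Set (Fin n → ℂ)}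
    (hS : ∀ w ∈ S, ∀ j, w j ≠ 0) :
    ContinuousOn (fun w : Fin n → ℂ => ∏ j, (X2 (y j) (w j) / w j * riemannZeta (1 + 2 * w j))) S := by
  refine continuousOn_finsetProd _ fun j _ => ?_
  refine ContinuousOn.mul (ContinuousOn.div ?_ (continuous_apply j).continuousOn fun w hw => hS w hw j) ?_
  · unfold X2
    exact (Continuous.const_cpow (continuous_apply j) (Or.inl (X2_ne (hy j)))).continuousOn
  · intro w hw
    have h1 := (differentiableAt_riemannZeta (z_ne (hS w hw j))).continuousAt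
    have h2 : ContinuousWithinAt (fun w : Fin n → ℂ => 1 + 2 * w j) S w := by
      have : Continuous (fun w : Fin n → ℂ => 1 + 2 * w j) := by fun_prop
      exact this.continuousWithinAt
    exact ContinuousAt.comp_continuousWithinAt (g := riemannZeta) h1 h2

lemma ff_cont {n : ℕ} {y : Fin n → ℝ} (hy : ∀ j, 0 < y j) {L B : ℝ} {F : (Fin n → ℂ) → ℂ}
    (hF : HolW L B F) {S : Set (Fin n → ℂ)}
    (hS : ∀ w ∈ S, ∀ j, w j ≠ 0) (hSB : S ⊆ Bo n L) : ContinuousOn (ff y F) S :=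
  (fac_cont hy hS).mul (hF.cont.mono hSB)

lemma ff_diff {n : ℕ} {y : Fin n → ℝ} (hy : ∀ j, 0 < y j) {L B : ℝ} {F : (Fin n → ℂ) → ℂ}
    (hF : HolW L B F) (w : Fin n → ℂ) (j : Fin n) {s : ℂ}
    (h0 : ∀ i, Function.update w j s i ≠ 0) (hB : Function.update w j s ∈ Bo n L) :
    DifferentiableAt ℂ (fun s => ff y F (Function.update w j s)) s := by
  unfold ff
  refine DifferentiableAt.mul ?_ ?_
  · refine DifferentiableAt.fun_finsetProd fun i _ => ?_
    refine DifferentiableAt.mul (DifferentiableAt.div ?_ (upd_diff w j s i) (h0 i)) ?_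
    · unfold X2
      exact DifferentiableAt.const_cpow (upd_diff w j s i) (Or.inl (X2_ne (hy i)))
    · have h2 : DifferentiableAt ℂ (fun s => 1 + 2 * (Function.update w j s) i) s :=
        (differentiableAt_const _).add ((differentiableAt_const _).mul (upd_diff w j s i))
      exact DifferentiableAt.comp (g := riemannZeta) s (differentiableAt_riemannZeta (z_ne (h0 i))) h2
  · have h := hF.holo _ hB j
    simpa only [Function.update_idem, Function.update_self] using h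

lemma fr_diff {n : ℕ} {y : Fin n → ℝ} {L B : ℝ} {F : (Fin n → ℂ) → ℂ}
    (hF : HolW L B F) (w : Fin n → ℂ) (j : Fin n) {s : ℂ} (hB : Function.update w j s ∈ Bo n L) :
    DifferentiableAt ℂ (fr y F w j) s := by
  unfold fr
  refine (differentiableAt_const _).mul ?_
  have h := hF.holo _ hB j
  simpa only [Function.update_idem, Function.update_self] using h

lemma X_le {U x a c r : ℝ} (hU : 1 ≤ U) (h1 : U ≤ x) (h2 : x ≤ 16 * U) (hr : r ≤ 1) (ha : -r ≤ a)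
    (hac : a ≤ c) (hc : 0 ≤ c) (hc1 : c ≤ 1) : (x / (2 * Real.pi)) ^ a ≤ 7 * U ^ c := by
  have hpi : (0:ℝ) < 2 * Real.pi := by positivity
  have hx : 0 < x := by linarith
  have hX : 0 < x / (2 * Real.pi) := by positivity
  have hUc : 1 ≤ U ^ c := Real.one_le_rpow hU hc
  by_cases hX1 : 1 ≤ x / (2 * Real.pi)
  · have h3 : x / (2 * Real.pi) ≤ 7 * U := by
      rw [div_le_iff₀ hpi]
      have := Real.pi_gt_three
      nlinarith
    calc (x / (2 * Real.pi)) ^ a ≤ (x / (2 * Real.pi)) ^ c := Real.rpow_le_rpow_of_exponent_le hX1 hac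
      _ ≤ (7 * U) ^ c := Real.rpow_le_rpow hX.le h3 hc
      _ = 7 ^ c * U ^ c := Real.mul_rpow (by norm_num) (by linarith)
      _ ≤ 7 ^ (1 : ℝ) * U ^ c := mul_le_mul_of_nonneg_right
          (Real.rpow_le_rpow_of_exponent_le (by norm_num) hc1) (by linarith)
      _ = 7 * U ^ c := by rw [Real.rpow_one]
  · push Not at hX1
    by_cases ha0 : 0 ≤ a
    · have := Real.rpow_le_one hX.le hX1.le ha0
      linarith
    · push Not at ha0
      have h4 : (x / (2 * Real.pi)) ^ a ≤ (x / (2 * Real.pi)) ^ (-1 : ℝ) :=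
        Real.rpow_le_rpow_of_exponent_ge hX hX1.le (by linarith)
      have h5 : (x / (2 * Real.pi)) ^ (-1 : ℝ) = 2 * Real.pi / x := by
        rw [Real.rpow_neg_one, inv_div]
      have h6 : 2 * Real.pi / x ≤ 7 := by
        rw [div_le_iff₀ hx]
        have := two_pi_le
        nlinarith
      rw [h5] at h4
      linarith

lemma fr_bound {n : ℕ} {y : Fin n → ℝ} {U c r L B CZ : ℝ} {F : (Fin n → ℂ) → ℂ} (hU : 1 ≤ U)
    (hy1 : ∀ j, U ≤ y j) (hy2 : ∀ j, y j ≤ 16 * U) (hr : 0 < r) (hrc : r < c) (hc1 : c ≤ 1 / 40)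
    (hL : 1 ≤ L) (hF : HolW L B F) (hCZ1 : 1 ≤ CZ) (w : Fin n → ℂ) (hw : ∀ i, w i ∈ PP c L r)
    (hCZ : ∀ z : ℂ, (z.re = c ∨ ‖z‖ = r) → ‖riemannZeta (1 + 2 * z)‖ ≤ CZ)
    (j : Fin n) {s : ℂ} (hs1 : -(3 / 20) ≤ s.re) (hs2 : s.re ≤ c) (hs3 : |s.im| ≤ L) :
    ‖fr y F w j s‖ ≤ (7 * U ^ c / r * CZ) ^ n * B := by
  have hcpos : 0 < c := hr.trans hrc
  have hUc : 1 ≤ U ^ c := Real.one_le_rpow hU hcpos.le
  have hr1 : r < 1 := by linarith
  have hb1 : 1 ≤ 7 * U ^ c / r := by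
    rw [le_div_iff₀ hr]
    linarith
  have hbase : 1 ≤ 7 * U ^ c / r * CZ := by nlinarith
  have hfacts := fun i => PP_facts hr hrc (hr1.le.trans hL) (hw i)
  unfold fr
  rw [norm_mul, norm_prod]
  have b1 : ∏ i ∈ Finset.univ.erase j, ‖X2 (y i) (w i) / w i * riemannZeta (1 + 2 * w i)‖ ≤
      (7 * U ^ c / r * CZ) ^ n := by
    refine prod_le_pow_of_card _ _ hbase ?_ (fun i _ => norm_nonneg _) ?_
    · refine (Finset.card_le_univ _).trans (le_of_eq (Fintype.card_fin n))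
    · intro i _
      have hy0 : 0 < y i := by linarith [hy1 i]
      have hX : (0:ℝ) < y i / (2 * Real.pi) := by positivity
      rw [norm_mul, norm_div]
      have c1 : ‖X2 (y i) (w i)‖ ≤ 7 * U ^ c := by
        unfold X2
        rw [Complex.norm_cpow_eq_rpow_re_of_pos hX]
        exact X_le hU (hy1 i) (hy2 i) hr1.le (hfacts i).2.1 (hfacts i).2.2.1 hcpos.le (by linarith)
      have c2 : ‖riemannZeta (1 + 2 * w i)‖ ≤ CZ := by
        refine hCZ (w i) ?_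
        rcases hw i with h | h
        · exact Or.inl h.1
        · exact Or.inr h
      have c3 : ‖X2 (y i) (w i)‖ / ‖w i‖ ≤ 7 * U ^ c / r :=
        div_le_div₀ (by positivity) c1 hr (hfacts i).1
      exact mul_le_mul c3 c2 (norm_nonneg _) (by positivity)
  refine mul_le_mul b1 ?_ (norm_nonneg _) (by positivity)
  refine hF.bound _ fun i => ?_
  by_cases h : i = j
  · subst h
    rw [Function.update_self]
    exact ⟨abs_le.2 ⟨hs1, by linarith⟩, hs3⟩
  · rw [Function.update_of_ne h]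
    have h1 := hfacts i
    exact ⟨abs_le.2 ⟨by linarith [h1.2.1], by linarith [h1.2.2.1]⟩, h1.2.2.2⟩

lemma pow_aux2 (n : ℕ) {U κ c r CZ B C1 C2 : ℝ} (hU : 1 ≤ U) (hr0 : 0 < r) (hB : 0 ≤ B)
    (hCZ : 0 ≤ CZ) (hC1 : 0 ≤ C1) (hC2 : 0 ≤ C2) (hY : 1 ≤ U ^ κ)
    (hkκ : n * κ ≤ 1 / 1000) (hkc : n * c ≤ 1 / 40) :
    n * (20 * U ^ κ) ^ (n - 1) * (C1 * ((7 * U ^ c / r * CZ) ^ n * B) *
      ((7 + 7 * C2) * U ^ (-(3 / 20) : ℝ))) ≤
      (n * 20 ^ n * (C1 * (7 / r * CZ) ^ n * (7 + 7 * C2)) + 1) * B * U ^ (-(1 / 10) : ℝ) := by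
  have hU0 : 0 < U := by linarith
  have c1 : (20 * U ^ κ) ^ (n - 1) ≤ (20 * U ^ κ) ^ n :=
    pow_le_pow_right₀ (by linarith) (Nat.sub_le _ _)
  have hpos : 0 ≤ C1 * ((7 * U ^ c / r * CZ) ^ n * B) * ((7 + 7 * C2) * U ^ (-(3 / 20) : ℝ)) := by
    positivity
  have c2 : n * (20 * U ^ κ) ^ (n - 1) * (C1 * ((7 * U ^ c / r * CZ) ^ n * B) *
      ((7 + 7 * C2) * U ^ (-(3 / 20) : ℝ))) ≤ n * (20 * U ^ κ) ^ n *
      (C1 * ((7 * U ^ c / r * CZ) ^ n * B) * ((7 + 7 * C2) * U ^ (-(3 / 20) : ℝ))) :=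
    mul_le_mul_of_nonneg_right (mul_le_mul_of_nonneg_left c1 (Nat.cast_nonneg n)) hpos
  have d1 : (U ^ κ) ^ n = U ^ (κ * n) := by rw [← Real.rpow_natCast, ← Real.rpow_mul hU0.le]
  have d2 : (7 * U ^ c / r * CZ) ^ n = (7 / r * CZ) ^ n * U ^ (c * n) := by
    rw [show 7 * U ^ c / r * CZ = (7 / r * CZ) * U ^ c by ring, mul_pow]
    congr 1
    rw [← Real.rpow_natCast, ← Real.rpow_mul hU0.le]
  have d4 : U ^ (κ * n + c * n + (-(3 / 20) : ℝ)) ≤ U ^ (-(1 / 10) : ℝ) :=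
    Real.rpow_le_rpow_of_exponent_le hU (by linarith)
  have d5 : U ^ (κ * n + c * n + (-(3 / 20) : ℝ)) = U ^ (κ * n) * U ^ (c * n) * U ^ (-(3 / 20) : ℝ) := by
    rw [Real.rpow_add hU0, Real.rpow_add hU0]
  refine c2.trans ?_
  rw [mul_pow, d1, d2]
  have hc : 0 ≤ n * 20 ^ n * (C1 * (7 / r * CZ) ^ n * (7 + 7 * C2)) * B := by positivity
  have h1 := mul_le_mul_of_nonneg_left d4 hc
  rw [d5] at h1
  have h2 : 0 ≤ B * U ^ (-(1 / 10) : ℝ) := by positivity
  calc n * (20 ^ n * U ^ (κ * n)) * (C1 * ((7 / r * CZ) ^ n * U ^ (c * n) * B) *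
        ((7 + 7 * C2) * U ^ (-(3 / 20) : ℝ))) =
        n * 20 ^ n * (C1 * (7 / r * CZ) ^ n * (7 + 7 * C2)) * B *
          (U ^ (κ * n) * U ^ (c * n) * U ^ (-(3 / 20) : ℝ)) := by ring
    _ ≤ n * 20 ^ n * (C1 * (7 / r * CZ) ^ n * (7 + 7 * C2)) * B * U ^ (-(1 / 10) : ℝ) := h1
    _ ≤ _ := by linarith

lemma annulus_Bo {n : ℕ} {L r : ℝ} (hL : 1 ≤ L) {w : Fin n → ℂ}
    (hw : ∀ j, r ≤ ‖w j‖ ∧ ‖w j‖ ≤ 1 / 8) : w ∈ Bo n L := by
  intro j
  have h1 := (Complex.abs_re_le_norm (w j)).trans (hw j).2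
  have h2 := (Complex.abs_im_le_norm (w j)).trans (hw j).2
  exact ⟨by linarith, by linarith⟩

lemma torus_T2 {n : ℕ} {y : Fin n → ℝ} (hy : ∀ j, 0 < y j) {L B : ℝ} (hL : 1 ≤ L)
    {F : (Fin n → ℂ) → ℂ} (hF : HolW L B F) {r : ℝ} (hr0 : 0 < r) (hr8 : r ≤ 1 / 8) :
    (I ^ n)⁻¹ * (∯ w in T((0 : Fin n → ℂ), fun _ => 1 / 8), ff y F w) =
      ∫ v in Set.Icc (fun _ : Fin n => (0:ℝ)) (fun _ => 2 * Real.pi),
        (∏ j, (r * cexp (v j * I))) * ff y F (fun j => r * cexp (v j * I)) := by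
  have e2 : (∯ w in T((0 : Fin n → ℂ), fun _ => 1 / 8), ff y F w) = ∯ w in T(0, fun _ => r), ff y F w := by
    refine torus_radius hr0 hr8 (ff y F) ?_ ?_
    · refine ff_cont hy hF ?_ ?_
      · intro w hw j h0
        have := (hw j).1
        rw [h0, norm_zero] at this
        linarith
      · intro w hw
        exact annulus_Bo hL hw
    · intro w hw j s hs1 hs2
      have hu : ∀ i, r ≤ ‖Function.update w j s i‖ ∧ ‖Function.update w j s i‖ ≤ 1 / 8 := by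
        intro i
        by_cases h : i = j
        · subst h; rw [Function.update_self]; exact ⟨hs1.le, hs2.le⟩
        · rw [Function.update_of_ne h]; exact hw i
      refine ff_diff hy hF w j ?_ (annulus_Bo hL hu)
      intro i h0
      have := (hu i).1
      rw [h0, norm_zero] at this
      linarith
  rw [e2, torus_eq]
  have e3 : ∀ v : Fin n → ℝ, (∏ j, ((r : ℂ) * cexp (v j * I) * I)) * ff y F (fun j => r * cexp (v j * I)) =
      I ^ n * ((∏ j, ((r : ℂ) * cexp (v j * I))) * ff y F (fun j => r * cexp (v j * I))) := by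
    intro v
    rw [Finset.prod_mul_distrib]
    simp only [Finset.prod_const, Finset.card_univ, Fintype.card_fin]
    ring
  simp_rw [e3]
  have hI : (I : ℂ) ^ n ≠ 0 := pow_ne_zero _ Complex.I_ne_zero
  rw [MeasureTheory.integral_const_mul, inv_mul_cancel_left₀ hI]

lemma CU_eq {n : ℕ} (L c : ℝ) (y : Fin n → ℝ) (F : (Fin n → ℂ) → ℂ) :
    CU L c y F = ∫ v in Set.Icc (fun _ : Fin n => -L) (fun _ => L),
      (∏ j, cexp (((c : ℂ) + v j * I) ^ 2)) * ff y F (fun j => (c : ℂ) + v j * I) := by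
  unfold CU
  refine integral_congr_ae (Filter.Eventually.of_forall fun v => ?_)
  simp only
  unfold ff pe ln
  rw [← mul_assoc, ← Finset.prod_mul_distrib]
  congr 1
  refine Finset.prod_congr rfl fun j _ => ?_
  ring

end ShCircAux

open ShCircAux

theorem sh_circ (n : ℕ) (κ : ℝ) (hκ : 0 < κ) (hκ1 : ((n : ℝ) + 1) * κ ≤ 1 / 1000) : ∃ C : ℝ, 0 < C ∧ ∀ (U B : ℝ)
    (y : Fin n → ℝ) (F : (Fin n → ℂ) → ℂ), 1 ≤ U → (∀ j, U ≤ y j) → (∀ j, y j ≤ 16 * U) → HolW (U ^ κ) B F →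
    ‖CU (U ^ κ) (cn n) y F - (I ^ n)⁻¹ * ∯ w in T((0 : Fin n → ℂ), fun _ => 1 / 8),
      (∏ j, (X2 (y j) (w j) / w j * riemannZeta (1 + 2 * w j))) * F w‖ ≤ C * B * U ^ (-(1 / 10) : ℝ) := by
  obtain ⟨c, hcdef⟩ : ∃ c : ℝ, c = cn n := ⟨_, rfl⟩
  obtain ⟨r, hrdef⟩ : ∃ r : ℝ, r = c / 2 := ⟨_, rfl⟩
  have hc0 : 0 < c := by rw [hcdef]; exact cn_pos n
  have hc1 : c ≤ 1 / 40 := by rw [hcdef]; exact cn_le n
  have hkc : n * c ≤ 1 / 40 := by rw [hcdef]; exact cn_n n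
  have hr0 : 0 < r := by linarith
  have hkκ : (n : ℝ) * κ ≤ 1 / 1000 := by nlinarith
  obtain ⟨CZ', hCZ0', hCZ'⟩ := zeta_P (r := r) (c := c) hr0 (by linarith) hc0
  obtain ⟨CZ, hCZdef⟩ : ∃ CZ : ℝ, CZ = max CZ' 1 := ⟨_, rfl⟩
  have hCZ1 : 1 ≤ CZ := by rw [hCZdef]; exact le_max_right _ _
  have hCZ : ∀ z : ℂ, (z.re = c ∨ ‖z‖ = r) → ‖riemannZeta (1 + 2 * z)‖ ≤ CZ := fun z hz =>
    (hCZ' z hz).trans (by rw [hCZdef]; exact le_max_left _ _)
  obtain ⟨C1, hC1, h1v⟩ := one_var (e := 7 / 20) (r := r) (c := c) hr0 (by linarith) (by linarith)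
    (by norm_num) (by linarith)
  obtain ⟨C2, hC2, hexp⟩ := exp_decay hκ
  refine ⟨n * 20 ^ n * (C1 * (7 / r * CZ) ^ n * (7 + 7 * C2)) + 1, by positivity, ?_⟩
  intro U B y F hU hy1 hy2 hF
  have hU0 : 0 < U := by linarith
  have hL : 1 ≤ U ^ κ := Real.one_le_rpow hU hκ.le
  have hypos : ∀ j, 0 < y j := fun j => by linarith [hy1 j]
  have hrL : r ≤ U ^ κ := by linarith
  have hUc : 1 ≤ U ^ c := Real.one_le_rpow hU hc0.le
  have hB : 0 ≤ B := by
    refine (norm_nonneg _).trans (hF.bound (fun _ => 0) fun j => ?_)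
    simp only [Complex.zero_re, Complex.zero_im, abs_zero]
    exact ⟨by norm_num, by linarith⟩
  set T1 : ℂ := ∫ v in Set.Icc (fun _ : Fin n => -(U ^ κ)) (fun _ => U ^ κ),
    (∏ j, cexp (((c : ℂ) + v j * I) ^ 2)) * ff y F (fun j => (c : ℂ) + v j * I) with hT1
  set T2 : ℂ := ∫ v in Set.Icc (fun _ : Fin n => (0:ℝ)) (fun _ => 2 * Real.pi),
    (∏ j, (r * cexp (v j * I))) * ff y F (fun j => r * cexp (v j * I)) with hT2
  obtain ⟨E, hE⟩ : ∃ E : ℝ, E = C1 * ((7 * U ^ c / r * CZ) ^ n * B) *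
    ((7 + 7 * C2) * U ^ (-(3 / 20) : ℝ)) := ⟨_, rfl⟩
  have hE0 : 0 ≤ E := by rw [hE]; positivity
  -- one variable
  have hone : ∀ w ∈ (Set.univ.pi fun _ : Fin n => PP c (U ^ κ) r), ∀ j : Fin n,
      ‖(∫ v in (-(U ^ κ))..(U ^ κ), cexp (((c : ℂ) + v * I) ^ 2) * ff y F (Function.update w j ((c : ℂ) + v * I))) -
      ∫ v in (0:ℝ)..(2 * Real.pi), (r * cexp (v * I)) * ff y F (Function.update w j (r * cexp (v * I)))‖ ≤ E := by
    intro w hw j
    have hw' : ∀ i, w i ∈ PP c (U ^ κ) r := fun i => hw i (Set.mem_univ i)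
    have hfacts := fun i => PP_facts hr0 (by linarith : r < c) hrL (hw' i)
    have hmem : ∀ s : ℂ, -(1 / 2) + 7 / 20 ≤ s.re → s.re ≤ c → |s.im| ≤ U ^ κ →
        Function.update w j s ∈ Bo n (U ^ κ) := by
      intro s hs1 hs2 hs3 i
      by_cases h : i = j
      · subst h
        rw [Function.update_self]
        exact ⟨abs_lt.2 ⟨by linarith, by linarith⟩, by linarith⟩
      · rw [Function.update_of_ne h]
        have h1 := hfacts i
        exact ⟨abs_lt.2 ⟨by linarith [h1.2.1], by linarith [h1.2.2.1]⟩, by linarith [h1.2.2.2]⟩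
    have h2 := h1v (y j / (2 * Real.pi)) (U ^ κ) ((7 * U ^ c / r * CZ) ^ n * B) (fr y F w j)
      (div_pos (hypos j) (by positivity)) hL (by positivity)
      (fun s hs1 hs2 hs3 => fr_diff hF w j (hmem s hs1 hs2 hs3))
      (fun s hs1 hs2 hs3 => fr_bound hU hy1 hy2 hr0 (by linarith) hc1 hL hF hCZ1 w hw' hCZ j
        (by linarith) hs2 hs3)
    rw [circ_eq r (fun s => ((y j / (2 * Real.pi) : ℝ) : ℂ) ^ s * riemannZeta (1 + 2 * s) / s *
      fr y F w j s)] at h2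
    simp_rw [ff_update]
    refine h2.trans ?_
    rw [hE]
    refine mul_le_mul_of_nonneg_left ?_ (by positivity)
    have a1 : (y j / (2 * Real.pi)) ^ (-(1 / 2) + 7 / 20 : ℝ) ≤ 7 * U ^ (-(3 / 20) : ℝ) := by
      have := X_rpow_le' (b := 3 / 20) hU (hy1 j) (by norm_num) (by norm_num)
      have e1 : (-(1 / 2) + 7 / 20 : ℝ) = -(3 / 20) := by norm_num
      rwa [e1]
    have a2 : (y j / (2 * Real.pi)) ^ c ≤ 7 * U ^ c :=
      X_le hU (hy1 j) (hy2 j) (r := r) (by linarith) (by linarith) le_rfl hc0.le (by linarith)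
    have a3 := hexp U hU
    have a4 : (y j / (2 * Real.pi)) ^ c * Real.exp (-((U ^ κ) ^ 2 / 2)) ≤ 7 * U ^ c * (C2 * U ^ (-1 : ℝ)) :=
      mul_le_mul a2 a3 (Real.exp_pos _).le (by positivity)
    have a5 : U ^ c * U ^ (-1 : ℝ) ≤ U ^ (-(3 / 20) : ℝ) := by
      rw [← Real.rpow_add hU0]
      exact Real.rpow_le_rpow_of_exponent_le hU (by linarith)
    calc (y j / (2 * Real.pi)) ^ (-(1 / 2) + 7 / 20 : ℝ) +
          (y j / (2 * Real.pi)) ^ c * Real.exp (-((U ^ κ) ^ 2 / 2))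
        ≤ 7 * U ^ (-(3 / 20) : ℝ) + 7 * C2 * (U ^ c * U ^ (-1 : ℝ)) := by
          refine add_le_add a1 (a4.trans (le_of_eq ?_))
          ring
      _ ≤ 7 * U ^ (-(3 / 20) : ℝ) + 7 * C2 * U ^ (-(3 / 20) : ℝ) := by
          have := mul_le_mul_of_nonneg_left a5 (by positivity : 0 ≤ 7 * C2)
          linarith
      _ = (7 + 7 * C2) * U ^ (-(3 / 20) : ℝ) := by ring
  -- telescoping
  have htele : ‖T1 - T2‖ ≤ n * (20 * U ^ κ) ^ (n - 1) * E := by
    refine tele (a₁ := -(U ^ κ)) (b₁ := U ^ κ) (a₂ := 0) (b₂ := 2 * Real.pi) (by linarith) (by positivity)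
      (fun v => (c : ℂ) + v * I) (fun v => r * cexp (v * I)) (fun v => cexp (((c : ℂ) + v * I) ^ 2))
      (fun v => r * cexp (v * I)) (by fun_prop) (by fun_prop) (by fun_prop) (by fun_prop)
      (M₁ := 3) (M₂ := r) ?_ ?_ ?_ ?_ hE0 (ff y F) (PP c (U ^ κ) r) ?_ ?_ ?_ hone
    · intro v _
      rw [Complex.norm_exp]
      have h1 : (((c : ℂ) + v * I) ^ 2).re ≤ 1 := by
        have : (((c : ℂ) + v * I) ^ 2).re = c ^ 2 - v ^ 2 := by
          simp [pow_two]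
        rw [this]
        nlinarith [sq_nonneg v]
      calc Real.exp (((c : ℂ) + v * I) ^ 2).re ≤ Real.exp 1 := Real.exp_le_exp.2 h1
        _ ≤ 3 := by have := Real.exp_one_lt_d9; linarith
    · intro v _
      rw [norm_mul, Complex.norm_exp_ofReal_mul_I, mul_one, Complex.norm_real, Real.norm_of_nonneg hr0.le]
    · linarith
    · have := two_pi_le
      have hr1 : r ≤ 1 := by linarith
      nlinarith [Real.pi_pos]
    · rintro z ⟨v, hv, rfl⟩
      left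
      constructor
      · simp
      · simp only [Complex.add_im, Complex.ofReal_im, Complex.mul_im, Complex.ofReal_re, Complex.I_im, mul_one,
          Complex.I_re, mul_zero, add_zero, zero_add]
        exact abs_le.2 ⟨hv.1, hv.2⟩
    · rintro z ⟨v, hv, rfl⟩
      right
      simp only []
      rw [norm_mul, Complex.norm_exp_ofReal_mul_I, mul_one, Complex.norm_real, Real.norm_of_nonneg hr0.le]
    · refine ff_cont hypos hF ?_ ?_
      · intro w hw i h0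
        have hfacts := PP_facts hr0 (by linarith : r < c) hrL (hw i (Set.mem_univ i))
        have := hfacts.1
        rw [h0, norm_zero] at this
        linarith
      · intro w hw i
        have h1 := PP_facts hr0 (by linarith : r < c) hrL (hw i (Set.mem_univ i))
        exact ⟨abs_lt.2 ⟨by linarith [h1.2.1], by linarith [h1.2.2.1]⟩, by linarith [h1.2.2.2]⟩
  have hT2e := torus_T2 hypos hL hF hr0 (by linarith : r ≤ 1 / 8)
  rw [← hcdef, CU_eq]
  have hff : (∯ w in T((0 : Fin n → ℂ), fun _ => 1 / 8),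
      (∏ j, (X2 (y j) (w j) / w j * riemannZeta (1 + 2 * w j))) * F w) =
      ∯ w in T((0 : Fin n → ℂ), fun _ => 1 / 8), ff y F w := rfl
  rw [hff, hT2e]
  refine htele.trans ?_
  rw [hE]
  exact pow_aux2 n hU hr0 hB (by linarith) hC1.le hC2.le hL hkκ hkc

end Pool.Agent.P07318g
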