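import Pool.Agent.Lib.P07318g.DefsB
import Pool.Agent.Lib.P07318g.ShCirc
import Pool.Agent.Lib.P07318f.ResThree
import Pool.Agent.Lib.P07318s.Tele
import Pool.Agent.Lib.P07318s.Crude

/-!
# Shift of the lines from `3/20` to `cn n`

PROOF. `L = U^κ`, `c = cn n = 1/(40(n+1))`. `tele` (P07318s/Tele.lean) with `a = -L`, `b = L` for both curves, `g₁ v = 3/20 + iv`, `g₂ v = c + iv`, `p_i v = exp(g²)/g ζ(1+2g)`, `F' w = (∏ X2 (y j) (w j)) F w`,
`P = {z | c ≤ Re z ≤ 3/20, |Im z| ≤ L}`. `‖p_i‖ ≤ M` with `M` depending on `n` only (`Re(1+2g) ≥ 1+2c`: `zeta_bound_re`; `|g| ≥ c`; `‖exp(g²)‖ ≤ e`), `ℓ = 2 L M`. `‖X2 (y j) z‖ = (y_j/2π)^(Re z) ≤ 16 U^(3/20)` on `P`,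
`‖F‖ ≤ B`. For `w ∈ P^n`, `j`: the function `Φ(s) = exp(s²)/s ζ(1+2s) F' (Function.update w j s)` is continuous on the closed rectangle and differentiable inside (`HolW.holo`, `HolW.cont`; `Function.update_idem`), so
by Cauchy (`Complex.integral_boundary_rect_eq_zero_of_differentiableOn`) the difference of the two vertical integrals is the difference of the two horizontal ones (times `±i`), each of norm at most
`(3/20) e · exp(-L²) c⁻¹ C (16 U^(3/20))^n B`. So `E = C B U^(3n/20) exp(-U^(2κ))`, and the total `n ℓ^(n-1) E ≤ C B U^(-1)` (`ResThreeAux.growth`-type bound: `U^a exp(-U^(2κ)/2) ≤ C`).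
-/

set_option autoImplicit false

namespace Pool.Agent.P07318g

open MeasureTheory Complex Pool.Agent.P07318s Pool.Agent.P07318f

namespace ShLineAux

open ShCircAux

/-- the closed region between the lines -/
def PL (c L : ℝ) : Set ℂ := {z | c ≤ z.re ∧ z.re ≤ 3 / 20 ∧ |z.im| ≤ L}

lemma rect {Φ : ℂ → ℂ} {c d L K : ℝ} (hcd : c ≤ d) (hL : 0 ≤ L)
    (hd : ∀ s : ℂ, c ≤ s.re → s.re ≤ d → |s.im| ≤ L → DifferentiableAt ℂ Φ s)
    (hb : ∀ s : ℂ, c ≤ s.re → s.re ≤ d → |s.im| = L → ‖Φ s‖ ≤ K) :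
    ‖(∫ v in (-L)..L, Φ ((d : ℂ) + v * I)) - ∫ v in (-L)..L, Φ ((c : ℂ) + v * I)‖ ≤
      2 * (d - c) * K := by
  have h1 := Complex.integral_boundary_rect_eq_zero_of_differentiableOn Φ ⟨c, -L⟩ ⟨d, L⟩ (by
    intro s hs
    refine (hd s ?_ ?_ ?_).differentiableWithinAt
    · have := hs.1
      simp only [Set.mem_preimage, Set.uIcc_of_le hcd] at this
      exact this.1
    · have := hs.1
      simp only [Set.mem_preimage, Set.uIcc_of_le hcd] at this
      exact this.2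
    · have := hs.2
      simp only [Set.mem_preimage, Set.uIcc_of_le (by linarith : -L ≤ L)] at this
      exact abs_le.2 ⟨this.1, this.2⟩)
  simp only [smul_eq_mul] at h1
  set T : ℂ := ∫ x : ℝ in c..d, Φ (x + (L : ℂ) * I) with hT
  set Bt : ℂ := ∫ x : ℝ in c..d, Φ (x + ((-L : ℝ) : ℂ) * I) with hBt
  set A1 : ℂ := ∫ v in (-L)..L, Φ ((d : ℂ) + v * I) with hA1
  set A2 : ℂ := ∫ v in (-L)..L, Φ ((c : ℂ) + v * I) with hA2
  have h2 : Bt - T + I * A1 - I * A2 = 0 := h1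
  have h3 : A1 - A2 = -I * (T - Bt) := by
    have hI : I * I = -1 := Complex.I_mul_I
    linear_combination (-I) * h2 + (A1 - A2) * hI
  rw [h3, norm_mul, norm_neg, Complex.norm_I, one_mul]
  have bT : ‖T‖ ≤ K * |d - c| := by
    refine intervalIntegral.norm_integral_le_of_norm_le_const fun x hx => ?_
    rw [Set.uIoc_of_le hcd] at hx
    refine hb _ ?_ ?_ ?_
    · simp only [Complex.add_re, Complex.ofReal_re, Complex.mul_re, Complex.I_re, Complex.I_im,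
        Complex.ofReal_im]
      linarith [hx.1]
    · simp only [Complex.add_re, Complex.ofReal_re, Complex.mul_re, Complex.I_re, Complex.I_im,
        Complex.ofReal_im]
      linarith [hx.2]
    · simp only [Complex.add_im, Complex.ofReal_im, Complex.mul_im, Complex.ofReal_re, Complex.I_im,
        Complex.I_re]
      rw [show 0 + (L * 1 + 0 * 0) = L by ring, abs_of_nonneg hL]
  have bB : ‖Bt‖ ≤ K * |d - c| := by
    refine intervalIntegral.norm_integral_le_of_norm_le_const fun x hx => ?_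
    rw [Set.uIoc_of_le hcd] at hx
    refine hb _ ?_ ?_ ?_
    · simp only [Complex.add_re, Complex.ofReal_re, Complex.mul_re, Complex.I_re, Complex.I_im,
        Complex.ofReal_im]
      linarith [hx.1]
    · simp only [Complex.add_re, Complex.ofReal_re, Complex.mul_re, Complex.I_re, Complex.I_im,
        Complex.ofReal_im]
      linarith [hx.2]
    · simp only [Complex.add_im, Complex.ofReal_im, Complex.mul_im, Complex.ofReal_re, Complex.I_im,
        Complex.I_re]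
      rw [show 0 + (-L * 1 + 0 * 0) = -L by ring, abs_neg, abs_of_nonneg hL]
  rw [abs_of_nonneg (by linarith)] at bT bB
  calc ‖T - Bt‖ ≤ ‖T‖ + ‖Bt‖ := norm_sub_le _ _
    _ ≤ K * (d - c) + K * (d - c) := add_le_add bT bB
    _ = 2 * (d - c) * K := by ring

lemma ff_bound {n : ℕ} {y : Fin n → ℝ} {U c L B CZ : ℝ} {F : (Fin n → ℂ) → ℂ} (hU : 1 ≤ U)
    (hy1 : ∀ j, U ≤ y j) (hy2 : ∀ j, y j ≤ 16 * U) (hc : 0 < c) (hc1 : c ≤ 3 / 20)
    (hF : HolW L B F) (hCZ1 : 1 ≤ CZ) (hCZ : ∀ z : ℂ, c ≤ z.re → ‖riemannZeta (1 + 2 * z)‖ ≤ CZ)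
    {w : Fin n → ℂ} (hw : ∀ i, w i ∈ PL c L) :
    ‖ff y F w‖ ≤ (7 * U ^ (3 / 20 : ℝ) / c * CZ) ^ n * B := by
  have hUc : 1 ≤ U ^ (3 / 20 : ℝ) := Real.one_le_rpow hU (by norm_num)
  have hb1 : 1 ≤ 7 * U ^ (3 / 20 : ℝ) / c := by
    rw [le_div_iff₀ hc]
    linarith
  have hbase : 1 ≤ 7 * U ^ (3 / 20 : ℝ) / c * CZ := by nlinarith
  unfold ff
  rw [norm_mul, norm_prod]
  have b1 : ∏ i, ‖X2 (y i) (w i) / w i * riemannZeta (1 + 2 * w i)‖ ≤
      (7 * U ^ (3 / 20 : ℝ) / c * CZ) ^ n := by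
    refine prod_le_pow_of_card _ _ hbase ?_ (fun i _ => norm_nonneg _) ?_
    · exact le_of_eq (by rw [Finset.card_univ, Fintype.card_fin])
    · intro i _
      have hy0 : 0 < y i := by linarith [hy1 i]
      have hX : (0:ℝ) < y i / (2 * Real.pi) := by positivity
      rw [norm_mul, norm_div]
      have c1 : ‖X2 (y i) (w i)‖ ≤ 7 * U ^ (3 / 20 : ℝ) := by
        unfold X2
        rw [Complex.norm_cpow_eq_rpow_re_of_pos hX]
        exact X_le (r := 0) hU (hy1 i) (hy2 i) (by norm_num) (by have := (hw i).1; linarith)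
          (hw i).2.1 (by norm_num) (by norm_num)
      have c2 : ‖riemannZeta (1 + 2 * w i)‖ ≤ CZ := hCZ (w i) (hw i).1
      have c4 : c ≤ ‖w i‖ := by
        have h1 := Complex.abs_re_le_norm (w i)
        have h2 := le_abs_self (w i).re
        have h3 := (hw i).1
        linarith
      have c3 : ‖X2 (y i) (w i)‖ / ‖w i‖ ≤ 7 * U ^ (3 / 20 : ℝ) / c :=
        div_le_div₀ (by positivity) c1 hc c4
      exact mul_le_mul c3 c2 (norm_nonneg _) (by positivity)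
  refine mul_le_mul b1 ?_ (norm_nonneg _) (by positivity)
  refine hF.bound _ fun i => ?_
  have h := hw i
  exact ⟨abs_le.2 ⟨by linarith [h.1], h.2.1⟩, h.2.2⟩

lemma upd_mem {n : ℕ} {c L : ℝ} {w : Fin n → ℂ} (hw : ∀ i, w i ∈ PL c L) (j : Fin n) {s : ℂ}
    (hs : s ∈ PL c L) (i : Fin n) : Function.update w j s i ∈ PL c L := by
  by_cases h : i = j
  · subst h; rw [Function.update_self]; exact hs
  · rw [Function.update_of_ne h]; exact hw i

lemma PL_ne {c L : ℝ} (hc : 0 < c) {z : ℂ} (hz : z ∈ PL c L) : z ≠ 0 := by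
  rintro rfl
  have := hz.1
  rw [Complex.zero_re] at this
  linarith

lemma PL_Bo {n : ℕ} {c L : ℝ} (hc : 0 < c) (hL : 1 ≤ L) {w : Fin n → ℂ} (hw : ∀ i, w i ∈ PL c L) :
    w ∈ Bo n L := by
  intro j
  have h := hw j
  exact ⟨abs_lt.2 ⟨by linarith [h.1], by linarith [h.2.1]⟩, by linarith [h.2.2]⟩

lemma pow_aux3 (n : ℕ) {U κ c CZ B C3 : ℝ} (hU : 1 ≤ U) (hc : 0 < c) (hB : 0 ≤ B)
    (hCZ : 0 ≤ CZ) (hC3 : 0 ≤ C3) (hY : 1 ≤ U ^ κ)
    (hg : U ^ (κ * n + 3 / 20 * n + 1) * Real.exp (-((U ^ κ) ^ 2 / 2)) ≤ C3) :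
    n * (6 * U ^ κ) ^ (n - 1) * (3 * Real.exp (-((U ^ κ) ^ 2 / 2)) *
      ((7 * U ^ (3 / 20 : ℝ) / c * CZ) ^ n * B)) ≤
      (n * 6 ^ n * (3 * (7 / c * CZ) ^ n * C3) + 1) * B * U ^ (-1 : ℝ) := by
  have hU0 : 0 < U := by linarith
  set X : ℝ := Real.exp (-((U ^ κ) ^ 2 / 2)) with hX
  have hX0 : 0 < X := Real.exp_pos _
  have c1 : (6 * U ^ κ) ^ (n - 1) ≤ (6 * U ^ κ) ^ n :=
    pow_le_pow_right₀ (by linarith) (Nat.sub_le _ _)
  have hpos : 0 ≤ 3 * X * ((7 * U ^ (3 / 20 : ℝ) / c * CZ) ^ n * B) := by positivity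
  have c2 : n * (6 * U ^ κ) ^ (n - 1) * (3 * X * ((7 * U ^ (3 / 20 : ℝ) / c * CZ) ^ n * B)) ≤
      n * (6 * U ^ κ) ^ n * (3 * X * ((7 * U ^ (3 / 20 : ℝ) / c * CZ) ^ n * B)) :=
    mul_le_mul_of_nonneg_right (mul_le_mul_of_nonneg_left c1 (Nat.cast_nonneg n)) hpos
  have d1 : (U ^ κ) ^ n = U ^ (κ * n) := by rw [← Real.rpow_natCast, ← Real.rpow_mul hU0.le]
  have d2 : (7 * U ^ (3 / 20 : ℝ) / c * CZ) ^ n = (7 / c * CZ) ^ n * U ^ (3 / 20 * n : ℝ) := by
    rw [show 7 * U ^ (3 / 20 : ℝ) / c * CZ = (7 / c * CZ) * U ^ (3 / 20 : ℝ) by ring, mul_pow]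
    congr 1
    rw [← Real.rpow_natCast, ← Real.rpow_mul hU0.le]
  have d3 : U ^ (κ * n) * U ^ (3 / 20 * n : ℝ) * X ≤ C3 * U ^ (-1 : ℝ) := by
    have e1 : U ^ (κ * n) * U ^ (3 / 20 * n : ℝ) =
        U ^ (κ * n + 3 / 20 * n + 1) * U ^ (-1 : ℝ) := by
      rw [← Real.rpow_add hU0, ← Real.rpow_add hU0]
      congr 1
      ring
    rw [e1]
    have h1 := mul_le_mul_of_nonneg_right hg (by positivity : (0:ℝ) ≤ U ^ (-1 : ℝ))
    calc U ^ (κ * n + 3 / 20 * n + 1) * U ^ (-1 : ℝ) * X =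
          U ^ (κ * n + 3 / 20 * n + 1) * X * U ^ (-1 : ℝ) := by ring
      _ ≤ _ := h1
  refine c2.trans ?_
  rw [mul_pow, d1, d2]
  have hc' : 0 ≤ n * 6 ^ n * (3 * (7 / c * CZ) ^ n) * B := by positivity
  have h1 := mul_le_mul_of_nonneg_left d3 hc'
  have h2 : 0 ≤ B * U ^ (-1 : ℝ) := by positivity
  calc n * (6 ^ n * U ^ (κ * n)) * (3 * X * ((7 / c * CZ) ^ n * U ^ (3 / 20 * n : ℝ) * B)) =
        n * 6 ^ n * (3 * (7 / c * CZ) ^ n) * B * (U ^ (κ * n) * U ^ (3 / 20 * n : ℝ) * X) := by ring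
    _ ≤ n * 6 ^ n * (3 * (7 / c * CZ) ^ n) * B * (C3 * U ^ (-1 : ℝ)) := h1
    _ ≤ _ := by linarith

lemma exp_norm_le {c v : ℝ} (hc : 0 ≤ c) (hc1 : c ≤ 1) : ‖cexp (((c : ℂ) + v * I) ^ 2)‖ ≤ 3 := by
  rw [Complex.norm_exp]
  have h1 : (((c : ℂ) + v * I) ^ 2).re ≤ 1 := by
    have : (((c : ℂ) + v * I) ^ 2).re = c ^ 2 - v ^ 2 := by
      simp [pow_two]
    rw [this]
    nlinarith [sq_nonneg v]
  calc Real.exp (((c : ℂ) + v * I) ^ 2).re ≤ Real.exp 1 := Real.exp_le_exp.2 h1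
    _ ≤ 3 := by have := Real.exp_one_lt_d9; linarith

end ShLineAux

open ShCircAux ShLineAux

theorem sh_line (n : ℕ) (κ : ℝ) (hκ : 0 < κ) (hκ1 : κ ≤ 1 / 1000) : ∃ C : ℝ, 0 < C ∧ ∀ (U B : ℝ) (y : Fin n → ℝ)
    (F : (Fin n → ℂ) → ℂ), 1 ≤ U → (∀ j, U ≤ y j) → (∀ j, y j ≤ 16 * U) → HolW (U ^ κ) B F →
    ‖CU (U ^ κ) (3 / 20) y F - CU (U ^ κ) (cn n) y F‖ ≤ C * B * U ^ (-1 : ℝ) := by
  obtain ⟨c, hcdef⟩ : ∃ c : ℝ, c = cn n := ⟨_, rfl⟩
  have hc0 : 0 < c := by rw [hcdef]; exact cn_pos n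
  have hc1 : c ≤ 1 / 40 := by rw [hcdef]; exact cn_le n
  obtain ⟨CZ', hCZ0', hCZ'⟩ := zeta_bound_re (2 * c) (by positivity)
  obtain ⟨CZ, hCZdef⟩ : ∃ CZ : ℝ, CZ = max CZ' 1 := ⟨_, rfl⟩
  have hCZ1 : 1 ≤ CZ := by rw [hCZdef]; exact le_max_right _ _
  have hCZ : ∀ z : ℂ, c ≤ z.re → ‖riemannZeta (1 + 2 * z)‖ ≤ CZ := fun z hz => by
    refine (hCZ' (1 + 2 * z) ?_).trans (by rw [hCZdef]; exact le_max_left _ _)
    simp only [Complex.add_re, Complex.one_re, Complex.mul_re, Complex.re_ofNat, Complex.im_ofNat,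
      zero_mul, sub_zero]
    linarith
  obtain ⟨C3, hC3, hexp⟩ := ResThreeAux.growth (κ := κ) (a := κ * n + 3 / 20 * n + 1) hκ
  refine ⟨n * 6 ^ n * (3 * (7 / c * CZ) ^ n * C3) + 1, by positivity, ?_⟩
  intro U B y F hU hy1 hy2 hF
  have hU0 : 0 < U := by linarith
  have hL : 1 ≤ U ^ κ := Real.one_le_rpow hU hκ.le
  have hypos : ∀ j, 0 < y j := fun j => by linarith [hy1 j]
  have hB : 0 ≤ B := by
    refine (norm_nonneg _).trans (hF.bound (fun _ => 0) fun j => ?_)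
    simp only [Complex.zero_re, Complex.zero_im, abs_zero]
    exact ⟨by norm_num, by linarith⟩
  obtain ⟨d, hd⟩ : ∃ d : ℝ, d = 3 / 20 := ⟨_, rfl⟩
  have hcd : c ≤ d := by rw [hd]; linarith
  obtain ⟨K, hK⟩ : ∃ K : ℝ, K = (7 * U ^ (3 / 20 : ℝ) / c * CZ) ^ n * B := ⟨_, rfl⟩
  have hK0 : 0 ≤ K := by rw [hK]; positivity
  obtain ⟨E, hE⟩ : ∃ E : ℝ, E = 3 * Real.exp (-((U ^ κ) ^ 2 / 2)) * K := ⟨_, rfl⟩
  have hE0 : 0 ≤ E := by rw [hE]; positivity
  have hone : ∀ w ∈ (Set.univ.pi fun _ : Fin n => PL c (U ^ κ)), ∀ j : Fin n,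
      ‖(∫ v in (-(U ^ κ))..(U ^ κ), cexp (((d : ℂ) + v * I) ^ 2) *
        ff y F (Function.update w j ((d : ℂ) + v * I))) -
      ∫ v in (-(U ^ κ))..(U ^ κ), cexp (((c : ℂ) + v * I) ^ 2) *
        ff y F (Function.update w j ((c : ℂ) + v * I))‖ ≤ E := by
    intro w hw j
    have hw' : ∀ i, w i ∈ PL c (U ^ κ) := fun i => hw i (Set.mem_univ i)
    have h1 := rect (Φ := fun s => cexp (s ^ 2) * ff y F (Function.update w j s)) (c := c) (d := d)
      (L := U ^ κ) (K := 3 * Real.exp (-((U ^ κ) ^ 2 / 2)) * K) hcd (by linarith)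
      (fun s hs1 hs2 hs3 => by
        have hs : s ∈ PL c (U ^ κ) := ⟨hs1, by rw [hd] at hs2; exact hs2, hs3⟩
        refine DifferentiableAt.mul (by fun_prop) ?_
        exact ff_diff hypos hF w j (fun i => PL_ne hc0 (upd_mem hw' j hs i))
          (PL_Bo hc0 hL (fun i => upd_mem hw' j hs i)))
      (fun s hs1 hs2 hs3 => by
        have hs : s ∈ PL c (U ^ κ) := ⟨hs1, by rw [hd] at hs2; exact hs2, hs3.le⟩
        rw [norm_mul]
        have hb := ff_bound hU hy1 hy2 hc0 (by linarith) hF hCZ1 hCZ (fun i => upd_mem hw' j hs i)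
        rw [← hK] at hb
        refine mul_le_mul ?_ hb (norm_nonneg _) (by positivity)
        rw [Complex.norm_exp]
        have e1 : (s ^ 2).re = s.re ^ 2 - s.im ^ 2 := by
          rw [pow_two, Complex.mul_re]; ring
        have e2 : s.im ^ 2 = (U ^ κ) ^ 2 := by rw [← sq_abs, hs3]
        have e3 : s.re ^ 2 ≤ 1 := by
          have h2 : s.re ≤ 1 := by rw [hd] at hs2; linarith
          have h3 : 0 ≤ s.re := by linarith
          nlinarith
        have e4 : (s ^ 2).re ≤ 1 + (-((U ^ κ) ^ 2 / 2)) := by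
          rw [e1, e2]
          nlinarith
        calc Real.exp (s ^ 2).re ≤ Real.exp (1 + (-((U ^ κ) ^ 2 / 2))) := Real.exp_le_exp.2 e4
          _ = Real.exp 1 * Real.exp (-((U ^ κ) ^ 2 / 2)) := Real.exp_add _ _
          _ ≤ 3 * Real.exp (-((U ^ κ) ^ 2 / 2)) := mul_le_mul_of_nonneg_right
              (by have := Real.exp_one_lt_d9; linarith) (Real.exp_pos _).le)
    refine h1.trans ?_
    rw [← hE]
    have h2 : 2 * (d - c) ≤ 1 := by rw [hd]; linarith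
    nlinarith
  have htele := tele (k := n) (a₁ := -(U ^ κ)) (b₁ := U ^ κ) (a₂ := -(U ^ κ)) (b₂ := U ^ κ)
    (by linarith) (by linarith)
    (fun v => (d : ℂ) + v * I) (fun v => (c : ℂ) + v * I) (fun v => cexp (((d : ℂ) + v * I) ^ 2))
    (fun v => cexp (((c : ℂ) + v * I) ^ 2)) (by fun_prop) (by fun_prop) (by fun_prop) (by fun_prop)
    (M₁ := 3) (M₂ := 3) (ℓ := 6 * U ^ κ) (E := E)
    (fun v _ => exp_norm_le (by rw [hd]; norm_num) (by rw [hd]; norm_num))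
    (fun v _ => exp_norm_le hc0.le (by linarith)) (by linarith) (by linarith) hE0 (ff y F)
    (PL c (U ^ κ)) (by
      rintro z ⟨v, hv, rfl⟩
      refine ⟨?_, ?_, ?_⟩
      · simp only [Complex.add_re, Complex.ofReal_re, Complex.mul_re, Complex.I_re, Complex.I_im,
          Complex.ofReal_im]
        linarith
      · simp only [Complex.add_re, Complex.ofReal_re, Complex.mul_re, Complex.I_re, Complex.I_im,
          Complex.ofReal_im]
        linarith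
      · simp only [Complex.add_im, Complex.ofReal_im, Complex.mul_im, Complex.ofReal_re, Complex.I_im, mul_one,
          Complex.I_re, mul_zero, add_zero, zero_add]
        exact abs_le.2 ⟨hv.1, hv.2⟩) (by
      rintro z ⟨v, hv, rfl⟩
      refine ⟨?_, ?_, ?_⟩
      · simp only [Complex.add_re, Complex.ofReal_re, Complex.mul_re, Complex.I_re, Complex.I_im,
          Complex.ofReal_im]
        linarith
      · simp only [Complex.add_re, Complex.ofReal_re, Complex.mul_re, Complex.I_re, Complex.I_im,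
          Complex.ofReal_im]
        linarith
      · simp only [Complex.add_im, Complex.ofReal_im, Complex.mul_im, Complex.ofReal_re, Complex.I_im, mul_one,
          Complex.I_re, mul_zero, add_zero, zero_add]
        exact abs_le.2 ⟨hv.1, hv.2⟩) (by
      refine ff_cont hypos hF ?_ ?_
      · intro w hw i
        exact PL_ne hc0 (hw i (Set.mem_univ i))
      · intro w hw
        exact PL_Bo hc0 hL (fun i => hw i (Set.mem_univ i))) hone
  rw [← hcdef, ← hd, CU_eq, CU_eq]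
  refine htele.trans ?_
  rw [hE, hK]
  exact pow_aux3 n hU hc0 hB (by linarith) hC3.le hL (hexp U hU)

end Pool.Agent.P07318g
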