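import Pool.Agent.Lib.P07318g.HFline

/-!
# Truncation of the multiple integral

PROOF. `L = U^κ`. `‖pe (y j) (3/20 + iv)‖ ≤ C U^(3/20) exp(-v²)` (`X2`: `(y/2π)^(3/20) ≤ C U^(3/20)`; `ζ(1 + 3/10 + ..)` bounded; see `ResThreeAux.gI_bound`), `‖HFn‖ ≤ C L^8` (`line_bound`), so the integrand is at most
`C U^(3n/20) L^8 ∏ exp(-v_j²)`. It is continuous (`line_cont`), hence integrable, and the difference is the integral over the complement of the cube, where some `|v_j| > L`, so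
`∏ exp(-v_j²) ≤ exp(-L²/2) ∏ exp(-v_j²/2)`: total `≤ C U^(3n/20) U^(8κ) exp(-U^(2κ)/2) ≤ C_(κ,n) U⁻¹` (`ResThreeAux.growth` with `a = 3n/20 + 8κ + 1`).
-/

set_option autoImplicit false

namespace Pool.Agent.P07318g

open MeasureTheory Complex Pool.Agent.P07318s Pool.Agent.P07318f

namespace TrcNAux

lemma ln_re {n : ℕ} (c : ℝ) (v : Fin n → ℝ) (j : Fin n) : (ln c v j).re = c := by
  simp [ln]

lemma ln_im {n : ℕ} (c : ℝ) (v : Fin n → ℝ) (j : Fin n) : (ln c v j).im = v j := by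
  simp [ln]

lemma ln_cont {n : ℕ} (c : ℝ) (j : Fin n) : Continuous fun v : Fin n → ℝ => ln c v j := by
  unfold ln
  exact continuous_const.add ((continuous_ofReal.comp (continuous_apply j)).mul continuous_const)

lemma pe_cont {n : ℕ} {y : ℝ} (hy : 0 < y) (j : Fin n) :
    Continuous fun v : Fin n → ℝ => pe y (ln (3 / 20) v j) := by
  have h1 := ln_cont (n := n) (3 / 20) j
  have hne : ∀ v : Fin n → ℝ, ln (3 / 20) v j ≠ 0 := by
    intro v h
    have h2 := congrArg Complex.re h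
    rw [ln_re] at h2
    norm_num at h2
  have hz : Continuous fun v : Fin n → ℝ => riemannZeta (1 + 2 * ln (3 / 20) v j) := by
    refine continuous_iff_continuousAt.2 fun v => ?_
    refine ContinuousAt.comp (g := riemannZeta) (f := fun v : Fin n → ℝ => 1 + 2 * ln (3 / 20) v j)
      (differentiableAt_riemannZeta ?_).continuousAt ?_
    · intro h
      have h2 := congrArg Complex.re h
      simp only [add_re, one_re, mul_re, re_ofNat, im_ofNat, ln_re, zero_mul, sub_zero] at h2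
      norm_num at h2
    · exact (continuous_const.add (continuous_const.mul h1)).continuousAt
  have hX : Continuous fun v : Fin n → ℝ => X2 y (ln (3 / 20) v j) := by
    unfold X2
    refine h1.const_cpow (Or.inl ?_)
    have : (y / (2 * Real.pi) : ℝ) ≠ 0 := by positivity
    exact_mod_cast this
  unfold pe
  exact ((continuous_exp.comp (h1.pow 2)).div h1 hne).mul (hX.mul hz)

lemma pe_bound : ∃ C : ℝ, 0 < C ∧ ∀ (n : ℕ) (U y : ℝ) (v : Fin n → ℝ) (j : Fin n), 1 ≤ U → 0 < y → y ≤ 16 * U →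
    ‖pe y (ln (3 / 20) v j)‖ ≤ C * U ^ (3 / 20 : ℝ) * Real.exp (-(v j) ^ 2) := by
  obtain ⟨Cr, hCr, hzr⟩ := zeta_bound_re (3 / 10) (by norm_num)
  refine ⟨320 * Cr, by positivity, fun n U y v j hU hy hyU => ?_⟩
  have hU0 : 0 < U := by linarith
  set w : ℂ := ln (3 / 20) v j with hw
  have hre : w.re = 3 / 20 := ln_re _ _ _
  have him : w.im = v j := ln_im _ _ _
  have h1 : ‖cexp (w ^ 2)‖ ≤ 3 * Real.exp (-(v j) ^ 2) := by
    rw [Complex.norm_exp]
    have e : (w ^ 2).re = 9 / 400 + -(v j) ^ 2 := by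
      rw [sq, mul_re, hre, him]
      ring
    rw [e, Real.exp_add]
    apply mul_le_mul_of_nonneg_right _ (Real.exp_pos _).le
    calc Real.exp (9 / 400) ≤ Real.exp 1 := Real.exp_le_exp.2 (by norm_num)
      _ ≤ 3 := by
          have := Real.exp_one_lt_d9
          linarith
  have h2 : 3 / 20 ≤ ‖w‖ := by
    have := Complex.re_le_norm w
    rwa [hre] at this
  have h3 : ‖riemannZeta (1 + 2 * w)‖ ≤ Cr := by
    apply hzr
    simp only [add_re, one_re, mul_re, re_ofNat, hre, im_ofNat, zero_mul, sub_zero]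
    norm_num
  have hX : ‖X2 y w‖ ≤ 16 * U ^ (3 / 20 : ℝ) := by
    unfold X2
    rw [Complex.norm_cpow_eq_rpow_re_of_pos (by positivity), hre]
    have hπ := Real.pi_gt_three
    calc (y / (2 * Real.pi)) ^ (3 / 20 : ℝ) ≤ (16 * U) ^ (3 / 20 : ℝ) := by
          apply Real.rpow_le_rpow (by positivity) _ (by norm_num)
          rw [div_le_iff₀ (by positivity)]
          nlinarith
      _ = 16 ^ (3 / 20 : ℝ) * U ^ (3 / 20 : ℝ) := Real.mul_rpow (by norm_num) hU0.le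
      _ ≤ 16 * U ^ (3 / 20 : ℝ) := by
          apply mul_le_mul_of_nonneg_right _ (Real.rpow_nonneg hU0.le _)
          calc (16 : ℝ) ^ (3 / 20 : ℝ) ≤ 16 ^ (1 : ℝ) :=
                Real.rpow_le_rpow_of_exponent_le (by norm_num) (by norm_num)
            _ = 16 := Real.rpow_one _
  have h7 : ‖cexp (w ^ 2)‖ / ‖w‖ ≤ 3 * Real.exp (-(v j) ^ 2) * (20 / 3) := by
    rw [div_le_iff₀ (by linarith)]
    have : 3 * Real.exp (-(v j) ^ 2) * (20 / 3) * (3 / 20) ≤
        3 * Real.exp (-(v j) ^ 2) * (20 / 3) * ‖w‖ :=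
      mul_le_mul_of_nonneg_left h2 (by positivity)
    linarith
  unfold pe
  rw [norm_mul, norm_div, norm_mul]
  calc _ ≤ (3 * Real.exp (-(v j) ^ 2) * (20 / 3)) * ((16 * U ^ (3 / 20 : ℝ)) * Cr) := by gcongr
    _ = _ := by ring

/-- the tail of a function of Gaussian decay outside of a cube -/
lemma cube_tail {n : ℕ} {g : (Fin n → ℝ) → ℂ} (hg : Continuous g) {M L : ℝ} (hM : 0 ≤ M) (hL : 0 ≤ L)
    (hb : ∀ v, ‖g v‖ ≤ M * ∏ j, Real.exp (-(v j) ^ 2)) :
    ‖(∫ v, g v) - ∫ v in Set.Icc (fun _ : Fin n => -L) (fun _ => L), g v‖ ≤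
      M * Real.exp (-(L ^ 2 / 2)) * (∫ v : ℝ, Real.exp (-(v ^ 2 / 2))) ^ n := by
  have hI0 : Integrable (fun v : Fin n → ℝ => ∏ j, Real.exp (-((v j) ^ 2 / 2))) :=
    Integrable.fintype_prod (μ := fun _ : Fin n => (volume : Measure ℝ))
      (f := fun (_ : Fin n) (t : ℝ) => Real.exp (-(t ^ 2 / 2))) fun _ => ResThreeAux.int_exp_half
  have hI1 : Integrable (fun v : Fin n → ℝ => M * ∏ j, Real.exp (-(v j) ^ 2)) := by
    refine (Integrable.fintype_prod (μ := fun _ : Fin n => (volume : Measure ℝ))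
      (f := fun (_ : Fin n) (t : ℝ) => Real.exp (-t ^ 2)) fun _ => ?_).const_mul M
    have h := integrable_exp_neg_mul_sq (b := 1) (by norm_num)
    refine h.congr (Filter.Eventually.of_forall fun v => ?_)
    simp only
    rw [neg_one_mul]
  have hI : Integrable g := hI1.mono' hg.aestronglyMeasurable (Filter.Eventually.of_forall hb)
  have hI2 : Integrable (fun v : Fin n → ℝ => M * Real.exp (-(L ^ 2 / 2)) * ∏ j, Real.exp (-((v j) ^ 2 / 2))) :=
    hI0.const_mul _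
  rw [← integral_add_compl (s := Set.Icc (fun _ : Fin n => -L) (fun _ => L)) measurableSet_Icc hI,
    add_sub_cancel_left]
  have h1 : ‖∫ v in (Set.Icc (fun _ : Fin n => -L) (fun _ => L))ᶜ, g v‖ ≤
      ∫ v in (Set.Icc (fun _ : Fin n => -L) (fun _ => L))ᶜ,
        M * Real.exp (-(L ^ 2 / 2)) * ∏ j, Real.exp (-((v j) ^ 2 / 2)) := by
    refine norm_integral_le_of_norm_le hI2.integrableOn ?_
    refine (ae_restrict_iff' measurableSet_Icc.compl).2 (Filter.Eventually.of_forall fun v hv => ?_)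
    refine (hb v).trans ?_
    rw [mul_assoc, ← Real.exp_sum, ← Real.exp_sum, ← Real.exp_add]
    apply mul_le_mul_of_nonneg_left _ hM
    apply Real.exp_le_exp.2
    have hex : ∃ j, L ^ 2 ≤ (v j) ^ 2 := by
      by_contra hcon
      push Not at hcon
      apply hv
      have h3 : ∀ j, |v j| < L := fun j => by
        have h4 := hcon j
        rw [sq_lt_sq, abs_of_nonneg hL] at h4
        exact h4
      exact ⟨fun j => (abs_lt.1 (h3 j)).1.le, fun j => (abs_lt.1 (h3 j)).2.le⟩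
    obtain ⟨j, hj⟩ := hex
    have h5 : (v j) ^ 2 ≤ ∑ k, (v k) ^ 2 :=
      Finset.single_le_sum (f := fun k => (v k) ^ 2) (fun k _ => sq_nonneg _) (Finset.mem_univ j)
    have h6 : ∑ k, -(v k) ^ 2 = -∑ k, (v k) ^ 2 := Finset.sum_neg_distrib _
    have h7 : ∑ k, -((v k) ^ 2 / 2) = -((∑ k, (v k) ^ 2) / 2) := by
      rw [Finset.sum_neg_distrib, Finset.sum_div]
    rw [h6, h7]
    linarith
  refine h1.trans ((setIntegral_le_integral hI2 (Filter.Eventually.of_forall fun v => ?_)).trans ?_)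
  · exact mul_nonneg (mul_nonneg hM (Real.exp_pos _).le)
      (Finset.prod_nonneg fun j _ => (Real.exp_pos _).le)
  · rw [integral_const_mul]
    have h8 := integral_fintype_prod_volume_eq_pow (ι := Fin n) (fun t : ℝ => Real.exp (-(t ^ 2 / 2)))
    rw [Fintype.card_fin] at h8
    rw [h8]

end TrcNAux

open TrcNAux in
theorem trc_n (n : ℕ) (κ : ℝ) (hκ : 0 < κ) (hκ1 : κ ≤ 1 / 1000) : ∃ C : ℝ, 0 < C ∧ ∀ (U x : ℝ) (y : Fin n → ℝ) (u : Fin 4 → ℂ),
    1 ≤ U → (∀ j, U ≤ y j) → (∀ j, y j ≤ 16 * U) → u ∈ Bx (U ^ κ) →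
    ‖(∫ v : Fin n → ℝ, (∏ j, pe (y j) (ln (3 / 20) v j)) * HFn x y u (ln (3 / 20) v)) -
      CU (U ^ κ) (3 / 20) y (HFn x y u)‖ ≤ C * U ^ (-1 : ℝ) := by
  obtain ⟨A0, hA0, hpe⟩ := pe_bound
  obtain ⟨C1, hC1, hline⟩ := line_bound n
  obtain ⟨Cg, hCg, hgr⟩ := ResThreeAux.growth (κ := κ) (a := 3 / 20 * n + 8 * κ + 1) hκ
  set Ig : ℝ := ∫ v : ℝ, Real.exp (-(v ^ 2 / 2)) with hIg
  have hIg0 : 0 ≤ Ig := integral_nonneg fun v => (Real.exp_pos _).le
  refine ⟨A0 ^ n * C1 * Cg * Ig ^ n + 1, by positivity, ?_⟩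
  intro U x y u hU hy1 hy2 hu
  have hU0 : 0 < U := by linarith
  set L : ℝ := U ^ κ with hL
  have hL1 : 1 ≤ L := Real.one_le_rpow hU hκ.le
  have hy0 : ∀ j, 0 < y j := fun j => by linarith [hy1 j]
  have hcont : Continuous fun v : Fin n → ℝ =>
      (∏ j, pe (y j) (ln (3 / 20) v j)) * HFn x y u (ln (3 / 20) v) :=
    (continuous_finsetProd _ fun j _ => pe_cont (hy0 j) j).mul (line_cont x y u fun i => (hu i).1)
  set M : ℝ := (A0 * U ^ (3 / 20 : ℝ)) ^ n * (C1 * L ^ 8) with hM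
  have hM0 : 0 ≤ M := by positivity
  have hb : ∀ v : Fin n → ℝ, ‖(∏ j, pe (y j) (ln (3 / 20) v j)) * HFn x y u (ln (3 / 20) v)‖ ≤
      M * ∏ j, Real.exp (-(v j) ^ 2) := by
    intro v
    rw [norm_mul, norm_prod]
    have h1 : ∏ j, ‖pe (y j) (ln (3 / 20) v j)‖ ≤
        (A0 * U ^ (3 / 20 : ℝ)) ^ n * ∏ j, Real.exp (-(v j) ^ 2) := by
      calc ∏ j, ‖pe (y j) (ln (3 / 20) v j)‖ ≤ ∏ j, (A0 * U ^ (3 / 20 : ℝ) * Real.exp (-(v j) ^ 2)) :=
            Finset.prod_le_prod (fun j _ => norm_nonneg _) fun j _ => hpe n U (y j) v j hU (hy0 j) (hy2 j)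
        _ = _ := by
            rw [Finset.prod_mul_distrib, Finset.prod_const, Finset.card_univ, Fintype.card_fin]
    calc _ ≤ ((A0 * U ^ (3 / 20 : ℝ)) ^ n * ∏ j, Real.exp (-(v j) ^ 2)) * (C1 * L ^ 8) :=
          mul_le_mul h1 (hline L x y u v hL1 hu) (norm_nonneg _)
            (mul_nonneg (by positivity) (Finset.prod_nonneg fun j _ => (Real.exp_pos _).le))
      _ = _ := by rw [hM]; ring
  have ht := cube_tail hcont hM0 (by linarith : 0 ≤ L) hb
  unfold CU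
  refine ht.trans ?_
  have e1 : M * Real.exp (-(L ^ 2 / 2)) * Ig ^ n =
      (A0 ^ n * C1 * Ig ^ n) * (U ^ (-1 : ℝ) * (U ^ (3 / 20 * n + 8 * κ + 1 : ℝ) * Real.exp (-(L ^ 2 / 2)))) := by
    have e2 : (U ^ (3 / 20 : ℝ)) ^ n * L ^ 8 = U ^ (-1 : ℝ) * U ^ (3 / 20 * n + 8 * κ + 1 : ℝ) := by
      rw [hL, ← Real.rpow_natCast (U ^ (3 / 20 : ℝ)), ← Real.rpow_natCast (U ^ κ), ← Real.rpow_mul hU0.le,
        ← Real.rpow_mul hU0.le, ← Real.rpow_add hU0, ← Real.rpow_add hU0]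
      congr 1
      push_cast
      ring
    rw [hM, mul_pow]
    calc _ = (A0 ^ n * C1 * Ig ^ n) * (((U ^ (3 / 20 : ℝ)) ^ n * L ^ 8) * Real.exp (-(L ^ 2 / 2))) := by ring
      _ = _ := by rw [e2]; ring
  rw [e1]
  have hUm : 0 < U ^ (-1 : ℝ) := Real.rpow_pos_of_pos hU0 _
  calc _ ≤ (A0 ^ n * C1 * Ig ^ n) * (U ^ (-1 : ℝ) * Cg) := by
        gcongr
        exact hgr U hU
    _ ≤ _ := by nlinarith

end Pool.Agent.P07318g
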