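import Pool.Agent.Lib.P07318g.HFreg
import Pool.Agent.Lib.P07318g.MelN
import Pool.Agent.Lib.P07318g.TrcN
import Pool.Agent.Lib.P07318g.ShLine
import Pool.Agent.Lib.P07318g.ShCirc

/-!
# The sum over the tuples is the residue in the free variables

`mel_n`, `trc_n`, `sh_line`, `sh_circ` with `F = HFn x y u`.
-/

set_option autoImplicit false

namespace Pool.Agent.P07318g

open MeasureTheory Complex Pool.Agent.P07318s Pool.Agent.P07318f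

namespace ResNAux

theorem mem_regH {n : ℕ} {κ L B x : ℝ} {y : Fin n → ℝ} {u : Fin 4 → ℂ} {w : Fin n → ℂ} (hL : 1 ≤ L)
    (hG : GoodN κ L B x y) (hu : u ∈ Bx L) (hw : w ∈ Bo n L) : (((x, y), u), w) ∈ RegH n := by
  refine ⟨fun i => ?_, fun j => (hw j).1, fun i j => ?_, fun i j hij => ?_⟩
  · have := (hu i).1
    show |(u i).re| < 1 / 8
    linarith
  · have h1 := (hu i).2
    have h2 := (hw j).2
    have h3 := (hG.1 j).1
    show |(u i).im| + |(w j).im| < |y j - x|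
    linarith
  · have h1 := (hw i).2
    have h2 := (hw j).2
    have h3 := (hG.2 i j hij).1
    show |(w i).im| + |(w j).im| < |y i - y j|
    linarith

theorem holW {n : ℕ} {κ U B C x : ℝ} {y : Fin n → ℝ} {u : Fin 4 → ℂ} (hκ : 0 < κ) (hκ1 : κ ≤ 1 / 1000) (hU : 1 ≤ U)
    (hb : ∀ (κ U x : ℝ) (y : Fin n → ℝ) (u : Fin 4 → ℂ) (w : Fin n → ℂ),
      0 < κ → κ ≤ 1 / 1000 → 1 ≤ U → GoodN κ (U ^ κ) (B * U ^ κ) x y → u ∈ Bx (U ^ κ) →
      (∀ j, |(w j).re| ≤ 3 / 20 ∧ |(w j).im| ≤ U ^ κ) → ‖HFn x y u w‖ ≤ C * U ^ (8 * ((n : ℝ) + 1) ^ 2 * κ))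
    (hG : GoodN κ (U ^ κ) (B * U ^ κ) x y) (hu : u ∈ Bx (U ^ κ)) :
    HolW (U ^ κ) (C * U ^ (8 * ((n : ℝ) + 1) ^ 2 * κ)) (HFn x y u) := by
  have hL : 1 ≤ U ^ κ := Real.one_le_rpow hU hκ.le
  refine ⟨?_, ?_, fun w hw => hb κ U x y u w hκ hκ1 hU hG hu hw⟩
  · have h1 : ContinuousOn (fun w : Fin n → ℂ => (((x, y), u), w)) (Bo n (U ^ κ)) := by fun_prop
    have h2 := ContinuousOn.comp (g := fun p : ((ℝ × (Fin n → ℝ)) × (Fin 4 → ℂ)) × (Fin n → ℂ) =>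
      HFn p.1.1.1 p.1.1.2 p.1.2 p.2) (f := fun w : Fin n → ℂ => (((x, y), u), w)) (t := RegH n)
      (hf_cont n) h1 (fun w hw => mem_regH hL hG hu hw)
    exact h2
  · intro w hw j
    set S : Set ℂ := {z | |z.re| < 4 / 25 ∧ |z.im| < 3 / 2 * U ^ κ} with hS
    have hSo : IsOpen S := by
      have h1 : IsOpen {z : ℂ | |z.re| < 4 / 25} := isOpen_lt (continuous_re.abs) continuous_const
      have h2 : IsOpen {z : ℂ | |z.im| < 3 / 2 * U ^ κ} := isOpen_lt (continuous_im.abs) continuous_const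
      exact h1.inter h2
    have hd := hf_diff x y (fun _ => u) (fun z => Function.update w j z) S hSo
      (fun i => differentiableOn_const _) (fun i => by
        by_cases h : i = j
        · subst h
          simp only [Function.update_self]
          exact differentiableOn_id
        · simp only [Function.update_of_ne h]
          exact differentiableOn_const _) (fun z hz => by
        refine mem_regH hL hG hu fun i => ?_
        by_cases h : i = j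
        · subst h
          rw [Function.update_self]
          exact hz
        · rw [Function.update_of_ne h]
          exact hw i)
    exact hd.differentiableAt (hSo.mem_nhds (hw j))

end ResNAux

open ResNAux in
theorem res_n (n : ℕ) (κ : ℝ) (hκ : 0 < κ) (hκ1 : κ ≤ kp n) (B : ℝ) : ∃ C : ℝ, 0 < C ∧ ∀ (U x : ℝ) (y : Fin n → ℝ)
    (u : Fin 4 → ℂ), 1 ≤ U → U ≤ x → x ≤ 16 * U → (∀ j, U ≤ y j) → (∀ j, y j ≤ 16 * U) →
    GoodN κ (U ^ κ) (B * U ^ κ) x y → u ∈ Bx (U ^ κ) → u ∈ RegE → u 1 + u 3 ≠ 0 →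
    ‖Pi4 u * TTn x y u - HHn x y u‖ ≤ C * U ^ (-(1 / 20) : ℝ) := by
  have hκ2 : κ ≤ 1 / 1000 := by
    have := kp_le n
    linarith
  have hn : (0 : ℝ) ≤ n := Nat.cast_nonneg n
  have hsq : ((n : ℝ) + 1) ^ 2 * κ ≤ 1 / 20000 := by
    rw [← kp_n n]
    exact mul_le_mul_of_nonneg_left hκ1 (by positivity)
  have hκ3 : ((n : ℝ) + 1) * κ ≤ 1 / 1000 := by
    have h1 : ((n : ℝ) + 1) * κ ≤ ((n : ℝ) + 1) ^ 2 * κ := by
      apply mul_le_mul_of_nonneg_right _ hκ.le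
      nlinarith
    linarith
  obtain ⟨C1, hC1, h1⟩ := trc_n n κ hκ hκ2
  obtain ⟨C2, hC2, h2⟩ := sh_line n κ hκ hκ2
  obtain ⟨C3, hC3, h3⟩ := sh_circ n κ hκ hκ3
  obtain ⟨Cb, hCb, hb⟩ := hf_bound n B
  refine ⟨C1 + C2 * Cb + C3 * Cb, by positivity, ?_⟩
  intro U x y u hU hx1 hx2 hy1 hy2 hG hu hE h13
  have hU0 : 0 < U := by linarith
  have hL : 1 ≤ U ^ κ := Real.one_le_rpow hU hκ.le
  have hW := holW hκ hκ2 hU hb hG hu
  have e1 := mel_n x y u (fun j => lt_of_lt_of_le hU0 (hy1 j)) (fun i => (hu i).1) hE h13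
  set J : ℂ := ∫ v : Fin n → ℝ, (∏ j, pe (y j) (ln (3 / 20) v j)) * HFn x y u (ln (3 / 20) v) with hJ
  have a1 := h1 U x y u hU hy1 hy2 hu
  have a2 := h2 U _ y (HFn x y u) hU hy1 hy2 hW
  have a3 := h3 U _ y (HFn x y u) hU hy1 hy2 hW
  rw [← hJ] at a1
  set T : ℂ := ∯ w in T((0 : Fin n → ℂ), fun _ => 1 / 8),
      (∏ j, (X2 (y j) (w j) / w j * riemannZeta (1 + 2 * w j))) * HFn x y u w with hT
  have e2 : HHn x y u = ((Real.pi : ℂ) ^ n)⁻¹ * ((I ^ n)⁻¹ * T) := by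
    unfold HHn
    rw [mul_pow, mul_inv, mul_assoc]
  have hπ : ‖((Real.pi : ℂ) ^ n)⁻¹‖ ≤ 1 := by
    rw [norm_inv, norm_pow, Complex.norm_real, Real.norm_of_nonneg Real.pi_pos.le]
    exact inv_le_one_of_one_le₀ (one_le_pow₀ (by linarith [Real.pi_gt_three]))
  have hexp : U ^ (8 * ((n : ℝ) + 1) ^ 2 * κ) ≤ U ^ (1 / 2500 : ℝ) := by
    apply Real.rpow_le_rpow_of_exponent_le hU
    have : 8 * ((n : ℝ) + 1) ^ 2 * κ = 8 * (((n : ℝ) + 1) ^ 2 * κ) := by ring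
    rw [this]
    linarith
  have hX0 : 0 < U ^ (-(1 / 20) : ℝ) := Real.rpow_pos_of_pos hU0 _
  have p1 : U ^ (-1 : ℝ) ≤ U ^ (-(1 / 20) : ℝ) := Real.rpow_le_rpow_of_exponent_le hU (by norm_num)
  have p2 : U ^ (8 * ((n : ℝ) + 1) ^ 2 * κ) * U ^ (-1 : ℝ) ≤ U ^ (-(1 / 20) : ℝ) := by
    calc U ^ (8 * ((n : ℝ) + 1) ^ 2 * κ) * U ^ (-1 : ℝ) ≤ U ^ (1 / 2500 : ℝ) * U ^ (-1 : ℝ) :=
          mul_le_mul_of_nonneg_right hexp (by positivity)
      _ = U ^ (1 / 2500 + -1 : ℝ) := (Real.rpow_add hU0 _ _).symm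
      _ ≤ _ := Real.rpow_le_rpow_of_exponent_le hU (by norm_num)
  have p3 : U ^ (8 * ((n : ℝ) + 1) ^ 2 * κ) * U ^ (-(1 / 10) : ℝ) ≤ U ^ (-(1 / 20) : ℝ) := by
    calc U ^ (8 * ((n : ℝ) + 1) ^ 2 * κ) * U ^ (-(1 / 10) : ℝ) ≤ U ^ (1 / 2500 : ℝ) * U ^ (-(1 / 10) : ℝ) :=
          mul_le_mul_of_nonneg_right hexp (by positivity)
      _ = U ^ (1 / 2500 + -(1 / 10) : ℝ) := (Real.rpow_add hU0 _ _).symm
      _ ≤ _ := Real.rpow_le_rpow_of_exponent_le hU (by norm_num)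
  rw [e1, e2, ← mul_sub, norm_mul]
  have e3 : J - (I ^ n)⁻¹ * T = (J - CU (U ^ κ) (3 / 20) y (HFn x y u)) +
      (CU (U ^ κ) (3 / 20) y (HFn x y u) - CU (U ^ κ) (cn n) y (HFn x y u)) +
      (CU (U ^ κ) (cn n) y (HFn x y u) - (I ^ n)⁻¹ * T) := by ring
  calc ‖((Real.pi : ℂ) ^ n)⁻¹‖ * ‖J - (I ^ n)⁻¹ * T‖ ≤ 1 * ‖J - (I ^ n)⁻¹ * T‖ :=
        mul_le_mul_of_nonneg_right hπ (norm_nonneg _)
    _ ≤ ‖J - CU (U ^ κ) (3 / 20) y (HFn x y u)‖ +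
        ‖CU (U ^ κ) (3 / 20) y (HFn x y u) - CU (U ^ κ) (cn n) y (HFn x y u)‖ +
        ‖CU (U ^ κ) (cn n) y (HFn x y u) - (I ^ n)⁻¹ * T‖ := by
        rw [one_mul, e3]
        exact (norm_add_le _ _).trans (add_le_add (norm_add_le _ _) le_rfl)
    _ ≤ C1 * U ^ (-(1 / 20) : ℝ) + C2 * Cb * U ^ (-(1 / 20) : ℝ) + C3 * Cb * U ^ (-(1 / 20) : ℝ) := by
        refine add_le_add (add_le_add ?_ ?_) ?_
        · exact a1.trans (mul_le_mul_of_nonneg_left p1 hC1.le)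
        · refine a2.trans ?_
          calc C2 * (Cb * U ^ (8 * ((n : ℝ) + 1) ^ 2 * κ)) * U ^ (-1 : ℝ) =
              C2 * Cb * (U ^ (8 * ((n : ℝ) + 1) ^ 2 * κ) * U ^ (-1 : ℝ)) := by ring
            _ ≤ _ := mul_le_mul_of_nonneg_left p2 (by positivity)
        · refine a3.trans ?_
          calc C3 * (Cb * U ^ (8 * ((n : ℝ) + 1) ^ 2 * κ)) * U ^ (-(1 / 10) : ℝ) =
              C3 * Cb * (U ^ (8 * ((n : ℝ) + 1) ^ 2 * κ) * U ^ (-(1 / 10) : ℝ)) := by ring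
            _ ≤ _ := mul_le_mul_of_nonneg_left p3 (by positivity)
    _ = _ := by ring

end Pool.Agent.P07318g
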