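import Pool.Agent.Lib.P07318g.FullA
import Pool.Agent.Lib.P07318g.ResN
import Pool.Agent.Lib.P07318g.MnB
import Pool.Agent.Lib.P07318f.SumMI

/-!
# The sum of all main terms is `Mn`

PROOF. `wn_sum`: `‖wn y τ q‖ = ∏ cfQ-weights`, `∑_q hgt^(-1/2) Om(hgt) y ≤ C y` (`SumMIAux.cq_sum`, `cq_summable`), product: `summable_pi_prod_real`, `hasSum_pi_prod` or `tsum_pi_prod` of P07318s/PiSum
(`∑' q, ∏ f_j (q j) = ∏ ∑' f_j`): `≤ (C y_1) .. (C y_n)`. `mm_summable_n`: `mm_bound`: `‖MM x a b‖ ≤ C x^(1/9000)` (the power of `a b` is at most `1`; `(rp q).2` is the coprimality). `full_n`: `full_a` with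
`κ = kp n`, `N = n + 1`, `c = wn y (y - x)`, `r = rp`, `H = HHn x y`, `E = C U^(-1/20)` (`res_n`; `TTn = TA c r`), `B = C U^(10(n+1)²κ) = C U^(1/2000)` (`hhn_hol`, `kp_n`), `S = (16 C U)^n`, `hhn_sym`, and `mn_eq`:
error `≤ C (U^(-1/20+1/500) + U^(n-(n+1)) + U^(1/2000-1/250)) ≤ C U^(-1/1000)`.
-/

set_option autoImplicit false

namespace Pool.Agent.P07318g

open MeasureTheory Complex Pool.Agent.P07318s Pool.Agent.P07318f

namespace FullNAux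

open SumMIAux

theorem norm_wn {n : ℕ} (y τ : Fin n → ℝ) (q : Fin n → Q) : ‖wn y τ q‖ = ∏ j, cq (y j) (q j) := by
  unfold wn
  rw [norm_prod]
  refine Finset.prod_congr rfl fun j _ => ?_
  rw [norm_mul, norm_ex, mul_one, Complex.norm_real]
  exact Real.norm_of_nonneg (cq_nonneg (y j) (q j))

theorem hasSum_wn {n : ℕ} (y : Fin n → ℝ) (hy : ∀ j, 0 < y j) :
    HasSum (fun q : Fin n → Q => ∏ j, cq (y j) (q j)) (∏ j, ∑' i, cq (y j) i) := by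
  have h := hasSum_pi_prod (fun j i => ((cq (y j) i : ℝ) : ℂ)) (fun j => by
    refine (cq_summable (hy j)).congr fun i => ?_
    rw [Complex.norm_real, Real.norm_of_nonneg (cq_nonneg _ _)])
  have e : (fun q : Fin n → Q => ∏ j, ((cq (y j) (q j) : ℝ) : ℂ)) =
      fun q => ((∏ j, cq (y j) (q j) : ℝ) : ℂ) := by
    funext q
    push_cast
    rfl
  have e2 : ∏ j, ∑' i, ((cq (y j) i : ℝ) : ℂ) = ((∏ j, ∑' i, cq (y j) i : ℝ) : ℂ) := by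
    rw [Complex.ofReal_prod]
    refine Finset.prod_congr rfl fun j _ => ?_
    rw [Complex.ofReal_tsum]
  rw [e, e2] at h
  exact Complex.hasSum_ofReal.1 h

theorem prod_le {n : ℕ} {U : ℝ} (y : Fin n → ℝ) (hy : ∀ j, 0 < y j) (hy2 : ∀ j, y j ≤ 16 * U) :
    ∏ j, y j ≤ (16 * U) ^ n := by
  calc ∏ j, y j ≤ ∏ _j : Fin n, (16 * U) := Finset.prod_le_prod (fun j _ => (hy j).le) (fun j _ => hy2 j)
    _ = _ := by rw [Finset.prod_const, Finset.card_univ, Fintype.card_fin]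

end FullNAux

open FullNAux SumMIAux

theorem wn_sum (n : ℕ) : ∃ C : ℝ, 0 < C ∧ ∀ (y τ : Fin n → ℝ), (∀ j, 0 < y j) →
    (Summable fun q : Fin n → Q => ‖wn y τ q‖) ∧ ∑' q : Fin n → Q, ‖wn y τ q‖ ≤ C * ∏ j, y j := by
  obtain ⟨C, hC, h⟩ := cq_sum
  refine ⟨C ^ n, by positivity, fun y τ hy => ?_⟩
  have h1 := hasSum_wn y hy
  simp_rw [norm_wn]
  refine ⟨h1.summable, ?_⟩
  rw [h1.tsum_eq]
  calc ∏ j, ∑' i, cq (y j) i ≤ ∏ j, (C * y j) :=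
        Finset.prod_le_prod (fun j _ => tsum_nonneg fun q => cq_nonneg _ q) (fun j _ => h (y j) (hy j))
    _ = C ^ n * ∏ j, y j := by
        rw [Finset.prod_mul_distrib, Finset.prod_const, Finset.card_univ, Fintype.card_fin]

theorem mm_summable_n (n : ℕ) : ∃ C : ℝ, 0 < C ∧ ∀ (x : ℝ) (y τ : Fin n → ℝ), 1 ≤ x → (∀ j, 0 < y j) →
    (Summable fun q : Fin n → Q => ‖wn y τ q * MM x (rp q).1.1 (rp q).1.2‖) ∧
    ∑' q : Fin n → Q, ‖wn y τ q * MM x (rp q).1.1 (rp q).1.2‖ ≤ C * x * ∏ j, y j := by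
  obtain ⟨C₁, hC₁, h1⟩ := wn_sum n
  obtain ⟨C₂, hC₂, h2⟩ := mm_bound
  refine ⟨C₁ * C₂, by positivity, fun x y τ hx hy => ?_⟩
  obtain ⟨a1, a2⟩ := h1 y τ hy
  have hx0 : 0 < x := by linarith
  have hb : ∀ q : Fin n → Q, ‖wn y τ q * MM x (rp q).1.1 (rp q).1.2‖ ≤ ‖wn y τ q‖ * (C₂ * x) := by
    intro q
    rw [norm_mul]
    refine mul_le_mul_of_nonneg_left ?_ (norm_nonneg _)
    refine (h2 x (rp q).1.1 (rp q).1.2 hx (rp q).2).trans ?_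
    have e1 : (((rp q).1.1 : ℕ) * ((rp q).1.2 : ℕ) : ℝ) ^ (-(1 / 2) + 1 / 9 : ℝ) ≤ 1 :=
      Real.rpow_le_one_of_one_le_of_nonpos (one_le_hgt (rp q).1) (by norm_num)
    have e2 : x ^ (1 / 9000 : ℝ) ≤ x := by
      calc x ^ (1 / 9000 : ℝ) ≤ x ^ (1 : ℝ) := Real.rpow_le_rpow_of_exponent_le hx (by norm_num)
        _ = x := Real.rpow_one x
    have e3 : 0 ≤ x ^ (1 / 9000 : ℝ) := by positivity
    refine (mul_le_of_le_one_right (by positivity) e1).trans ?_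
    exact mul_le_mul_of_nonneg_left e2 hC₂.le
  have hs := a1.mul_right (C₂ * x)
  have hs2 := Summable.of_nonneg_of_le (fun q => norm_nonneg _) hb hs
  refine ⟨hs2, (hs2.tsum_le_tsum hb hs).trans ?_⟩
  rw [tsum_mul_right]
  have h3 := mul_le_mul_of_nonneg_right a2 (by positivity : 0 ≤ C₂ * x)
  refine h3.trans (le_of_eq ?_)
  ring

theorem full_n (n : ℕ) (B : ℝ) : ∃ C : ℝ, 0 < C ∧ ∀ (U x : ℝ) (y : Fin n → ℝ), 1 ≤ U → U ≤ x → x ≤ 16 * U →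
    (∀ j, U ≤ y j) → (∀ j, y j ≤ 16 * U) → GoodN (kp n) (U ^ kp n) (B * U ^ kp n) x y →
    ‖(∑' q : Fin n → Q, wn y (fun j => y j - x) q * MM x (rp q).1.1 (rp q).1.2) - Mn x y‖ ≤
      C * U ^ (-(1 / 1000) : ℝ) := by
  obtain ⟨C₁, hC₁, h1⟩ := full_a (kp n) ((n : ℝ) + 1) (kp_pos n) ((kp_le n).trans (by norm_num)) (by positivity)
  obtain ⟨C₂, hC₂, h2⟩ := res_n n (kp n) (kp_pos n) le_rfl B
  obtain ⟨C₃, hC₃, h3⟩ := hhn_hol n (kp n) (kp_pos n) ((kp_le n).trans (by norm_num)) B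
  obtain ⟨C₄, hC₄, h4⟩ := wn_sum n
  refine ⟨C₁ * (C₂ + C₄ * 16 ^ n + C₃), by positivity, ?_⟩
  intro U x y hU hx1 hx2 hy1 hy2 hG
  have hU0 : 0 < U := by linarith
  have hx : 0 < x := by linarith
  have hy : ∀ j, 0 < y j := fun j => lt_of_lt_of_le hU0 (hy1 j)
  obtain ⟨a1, a2⟩ := h4 y (fun j => y j - x) hy
  have hol := h3 U x y hU hx1 hx2 hy1 hy2 hG
  have he : 10 * ((n : ℝ) + 1) ^ 2 * kp n = 1 / 2000 := by
    rw [mul_assoc, kp_n]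
    norm_num
  rw [he] at hol
  have hL : 1 / 2 ≤ U ^ kp n := (by norm_num : (1 / 2 : ℝ) ≤ 1).trans (Real.one_le_rpow hU (kp_pos n).le)
  rw [← mn_eq x y _ _ hx hL hol]
  have hS : ∑' q : Fin n → Q, ‖wn y (fun j => y j - x) q‖ ≤ C₄ * (16 * U) ^ n :=
    a2.trans (mul_le_mul_of_nonneg_left (prod_le y hy hy2) hC₄.le)
  have key := h1 (wn y fun j => y j - x) rp (HHn x y) U x (C₂ * U ^ (-(1 / 20) : ℝ)) (C₃ * U ^ (1 / 2000 : ℝ))
    (C₄ * (16 * U) ^ n) hU hx1 hx2 a1 hS (by positivity) hol (hhn_sym x y)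
    (fun u hu hu2 hu3 => h2 U x y u hU hx1 hx2 hy1 hy2 hG hu hu2 hu3)
  refine key.trans ?_
  rw [mul_assoc C₁]
  refine mul_le_mul_of_nonneg_left ?_ hC₁.le
  have b1 : C₂ * U ^ (-(1 / 20) : ℝ) * U ^ (1 / 500 : ℝ) ≤ C₂ * U ^ (-(1 / 1000) : ℝ) := by
    rw [mul_assoc, ← Real.rpow_add hU0]
    exact mul_le_mul_of_nonneg_left (Real.rpow_le_rpow_of_exponent_le hU (by norm_num)) hC₂.le
  have b2 : C₄ * (16 * U) ^ n * U ^ (-((n : ℝ) + 1)) ≤ C₄ * 16 ^ n * U ^ (-(1 / 1000) : ℝ) := by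
    have e : C₄ * (16 * U) ^ n * U ^ (-((n : ℝ) + 1)) = C₄ * 16 ^ n * U ^ ((n : ℝ) + -((n : ℝ) + 1)) := by
      rw [Real.rpow_add hU0, Real.rpow_natCast, mul_pow]
      ring
    rw [e]
    exact mul_le_mul_of_nonneg_left (Real.rpow_le_rpow_of_exponent_le hU (by linarith)) (by positivity)
  have b3 : C₃ * U ^ (1 / 2000 : ℝ) * U ^ (-(1 / 250) : ℝ) ≤ C₃ * U ^ (-(1 / 1000) : ℝ) := by
    rw [mul_assoc, ← Real.rpow_add hU0]
    exact mul_le_mul_of_nonneg_left (Real.rpow_le_rpow_of_exponent_le hU (by norm_num)) hC₃.le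
  linarith [b1, b2, b3]

end Pool.Agent.P07318g
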