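import Pool.Agent.Lib.P07318g.Defs

/-!
# Measurability

`good_meas`: `SmoothMainAux.measurableSet_bad` (P07318f/SmoothMain.lean; copy it, do not import `SmoothMain`) : `{δ | ¬ Good κ Y B δ}` is measurable. The set is a finite intersection of preimages
of its complement under the maps `h ↦ h j - α`, `h ↦ h i - h j`.
`fs_cont`: `Fd_split`, `Fd_continuousOn` (P07318s/Cont), `FdBig_continuousOn`.
`par_meas`: replace `f j` by the measurable function `(Set.Ioi 0).piecewise (f j) 0` (`ContinuousOn.measurable_piecewise`, see `SmoothMainAux.fb_meas`), same for `g j`; then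
`StronglyMeasurable.integral_prod_right` for `(h, x) ↦ G x * ..`; on the box and for `x ≥ α - U` one has `x + (h j - α) ≥ U > 0`, for `x < α - U` the integrand is `0` (`G x = 0`), so the integral is unchanged
(see `hmeas` in the proof of `smooth_main`).
-/

set_option autoImplicit false

namespace Pool.Agent.P07318g

open MeasureTheory Complex Pool.Agent.P07318s Pool.Agent.P07318f

namespace MeasNAux

theorem bad_meas (κ Y B : ℝ) : MeasurableSet {δ : ℝ | ¬ Good κ Y B δ} := by
  have h : {δ : ℝ | ¬ Good κ Y B δ} = {δ : ℝ | |δ| ≤ 4 * Y} ∪ {δ : ℝ | 4 * Y < |δ| ∧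
      ∃ σ v : ℝ, 1 / 2 + κ ≤ σ ∧ σ ≤ 3 ∧ |v| ≤ 2 * Y ∧
        B < ‖riemannZeta (σ + ((δ + v : ℝ) : ℂ) * I)‖} := by
    ext δ
    change ¬ (4 * Y < |δ| ∧ ∀ σ v : ℝ, 1 / 2 + κ ≤ σ → σ ≤ 3 → |v| ≤ 2 * Y →
      ‖riemannZeta (σ + ((δ + v : ℝ) : ℂ) * I)‖ ≤ B) ↔ (|δ| ≤ 4 * Y ∨ (4 * Y < |δ| ∧
      ∃ σ v : ℝ, 1 / 2 + κ ≤ σ ∧ σ ≤ 3 ∧ |v| ≤ 2 * Y ∧
        B < ‖riemannZeta (σ + ((δ + v : ℝ) : ℂ) * I)‖))
    constructor
    · intro h
      by_cases h1 : |δ| ≤ 4 * Y
      · exact Or.inl h1
      · right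
        push Not at h1
        refine ⟨h1, ?_⟩
        by_contra hcon
        push Not at hcon
        exact h ⟨h1, fun σ v a b c => hcon σ v a b c⟩
    · rintro (h1 | ⟨h1, σ, v, a, b, c, d⟩) ⟨h2, h3⟩
      · linarith
      · have := h3 σ v a b c
        linarith
  rw [h]
  refine (measurableSet_le (by fun_prop) (by fun_prop)).union (IsOpen.measurableSet ?_)
  rw [isOpen_iff_mem_nhds]
  rintro δ₀ ⟨h1, σ, v, h2, h3, h4, h5⟩
  have hne : δ₀ + v ≠ 0 := by
    intro h0
    have h6 : δ₀ = -v := by linarith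
    rw [h6, abs_neg] at h1
    have := abs_nonneg v
    linarith
  have hne1 : (σ : ℂ) + ((δ₀ + v : ℝ) : ℂ) * I ≠ 1 := by
    intro h0
    have := congrArg Complex.im h0
    simp at this
    exact hne (by exact_mod_cast this)
  have hc : ContinuousAt (fun δ : ℝ => ‖riemannZeta (σ + ((δ + v : ℝ) : ℂ) * I)‖) δ₀ := by
    apply ContinuousAt.norm
    apply ContinuousAt.comp (g := riemannZeta) (f := fun δ : ℝ => (σ : ℂ) + ((δ + v : ℝ) : ℂ) * I)
      (differentiableAt_riemannZeta hne1).continuousAt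
    fun_prop
  have hc2 : ContinuousAt (fun δ : ℝ => |δ|) δ₀ := by fun_prop
  filter_upwards [hc.eventually (lt_mem_nhds h5), hc2.eventually (lt_mem_nhds h1)] with δ ha hb
  exact ⟨hb, σ, v, h2, h3, h4, ha⟩

theorem ok_meas (κ Y B : ℝ) : MeasurableSet {δ : ℝ | Good κ Y B δ} := by
  have h := (bad_meas κ Y B).compl
  have e : {δ : ℝ | ¬ Good κ Y B δ}ᶜ = {δ : ℝ | Good κ Y B δ} := by
    ext δ
    exact not_not
  rwa [e] at h

theorem ext_meas {f : ℝ → ℂ} (hf : ContinuousOn f (Set.Ioi 0)) :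
    ∃ F : ℝ → ℂ, Measurable F ∧ ∀ y, 0 < y → F y = f y := by
  classical
  refine ⟨(Set.Ioi (0:ℝ)).piecewise f (fun _ => 0), ?_, ?_⟩
  · exact hf.measurable_piecewise continuousOn_const measurableSet_Ioi
  · intro y hy
    exact Set.piecewise_eq_of_mem _ _ _ hy

end MeasNAux

open MeasNAux in
theorem good_meas {n : ℕ} (κ Y B α : ℝ) : MeasurableSet {h : Fin n → ℝ | GoodN κ Y B α h} := by
  have e : {h : Fin n → ℝ | GoodN κ Y B α h} =
      (⋂ j, (fun h : Fin n → ℝ => h j - α) ⁻¹' {δ : ℝ | Good κ Y B δ}) ∩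
        ⋂ i, ⋂ j, {h : Fin n → ℝ | i ≠ j → Good κ Y B (h i - h j)} := by
    ext h
    simp only [Set.mem_inter_iff, Set.mem_iInter]
    exact Iff.rfl
  rw [e]
  refine (MeasurableSet.iInter fun j => ?_).inter (MeasurableSet.iInter fun i =>
    MeasurableSet.iInter fun j => ?_)
  · exact ((measurable_pi_apply j).sub measurable_const) (ok_meas κ Y B)
  · by_cases hij : i = j
    · have e2 : {h : Fin n → ℝ | i ≠ j → Good κ Y B (h i - h j)} = Set.univ := by
        ext h
        constructor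
        · intro _
          exact Set.mem_univ _
        · intro _ hne
          exact absurd hij hne
      rw [e2]
      exact MeasurableSet.univ
    · have e2 : {h : Fin n → ℝ | i ≠ j → Good κ Y B (h i - h j)} =
          (fun h : Fin n → ℝ => h i - h j) ⁻¹' {δ : ℝ | Good κ Y B δ} := by
        ext h
        constructor
        · intro h1
          exact h1 hij
        · intro h1 _
          exact h1
      rw [e2]
      exact ((measurable_pi_apply i).sub (measurable_pi_apply j)) (ok_meas κ Y B)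

theorem fs_cont (Y : ℝ) : ContinuousOn (FdSmall Y) (Set.Ioi 0) := by
  refine (Fd_continuousOn.sub (FdBig_continuousOn Y)).congr fun x hx => ?_
  rw [Pi.sub_apply, Fd_split Y x hx]
  ring

open MeasNAux in
theorem par_meas {n : ℕ} (U α : ℝ) (β : Fin n → ℝ) (G : ℝ → ℂ) (f g : Fin n → ℝ → ℂ) (hU : 0 < U) (hG : Measurable G)
    (hG1 : ∀ x, x < α - U → G x = 0) (hβ : ∀ j, 2 * U ≤ β j) (hf : ∀ j, ContinuousOn (f j) (Set.Ioi 0))
    (hg : ∀ j, ContinuousOn (g j) (Set.Ioi 0)) :
    AEMeasurable (fun h : Fin n → ℝ => ∫ x, G x * ((∏ j, f j (x + (h j - α))) - ∏ j, g j (x + (h j - α))))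
      (volume.restrict (Set.Icc β fun j => β j + U)) := by
  choose F hFm hF using fun j => ext_meas (hf j)
  choose F' hFm' hF' using fun j => ext_meas (hg j)
  have h1 : StronglyMeasurable (fun h : Fin n → ℝ =>
      ∫ x, G x * ((∏ j, F j (x + (h j - α))) - ∏ j, F' j (x + (h j - α)))) := by
    refine StronglyMeasurable.integral_prod_right
      (f := fun (h : Fin n → ℝ) (x : ℝ) => G x * ((∏ j, F j (x + (h j - α))) - ∏ j, F' j (x + (h j - α)))) ?_
    refine Measurable.stronglyMeasurable ?_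
    have hx : ∀ j, Measurable (fun z : (Fin n → ℝ) × ℝ => z.2 + (z.1 j - α)) := fun j =>
      measurable_snd.add (((measurable_pi_apply j).comp measurable_fst).sub measurable_const)
    refine (hG.comp measurable_snd).mul (Measurable.sub ?_ ?_)
    · exact Finset.measurable_prod _ fun j _ => (hFm j).comp (hx j)
    · exact Finset.measurable_prod _ fun j _ => (hFm' j).comp (hx j)
  refine h1.measurable.aemeasurable.congr ((ae_restrict_iff' measurableSet_Icc).2
    (Filter.Eventually.of_forall fun h hh => ?_))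
  refine integral_congr_ae (Filter.Eventually.of_forall fun x => ?_)
  simp only
  by_cases hx : x < α - U
  · rw [hG1 x hx, zero_mul, zero_mul]
  · push Not at hx
    have hpos : ∀ j, 0 < x + (h j - α) := by
      intro j
      have h2 : β j ≤ h j := hh.1 j
      have h3 := hβ j
      linarith
    rw [Finset.prod_congr rfl fun j _ => hF j _ (hpos j),
      Finset.prod_congr rfl fun j _ => hF' j _ (hpos j)]

end Pool.Agent.P07318g
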