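import Pool.Agent.Lib.P07318g.SmallN
import Pool.Agent.Lib.P07318g.FullN
import Pool.Agent.Lib.P07318g.MeasN

/-!
# Decomposition of the smoothed error term for fixed `h`

PROOF. Copy of `fixed_h` in P07318f/SmoothMain.lean (`n = 1`; lemmas `bdd_int`, `cont_int`, `fs_meas`, `int5` there; copy them, do not import `SmoothMain`). `τ j = h j - α`, `G x = Ω x ‖ζ(1/2+ix)‖⁴`, `y j = x + τ j ∈ [U, 11U]` on the support of `Ω`
(`⊂ [U, 8U]`). `∫ Ω (gf - Mn) = ∫ G (∏ ‖ζ(y j)‖² - ∏ Fd) + ∫ G (∏ Fd - ∏ FdSmall Y) + [∫ G ∏ FdSmall - ∫ Ω ∑' (1 - tl Y q) wn MM] - ∫ Ω ∑' tl wn MM + ∫ Ω (∑' wn MM - Mn)`, since `∑' (1 - tl) wn MM + ∑' tl wn MM = ∑' wn MM` (`mm_summable_n`,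
`tl ≤ 1`). Hence `‖En‖ ≤ ‖A₁‖ + ‖A₂‖ + ‖A₄‖ + small_n + 8 U C U^(-1/1000)` (`full_n` with `GoodN .. x (x + τ)`: the differences are the same as those of `(α, h)`), and `1 - 1/40 ≤ 1 - 1/1000`.
Integrability: `ζ`, `Fd`, `FdSmall` continuous on the support (`Fd_continuousOn` of P07318s/Cont, `fs_cont`), the sums over `q`: measurable (countable sums of functions continuous on the support: `Om` by `LongPartAux.Om_cont`,
`MM` by `mm_cont`) and bounded (`mm_summable_n`), `Mn` continuous (`mn_cont`: `|h j - α| > 4`).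
-/

set_option autoImplicit false

namespace Pool.Agent.P07318g

open MeasureTheory Complex Pool.Agent.P07318s Pool.Agent.P07318f

namespace FixAux

theorem zeta_half_cont : Continuous (fun x : ℝ => riemannZeta (1 / 2 + x * I)) := by
  rw [continuous_iff_continuousAt]
  intro x
  have h1 : ((1:ℂ) / 2 + x * I) ≠ 1 := by
    intro h
    have := congrArg Complex.re h
    simp at this
  have h2 : ContinuousAt (fun x : ℝ => ((1:ℂ) / 2 + x * I)) x := by fun_prop
  exact ContinuousAt.comp (g := riemannZeta) (f := fun x : ℝ => ((1:ℂ) / 2 + x * I))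
    (differentiableAt_riemannZeta h1).continuousAt h2

/-- integrability and size of `Ω g` -/
theorem bdd_int {Ω g : ℝ → ℂ} (hΩc : Continuous Ω) (hΩ1 : ∀ x, ‖Ω x‖ ≤ 1) {K : Set ℝ} (hKm : MeasurableSet K)
    (hKv : volume K < ⊤) (hK : ∀ x, Ω x ≠ 0 → x ∈ K) (hg : AEStronglyMeasurable g (volume.restrict K))
    {M : ℝ} (hM : ∀ x ∈ K, ‖g x‖ ≤ M) :
    Integrable (fun x => Ω x * g x) ∧ ‖∫ x, Ω x * g x‖ ≤ M * volume.real K := by
  have hb : ∀ x ∈ K, ‖Ω x * g x‖ ≤ M := by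
    intro x hx
    rw [norm_mul]
    have h1 := hΩ1 x
    have h2 := hM x hx
    have h3 := norm_nonneg (g x)
    have h4 := norm_nonneg (Ω x)
    nlinarith
  have hsupp : Function.support (fun x => Ω x * g x) ⊆ K := by
    intro x hx
    apply hK
    intro h0
    apply hx
    simp only
    rw [h0, zero_mul]
  constructor
  · rw [← integrableOn_iff_integrable_of_support_subset hsupp]
    have : IsFiniteMeasure (volume.restrict K) := ⟨by simpa using hKv⟩
    refine Integrable.of_bound (hΩc.aestronglyMeasurable.mul hg) M ?_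
    exact (ae_restrict_iff' hKm).2 (Filter.Eventually.of_forall hb)
  · rw [← setIntegral_eq_integral_of_forall_compl_eq_zero (s := K) (f := fun x => Ω x * g x)]
    · exact norm_setIntegral_le_of_norm_le_const hKv hb
    · intro x hx
      by_contra h0
      exact hx (hsupp h0)

theorem cont_int {Ω g : ℝ → ℂ} (hΩc : Continuous Ω) (hΩ1 : ∀ x, ‖Ω x‖ ≤ 1) {K : Set ℝ} (hKc : IsCompact K)
    (hK : ∀ x, Ω x ≠ 0 → x ∈ K) (hg : ContinuousOn g K) : Integrable (fun x => Ω x * g x) := by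
  obtain ⟨M, hM⟩ := hKc.exists_bound_of_continuousOn hg
  exact (bdd_int hΩc hΩ1 hKc.measurableSet hKc.measure_lt_top hK
    (hg.aestronglyMeasurable hKc.measurableSet) hM).1

/-- one term of the full sum -/
noncomputable def ft {n : ℕ} (τ : Fin n → ℝ) (x : ℝ) (q : Fin n → Q) : ℂ :=
  wn (fun j => x + τ j) τ q * MM x (rp q).1.1 (rp q).1.2

theorem ft_cont {n : ℕ} (τ : Fin n → ℝ) (q : Fin n → Q) {K : Set ℝ} (hK1 : ∀ x ∈ K, 1 ≤ x)
    (hK2 : ∀ x ∈ K, ∀ j, 0 < x + τ j) : ContinuousOn (fun x => ft τ x q) K := by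
  unfold ft wn
  refine ContinuousOn.mul (continuousOn_finsetProd _ fun j _ => ContinuousOn.mul ?_ continuousOn_const) ?_
  · refine Complex.continuous_ofReal.comp_continuousOn (continuousOn_const.mul ?_)
    exact (LongPartAux.Om_cont (one_le_hgt (q j).1)).comp (f := fun x : ℝ => x + τ j) (by fun_prop)
      (fun x hx => hK2 x hx j)
  · exact (mm_cont (rp q).1.1 (rp q).1.2 (rp q).2).mono fun x hx => lt_of_lt_of_le one_pos (hK1 x hx)

/-- the series with bounded coefficients is measurable and bounded -/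
theorem cs_meas {n : ℕ} (τ : Fin n → ℝ) {K : Set ℝ} (hKm : MeasurableSet K) (hK1 : ∀ x ∈ K, 1 ≤ x)
    (hK2 : ∀ x ∈ K, ∀ j, 0 < x + τ j)
    (hs : ∀ x ∈ K, Summable fun q : Fin n → Q => ‖ft τ x q‖) (c : (Fin n → Q) → ℂ)
    (hc : ∀ q, ‖c q‖ ≤ 1) :
    AEStronglyMeasurable (fun x => ∑' q, c q * ft τ x q) (volume.restrict K) := by
  refine aestronglyMeasurable_of_tendsto_ae (Filter.atTop : Filter (Finset (Fin n → Q)))
    (f := fun s x => ∑ q ∈ s, c q * ft τ x q) (fun s => ?_) ?_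
  · exact (continuousOn_finsetSum s fun q _ =>
      continuousOn_const.mul (ft_cont τ q hK1 hK2)).aestronglyMeasurable hKm
  · refine (ae_restrict_iff' hKm).2 (Filter.Eventually.of_forall fun x hx => ?_)
    have h1 : Summable fun q : Fin n → Q => c q * ft τ x q := by
      refine Summable.of_norm_bounded (hs x hx) fun q => ?_
      rw [norm_mul]
      exact mul_le_of_le_one_left (norm_nonneg _) (hc q)
    exact h1.hasSum

theorem cs_bound {n : ℕ} (τ : Fin n → ℝ) (x : ℝ)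
    (hs : Summable fun q : Fin n → Q => ‖ft τ x q‖) (c : (Fin n → Q) → ℂ)
    (hc : ∀ q, ‖c q‖ ≤ 1) : ‖∑' q, c q * ft τ x q‖ ≤ ∑' q, ‖ft τ x q‖ := by
  refine tsum_of_norm_bounded hs.hasSum fun q => ?_
  rw [norm_mul]
  exact mul_le_of_le_one_left (norm_nonneg _) (hc q)

theorem int5 {f a b c c' d e : ℝ → ℂ} (ha : Integrable a) (hb : Integrable b) (hc : Integrable c)
    (hc' : Integrable c') (hd : Integrable d) (he : Integrable e)
    (hf : ∀ x, f x = a x + b x + (c x - c' x) - d x + e x) :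
    ∫ x, f x = (∫ x, a x) + (∫ x, b x) + ((∫ x, c x) - ∫ x, c' x) - (∫ x, d x) + ∫ x, e x := by
  have h1 : Integrable (fun x => a x + b x) := ha.add hb
  have h0 : Integrable (fun x => c x - c' x) := hc.sub hc'
  have h2 : Integrable (fun x => a x + b x + (c x - c' x)) := h1.add h0
  have h3 : Integrable (fun x => a x + b x + (c x - c' x) - d x) := h2.sub hd
  rw [integral_congr_ae (Filter.Eventually.of_forall hf), integral_add h3 he, integral_sub h2 hd,
    integral_add h1 h0, integral_add ha hb, integral_sub hc hc']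

end FixAux

open FixAux

theorem fix_n (n : ℕ) (B : ℝ) : ∃ C : ℝ, 0 < C ∧ ∀ (U Y Δ α : ℝ) (β h : Fin n → ℝ) (Ω : ℝ → ℂ), 1 ≤ U → 1 ≤ Y →
    Y ^ n ≤ U ^ (1 / 1000 : ℝ) → U ^ (1 - 1 / 1000 : ℝ) ≤ Δ → Δ ≤ U → 2 * U ≤ α → α ≤ 6 * U → (∀ j, 2 * U ≤ β j) → (∀ j, β j ≤ 6 * U) →
    h ∈ Set.Icc β (fun j => β j + U) → Adm U Δ Ω → (∀ x, Ω x ≠ 0 → U ≤ x ∧ α - U ≤ x ∧ x ≤ α + 4 * U) →
    GoodN (kp n) (U ^ kp n) (B * U ^ kp n) α h →
    ‖En Ω α h‖ ≤ ‖∫ x, (Ω x * ((‖riemannZeta (1 / 2 + x * I)‖ ^ 4 : ℝ) : ℂ)) *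
        (((∏ j, ‖riemannZeta (1 / 2 + ((x + (h j - α) : ℝ) : ℂ) * I)‖ ^ 2 : ℝ) : ℂ) - ∏ j, Fd (x + (h j - α)))‖ +
      ‖∫ x, (Ω x * ((‖riemannZeta (1 / 2 + x * I)‖ ^ 4 : ℝ) : ℂ)) *
        ((∏ j, Fd (x + (h j - α))) - ∏ j, FdSmall Y (x + (h j - α)))‖ +
      ‖∫ x, Ω x * ∑' q : Fin n → Q, (tl Y q : ℂ) * wn (fun j => x + (h j - α)) (fun j => h j - α) q *
        MM x (rp q).1.1 (rp q).1.2‖ + C * U ^ (1 - 1 / 1000 : ℝ) := by
  obtain ⟨Ct, hCt, htw⟩ := small_n n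
  obtain ⟨Cf, hCf, hfs⟩ := full_n n B
  obtain ⟨Cm, hCm, hmm⟩ := mm_summable_n n
  refine ⟨Ct + 7 * Cf, by positivity, ?_⟩
  intro U Y Δ α β h Ω hU hY1 hYn hΔ1 hΔ2 hα1 hα2 hβ1 hβ2 hh hAdm hsupp hgood
  have hU0 : 0 < U := by linarith
  have hΩd := hAdm.1
  have hΩz2 := hAdm.2.2.1
  have hΩb := hAdm.2.2.2
  have hΩc : Continuous Ω := hΩd.continuous
  have hΩ1 : ∀ x, ‖Ω x‖ ≤ 1 := fun x => by simpa using hΩb 0 (by norm_num) x
  have hh1 : ∀ j, β j ≤ h j := fun j => hh.1 j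
  have hh2 : ∀ j, h j ≤ β j + U := fun j => hh.2 j
  set τ : Fin n → ℝ := fun j => h j - α with hτ
  set K : Set ℝ := Set.Icc U (8 * U) ∩ Set.Icc (α - U) (α + 4 * U) with hKdef
  have hKc : IsCompact K := isCompact_Icc.inter_right isClosed_Icc
  have hKm : MeasurableSet K := hKc.measurableSet
  have hKv : volume K < ⊤ := hKc.measure_lt_top
  have hK : ∀ x, Ω x ≠ 0 → x ∈ K := by
    intro x hx
    obtain ⟨h1, h2, h3⟩ := hsupp x hx
    refine ⟨⟨h1, ?_⟩, h2, h3⟩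
    by_contra hc
    push Not at hc
    exact hx (hΩz2 x hc.le)
  have hKx : ∀ x ∈ K, U ≤ x ∧ x ≤ 8 * U ∧ ∀ j, U ≤ x + τ j ∧ x + τ j ≤ 11 * U := by
    rintro x ⟨⟨h1, h2⟩, h3, h4⟩
    refine ⟨h1, h2, fun j => ?_⟩
    have := hh1 j
    have := hh2 j
    have := hβ1 j
    have := hβ2 j
    simp only [hτ]
    constructor <;> linarith
  have hK1 : ∀ x ∈ K, 1 ≤ x := fun x hx => hU.trans (hKx x hx).1
  have hK0 : ∀ x ∈ K, 0 < x := fun x hx => one_pos.trans_le (hK1 x hx)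
  have hK2 : ∀ x ∈ K, ∀ j, 0 < x + τ j := fun x hx j => hU0.trans_le ((hKx x hx).2.2 j).1
  have hKr : volume.real K ≤ 7 * U := by
    refine (measureReal_mono Set.inter_subset_left (by simp)).trans ?_
    rw [Real.volume_real_Icc_of_le (by linarith)]
    linarith
  set Z4 : ℝ → ℂ := fun x => ((‖riemannZeta (1 / 2 + x * I)‖ ^ 4 : ℝ) : ℂ) with hZ4
  set PZ : ℝ → ℂ := fun x => ((∏ j, ‖riemannZeta (1 / 2 + ((x + τ j : ℝ) : ℂ) * I)‖ ^ 2 : ℝ) : ℂ) with hPZ
  set PF : ℝ → ℂ := fun x => ∏ j, Fd (x + τ j) with hPF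
  set PS : ℝ → ℂ := fun x => ∏ j, FdSmall Y (x + τ j) with hPS
  set T1 : ℝ → ℂ := fun x => ∑' q : Fin n → Q, (tl Y q : ℂ) * ft τ x q with hT1
  set T2 : ℝ → ℂ := fun x => ∑' q : Fin n → Q, ((1 - tl Y q : ℝ) : ℂ) * ft τ x q with hT2
  set S : ℝ → ℂ := fun x => ∑' q : Fin n → Q, ft τ x q with hS
  have hZ4c : Continuous Z4 := Complex.continuous_ofReal.comp ((zeta_half_cont.norm).pow 4)
  have hPZc : Continuous PZ := by
    refine Complex.continuous_ofReal.comp (continuous_finsetProd _ fun j _ => ?_)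
    exact ((zeta_half_cont.comp (continuous_id.add continuous_const)).norm).pow 2
  have hshift : ∀ f : ℝ → ℂ, ContinuousOn f (Set.Ioi 0) → ContinuousOn (fun x => ∏ j, f (x + τ j)) K :=
    fun f hf => continuousOn_finsetProd _ fun j _ =>
      hf.comp (f := fun x : ℝ => x + τ j) (by fun_prop) (fun x hx => hK2 x hx j)
  have hPFc : ContinuousOn PF K := hshift Fd Fd_continuousOn
  have hPSc : ContinuousOn PS K := hshift (FdSmall Y) (fs_cont Y)
  have hUk : 1 ≤ U ^ kp n := Real.one_le_rpow hU (kp_pos n).le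
  have hMc : ContinuousOn (fun x => Mn x fun j => x + τ j) K := by
    refine (mn_cont n).comp (f := fun x : ℝ => (x, fun j => x + τ j)) (by fun_prop) ?_
    intro x hx
    refine ⟨hK0 x hx, hK2 x hx, fun j => ?_, fun i j hij => ?_⟩
    · have h1 := (hgood.1 j).1
      simp only [hτ]
      rw [add_sub_cancel_left]
      linarith
    · have h1 := (hgood.2 i j hij).1
      simp only [hτ]
      rw [show x + (h i - α) - (x + (h j - α)) = h i - h j by ring]
      linarith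
  have hsum : ∀ x ∈ K, Summable fun q : Fin n → Q => ‖ft τ x q‖ := fun x hx =>
    (hmm x (fun j => x + τ j) τ (hK1 x hx) (hK2 x hx)).1
  have hbd : ∀ x ∈ K, ∑' q : Fin n → Q, ‖ft τ x q‖ ≤ Cm * (8 * U) * (11 * U) ^ n := by
    intro x hx
    refine (hmm x (fun j => x + τ j) τ (hK1 x hx) (hK2 x hx)).2.trans ?_
    obtain ⟨h1, h2, h3⟩ := hKx x hx
    have h4 : ∏ j, (x + τ j) ≤ (11 * U) ^ n := by
      calc ∏ j, (x + τ j) ≤ ∏ _j : Fin n, (11 * U) :=
            Finset.prod_le_prod (fun j _ => (hK2 x hx j).le) fun j _ => (h3 j).2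
        _ = (11 * U) ^ n := by simp
    have h5 : 0 ≤ ∏ j, (x + τ j) := Finset.prod_nonneg fun j _ => (hK2 x hx j).le
    have h6 : 0 < x := hK0 x hx
    gcongr
  have hc1 : ∀ q : Fin n → Q, ‖((tl Y q : ℝ) : ℂ)‖ ≤ 1 := by
    intro q
    rw [Complex.norm_real, Real.norm_of_nonneg (tl_nonneg Y q)]
    exact tl_le_one Y q
  have hc2 : ∀ q : Fin n → Q, ‖((1 - tl Y q : ℝ) : ℂ)‖ ≤ 1 := by
    intro q
    have h1 := tl_nonneg Y q
    have h2 := tl_le_one Y q
    rw [Complex.norm_real, Real.norm_of_nonneg (by linarith)]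
    linarith
  have hadd : ∀ x ∈ K, T1 x + T2 x = S x := by
    intro x hx
    have hf := hsum x hx
    have h1 : Summable fun q : Fin n → Q => (tl Y q : ℂ) * ft τ x q := by
      refine Summable.of_norm_bounded hf fun q => ?_
      rw [norm_mul]
      exact mul_le_of_le_one_left (norm_nonneg _) (hc1 q)
    have h2 : Summable fun q : Fin n → Q => ((1 - tl Y q : ℝ) : ℂ) * ft τ x q := by
      refine Summable.of_norm_bounded hf fun q => ?_
      rw [norm_mul]
      exact mul_le_of_le_one_left (norm_nonneg _) (hc2 q)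
    simp only [hT1, hT2, hS]
    rw [← h1.tsum_add h2]
    refine tsum_congr fun q => ?_
    push_cast
    ring
  have hT1m := cs_meas τ hKm hK1 hK2 hsum (fun q => ((tl Y q : ℝ) : ℂ)) hc1
  have hT2m := cs_meas τ hKm hK1 hK2 hsum (fun q => ((1 - tl Y q : ℝ) : ℂ)) hc2
  have hSm : AEStronglyMeasurable S (volume.restrict K) := by
    have h1 := cs_meas τ hKm hK1 hK2 hsum (fun _ => 1) (fun _ => by simp)
    refine h1.congr (Filter.Eventually.of_forall fun x => ?_)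
    simp only [hS, one_mul]
  have hSM : ∀ x ∈ K, ‖S x - Mn x fun j => x + τ j‖ ≤ Cf * U ^ (-(1 / 1000) : ℝ) := by
    intro x hx
    obtain ⟨h1, h2, h3⟩ := hKx x hx
    have h5 := hfs U x (fun j => x + τ j) hU h1 (by linarith) (fun j => (h3 j).1)
      (fun j => by have := (h3 j).2; linarith) (by
      refine ⟨fun j => ?_, fun i j hij => ?_⟩
      · have h6 := hgood.1 j
        simp only [hτ]
        rw [add_sub_cancel_left]
        exact h6
      · have h6 := hgood.2 i j hij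
        simp only [hτ]
        rw [show x + (h i - α) - (x + (h j - α)) = h i - h j by ring]
        exact h6)
    simp only [add_sub_cancel_left] at h5
    exact h5
  -- integrability
  have i0 : Integrable (fun x => Ω x * (Z4 x * (PZ x - PF x))) :=
    cont_int hΩc hΩ1 hKc hK (hZ4c.continuousOn.mul (hPZc.continuousOn.sub hPFc))
  have i0' : Integrable (fun x => (Ω x * Z4 x) * (PZ x - PF x)) :=
    i0.congr (Filter.Eventually.of_forall fun x => by simp only [mul_assoc])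
  have i1 : Integrable (fun x => Ω x * (Z4 x * (PF x - PS x))) :=
    cont_int hΩc hΩ1 hKc hK (hZ4c.continuousOn.mul (hPFc.sub hPSc))
  have i1' : Integrable (fun x => (Ω x * Z4 x) * (PF x - PS x)) :=
    i1.congr (Filter.Eventually.of_forall fun x => by simp only [mul_assoc])
  have i2 : Integrable (fun x => Ω x * (Z4 x * PS x)) :=
    cont_int hΩc hΩ1 hKc hK (hZ4c.continuousOn.mul hPSc)
  have i2' : Integrable (fun x => Ω x * Z4 x * PS x) :=
    i2.congr (Filter.Eventually.of_forall fun x => by simp only [mul_assoc])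
  have i3 : Integrable (fun x => Ω x * T2 x) :=
    (bdd_int hΩc hΩ1 hKm hKv hK hT2m (fun x hx =>
      (cs_bound τ x (hsum x hx) _ hc2).trans (hbd x hx))).1
  have i4 : Integrable (fun x => Ω x * T1 x) :=
    (bdd_int hΩc hΩ1 hKm hKv hK hT1m (fun x hx =>
      (cs_bound τ x (hsum x hx) _ hc1).trans (hbd x hx))).1
  have i5 := bdd_int hΩc hΩ1 hKm hKv hK
    (hSm.sub (hMc.aestronglyMeasurable hKm)) (M := Cf * U ^ (-(1 / 1000) : ℝ)) hSM
  have i5' : Integrable (fun x => Ω x * (S x - Mn x fun j => x + τ j)) := i5.1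
  -- the identity
  have key : ∀ x, Ω x * ((gf x (fun j => x + (h j - α)) : ℂ) - Mn x fun j => x + (h j - α)) =
      (Ω x * Z4 x) * (PZ x - PF x) + (Ω x * Z4 x) * (PF x - PS x) +
      (Ω x * Z4 x * PS x - Ω x * T2 x) - Ω x * T1 x +
      Ω x * (S x - Mn x fun j => x + τ j) := by
    intro x
    by_cases hx : Ω x = 0
    · simp [hx]
    have hxK := hK x hx
    rw [← hadd x hxK]
    have e1 : ((gf x (fun j => x + (h j - α)) : ℝ) : ℂ) = Z4 x * PZ x := by
      simp only [gf, hZ4, hPZ, hτ]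
      push_cast
      ring
    rw [e1]
    simp only [hτ]
    ring
  have hint := int5 i0' i1' i2' i3 i4 i5' key
  have b3 := htw U Y Δ τ Ω hU hY1 hYn hΔ1 hΔ2 hAdm (by
    intro x hx j
    obtain ⟨_, _, h3⟩ := hKx x (hK x hx)
    have := h3 j
    constructor <;> linarith)
  have e3 : ∫ x : ℝ, Ω x * ∑' q : Fin n → Q, ((1 - tl Y q : ℝ) : ℂ) * wn (fun j => x + τ j) τ q *
      MM x (rp q).1.1 (rp q).1.2 = ∫ x : ℝ, Ω x * T2 x := by
    refine integral_congr_ae (Filter.Eventually.of_forall fun x => ?_)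
    simp only [hT2, ft]
    congr 1
    refine tsum_congr fun q => ?_
    ring
  have e4 : ∫ x : ℝ, Ω x * ∑' q : Fin n → Q, (tl Y q : ℂ) * wn (fun j => x + τ j) τ q *
      MM x (rp q).1.1 (rp q).1.2 = ∫ x : ℝ, Ω x * T1 x := by
    refine integral_congr_ae (Filter.Eventually.of_forall fun x => ?_)
    simp only [hT1, ft]
    congr 1
    refine tsum_congr fun q => ?_
    ring
  rw [e3] at b3
  have b3' : Ct * U ^ (1 - 1 / 40 : ℝ) ≤ Ct * U ^ (1 - 1 / 1000 : ℝ) :=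
    mul_le_mul_of_nonneg_left (Real.rpow_le_rpow_of_exponent_le hU (by norm_num)) hCt.le
  have b4 : ‖∫ x, Ω x * (S x - Mn x fun j => x + τ j)‖ ≤ 7 * Cf * U ^ (1 - 1 / 1000 : ℝ) := by
    refine le_trans i5.2 ?_
    calc Cf * U ^ (-(1 / 1000) : ℝ) * volume.real K ≤ Cf * U ^ (-(1 / 1000) : ℝ) * (7 * U) :=
          mul_le_mul_of_nonneg_left hKr (by positivity)
      _ = 7 * Cf * (U ^ (-(1 / 1000) : ℝ) * U ^ (1:ℝ)) := by rw [Real.rpow_one]; ring
      _ = 7 * Cf * U ^ (1 - 1 / 1000 : ℝ) := by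
          rw [← Real.rpow_add hU0]
          norm_num
  unfold En
  rw [hint]
  change _ ≤ ‖∫ x, (Ω x * Z4 x) * (PZ x - PF x)‖ + ‖∫ x, (Ω x * Z4 x) * (PF x - PS x)‖ +
    ‖∫ x : ℝ, Ω x * ∑' q : Fin n → Q, (tl Y q : ℂ) * wn (fun j => x + τ j) τ q *
      MM x (rp q).1.1 (rp q).1.2‖ + _
  rw [e4]
  have t1 := norm_add_le ((∫ x, (Ω x * Z4 x) * (PZ x - PF x)) + (∫ x, (Ω x * Z4 x) * (PF x - PS x)) +
      ((∫ x, Ω x * Z4 x * PS x) - ∫ x, Ω x * T2 x) - (∫ x, Ω x * T1 x))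
      (∫ x, Ω x * (S x - Mn x fun j => x + τ j))
  have t2 := norm_sub_le ((∫ x, (Ω x * Z4 x) * (PZ x - PF x)) + (∫ x, (Ω x * Z4 x) * (PF x - PS x)) +
      ((∫ x, Ω x * Z4 x * PS x) - ∫ x, Ω x * T2 x)) (∫ x, Ω x * T1 x)
  have t3 := norm_add₃_le (a := ∫ x, (Ω x * Z4 x) * (PZ x - PF x))
    (b := ∫ x, (Ω x * Z4 x) * (PF x - PS x))
    (c := (∫ x, Ω x * Z4 x * PS x) - ∫ x, Ω x * T2 x)
  have t4 : (Ct + 7 * Cf) * U ^ (1 - 1 / 1000 : ℝ) =
      Ct * U ^ (1 - 1 / 1000 : ℝ) + 7 * Cf * U ^ (1 - 1 / 1000 : ℝ) := by ring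
  rw [t4]
  have b3'' := b3.trans b3'
  linarith

end Pool.Agent.P07318g
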