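import Pool.Agent.Lib.P07318g.TruncA
import Pool.Agent.Lib.P07318f.FullSum

/-!
# The sum of all main terms, general coefficients

Copy of `full_sum` (P07318f/FullSum.lean) with the coefficients `c i`, `r i` and an abstract `H`.
-/

set_option autoImplicit false

namespace Pool.Agent.P07318g

open MeasureTheory Complex Pool.Agent.P07318s Pool.Agent.P07318f

namespace FullAAux

open FullAux

variable {ι : Type} [Countable ι]

/-- the integrands -/
noncomputable def Fa (c : ι → ℂ) (r : ι → Q) (x : ℝ) (i : ι) (θ : ℝ) : ℂ :=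
  c i * (X2 x (3 * circleMap 0 rho θ) * MI (circleMap 0 rho θ) x (r i).1.1 (r i).1.2 +
    X2 x (-3 * circleMap 0 rho θ) * MI (-circleMap 0 rho θ) x (r i).1.1 (r i).1.2)

omit [Countable ι] in
theorem Fa_cont (c : ι → ℂ) (r : ι → Q) {x : ℝ} (hx : 0 < x) (i : ι) : Continuous (Fa c r x i) := by
  have hr : ((x / (2 * Real.pi) : ℝ) : ℂ) ≠ 0 := by
    rw [Complex.ofReal_ne_zero]
    positivity
  have hc : Continuous (circleMap 0 rho) := continuous_circleMap 0 rho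
  have hX : ∀ f : ℝ → ℂ, Continuous f → Continuous fun θ => X2 x (f θ) := by
    intro f hf
    unfold X2
    exact hf.const_cpow (Or.inl hr)
  have hM := mi_cont (r i).1.1 (r i).1.2 (r i).2
  have h1 : Continuous fun θ => MI (circleMap 0 rho θ) x (r i).1.1 (r i).1.2 := by
    refine hM.comp_continuous (f := fun θ : ℝ => (circleMap 0 rho θ, x))
      (hc.prodMk continuous_const) fun θ => ⟨?_, hx⟩
    rw [mem_sphere_zero_iff_norm]
    exact norm_circ θ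
  have h2 : Continuous fun θ => MI (-circleMap 0 rho θ) x (r i).1.1 (r i).1.2 := by
    refine hM.comp_continuous (f := fun θ : ℝ => (-circleMap 0 rho θ, x))
      (hc.neg.prodMk continuous_const) fun θ => ⟨?_, hx⟩
    rw [mem_sphere_zero_iff_norm, norm_neg]
    exact norm_circ θ
  unfold Fa
  exact continuous_const.mul (((hX _ (continuous_const.mul hc)).mul h1).add
    ((hX _ (continuous_const.mul hc)).mul h2))

omit [Countable ι] in
theorem norm_Fa (c : ι → ℂ) (r : ι → Q) {C U x : ℝ} (hU : 1 ≤ U) (hx1 : U ≤ x) (hx2 : x ≤ 16 * U) (hC : 0 < C)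
    (hb : ∀ (x : ℝ) (s : ℂ) (a b : ℕ+), 1 ≤ x → ‖s‖ = rho → Nat.Coprime (a : ℕ) (b : ℕ) →
      ‖MI s x a b‖ ≤ C * x ^ (1 / 10000 : ℝ) * ((a : ℕ) * (b : ℕ) : ℝ) ^ (-(1 / 2) + 1 / 9 : ℝ))
    (i : ι) (θ : ℝ) :
    ‖Fa c r x i θ‖ ≤ ‖c i‖ *
      (2 * ((16 * U ^ (1 / 1000000 : ℝ)) * (C * x ^ (1 / 10000 : ℝ)))) := by
  have hx : 1 ≤ x := by linarith
  have hs := norm_circ θ
  have hs' : ‖-circleMap 0 rho θ‖ = rho := by rw [norm_neg, hs]
  obtain ⟨r1, r2⟩ := re_three hs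
  have hX1 := FullAux.X2_bound hU hx1 hx2 (by norm_num) r1
  have hX2 := FullAux.X2_bound hU hx1 hx2 (by norm_num) r2
  have hpow : (((r i).1.1 : ℕ) * ((r i).1.2 : ℕ) : ℝ) ^ (-(1 / 2) + 1 / 9 : ℝ) ≤ 1 :=
    Real.rpow_le_one_of_one_le_of_nonpos (one_le_hgt (r i).1) (by norm_num)
  have hC0 : 0 ≤ C * x ^ (1 / 10000 : ℝ) := by positivity
  have hM1 : ‖MI (circleMap 0 rho θ) x (r i).1.1 (r i).1.2‖ ≤ C * x ^ (1 / 10000 : ℝ) :=
    (hb x _ (r i).1.1 (r i).1.2 hx hs (r i).2).trans (mul_le_of_le_one_right hC0 hpow)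
  have hM2 : ‖MI (-circleMap 0 rho θ) x (r i).1.1 (r i).1.2‖ ≤ C * x ^ (1 / 10000 : ℝ) :=
    (hb x _ (r i).1.1 (r i).1.2 hx hs' (r i).2).trans (mul_le_of_le_one_right hC0 hpow)
  unfold Fa
  rw [norm_mul]
  apply mul_le_mul_of_nonneg_left _ (norm_nonneg _)
  refine (norm_add_le _ _).trans ?_
  rw [norm_mul, norm_mul]
  have h1 := mul_le_mul hX1 hM1 (norm_nonneg _) (by positivity)
  have h2 := mul_le_mul hX2 hM2 (norm_nonneg _) (by positivity)
  linarith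

/-- the sum of the `Fa` -/
theorem tsum_Fa (c : ι → ℂ) (r : ι → Q) (hc : Summable fun i => ‖c i‖) {x : ℝ} (hx : 1 ≤ x) (θ : ℝ) {s : ℂ}
    (hs : s = circleMap 0 rho θ) :
    ∑' i, Fa c r x i θ =
      X2 x (3 * s) * (DA (TA c r) s x + (ZA (TA c r) s s s x + ZA (TA c r) s s (2 * s) x +
        (ZA (TA c r) s (2 * s) s x + ZA (TA c r) s (2 * s) (2 * s) x))) +
      X2 x (-3 * s) * (DA (TA c r) (-s) x + (ZA (TA c r) (-s) (-s) (-s) x + ZA (TA c r) (-s) (-s) (2 * -s) x +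
        (ZA (TA c r) (-s) (2 * -s) (-s) x + ZA (TA c r) (-s) (2 * -s) (2 * -s) x))) := by
  have hs1 : ‖s‖ = rho := by rw [hs]; exact norm_circ θ
  have hs2 : ‖-s‖ = rho := by rw [norm_neg, hs1]
  obtain ⟨a1, a2⟩ := sum_a c r hc x s hx hs1
  obtain ⟨b1, b2⟩ := sum_a c r hc x (-s) hx hs2
  have a3 : Summable fun i => c i * MI s x (r i).1.1 (r i).1.2 := Summable.of_norm a1
  have b3 : Summable fun i => c i * MI (-s) x (r i).1.1 (r i).1.2 := Summable.of_norm b1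
  rw [← a2, ← b2, ← tsum_mul_left, ← tsum_mul_left,
    ← (a3.mul_left (X2 x (3 * s))).tsum_add (b3.mul_left (X2 x (-3 * s)))]
  refine tsum_congr fun i => ?_
  unfold Fa
  rw [← hs]
  ring

/-- interchange of the sum and the mean -/
theorem swap_a (c : ι → ℂ) (r : ι → Q) (hc : Summable fun i => ‖c i‖) {C U x : ℝ} (hU : 1 ≤ U) (hx1 : U ≤ x)
    (hx2 : x ≤ 16 * U) (hC : 0 < C)
    (hb : ∀ (x : ℝ) (s : ℂ) (a b : ℕ+), 1 ≤ x → ‖s‖ = rho → Nat.Coprime (a : ℕ) (b : ℕ) →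
      ‖MI s x a b‖ ≤ C * x ^ (1 / 10000 : ℝ) * ((a : ℕ) * (b : ℕ) : ℝ) ^ (-(1 / 2) + 1 / 9 : ℝ)) :
    (Continuous fun θ => ∑' i, Fa c r x i θ) ∧
    ∑' i, c i * MM x (r i).1.1 (r i).1.2 =
      (2 * Real.pi : ℂ)⁻¹ * ∫ θ in (0 : ℝ)..(2 * Real.pi), ∑' i, Fa c r x i θ := by
  have hx : 0 < x := by linarith
  have hsum : Summable fun i => ‖c i‖ *
      (2 * ((16 * U ^ (1 / 1000000 : ℝ)) * (C * x ^ (1 / 10000 : ℝ)))) := hc.mul_right _
  have hn := fun i θ => norm_Fa c r hU hx1 hx2 hC hb i θ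
  refine ⟨continuous_tsum (fun i => Fa_cont c r hx i) hsum hn, ?_⟩
  have hint : ∀ i, Integrable (Fa c r x i) (volume.restrict (Set.Ioc 0 (2 * Real.pi))) :=
    fun i => ((Fa_cont c r hx i).intervalIntegrable 0 (2 * Real.pi)).1
  have hpi : (0 : ℝ) ≤ 2 * Real.pi := by positivity
  have hHS := hasSum_integral_of_summable_integral_norm hint (by
    refine Summable.of_nonneg_of_le (fun i => integral_nonneg fun θ => norm_nonneg _) (fun i => ?_)
      (hsum.mul_left (2 * Real.pi))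
    have h1 := setIntegral_mono_on (μ := volume) (s := Set.Ioc 0 (2 * Real.pi))
      (f := fun θ => ‖Fa c r x i θ‖) (g := fun _ => ‖c i‖ *
      (2 * ((16 * U ^ (1 / 1000000 : ℝ)) * (C * x ^ (1 / 10000 : ℝ)))))
      (hint i).norm (integrableOn_const (by exact measure_Ioc_lt_top.ne)) measurableSet_Ioc
      (fun θ _ => hn i θ)
    refine h1.trans (le_of_eq ?_)
    rw [setIntegral_const, smul_eq_mul, Measure.real, Real.volume_Ioc,
      ENNReal.toReal_ofReal (by linarith), sub_zero])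
  rw [intervalIntegral.integral_of_le hpi, ← hHS.tsum_eq, ← tsum_mul_left]
  refine tsum_congr fun i => ?_
  unfold P07318f.MM av
  rw [← intervalIntegral.integral_of_le hpi]
  have h2 : ∫ θ in (0 : ℝ)..(2 * Real.pi), Fa c r x i θ = c i *
      ∫ θ in (0 : ℝ)..(2 * Real.pi), (X2 x (3 * circleMap 0 rho θ) *
        MI (circleMap 0 rho θ) x (r i).1.1 (r i).1.2 +
          X2 x (-3 * circleMap 0 rho θ) * MI (-circleMap 0 rho θ) x (r i).1.1 (r i).1.2) := by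
    rw [← intervalIntegral.integral_const_mul]
    rfl
  rw [h2]
  ring

/-- truncation error of one half -/
theorem half_a {T H : (Fin 4 → ℂ) → ℂ} {E x L : ℝ} {s : ℂ}
    (h1 : ‖DA T s x - DT H s x L‖ ≤ E)
    (h2 : ∀ α β : ℂ, (α = s ∨ α = 2 * s) → (β = s ∨ β = 2 * s) →
      ‖ZA T s α β x - ZT H s α β x L‖ ≤ E) :
    ‖(DA T s x + (ZA T s s s x + ZA T s s (2 * s) x +
        (ZA T s (2 * s) s x + ZA T s (2 * s) (2 * s) x))) - MT H s x L‖ ≤ 5 * E := by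
  have e : (DA T s x + (ZA T s s s x + ZA T s s (2 * s) x +
        (ZA T s (2 * s) s x + ZA T s (2 * s) (2 * s) x))) - MT H s x L =
      (DA T s x - DT H s x L) + ((ZA T s s s x - ZT H s s s x L) +
        (ZA T s s (2 * s) x - ZT H s s (2 * s) x L) +
        ((ZA T s (2 * s) s x - ZT H s (2 * s) s x L) +
          (ZA T s (2 * s) (2 * s) x - ZT H s (2 * s) (2 * s) x L))) := by
    unfold MT
    ring
  rw [e]
  have a1 := h2 s s (Or.inl rfl) (Or.inl rfl)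
  have a2 := h2 s (2 * s) (Or.inl rfl) (Or.inr rfl)
  have a3 := h2 (2 * s) s (Or.inr rfl) (Or.inl rfl)
  have a4 := h2 (2 * s) (2 * s) (Or.inr rfl) (Or.inr rfl)
  refine (norm_add_le _ _).trans ?_
  have b1 := norm_add_le ((ZA T s s s x - ZT H s s s x L) +
        (ZA T s s (2 * s) x - ZT H s s (2 * s) x L))
        ((ZA T s (2 * s) s x - ZT H s (2 * s) s x L) +
          (ZA T s (2 * s) (2 * s) x - ZT H s (2 * s) (2 * s) x L))
  have b2 := norm_add_le (ZA T s s s x - ZT H s s s x L)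
        (ZA T s s (2 * s) x - ZT H s s (2 * s) x L)
  have b3 := norm_add_le (ZA T s (2 * s) s x - ZT H s (2 * s) s x L)
          (ZA T s (2 * s) (2 * s) x - ZT H s (2 * s) (2 * s) x L)
  linarith

end FullAAux

open FullAux FullAAux

theorem full_a (κ N : ℝ) (hκ : 0 < κ) (hκ1 : κ ≤ 1 / 1000) (hN : 0 ≤ N) : ∃ C : ℝ, 0 < C ∧ ∀ {ι : Type} [Countable ι]
    (c : ι → ℂ) (r : ι → Q) (H : (Fin 4 → ℂ) → ℂ) (U x E B S : ℝ), 1 ≤ U → U ≤ x → x ≤ 16 * U →
    (Summable fun i => ‖c i‖) → ∑' i, ‖c i‖ ≤ S → 0 ≤ E → Hol4 (U ^ κ) B H → Sym4 H →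
    (∀ u ∈ Bx (U ^ κ), u ∈ RegE → u 1 + u 3 ≠ 0 → ‖Pi4 u * TA c r u - H u‖ ≤ E) →
    ‖(∑' i, c i * MM x (r i).1.1 (r i).1.2) - av (fun s => Six H x s)‖ ≤
      C * (E * U ^ (1 / 500 : ℝ) + S * U ^ (-N) + B * U ^ (-(1 / 250) : ℝ)) := by
  obtain ⟨C₀, hC₀, hmi⟩ := mi_bound
  obtain ⟨C₁, hC₁, htr⟩ := trunc_a κ (N + 1) hκ hκ1
  obtain ⟨C₃, hC₃, hab⟩ := abs_main
  obtain ⟨K, hK, hKe⟩ := TruncAux.growth' (κ := κ) (a := 1 / 50 + 1 / 250) (c := 1000) hκ (by norm_num)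
  refine ⟨2 * (16 * (5 * C₁)) + C₃ * (1 + 16 * K), by positivity, ?_⟩
  intro ι _ c r H U x E B S hU hx1 hx2 hc hS hE hHol hSym hres
  have hU0 : 0 < U := by linarith
  have hx : 1 ≤ x := by linarith
  have hx0 : 0 < x := by linarith
  set L : ℝ := U ^ κ with hL
  have hL1 : 1 ≤ L := Real.one_le_rpow hU hκ.le
  have hS0 : 0 ≤ S := (tsum_nonneg fun i => norm_nonneg _).trans hS
  have hB0 : 0 ≤ B := by
    refine (norm_nonneg (H 0)).trans (hHol.bound 0 ?_)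
    intro i
    simp
    linarith
  obtain ⟨hcont, hswap⟩ := swap_a c r hc hU hx1 hx2 hC₀ hmi
  have hsix := six_cont x L _ H hx0 (by linarith) hHol
  obtain ⟨X, hX⟩ : ∃ X, X = E * U ^ (1 / 500 : ℝ) + S * U ^ (-N) + B * U ^ (-(1 / 250) : ℝ) := ⟨_, rfl⟩
  obtain ⟨Er, hEr⟩ : ∃ Er, Er = (2 * (16 * (5 * C₁)) + C₃ * (1 + 16 * K)) * X := ⟨_, rfl⟩
  rw [← hX, ← hEr]
  have hpt : ∀ θ : ℝ, ‖(∑' i, Fa c r x i θ) - Six H x (circleMap 0 rho θ)‖ ≤ Er := by
    intro θ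
    obtain ⟨s, hs⟩ : ∃ s, s = circleMap 0 rho θ := ⟨_, rfl⟩
    have hs1 : ‖s‖ = rho := by rw [hs]; exact norm_circ θ
    have hs2 : ‖-s‖ = rho := by rw [norm_neg, hs1]
    rw [tsum_Fa c r hc hx θ hs, ← hs]
    obtain ⟨t1, t2⟩ := htr c r H U x E B S s hU hx1 hx2 hs1 hc hS hE hHol hres
    obtain ⟨t3, t4⟩ := htr c r H U x E B S (-s) hU hx1 hx2 hs2 hc hS hE hHol hres
    have a1 := half_a t1 t2
    have a2 := half_a t3 t4
    rw [← hL] at a1 a2
    have a3 := hab x L _ H s hx hL1 hHol hSym hs1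
    obtain ⟨r1, r2⟩ := re_three hs1
    have hX1 := FullAux.X2_bound hU hx1 hx2 (by norm_num) r1
    have hX2 := FullAux.X2_bound hU hx1 hx2 (by norm_num) r2
    obtain ⟨S1, hS1⟩ : ∃ S1, S1 = (DA (TA c r) s x + (ZA (TA c r) s s s x + ZA (TA c r) s s (2 * s) x +
        (ZA (TA c r) s (2 * s) s x + ZA (TA c r) s (2 * s) (2 * s) x))) := ⟨_, rfl⟩
    obtain ⟨S2, hS2⟩ : ∃ S2, S2 = (DA (TA c r) (-s) x + (ZA (TA c r) (-s) (-s) (-s) x +
        ZA (TA c r) (-s) (-s) (2 * -s) x + (ZA (TA c r) (-s) (2 * -s) (-s) x +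
          ZA (TA c r) (-s) (2 * -s) (2 * -s) x))) := ⟨_, rfl⟩
    rw [← hS1] at a1 ⊢
    rw [← hS2] at a2 ⊢
    have e : X2 x (3 * s) * S1 + X2 x (-3 * s) * S2 - Six H x s =
        (X2 x (3 * s) * (S1 - MT H s x L) + X2 x (-3 * s) * (S2 - MT H (-s) x L)) +
        (X2 x (3 * s) * MT H s x L + X2 x (-3 * s) * MT H (-s) x L -
          Six H x s) := by ring
    rw [e]
    refine (norm_add_le _ _).trans ?_
    obtain ⟨W, hW⟩ : ∃ W, W = E * U ^ (1 / 1000 : ℝ) + S * U ^ (-(N + 1)) := ⟨_, rfl⟩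
    rw [← hW] at a1 a2
    have b1 : ‖X2 x (3 * s) * (S1 - MT H s x L) +
        X2 x (-3 * s) * (S2 - MT H (-s) x L)‖ ≤
        2 * ((16 * U ^ (1 / 1000000 : ℝ)) * (5 * (C₁ * W))) := by
      refine (norm_add_le _ _).trans ?_
      rw [norm_mul, norm_mul]
      have h1 := mul_le_mul hX1 a1 (norm_nonneg _) (by positivity)
      have h2 := mul_le_mul hX2 a2 (norm_nonneg _) (by positivity)
      linarith
    have b2 : U ^ (1 / 1000000 : ℝ) * W ≤ E * U ^ (1 / 500 : ℝ) + S * U ^ (-N) := by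
      rw [hW, mul_add]
      have e1 : U ^ (1 / 1000000 : ℝ) * (E * U ^ (1 / 1000 : ℝ)) = E * U ^ (1 / 1000000 + 1 / 1000 : ℝ) := by
        rw [Real.rpow_add hU0]
        ring
      have e2 : U ^ (1 / 1000000 : ℝ) * (S * U ^ (-(N + 1))) = S * U ^ (1 / 1000000 + -(N + 1)) := by
        rw [Real.rpow_add hU0]
        ring
      rw [e1, e2]
      refine add_le_add ?_ ?_
      · exact mul_le_mul_of_nonneg_left (Real.rpow_le_rpow_of_exponent_le hU (by norm_num)) hE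
      · exact mul_le_mul_of_nonneg_left (Real.rpow_le_rpow_of_exponent_le hU (by linarith)) hS0
    have b3 : x ^ (-(1 / 250) : ℝ) ≤ U ^ (-(1 / 250) : ℝ) :=
      Real.rpow_le_rpow_of_nonpos hU0 hx1 (by norm_num)
    have b4 : x ^ (1 / 50 : ℝ) * Real.exp (-(L ^ 2 / 1000)) ≤ 16 * K * U ^ (-(1 / 250) : ℝ) := by
      have h1 : x ^ (1 / 50 : ℝ) ≤ 16 * U ^ (1 / 50 : ℝ) := by
        calc x ^ (1 / 50 : ℝ) ≤ (16 * U) ^ (1 / 50 : ℝ) :=
              Real.rpow_le_rpow hx0.le hx2 (by norm_num)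
          _ = 16 ^ (1 / 50 : ℝ) * U ^ (1 / 50 : ℝ) := Real.mul_rpow (by norm_num) hU0.le
          _ ≤ 16 * U ^ (1 / 50 : ℝ) := by
              apply mul_le_mul_of_nonneg_right _ (by positivity)
              calc (16 : ℝ) ^ (1 / 50 : ℝ) ≤ 16 ^ (1 : ℝ) :=
                    Real.rpow_le_rpow_of_exponent_le (by norm_num) (by norm_num)
                _ = 16 := Real.rpow_one _
      have h2 := hKe U hU
      rw [← hL] at h2
      have e1 : U ^ (1 / 50 : ℝ) = U ^ (1 / 50 + 1 / 250 : ℝ) * U ^ (-(1 / 250) : ℝ) := by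
        rw [← Real.rpow_add hU0]
        congr 1
        norm_num
      calc x ^ (1 / 50 : ℝ) * Real.exp (-(L ^ 2 / 1000)) ≤
          (16 * U ^ (1 / 50 : ℝ)) * Real.exp (-(L ^ 2 / 1000)) :=
            mul_le_mul_of_nonneg_right h1 (Real.exp_pos _).le
        _ = 16 * (U ^ (1 / 50 + 1 / 250 : ℝ) * Real.exp (-(L ^ 2 / 1000))) * U ^ (-(1 / 250) : ℝ) := by
            rw [e1]
            ring
        _ ≤ 16 * K * U ^ (-(1 / 250) : ℝ) := by
            apply mul_le_mul_of_nonneg_right _ (by positivity)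
            exact mul_le_mul_of_nonneg_left h2 (by norm_num)
    obtain ⟨u1, hu1⟩ : ∃ u1, u1 = U ^ (1 / 1000000 : ℝ) := ⟨_, rfl⟩
    obtain ⟨u2, hu2⟩ : ∃ u2, u2 = E * U ^ (1 / 500 : ℝ) + S * U ^ (-N) := ⟨_, rfl⟩
    obtain ⟨u3, hu3⟩ : ∃ u3, u3 = U ^ (-(1 / 250) : ℝ) := ⟨_, rfl⟩
    obtain ⟨u5, hu5⟩ : ∃ u5, u5 = x ^ (-(1 / 250) : ℝ) := ⟨_, rfl⟩
    obtain ⟨u6, hu6⟩ : ∃ u6, u6 = x ^ (1 / 50 : ℝ) * Real.exp (-(L ^ 2 / 1000)) := ⟨_, rfl⟩
    have hu3p : 0 < u3 := by rw [hu3]; positivity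
    have hu2p : 0 ≤ u2 := by
      rw [hu2]
      have h1 : 0 ≤ E * U ^ (1 / 500 : ℝ) := by positivity
      have h2 : 0 ≤ S * U ^ (-N) := mul_nonneg hS0 (Real.rpow_nonneg hU0.le _)
      exact add_nonneg h1 h2
    rw [hEr, hX]
    rw [← hu1] at b1
    rw [← hu1, ← hu2] at b2
    rw [← hu5, ← hu3] at b3
    rw [← hu6, ← hu3] at b4
    rw [← hu5, ← hu6] at a3
    rw [← hu3, ← hu2]
    have c1 : 2 * ((16 * u1) * (5 * (C₁ * W))) ≤ 2 * (16 * (5 * C₁)) * u2 := by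
      have := mul_le_mul_of_nonneg_left b2 (by positivity : 0 ≤ 2 * (16 * (5 * C₁)))
      linarith
    have c2 : C₃ * B * (u5 + u6) ≤ C₃ * (1 + 16 * K) * (B * u3) := by
      have h1 : u5 + u6 ≤ (1 + 16 * K) * u3 := by linarith
      have := mul_le_mul_of_nonneg_left h1 (by positivity : 0 ≤ C₃ * B)
      linarith
    have c3 : 0 ≤ 2 * (16 * (5 * C₁)) * (B * u3) := by positivity
    have c4 : 0 ≤ C₃ * (1 + 16 * K) * u2 := by positivity
    linarith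
  -- the mean
  have hpi : (0 : ℝ) ≤ 2 * Real.pi := by positivity
  rw [hswap]
  unfold av
  rw [← mul_sub, ← intervalIntegral.integral_sub (hcont.intervalIntegrable _ _)
    (hsix.intervalIntegrable _ _), norm_mul]
  have h1 := intervalIntegral.norm_integral_le_of_norm_le_const (a := 0) (b := 2 * Real.pi)
    (f := fun θ => (∑' i, Fa c r x i θ) - Six H x (circleMap 0 rho θ)) (C := Er)
    (fun θ _ => hpt θ)
  rw [sub_zero, abs_of_nonneg hpi] at h1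
  have h2 : ‖(2 * Real.pi : ℂ)⁻¹‖ = (2 * Real.pi)⁻¹ := by
    rw [norm_inv]
    congr 1
    have : (2 * Real.pi : ℂ) = ((2 * Real.pi : ℝ) : ℂ) := by push_cast; rfl
    rw [this, Complex.norm_real, Real.norm_of_nonneg hpi]
  rw [h2]
  refine (mul_le_mul_of_nonneg_left h1 (by positivity)).trans (le_of_eq ?_)
  have : (2 * Real.pi) ≠ 0 := by positivity
  field_simp

end Pool.Agent.P07318g
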