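import Pool.Agent.Lib.P07318g.Defs

/-!
# The dual kernel against `|ζ|⁴`

PROOF. This is the bound of `V` in the proof of `long_part` (P07318f/LongPart.lean): `LongPartAux.double_bound` with `D = Dk δ U Y`, `r = U^δ₁`; there `G` is a function of `t = x - α`
(`LongPartAux.G_lint`), here of `x` (apply the lemmas to `t ↦ G (t + α)`, or copy). Constants: `c'` of `subconvex`, `c₁ = min(c', 1/4)`, `δ₁ = min(c₁, δ₀)`, `c₂` of `dk_bound δ₁`, `c = min(c₁, c₂)`;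
`∫ ‖G‖ ≤ C₄ U^(1+δ)` (`LongPartAux.fourth_long`), `‖G‖ ≤ 10 C'² U^(1-2c₁)`, `‖Dk‖ ≤ C₃ U^δ` always and `≤ C₂ U^(δ-c₂)` if `|x - x'| ≥ U^δ₁`.
-/

set_option autoImplicit false

namespace Pool.Agent.P07318g

open MeasureTheory Complex Pool.Agent.P07318s Pool.Agent.P07318f

open LongPartAux in
theorem gg_bound (δ₀ : ℝ) (hδ₀ : 0 < δ₀) (hδ₁ : δ₀ ≤ 1) : ∃ c : ℝ, 0 < c ∧ ∀ δ : ℝ, 0 < δ → δ ≤ 1 / 2 → ∃ C : ℝ, 0 < C ∧
    ∀ (U Y α : ℝ) (G : ℝ → ℂ), 1 ≤ U → U ^ δ₀ ≤ Y → Y ≤ U → 2 * U ≤ α → α ≤ 6 * U → Measurable G →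
    (∀ x, x < α - U → G x = 0) → (∀ x, α + 4 * U < x → G x = 0) →
    (∀ x : ℝ, ‖G x‖ ≤ ‖riemannZeta (1 / 2 + x * I)‖ ^ 4) →
    ∫⁻ z : ℝ × ℝ, ‖G z.1‖ₑ * (‖G z.2‖ₑ * ‖Dk δ U Y (z.1 - z.2)‖ₑ) ≤ ENNReal.ofReal (C * U ^ (2 - c + 3 * δ)) := by
  obtain ⟨c', C', hc', hC', hsub⟩ := subconvex
  obtain ⟨c1, hc1e⟩ : ∃ c1, c1 = min c' (1 / 4) := ⟨_, rfl⟩
  have hc1 : 0 < c1 := by rw [hc1e]; positivity
  have hc1c : c1 ≤ c' := by rw [hc1e]; exact min_le_left _ _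
  have hc14 : c1 ≤ 1 / 4 := by rw [hc1e]; exact min_le_right _ _
  obtain ⟨δ₁, hδe⟩ : ∃ δ₁, δ₁ = min c1 δ₀ := ⟨_, rfl⟩
  have hδp : 0 < δ₁ := by rw [hδe]; positivity
  have hδc : δ₁ ≤ c1 := by rw [hδe]; exact min_le_left _ _
  have hδd : δ₁ ≤ δ₀ := by rw [hδe]; exact min_le_right _ _
  obtain ⟨c2, hc2, hdk⟩ := dk_bound δ₁ hδp (by linarith)
  obtain ⟨c3, hc3e⟩ : ∃ c3, c3 = min c1 c2 := ⟨_, rfl⟩
  have hc3 : 0 < c3 := by rw [hc3e]; positivity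
  have hc31 : c3 ≤ c1 := by rw [hc3e]; exact min_le_left _ _
  have hc32 : c3 ≤ c2 := by rw [hc3e]; exact min_le_right _ _
  refine ⟨c3, hc3, fun δ hδ0 hδ2 => ?_⟩
  obtain ⟨C2, hC2, hdk2⟩ := hdk δ hδ0 hδ2
  obtain ⟨C3, hC3, hdt⟩ := dk_trivial δ hδ0 hδ2
  obtain ⟨C4, hC4, hz4⟩ := fourth_long δ hδ0 (by linarith)
  refine ⟨C4 * (C2 * C4 + C3 * (10 * C' ^ 2 * 2)), by positivity, ?_⟩
  intro U Y α G hU hY1 hY2 hα1 hα2 hGm hG1 hG2 hG3
  have hU0 : 0 < U := by linarith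
  -- the integral of `G`
  have hI : ∫⁻ t, ‖G t‖ₑ ≤ ENNReal.ofReal (C4 * U ^ (1 + δ)) := by
    have h1 := G_lint (G := fun t => G (t + α)) hU (hz4 U hU) hα1 hα2
      (fun t ht => hG1 _ (by linarith)) (fun t ht => hG2 _ (by linarith)) (fun t => hG3 (t + α))
    have h2 : ∫⁻ t, ‖G (t + α)‖ₑ = ∫⁻ t, ‖G t‖ₑ := lintegral_add_right_eq_self (fun t => ‖G t‖ₑ) α
    rw [h2] at h1
    exact h1
  set I0 : ENNReal := ∫⁻ t, ‖G t‖ₑ with hI0
  -- the supremum of `G`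
  set M : ℝ := 10 * C' ^ 2 * U ^ (1 - 2 * c1) with hM
  have hM0 : 0 ≤ M := by positivity
  have hGM : ∀ t, ‖G t‖ₑ ≤ ENNReal.ofReal M := by
    intro t
    rcases lt_or_ge t (α - U) with ht | ht
    · rw [hG1 t ht]
      simp
    rcases lt_or_ge (α + 4 * U) t with ht2 | ht2
    · rw [hG2 t ht2]
      simp
    rw [← ofReal_norm]
    refine ENNReal.ofReal_le_ofReal ((hG3 t).trans ?_)
    have hx1 : 1 ≤ t := by linarith
    have hx0 : 0 < t := by linarith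
    have h1 := hsub t hx1
    have h2 : t ^ (1 / 2 - c') ≤ (10 * U) ^ (1 / 2 - c1) := by
      calc t ^ (1 / 2 - c') ≤ t ^ (1 / 2 - c1) :=
            Real.rpow_le_rpow_of_exponent_le hx1 (by linarith)
        _ ≤ (10 * U) ^ (1 / 2 - c1) := Real.rpow_le_rpow hx0.le (by linarith) (by linarith)
    have h3 : ‖riemannZeta (1 / 2 + ((t : ℝ) : ℂ) * I)‖ ^ 2 ≤ C' * (10 * U) ^ (1 / 2 - c1) :=
      h1.trans (mul_le_mul_of_nonneg_left h2 hC'.le)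
    have h4 : ((10 * U) ^ (1 / 2 - c1)) ^ 2 ≤ 10 * U ^ (1 - 2 * c1) := by
      rw [← Real.rpow_natCast, ← Real.rpow_mul (by positivity)]
      have e : (1 / 2 - c1) * ((2 : ℕ) : ℝ) = 1 - 2 * c1 := by
        push_cast
        ring
      rw [e, Real.mul_rpow (by norm_num) hU0.le]
      refine mul_le_mul_of_nonneg_right ?_ (by positivity)
      calc (10 : ℝ) ^ (1 - 2 * c1) ≤ (10 : ℝ) ^ (1 : ℝ) :=
            Real.rpow_le_rpow_of_exponent_le (by norm_num) (by linarith)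
        _ = 10 := Real.rpow_one _
    calc ‖riemannZeta (1 / 2 + ((t : ℝ) : ℂ) * I)‖ ^ 4 =
          (‖riemannZeta (1 / 2 + ((t : ℝ) : ℂ) * I)‖ ^ 2) ^ 2 := by ring
      _ ≤ (C' * (10 * U) ^ (1 / 2 - c1)) ^ 2 := pow_le_pow_left₀ (by positivity) h3 2
      _ = C' ^ 2 * ((10 * U) ^ (1 / 2 - c1)) ^ 2 := by ring
      _ ≤ C' ^ 2 * (10 * U ^ (1 - 2 * c1)) := mul_le_mul_of_nonneg_left h4 (by positivity)
      _ = M := by rw [hM]; ring
  -- the dual kernel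
  set a : ℝ := C2 * U ^ (δ - c2) with ha
  set b : ℝ := C3 * U ^ δ with hb
  have ha0 : 0 ≤ a := by positivity
  have hb0 : 0 ≤ b := by positivity
  obtain ⟨hds, hdb⟩ := hdt U hU
  have hDtriv : ∀ τ, ‖Dk δ U Y τ‖ ≤ b := by
    intro τ
    refine le_trans ?_ hdb
    unfold Dk
    refine tsum_of_norm_bounded hds.hasSum fun q => ?_
    split_ifs
    · rw [norm_mul, norm_ex, mul_one, Complex.norm_real, Real.norm_of_nonneg]
      exact mul_nonneg (kap_nonneg hU0.le (hgt_pos q.1).le) (inv_nonneg.2 (hgt_pos q.1).le)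
    · rw [norm_zero]
      exact mul_nonneg (kap_nonneg hU0.le (hgt_pos q.1).le) (inv_nonneg.2 (hgt_pos q.1).le)
  have hrange : ∀ t, G t ≠ 0 → α - U ≤ t ∧ t ≤ α + 4 * U := by
    intro t ht
    constructor
    · by_contra h
      push Not at h
      exact ht (hG1 t h)
    · by_contra h
      push Not at h
      exact ht (hG2 t h)
  have hD : ∀ t t', G t ≠ 0 → G t' ≠ 0 → ‖Dk δ U Y (t - t')‖ₑ ≤
      ENNReal.ofReal a + if |t - t'| < U ^ δ₁ then ENNReal.ofReal b else 0 := by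
    intro t t' ht ht'
    have h1 := hrange t ht
    have h2 := hrange t' ht'
    by_cases h3 : |t - t'| < U ^ δ₁
    · rw [if_pos h3, ← ofReal_norm]
      exact (ENNReal.ofReal_le_ofReal (hDtriv _)).trans le_add_self
    · rw [if_neg h3, add_zero, ← ofReal_norm]
      push Not at h3
      refine ENNReal.ofReal_le_ofReal (hdk2 U Y (t - t') hU ?_ hY2 h3 ?_)
      · refine le_trans ?_ hY1
        exact Real.rpow_le_rpow_of_exponent_le hU hδd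
      · rw [abs_le]
        constructor <;> linarith
  refine (double_bound hGm hGM hD).trans ?_
  rw [← hI0]
  set J : ℝ := C4 * U ^ (1 + δ) with hJ
  have hJ0 : 0 ≤ J := by positivity
  have h1 : I0 * (ENNReal.ofReal a * I0 + ENNReal.ofReal b * (ENNReal.ofReal M * ENNReal.ofReal (2 * U ^ δ₁))) ≤
      ENNReal.ofReal J * (ENNReal.ofReal a * ENNReal.ofReal J +
        ENNReal.ofReal b * (ENNReal.ofReal M * ENNReal.ofReal (2 * U ^ δ₁))) := by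
    gcongr
  refine h1.trans ?_
  rw [← ENNReal.ofReal_mul hM0, ← ENNReal.ofReal_mul hb0, ← ENNReal.ofReal_mul ha0,
    ← ENNReal.ofReal_add (by positivity) (by positivity), ← ENNReal.ofReal_mul hJ0]
  refine ENNReal.ofReal_le_ofReal ?_
  have h2 : J * (a * J) = C4 * (C2 * C4) * U ^ (2 + 3 * δ - c2) := by
    rw [hJ, ha]
    have e : U ^ (2 + 3 * δ - c2) = U ^ (1 + δ) * (U ^ (δ - c2) * U ^ (1 + δ)) := by
      rw [← Real.rpow_add hU0, ← Real.rpow_add hU0]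
      congr 1
      ring
    rw [e]
    ring
  have h3 : J * (b * (M * (2 * U ^ δ₁))) =
      C4 * (C3 * (10 * C' ^ 2 * 2)) * U ^ (2 + 2 * δ - 2 * c1 + δ₁) := by
    rw [hJ, hb, hM]
    have e : U ^ (2 + 2 * δ - 2 * c1 + δ₁) = U ^ (1 + δ) * (U ^ δ * (U ^ (1 - 2 * c1) * U ^ δ₁)) := by
      rw [← Real.rpow_add hU0, ← Real.rpow_add hU0, ← Real.rpow_add hU0]
      congr 1
      ring
    rw [e]
    ring
  have h4 : U ^ (2 + 3 * δ - c2) ≤ U ^ (2 - c3 + 3 * δ) :=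
    Real.rpow_le_rpow_of_exponent_le hU (by linarith)
  have h5 : U ^ (2 + 2 * δ - 2 * c1 + δ₁) ≤ U ^ (2 - c3 + 3 * δ) :=
    Real.rpow_le_rpow_of_exponent_le hU (by linarith)
  calc J * (a * J + b * (M * (2 * U ^ δ₁))) = J * (a * J) + J * (b * (M * (2 * U ^ δ₁))) := by ring
    _ = C4 * (C2 * C4) * U ^ (2 + 3 * δ - c2) +
        C4 * (C3 * (10 * C' ^ 2 * 2)) * U ^ (2 + 2 * δ - 2 * c1 + δ₁) := by rw [h2, h3]
    _ ≤ C4 * (C2 * C4) * U ^ (2 - c3 + 3 * δ) +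
        C4 * (C3 * (10 * C' ^ 2 * 2)) * U ^ (2 - c3 + 3 * δ) :=
        add_le_add (mul_le_mul_of_nonneg_left h4 (by positivity))
          (mul_le_mul_of_nonneg_left h5 (by positivity))
    _ = _ := by ring

end Pool.Agent.P07318g
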