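import Pool.Agent.Lib.P07318g.DefsB
import Pool.Agent.Lib.P07318f.HHreg
import Pool.Agent.Lib.P07318s.MainPoint

/-!
# Regularity of `HFn`

PROOF. As `HHaux.hf_cont`, `hf_diff`, `hh_bd` in P07318f/HHreg.lean (case `n = 1`). `(zv x y u w, zv' x y u w) ∈ RegA (n + 2)` for points of `RegH n` (`Fin.cases` twice; `4/25 < 1/6`, `1/8 < 1/6`), `aa_cont`,
`aa_diff`, `aa_bound` with `k = n + 2`; `zE` is entire; the zeta factors: finite products (`continuousOn_finset_prod`, `DifferentiableOn.finset_prod`..), arguments `≠ 1` since their imaginary part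
`± (y_j - x) + Im(u_i + w_j)`, `(y_i - y_l) + Im(w_i + w_l)` is not `0`.
Bound: `‖zE (1 + u_i + u_j)‖ ≤ C (5 U^κ)²` each (`zE_bound (1/2)`), the `4 n` factors of `ZU` and the `n (n-1)` factors of `ZW` are at most `|B| U^κ ≤ (1 + |B|) U^κ` (`HHaux.gzP`, `HHaux.gzM`, and
`MainPoint.good_zeta`-type lemma for `y_i - y_l`; real parts between `0.7` and `3`, imaginary parts of the shifts `≤ 2 U^κ`), and `8 + 4 n + n (n-1) ≤ 8 (n+1)²`.
-/

set_option autoImplicit false

namespace Pool.Agent.P07318g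

open MeasureTheory Complex Pool.Agent.P07318s Pool.Agent.P07318f

namespace HFregAux

theorem neU {x y : ℝ} {a w : ℂ} (h : |a.im| + |w.im| < |y - x|) :
    1 + a + w - ((y : ℂ) - x) * I ≠ 1 := by
  intro h0
  have h1 := congrArg Complex.im h0
  simp at h1
  have h3 : y - x = a.im + w.im := by linarith
  rw [h3] at h
  exact absurd (abs_add_le a.im w.im) (not_le.2 h)

theorem neU' {x y : ℝ} {a w : ℂ} (h : |a.im| + |w.im| < |y - x|) :
    1 + a + w + ((y : ℂ) - x) * I ≠ 1 := by
  intro h0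
  have h1 := congrArg Complex.im h0
  simp at h1
  have h3 : y - x = -(a.im + w.im) := by linarith
  rw [h3, abs_neg] at h
  exact absurd (abs_add_le a.im w.im) (not_le.2 h)

theorem regz {n : ℕ} {x : ℝ} {y : Fin n → ℝ} {u : Fin 4 → ℂ} {w : Fin n → ℂ}
    (h : ∀ i, |(u i).re| < 1 / 8) (hw : ∀ j, |(w j).re| < 4 / 25) :
    (zv x y u w, zv' x y u w) ∈ RegA (n + 2) := by
  have h0 := abs_lt.1 (h 0)
  have h1 := abs_lt.1 (h 1)
  have h2 := abs_lt.1 (h 2)
  have h3 := abs_lt.1 (h 3)
  unfold zv zv'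
  refine ⟨fun j => ?_, fun j => ?_⟩
  · refine Fin.cases ?_ (fun j => ?_) j
    · simp
      linarith
    · refine Fin.cases ?_ (fun j => ?_) j
      · simp
        linarith
      · have := abs_lt.1 (hw j)
        simp
        linarith
  · refine Fin.cases ?_ (fun j => ?_) j
    · simp
      linarith
    · refine Fin.cases ?_ (fun j => ?_) j
      · simp
        linarith
      · have := abs_lt.1 (hw j)
        simp
        linarith

theorem zcont {X : Type*} [TopologicalSpace X] {T : Set X} {g : X → ℂ} (hg : ContinuousOn g T)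
    (h : ∀ q ∈ T, g q ≠ 1) : ContinuousOn (fun q => riemannZeta (g q)) T := fun q hq =>
  (differentiableAt_riemannZeta (h q hq)).continuousAt.comp_continuousWithinAt (hg q hq)

theorem zdiff {S : Set ℂ} {g : ℂ → ℂ} (hg : DifferentiableOn ℂ g S)
    (h : ∀ z ∈ S, g z ≠ 1) : DifferentiableOn ℂ (fun z => riemannZeta (g z)) S := fun z hz =>
  (differentiableAt_riemannZeta (h z hz)).comp_differentiableWithinAt z (hg z hz)

theorem prod_cont {X ι : Type*} [TopologicalSpace X] {T : Set X} (s : Finset ι) (f : ι → X → ℂ)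
    (h : ∀ i ∈ s, ContinuousOn (f i) T) : ContinuousOn (fun q => ∏ i ∈ s, f i q) T := by
  classical
  induction s using Finset.induction_on with
  | empty =>
    simp only [Finset.prod_empty]
    exact continuousOn_const
  | insert a s ha ih =>
    simp only [Finset.prod_insert ha]
    exact (h a (Finset.mem_insert_self a s)).mul
      (ih fun i hi => h i (Finset.mem_insert_of_mem hi))

theorem prod_diff {ι : Type*} {S : Set ℂ} (s : Finset ι) (f : ι → ℂ → ℂ)
    (h : ∀ i ∈ s, DifferentiableOn ℂ (f i) S) : DifferentiableOn ℂ (fun q => ∏ i ∈ s, f i q) S := by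
  classical
  induction s using Finset.induction_on with
  | empty =>
    simp only [Finset.prod_empty]
    exact differentiableOn_const (c := (1 : ℂ))
  | insert a s ha ih =>
    simp only [Finset.prod_insert ha]
    exact (h a (Finset.mem_insert_self a s)).mul
      (ih fun i hi => h i (Finset.mem_insert_of_mem hi))

theorem zv_cont (n : ℕ) : Continuous (fun p : ((ℝ × (Fin n → ℝ)) × (Fin 4 → ℂ)) × (Fin n → ℂ) =>
    (zv p.1.1.1 p.1.1.2 p.1.2 p.2, zv' p.1.1.1 p.1.1.2 p.1.2 p.2)) := by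
  unfold zv zv'
  refine Continuous.prodMk (continuous_pi fun j => ?_) (continuous_pi fun j => ?_)
  · refine Fin.cases ?_ (fun j => ?_) j
    · simp only [Fin.cons_zero]
      fun_prop
    · simp only [Fin.cons_succ]
      refine Fin.cases ?_ (fun j => ?_) j
      · simp only [Fin.cons_zero]
        fun_prop
      · simp only [Fin.cons_succ]
        fun_prop
  · refine Fin.cases ?_ (fun j => ?_) j
    · simp only [Fin.cons_zero]
      fun_prop
    · simp only [Fin.cons_succ]
      refine Fin.cases ?_ (fun j => ?_) j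
      · simp only [Fin.cons_zero]
        fun_prop
      · simp only [Fin.cons_succ]
        fun_prop

end HFregAux

open HFregAux in
theorem hf_cont (n : ℕ) : ContinuousOn (fun p : ((ℝ × (Fin n → ℝ)) × (Fin 4 → ℂ)) × (Fin n → ℂ) =>
    HFn p.1.1.1 p.1.1.2 p.1.2 p.2) (RegH n) := by
  unfold HFn
  refine ContinuousOn.mul (ContinuousOn.mul ?_ ?_) (ContinuousOn.mul ?_ ?_)
  · have hc := zv_cont n
    have hm : Set.MapsTo (fun p : ((ℝ × (Fin n → ℝ)) × (Fin 4 → ℂ)) × (Fin n → ℂ) =>
        (zv p.1.1.1 p.1.1.2 p.1.2 p.2, zv' p.1.1.1 p.1.1.2 p.1.2 p.2)) (RegH n) (RegA (n + 2)) :=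
      fun p hp => regz hp.1 hp.2.1
    have hh := ContinuousOn.comp (aa_cont (n + 2)) hc.continuousOn hm
    exact hh
  · have hz := P4f18dfV.zE_diff.continuous
    refine Continuous.continuousOn ?_
    refine Continuous.mul (Continuous.mul ?_ ?_) (Continuous.mul ?_ ?_)
    · exact hz.comp (by fun_prop)
    · exact hz.comp (by fun_prop)
    · exact hz.comp (by fun_prop)
    · exact hz.comp (by fun_prop)
  · unfold ZU
    refine prod_cont _ _ fun j _ => ?_
    refine ContinuousOn.mul (ContinuousOn.mul ?_ ?_) (ContinuousOn.mul ?_ ?_)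
    · refine zcont (Continuous.continuousOn (by fun_prop)) (fun q hq => neU (hq.2.2.1 0 j))
    · refine zcont (Continuous.continuousOn (by fun_prop)) (fun q hq => neU (hq.2.2.1 1 j))
    · refine zcont (Continuous.continuousOn (by fun_prop)) (fun q hq => neU' (hq.2.2.1 2 j))
    · refine zcont (Continuous.continuousOn (by fun_prop)) (fun q hq => neU' (hq.2.2.1 3 j))
  · unfold ZW
    refine prod_cont _ _ fun i _ => ?_
    refine prod_cont _ _ fun l hl => ?_
    refine zcont (Continuous.continuousOn (by fun_prop)) (fun q hq => neU' ?_)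
    exact hq.2.2.2 i l (Finset.ne_of_mem_erase hl).symm

open HFregAux in
theorem hf_diff {n : ℕ} (x : ℝ) (y : Fin n → ℝ) (f : ℂ → Fin 4 → ℂ) (g : ℂ → Fin n → ℂ) (S : Set ℂ) (hS : IsOpen S)
    (hf : ∀ i, DifferentiableOn ℂ (fun z => f z i) S) (hg : ∀ j, DifferentiableOn ℂ (fun z => g z j) S)
    (h : ∀ z ∈ S, (((x, y), f z), g z) ∈ RegH n) : DifferentiableOn ℂ (fun z => HFn x y (f z) (g z)) S := by
  unfold HFn
  have h0 := hf 0
  have h1 := hf 1
  have h2 := hf 2
  have h3 := hf 3
  refine DifferentiableOn.mul (DifferentiableOn.mul ?_ ?_) (DifferentiableOn.mul ?_ ?_)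
  · refine aa_diff (fun z => zv x y (f z) (g z)) (fun z => zv' x y (f z) (g z)) S hS ?_ ?_
      (fun z hz => regz (h z hz).1 (h z hz).2.1)
    · intro j
      unfold zv
      refine Fin.cases ?_ (fun j => ?_) j
      · simp only [Fin.cons_zero]
        exact h0.add_const _
      · simp only [Fin.cons_succ]
        refine Fin.cases ?_ (fun j => ?_) j
        · simp only [Fin.cons_zero]
          exact h1.add_const _
        · simp only [Fin.cons_succ]
          exact (hg j).add_const _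
    · intro j
      unfold zv'
      refine Fin.cases ?_ (fun j => ?_) j
      · simp only [Fin.cons_zero]
        exact h2.neg.add_const _
      · simp only [Fin.cons_succ]
        refine Fin.cases ?_ (fun j => ?_) j
        · simp only [Fin.cons_zero]
          exact h3.neg.add_const _
        · simp only [Fin.cons_succ]
          exact (hg j).neg.add_const _
  · have hz := P4f18dfV.zE_diff
    refine DifferentiableOn.mul (DifferentiableOn.mul ?_ ?_) (DifferentiableOn.mul ?_ ?_)
    · exact hz.comp_differentiableOn ((h0.const_add 1).add h2)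
    · exact hz.comp_differentiableOn ((h0.const_add 1).add h3)
    · exact hz.comp_differentiableOn ((h1.const_add 1).add h2)
    · exact hz.comp_differentiableOn ((h1.const_add 1).add h3)
  · unfold ZU
    refine prod_diff _ _ fun j _ => ?_
    refine DifferentiableOn.mul (DifferentiableOn.mul ?_ ?_) (DifferentiableOn.mul ?_ ?_)
    · exact zdiff (((h0.const_add 1).add (hg j)).sub_const _) (fun z hz => neU ((h z hz).2.2.1 0 j))
    · exact zdiff (((h1.const_add 1).add (hg j)).sub_const _) (fun z hz => neU ((h z hz).2.2.1 1 j))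
    · exact zdiff (((h2.const_add 1).add (hg j)).add_const _) (fun z hz => neU' ((h z hz).2.2.1 2 j))
    · exact zdiff (((h3.const_add 1).add (hg j)).add_const _) (fun z hz => neU' ((h z hz).2.2.1 3 j))
  · unfold ZW
    refine prod_diff _ _ fun i _ => ?_
    refine prod_diff _ _ fun l hl => ?_
    exact zdiff ((((hg i).const_add 1).add (hg l)).add_const _) (fun z hz =>
      neU' ((h z hz).2.2.2 i l (Finset.ne_of_mem_erase hl).symm))

open HFregAux in
theorem hf_bound (n : ℕ) (B : ℝ) : ∃ C : ℝ, 0 < C ∧ ∀ (κ U x : ℝ) (y : Fin n → ℝ) (u : Fin 4 → ℂ) (w : Fin n → ℂ),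
    0 < κ → κ ≤ 1 / 1000 → 1 ≤ U → GoodN κ (U ^ κ) (B * U ^ κ) x y → u ∈ Bx (U ^ κ) →
    (∀ j, |(w j).re| ≤ 3 / 20 ∧ |(w j).im| ≤ U ^ κ) → ‖HFn x y u w‖ ≤ C * U ^ (8 * ((n : ℝ) + 1) ^ 2 * κ) := by
  obtain ⟨CA, hCA, hA⟩ := aa_bound (n + 2)
  obtain ⟨Cz, hCz, hz⟩ := zE_bound (1 / 2) (by norm_num)
  refine ⟨CA * (25 * Cz) ^ 4 * (1 + |B|) ^ (4 * n + n * n), by positivity, ?_⟩
  intro κ U x y u w hκ hκ1 hU hG hu hw
  set L : ℝ := U ^ κ with hL
  have hL1 : 1 ≤ L := Real.one_le_rpow hU hκ.le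
  have hL0 : 0 < L := by linarith
  set D : ℝ := (1 + |B|) * L with hD
  have hB0 : 0 ≤ |B| := abs_nonneg B
  have hD1 : 1 ≤ D := by
    rw [hD]
    nlinarith
  have hBD : B * L ≤ D := by
    rw [hD]
    have : B ≤ 1 + |B| := by linarith [le_abs_self B]
    exact mul_le_mul_of_nonneg_right this hL0.le
  have hni : ∀ i, ‖u i‖ ≤ 1 / 10 + L := by
    intro i
    have h1 := Complex.norm_le_abs_re_add_abs_im (u i)
    have h2 := hu i
    linarith [h2.1, h2.2]
  have hE : ∀ i j, ‖P4f18dfV.zE (1 + u i + u j)‖ ≤ 25 * Cz * L ^ 2 := by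
    intro i j
    have hi := abs_lt.1 (hu i).1
    have hj := abs_lt.1 (hu j).1
    have h1 := hz (1 + u i + u j) (by simp; linarith)
    have h2 : ‖1 + u i + u j‖ ≤ 4 * L := by
      calc ‖1 + u i + u j‖ ≤ ‖(1 : ℂ) + u i‖ + ‖u j‖ := norm_add_le _ _
        _ ≤ ‖(1 : ℂ)‖ + ‖u i‖ + ‖u j‖ := by gcongr; exact norm_add_le _ _
        _ ≤ 1 + (1 / 10 + L) + (1 / 10 + L) := by
            rw [norm_one]
            gcongr
            · exact hni i
            · exact hni j
        _ ≤ 4 * L := by linarith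
    calc ‖P4f18dfV.zE (1 + u i + u j)‖ ≤ Cz * (1 + ‖1 + u i + u j‖) ^ 2 := h1
      _ ≤ Cz * (L + 4 * L) ^ 2 := by gcongr
      _ = 25 * Cz * L ^ 2 := by ring
  have hAA := (hA _ (regz (x := x) (y := y) (u := u) (w := w)
    (fun i => (hu i).1.trans (by norm_num)) (fun j => (hw j).1.trans_lt (by norm_num)))).2
  have huY : ∀ i, |(u i).im| ≤ L := fun i => (hu i).2.le
  have hwY : ∀ j, |(w j).im| ≤ L := fun j => (hw j).2
  have hur : ∀ i j, 1 / 2 + κ ≤ 1 + (u i).re + (w j).re ∧ 1 + (u i).re + (w j).re ≤ 3 := fun i j => by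
    have h1 := abs_lt.1 (hu i).1
    have h2 := abs_le.1 (hw j).1
    constructor <;> linarith
  have hwr : ∀ i j, 1 / 2 + κ ≤ 1 + (w i).re + (w j).re ∧ 1 + (w i).re + (w j).re ≤ 3 := fun i j => by
    have h1 := abs_le.1 (hw i).1
    have h2 := abs_le.1 (hw j).1
    constructor <;> linarith
  have hZU : ‖ZU x y u w‖ ≤ D ^ (4 * n) := by
    unfold ZU
    rw [norm_prod]
    have h1 : ∀ j ∈ (Finset.univ : Finset (Fin n)), ‖riemannZeta (1 + u 0 + w j - (y j - x) * I) *
        riemannZeta (1 + u 1 + w j - (y j - x) * I) *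
        (riemannZeta (1 + u 2 + w j + (y j - x) * I) * riemannZeta (1 + u 3 + w j + (y j - x) * I))‖ ≤
        D ^ 4 := by
      intro j _
      have z0 := (HHaux.gzM (hG.1 j) (hur 0 j).1 (hur 0 j).2 (huY 0) (hwY j)).trans hBD
      have z1 := (HHaux.gzM (hG.1 j) (hur 1 j).1 (hur 1 j).2 (huY 1) (hwY j)).trans hBD
      have z2 := (HHaux.gzP (hG.1 j) (hur 2 j).1 (hur 2 j).2 (huY 2) (hwY j)).trans hBD
      have z3 := (HHaux.gzP (hG.1 j) (hur 3 j).1 (hur 3 j).2 (huY 3) (hwY j)).trans hBD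
      simp only [norm_mul]
      calc _ ≤ D * D * (D * D) := by gcongr
        _ = D ^ 4 := by ring
    refine (Finset.prod_le_prod (fun j _ => norm_nonneg _) h1).trans (le_of_eq ?_)
    rw [Finset.prod_const, Finset.card_univ, Fintype.card_fin, pow_mul]
  have hZW : ‖ZW y w‖ ≤ D ^ (n * n) := by
    unfold ZW
    rw [norm_prod]
    have h1 : ∀ i ∈ (Finset.univ : Finset (Fin n)), ‖∏ l ∈ Finset.univ.erase i,
        riemannZeta (1 + w i + w l + (y i - y l) * I)‖ ≤ D ^ n := by
      intro i _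
      rw [norm_prod]
      have h2 : ∀ l ∈ Finset.univ.erase i, ‖riemannZeta (1 + w i + w l + (y i - y l) * I)‖ ≤ D := by
        intro l hl
        exact (HHaux.gzP (hG.2 i l (Finset.ne_of_mem_erase hl).symm) (hwr i l).1 (hwr i l).2 (hwY i)
          (hwY l)).trans hBD
      refine (Finset.prod_le_prod (fun j _ => norm_nonneg _) h2).trans ?_
      rw [Finset.prod_const]
      apply pow_le_pow_right₀ hD1
      refine (Finset.card_le_univ _).trans (le_of_eq ?_)
      rw [Fintype.card_fin]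
    refine (Finset.prod_le_prod (fun j _ => norm_nonneg _) h1).trans (le_of_eq ?_)
    rw [Finset.prod_const, Finset.card_univ, Fintype.card_fin, pow_mul]
  have hmain : ‖HFn x y u w‖ ≤ CA * (25 * Cz * L ^ 2 * (25 * Cz * L ^ 2) *
      (25 * Cz * L ^ 2 * (25 * Cz * L ^ 2))) * (D ^ (4 * n) * D ^ (n * n)) := by
    unfold HFn
    simp only [norm_mul]
    have e02 := hE 0 2
    have e03 := hE 0 3
    have e12 := hE 1 2
    have e13 := hE 1 3
    gcongr
  refine hmain.trans ?_
  have e1 : CA * (25 * Cz * L ^ 2 * (25 * Cz * L ^ 2) * (25 * Cz * L ^ 2 * (25 * Cz * L ^ 2))) *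
      (D ^ (4 * n) * D ^ (n * n)) =
      CA * (25 * Cz) ^ 4 * (1 + |B|) ^ (4 * n + n * n) * L ^ (8 + (4 * n + n * n)) := by
    rw [← pow_add, hD, mul_pow, pow_add L 8]
    ring
  rw [e1]
  apply mul_le_mul_of_nonneg_left _ (by positivity)
  rw [hL, ← Real.rpow_natCast, ← Real.rpow_mul (by linarith)]
  refine Real.rpow_le_rpow_of_exponent_le hU ?_
  have hn : (0 : ℝ) ≤ n := Nat.cast_nonneg n
  have h5 : (((8 + (4 * n + n * n) : ℕ)) : ℝ) ≤ 8 * ((n : ℝ) + 1) ^ 2 := by
    push_cast
    nlinarith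
  calc κ * (((8 + (4 * n + n * n) : ℕ)) : ℝ) ≤ κ * (8 * ((n : ℝ) + 1) ^ 2) :=
        mul_le_mul_of_nonneg_left h5 hκ.le
    _ = 8 * ((n : ℝ) + 1) ^ 2 * κ := by ring

end Pool.Agent.P07318g
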