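import Pool.Agent.Lib.P56acde.CTAux

/-!
# Parametric torus integrals

PROOF. `torusIntegral` is `∫ θ in Icc 0 (fun _ => 2π), (∏ j, r exp(θ_j i) i) • F p (torusMap 0 (fun _ => r) θ)`, `‖torusMap 0 (fun _ => r) θ j‖ = r`, `torusMap` is continuous in `θ` (unfold `torusMap`, `fun_prop`).
`tor_cont`: the restriction to the open set `S` (locally compact, first countable), `continuous_parametric_integral_of_continuous` on the compact set `Icc`.
`tor_diff`: the integrand is bounded on the (compact) product of a closed ball in `S` and the cube, `P56acde.diff_param'`.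
-/

set_option autoImplicit false

namespace Pool.Agent.P07318g

open MeasureTheory Complex

namespace TorParAux

/-- the weight of the torus integral -/
noncomputable def wt (n : ℕ) (r : ℝ) (θ : Fin n → ℝ) : ℂ := ∏ i : Fin n, ((r : ℂ) * exp (θ i * I) * I)

theorem wt_cont (n : ℕ) (r : ℝ) : Continuous (wt n r) := by
  unfold wt
  fun_prop

theorem tm_cont (n : ℕ) (r : ℝ) : Continuous (torusMap (0 : Fin n → ℂ) fun _ => r) := by
  unfold torusMap
  fun_prop

theorem tm_norm {n : ℕ} {r : ℝ} (hr : 0 ≤ r) (θ : Fin n → ℝ) (j : Fin n) :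
    ‖torusMap (0 : Fin n → ℂ) (fun _ => r) θ j‖ = r := by
  simp [torusMap, Complex.norm_exp_ofReal_mul_I, abs_of_nonneg hr]

theorem tor_eq {n : ℕ} {r : ℝ} (f : (Fin n → ℂ) → ℂ) :
    (∯ w in T((0 : Fin n → ℂ), fun _ => r), f w) =
      ∫ θ in Set.Icc (0 : Fin n → ℝ) (fun _ => 2 * Real.pi), wt n r θ * f (torusMap 0 (fun _ => r) θ) := by
  unfold torusIntegral wt
  simp only [smul_eq_mul]

end TorParAux

open TorParAux

theorem tor_cont {X : Type*} [TopologicalSpace X] [FirstCountableTopology X] [LocallyCompactSpace X] {n : ℕ} {r : ℝ} (hr : 0 ≤ r)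
    (F : X → (Fin n → ℂ) → ℂ) (S : Set X) (hS : IsOpen S)
    (hF : ContinuousOn (fun p : X × (Fin n → ℂ) => F p.1 p.2) (S ×ˢ {w | ∀ j, ‖w j‖ = r})) :
    ContinuousOn (fun p => ∯ w in T((0 : Fin n → ℂ), fun _ => r), F p w) S := by
  rw [continuousOn_iff_continuous_domRestrict]
  have hlc : LocallyCompactSpace S := hS.locallyCompactSpace
  have h1 : Continuous (fun q : S × (Fin n → ℝ) => wt n r q.2 * F q.1 (torusMap 0 (fun _ => r) q.2)) := by
    have h2 : Continuous (fun q : S × (Fin n → ℝ) => ((q.1 : X), torusMap (0 : Fin n → ℂ) (fun _ => r) q.2)) :=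
      (continuous_subtype_val.comp continuous_fst).prodMk ((tm_cont n r).comp continuous_snd)
    have h3 : Continuous (fun q : S × (Fin n → ℝ) => F q.1 (torusMap 0 (fun _ => r) q.2)) :=
      hF.comp_continuous h2 (fun q => ⟨q.1.2, fun j => tm_norm hr q.2 j⟩)
    exact ((wt_cont n r).comp continuous_snd).mul h3
  have h4 : S.domRestrict (fun p => ∯ w in T((0 : Fin n → ℂ), fun _ => r), F p w) =
      fun p : S => ∫ θ in Set.Icc (0 : Fin n → ℝ) (fun _ => 2 * Real.pi), wt n r θ * F p (torusMap 0 (fun _ => r) θ) := by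
    funext p
    exact tor_eq _
  rw [h4]
  exact continuous_parametric_integral_of_continuous
    (f := fun (p : S) (θ : Fin n → ℝ) => wt n r θ * F p (torusMap 0 (fun _ => r) θ)) h1 isCompact_Icc

theorem tor_diff {n : ℕ} {r : ℝ} (hr : 0 ≤ r) (F : ℂ → (Fin n → ℂ) → ℂ) (S : Set ℂ) (hS : IsOpen S)
    (hF : ContinuousOn (fun p : ℂ × (Fin n → ℂ) => F p.1 p.2) (S ×ˢ {w | ∀ j, ‖w j‖ = r}))
    (hd : ∀ w : Fin n → ℂ, (∀ j, ‖w j‖ = r) → DifferentiableOn ℂ (fun z => F z w) S) :
    DifferentiableOn ℂ (fun z => ∯ w in T((0 : Fin n → ℂ), fun _ => r), F z w) S := by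
  intro z₀ hz₀
  obtain ⟨R, hR, hRS⟩ := Metric.isOpen_iff.1 hS z₀ hz₀
  have hcb : Metric.closedBall z₀ (R / 2) ⊆ S :=
    (Metric.closedBall_subset_ball (by linarith)).trans hRS
  have hc : ContinuousOn (fun q : ℂ × (Fin n → ℝ) => wt n r q.2 * F q.1 (torusMap 0 (fun _ => r) q.2))
      (Metric.closedBall z₀ (R / 2) ×ˢ Set.Icc (0 : Fin n → ℝ) (fun _ => 2 * Real.pi)) := by
    have h2 : Continuous (fun q : ℂ × (Fin n → ℝ) => (q.1, torusMap (0 : Fin n → ℂ) (fun _ => r) q.2)) :=
      continuous_fst.prodMk ((tm_cont n r).comp continuous_snd)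
    have h3 : ContinuousOn (fun q : ℂ × (Fin n → ℝ) => F q.1 (torusMap 0 (fun _ => r) q.2))
        (Metric.closedBall z₀ (R / 2) ×ˢ Set.Icc (0 : Fin n → ℝ) (fun _ => 2 * Real.pi)) :=
      hF.comp h2.continuousOn (fun q hq => ⟨hcb hq.1, fun j => tm_norm hr q.2 j⟩)
    exact ((wt_cont n r).comp continuous_snd).continuousOn.mul h3
  obtain ⟨C, hC⟩ := ((isCompact_closedBall z₀ (R / 2)).prod isCompact_Icc).exists_bound_of_continuousOn hc
  have hfin : IsFiniteMeasure ((volume : Measure (Fin n → ℝ)).restrict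
      (Set.Icc (0 : Fin n → ℝ) (fun _ => 2 * Real.pi))) :=
    ⟨by rw [Measure.restrict_apply_univ]; exact isCompact_Icc.measure_lt_top⟩
  have hA := P56acde.diff_param' (μ := (volume : Measure (Fin n → ℝ)).restrict
      (Set.Icc (0 : Fin n → ℝ) (fun _ => 2 * Real.pi)))
    (F := fun z θ => wt n r θ * F z (torusMap 0 (fun _ => r) θ)) (z₀ := z₀) (R := R / 2) (C := C)
    (by positivity) ?_ ?_ ?_
  · have h4 : (fun z => ∯ w in T((0 : Fin n → ℂ), fun _ => r), F z w) = fun z =>
        ∫ θ in Set.Icc (0 : Fin n → ℝ) (fun _ => 2 * Real.pi), wt n r θ * F z (torusMap 0 (fun _ => r) θ) := by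
      funext z
      exact tor_eq _
    rw [h4]
    exact hA.differentiableWithinAt
  · intro z hz
    have h2 : ContinuousOn (fun θ : Fin n → ℝ => (z, θ)) (Set.Icc (0 : Fin n → ℝ) (fun _ => 2 * Real.pi)) := by
      fun_prop
    have h3 := hc.comp h2 (fun θ hθ => ⟨Metric.ball_subset_closedBall hz, hθ⟩)
    exact h3.aestronglyMeasurable measurableSet_Icc
  · refine Filter.Eventually.of_forall fun θ => ?_
    have h5 := hd (torusMap 0 (fun _ => r) θ) (fun j => tm_norm hr θ j)
    exact (h5.mono (Metric.ball_subset_closedBall.trans hcb)).const_mul _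
  · refine (ae_restrict_iff' measurableSet_Icc).2 (Filter.Eventually.of_forall fun θ hθ => ?_)
    intro z hz
    exact hC (z, θ) ⟨Metric.ball_subset_closedBall hz, hθ⟩

end Pool.Agent.P07318g
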