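import Pool.Agent.Lib.P07318g.HFreg
import Pool.Agent.Lib.P07318g.TorPar

/-!
# Continuity and holomorphy of `HHn`

PROOF. `HHn x y u = ((πi)^n)⁻¹ ∯ Fh x y u w`, `Fh = (∏ (X2 (y_j) (w_j) / w_j ζ(1 + 2 w_j))) HFn x y u w`, `|w_j| = 1/8`. For `p ∈ RgU n` and `|w_j| = 1/8`: `(p, w) ∈ RegH n` (`1/8 < 4/25`,
`|Im u_i| + |Im w_j| ≤ |Im u_i| + 1/8 < |y_j - x|`, `|Im w_i| + |Im w_j| ≤ 1/4 < |y_i - y_j|`), `hf_cont`; `w_j ≠ 0`, `1 + 2 w_j ≠ 1`, `X2` is continuous in `(y, w)` for `y > 0` (`ContinuousOn.cpow`,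
`HHaux.base_mem`; see `HHaux.ei_cont` in P07318f/HHreg.lean). `tor_cont` with `S = RgU n` (open), `tor_diff` with `F z = Fh x y (f z)` (`hf_diff` with `g` constant).
-/

set_option autoImplicit false

namespace Pool.Agent.P07318g

open MeasureTheory Complex Pool.Agent.P07318s Pool.Agent.P07318f

/-- region in which `HHn` is regular -/
def RgU (n : ℕ) : Set ((ℝ × (Fin n → ℝ)) × (Fin 4 → ℂ)) :=
  {p | (∀ j, 0 < p.1.2 j) ∧ (∀ i, |(p.2 i).re| < 1 / 8) ∧ (∀ i j, |(p.2 i).im| + 1 / 4 < |p.1.2 j - p.1.1|) ∧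
    ∀ i j, i ≠ j → 1 / 2 < |p.1.2 i - p.1.2 j|}

namespace HolAAux

/-- the integrand -/
noncomputable def Fh {n : ℕ} (p : (ℝ × (Fin n → ℝ)) × (Fin 4 → ℂ)) (w : Fin n → ℂ) : ℂ :=
  (∏ j, (X2 (p.1.2 j) (w j) / w j * riemannZeta (1 + 2 * w j))) * HFn p.1.1 p.1.2 p.2 w

theorem rg_open (n : ℕ) : IsOpen (RgU n) := by
  simp only [RgU, Set.ofPred_and, Set.ofPred_forall]
  refine IsOpen.inter (isOpen_iInter_of_finite fun j => ?_) (IsOpen.inter (isOpen_iInter_of_finite fun i => ?_)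
    (IsOpen.inter (isOpen_iInter_of_finite fun i => isOpen_iInter_of_finite fun j => ?_)
      (isOpen_iInter_of_finite fun i => isOpen_iInter_of_finite fun j => isOpen_iInter_of_finite fun _ => ?_)))
  · exact isOpen_lt (by fun_prop) (by fun_prop)
  · exact isOpen_lt (continuous_abs.comp (Complex.continuous_re.comp ((continuous_apply i).comp continuous_snd)))
      continuous_const
  · refine isOpen_lt (Continuous.add (continuous_abs.comp (Complex.continuous_im.comp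
      ((continuous_apply i).comp continuous_snd))) continuous_const) (by fun_prop)
  · exact isOpen_lt (by fun_prop) (by fun_prop)

theorem wne {z : ℂ} (h : ‖z‖ = 1 / 8) : z ≠ 0 := by
  intro h0
  rw [h0, norm_zero] at h
  norm_num at h

theorem wne1 {z : ℂ} (h : ‖z‖ = 1 / 8) : 1 + 2 * z ≠ 1 := by
  intro h2
  apply wne h
  have h3 : 2 * z = 0 := by linear_combination h2
  simpa using h3

theorem reg_mem {n : ℕ} {p : (ℝ × (Fin n → ℝ)) × (Fin 4 → ℂ)} {w : Fin n → ℂ} (hp : p ∈ RgU n)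
    (hw : ∀ j, ‖w j‖ = 1 / 8) : (p, w) ∈ RegH n := by
  obtain ⟨_, h1, h2, h3⟩ := hp
  have hre : ∀ j, |(w j).re| ≤ 1 / 8 := fun j => (Complex.abs_re_le_norm _).trans (hw j).le
  have him : ∀ j, |(w j).im| ≤ 1 / 8 := fun j => (Complex.abs_im_le_norm _).trans (hw j).le
  refine ⟨h1, fun j => (hre j).trans_lt (by norm_num), fun i j => ?_, fun i j hij => ?_⟩
  · have h4 := h2 i j
    have h5 := him j
    show |(p.2 i).im| + |(w j).im| < |p.1.2 j - p.1.1|
    linarith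
  · have h4 := h3 i j hij
    have h5 := him i
    have h6 := him j
    show |(w i).im| + |(w j).im| < |p.1.2 i - p.1.2 j|
    linarith

theorem fh_cont (n : ℕ) : ContinuousOn (fun q : ((ℝ × (Fin n → ℝ)) × (Fin 4 → ℂ)) × (Fin n → ℂ) => Fh q.1 q.2)
    (RgU n ×ˢ {w | ∀ j, ‖w j‖ = 1 / 8}) := by
  unfold Fh
  refine ContinuousOn.mul ?_ ?_
  · refine continuousOn_finsetProd _ fun j _ => ?_
    have hj : Continuous (fun q : ((ℝ × (Fin n → ℝ)) × (Fin 4 → ℂ)) × (Fin n → ℂ) => q.2 j) :=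
      (continuous_apply j).comp continuous_snd
    refine ContinuousOn.mul (ContinuousOn.div ?_ hj.continuousOn (fun q hq => wne (hq.2 j))) ?_
    · unfold X2
      refine ContinuousOn.cpow ?_ hj.continuousOn (fun q hq => HHaux.base_mem (hq.1.1 j))
      refine Continuous.continuousOn ?_
      fun_prop
    · refine HHaux.zcont ?_ (fun q hq => wne1 (hq.2 j))
      exact (continuous_const.add (continuous_const.mul hj)).continuousOn
  · refine (hf_cont n).comp ?_ (fun q hq => reg_mem hq.1 hq.2)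
    exact continuous_id.continuousOn

theorem hh_eq {n : ℕ} (p : (ℝ × (Fin n → ℝ)) × (Fin 4 → ℂ)) :
    HHn p.1.1 p.1.2 p.2 = ((Real.pi * I) ^ n)⁻¹ * ∯ w in T((0 : Fin n → ℂ), fun _ => 1 / 8), Fh p w := by
  unfold HHn Fh
  rfl

end HolAAux

open HolAAux

theorem hhn_cont (n : ℕ) : ContinuousOn (fun p : (ℝ × (Fin n → ℝ)) × (Fin 4 → ℂ) => HHn p.1.1 p.1.2 p.2) (RgU n) := by
  have h1 := tor_cont (r := 1 / 8) (by norm_num) (fun p w => Fh p w) (RgU n) (rg_open n) (fh_cont n)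
  have h2 : (fun p : (ℝ × (Fin n → ℝ)) × (Fin 4 → ℂ) => HHn p.1.1 p.1.2 p.2) = fun p =>
      ((Real.pi * I) ^ n)⁻¹ * ∯ w in T((0 : Fin n → ℂ), fun _ => 1 / 8), Fh p w := by
    funext p
    exact hh_eq p
  rw [h2]
  exact continuousOn_const.mul h1

theorem hhn_diff {n : ℕ} (x : ℝ) (y : Fin n → ℝ) (f : ℂ → Fin 4 → ℂ) (S : Set ℂ) (hS : IsOpen S)
    (hf : ∀ i, DifferentiableOn ℂ (fun z => f z i) S) (h : ∀ z ∈ S, ((x, y), f z) ∈ RgU n) :
    DifferentiableOn ℂ (fun z => HHn x y (f z)) S := by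
  have hfc : ContinuousOn f S := continuousOn_pi.2 fun i => (hf i).continuousOn
  have h1 := tor_diff (n := n) (r := 1 / 8) (by norm_num) (fun z w => Fh ((x, y), f z) w) S hS ?_ ?_
  · have h2 : (fun z => HHn x y (f z)) = fun z =>
        ((Real.pi * I) ^ n)⁻¹ * ∯ w in T((0 : Fin n → ℂ), fun _ => 1 / 8), Fh ((x, y), f z) w := by
      funext z
      exact hh_eq ((x, y), f z)
    rw [h2]
    exact h1.const_mul _
  · have h3 : ContinuousOn (fun q : ℂ × (Fin n → ℂ) => ((((x, y), f q.1) : (ℝ × (Fin n → ℝ)) × (Fin 4 → ℂ)), q.2))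
        (S ×ˢ {w | ∀ j, ‖w j‖ = 1 / 8}) := by
      refine ContinuousOn.prodMk (ContinuousOn.prodMk continuousOn_const ?_) continuousOn_snd
      exact hfc.comp continuousOn_fst (fun q hq => hq.1)
    have h4 : Set.MapsTo (fun q : ℂ × (Fin n → ℂ) => ((((x, y), f q.1) : (ℝ × (Fin n → ℝ)) × (Fin 4 → ℂ)), q.2))
        (S ×ˢ {w | ∀ j, ‖w j‖ = 1 / 8}) (RgU n ×ˢ {w | ∀ j, ‖w j‖ = 1 / 8}) := fun q hq => ⟨h _ hq.1, hq.2⟩
    have h5 := ContinuousOn.comp (g := fun q : ((ℝ × (Fin n → ℝ)) × (Fin 4 → ℂ)) × (Fin n → ℂ) => Fh q.1 q.2) (fh_cont n) h3 h4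
    exact h5
  · intro w hw
    have h3 : DifferentiableOn ℂ (fun z => HFn x y (f z) w) S :=
      hf_diff x y f (fun _ => w) S hS hf (fun j => differentiableOn_const _) (fun z hz => reg_mem (h z hz) hw)
    have h4 := h3.const_mul (∏ j, (X2 (y j) (w j) / w j * riemannZeta (1 + 2 * w j)))
    exact h4

end Pool.Agent.P07318g
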