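import Pool.Agent.Lib.P07318g.HolA
import Pool.Agent.Lib.P07318s.Tele
import Pool.Agent.Lib.P07318s.MainPoint

/-!
# Bound of `HHn`

PROOF. `hhn_hol`: continuity and holomorphy: `hhn_cont`, `hhn_diff` (`((x, y), u) ∈ RgU n` for `u ∈ Bx (U^κ)`: `|y_j - x| > 4 U^κ`, `|y_i - y_j| > 4 U^κ ≥ 4`). Bound: `torus_radius` (P07318s/Tele.lean) from the radius
`1/8` to `κ`: the integrand `Fh` is continuous on `κ ≤ |w_j| ≤ 1/8` and differentiable in each variable there (`hf_cont`, `hf_diff` along `s ↦ Function.update w j s`). On `|w_j| = κ`: `‖X2 (y_j) (w_j)‖ ≤ 7 U^κ`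
(`HHaux.x2_bound`), `‖ζ(1 + 2 w_j) / w_j‖ ≤ C/κ²` (`zE_bound (1/2)`: `2 w ζ(1+2w) = zE(1+2w)`), `‖HFn‖ ≤ C U^(8(n+1)²κ)` (`hf_bound`), and the torus has volume `(2π κ)^n`
(`norm_torusIntegral_le_of_norm_le_const`): total `≤ C_κ U^(nκ + 8(n+1)²κ) ≤ C_κ U^(10(n+1)²κ)`. `hhn_hol1`: compactness (see `hh_hol1` in P07318f/HHreg.lean).
-/

set_option autoImplicit false

namespace Pool.Agent.P07318g

open MeasureTheory Complex Pool.Agent.P07318s Pool.Agent.P07318f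

namespace HolBAux

/-- the integrand -/
noncomputable def Fh {n : ℕ} (x : ℝ) (y : Fin n → ℝ) (u : Fin 4 → ℂ) (w : Fin n → ℂ) : ℂ :=
  (∏ j, (X2 (y j) (w j) / w j * riemannZeta (1 + 2 * w j))) * HFn x y u w

theorem z_ne {w : ℂ} (hw : w ≠ 0) : 1 + 2 * w ≠ 1 := by
  intro h
  apply hw
  have : 2 * w = 0 := by linear_combination h
  simpa using this

theorem X2_ne {y : ℝ} (hy : 0 < y) : ((y / (2 * Real.pi) : ℝ) : ℂ) ≠ 0 := by
  have : (0:ℝ) < y / (2 * Real.pi) := div_pos hy (by positivity)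
  exact_mod_cast this.ne'

theorem fac_cont {n : ℕ} {y : Fin n → ℝ} (hy : ∀ j, 0 < y j) {S : Set (Fin n → ℂ)}
    (hS : ∀ w ∈ S, ∀ j, w j ≠ 0) :
    ContinuousOn (fun w : Fin n → ℂ => ∏ j, (X2 (y j) (w j) / w j * riemannZeta (1 + 2 * w j))) S := by
  refine continuousOn_finsetProd _ fun j _ => ?_
  refine ContinuousOn.mul (ContinuousOn.div ?_ (continuous_apply j).continuousOn fun w hw => hS w hw j) ?_
  · unfold X2
    exact (Continuous.const_cpow (continuous_apply j) (Or.inl (X2_ne (hy j)))).continuousOn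
  · intro w hw
    have h1 := (differentiableAt_riemannZeta (z_ne (hS w hw j))).continuousAt
    have h2 : ContinuousWithinAt (fun w : Fin n → ℂ => 1 + 2 * w j) S w := by
      have : Continuous (fun w : Fin n → ℂ => 1 + 2 * w j) := by fun_prop
      exact this.continuousWithinAt
    exact ContinuousAt.comp_continuousWithinAt (g := riemannZeta) h1 h2

theorem Fh_cont {n : ℕ} {x : ℝ} {y : Fin n → ℝ} (hy : ∀ j, 0 < y j) {u : Fin 4 → ℂ}
    {S : Set (Fin n → ℂ)} (hS : ∀ w ∈ S, ∀ j, w j ≠ 0) (hR : ∀ w ∈ S, (((x, y), u), w) ∈ RegH n) :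
    ContinuousOn (Fh x y u) S := by
  refine (fac_cont hy hS).mul ?_
  have h2 : ContinuousOn (fun w : Fin n → ℂ => (((x, y), u), w)) S := by
    fun_prop
  exact ContinuousOn.comp (g := fun p : ((ℝ × (Fin n → ℝ)) × (Fin 4 → ℂ)) × (Fin n → ℂ) =>
    HFn p.1.1.1 p.1.1.2 p.1.2 p.2) (f := fun w : Fin n → ℂ => (((x, y), u), w)) (t := RegH n)
    (hf_cont n) h2 hR

theorem Fh_diff {n : ℕ} {x : ℝ} {y : Fin n → ℝ} (hy : ∀ j, 0 < y j) {u : Fin 4 → ℂ}
    (w : Fin n → ℂ) (j : Fin n) {S : Set ℂ} (hSo : IsOpen S)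
    (hS : ∀ z ∈ S, ∀ i, Function.update w j z i ≠ 0)
    (hR : ∀ z ∈ S, (((x, y), u), Function.update w j z) ∈ RegH n) {s : ℂ} (hs : s ∈ S) :
    DifferentiableAt ℂ (fun s => Fh x y u (Function.update w j s)) s := by
  unfold Fh
  refine DifferentiableAt.mul ?_ ?_
  · refine DifferentiableAt.fun_finsetProd fun i _ => ?_
    refine DifferentiableAt.mul (DifferentiableAt.div ?_ (upd_diff w j s i) (hS s hs i)) ?_
    · unfold X2
      exact DifferentiableAt.const_cpow (upd_diff w j s i) (Or.inl (X2_ne (hy i)))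
    · have h2 : DifferentiableAt ℂ (fun s => 1 + 2 * (Function.update w j s) i) s :=
        (differentiableAt_const _).add ((differentiableAt_const _).mul (upd_diff w j s i))
      exact DifferentiableAt.comp (g := riemannZeta) s (differentiableAt_riemannZeta (z_ne (hS s hs i))) h2
  · have h := hf_diff x y (fun _ => u) (fun z => Function.update w j z) S hSo
      (fun i => differentiableOn_const _) (fun i z _ => (upd_diff w j z i).differentiableWithinAt) hR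
    exact (h s hs).differentiableAt (hSo.mem_nhds hs)

/-- the integral over the torus of radius `κ` -/
theorem hhn_radius {n : ℕ} {x κ : ℝ} {y : Fin n → ℝ} (hy : ∀ j, 0 < y j) {u : Fin 4 → ℂ} (hκ : 0 < κ)
    (hκ1 : κ ≤ 1 / 1000) (hR : ∀ w : Fin n → ℂ, (∀ j, ‖w j‖ ≤ 1 / 8) → (((x, y), u), w) ∈ RegH n) :
    HHn x y u = ((Real.pi * I) ^ n)⁻¹ * ∯ w in T((0 : Fin n → ℂ), fun _ => κ), Fh x y u w := by
  have e2 : (∯ w in T((0 : Fin n → ℂ), fun _ => 1 / 8), Fh x y u w) = ∯ w in T(0, fun _ => κ), Fh x y u w := by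
    refine torus_radius hκ (by linarith) (Fh x y u) ?_ ?_
    · refine Fh_cont hy ?_ ?_
      · intro w hw j h0
        have := (hw j).1
        rw [h0, norm_zero] at this
        linarith
      · intro w hw
        exact hR w fun j => (hw j).2
    · intro w hw j s hs1 hs2
      have hu : ∀ z ∈ {z : ℂ | κ < ‖z‖ ∧ ‖z‖ < 1 / 8}, ∀ i, κ ≤ ‖Function.update w j z i‖ ∧
          ‖Function.update w j z i‖ ≤ 1 / 8 := by
        intro z hz i
        by_cases h : i = j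
        · subst h; rw [Function.update_self]; exact ⟨hz.1.le, hz.2.le⟩
        · rw [Function.update_of_ne h]; exact hw i
      have hSo : IsOpen {z : ℂ | κ < ‖z‖ ∧ ‖z‖ < 1 / 8} :=
        (isOpen_lt continuous_const continuous_norm).inter (isOpen_lt continuous_norm continuous_const)
      refine Fh_diff hy w j hSo ?_ ?_ (s := s) ⟨hs1, hs2⟩
      · intro z hz i h0
        have := (hu z hz i).1
        rw [h0, norm_zero] at this
        linarith
      · intro z hz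
        exact hR _ fun i => (hu z hz i).2
  rw [← e2]
  rfl

theorem mem_RegH {n : ℕ} {x L : ℝ} {y : Fin n → ℝ} {u : Fin 4 → ℂ} (hL : 1 ≤ L) (hu : u ∈ Bx L)
    (h1 : ∀ j, 4 * L < |y j - x|) (h2 : ∀ i j, i ≠ j → 4 * L < |y i - y j|) (w : Fin n → ℂ)
    (hw : ∀ j, ‖w j‖ ≤ 1 / 8) : (((x, y), u), w) ∈ RegH n := by
  have hre := fun j => (Complex.abs_re_le_norm (w j)).trans (hw j)
  have him := fun j => (Complex.abs_im_le_norm (w j)).trans (hw j)
  refine ⟨fun i => (hu i).1.trans (by norm_num), fun j => (hre j).trans_lt (by norm_num), fun i j => ?_,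
    fun i j hij => ?_⟩
  · have a1 := (hu i).2
    have a2 := him j
    have a3 := h1 j
    show |(u i).im| + |(w j).im| < |y j - x|
    linarith
  · have a1 := him i
    have a2 := him j
    have a3 := h2 i j hij
    show |(w i).im| + |(w j).im| < |y i - y j|
    linarith

theorem hhn_bd (n : ℕ) (κ : ℝ) (hκ : 0 < κ) (hκ1 : κ ≤ 1 / 1000) (B : ℝ) : ∃ C : ℝ, 0 < C ∧
    ∀ (U x : ℝ) (y : Fin n → ℝ), 1 ≤ U → (∀ j, U ≤ y j) → (∀ j, y j ≤ 16 * U) →
    GoodN κ (U ^ κ) (B * U ^ κ) x y → ∀ u ∈ Bx (U ^ κ),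
    ‖HHn x y u‖ ≤ C * U ^ (10 * ((n : ℝ) + 1) ^ 2 * κ) := by
  obtain ⟨C1, hC1, hb⟩ := hf_bound n B
  obtain ⟨CZ, hCZ, hz⟩ := zeta_P (r := κ) (c := 1) hκ (by linarith) one_pos
  refine ⟨(2 * κ) ^ n * ((7 / κ * CZ) ^ n * C1), by positivity, ?_⟩
  intro U x y hU hy1 hy2 hG u hu
  have hU0 : 0 < U := by linarith
  have hL1 : 1 ≤ U ^ κ := Real.one_le_rpow hU hκ.le
  have hypos : ∀ j, 0 < y j := fun j => by linarith [hy1 j]
  have hR := mem_RegH (x := x) (y := y) hL1 hu (fun j => (hG.1 j).1) (fun i j hij => (hG.2 i j hij).1)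
  rw [hhn_radius hypos hκ hκ1 hR]
  have hbd : ∀ θ : Fin n → ℝ, ‖Fh x y u (torusMap (0 : Fin n → ℂ) (fun _ => κ) θ)‖ ≤
      (7 * U ^ κ / κ * CZ) ^ n * (C1 * U ^ (8 * ((n : ℝ) + 1) ^ 2 * κ)) := by
    intro θ
    set w : Fin n → ℂ := torusMap (0 : Fin n → ℂ) (fun _ => κ) θ with hw
    have hwn : ∀ j, ‖w j‖ = κ := by
      intro j
      rw [hw]
      simp only [torusMap, Pi.zero_apply, zero_add]
      rw [norm_mul, Complex.norm_exp_ofReal_mul_I, mul_one, Complex.norm_real, Real.norm_of_nonneg hκ.le]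
    have hwr : ∀ j, |(w j).re| ≤ κ := fun j => hwn j ▸ Complex.abs_re_le_norm (w j)
    have hwi : ∀ j, |(w j).im| ≤ κ := fun j => hwn j ▸ Complex.abs_im_le_norm (w j)
    unfold Fh
    rw [norm_mul, norm_prod]
    have b1 : ∏ j, ‖X2 (y j) (w j) / w j * riemannZeta (1 + 2 * w j)‖ ≤ (7 * U ^ κ / κ * CZ) ^ n := by
      calc ∏ j, ‖X2 (y j) (w j) / w j * riemannZeta (1 + 2 * w j)‖ ≤
            ∏ _j : Fin n, (7 * U ^ κ / κ * CZ) := by
            refine Finset.prod_le_prod (fun j _ => norm_nonneg _) fun j _ => ?_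
            rw [norm_mul, norm_div, hwn j]
            refine mul_le_mul ?_ (hz (w j) (Or.inr (hwn j))) (norm_nonneg _) (by positivity)
            exact div_le_div_of_nonneg_right (HHaux.x2_bound hκ hκ1 hU (hy1 j) (hy2 j) (hwr j)) hκ.le
        _ = _ := by rw [Finset.prod_const, Finset.card_univ, Fintype.card_fin]
    have b2 := hb κ U x y u w hκ hκ1 hU hG hu (fun j => ⟨(hwr j).trans (by linarith), (hwi j).trans (by linarith)⟩)
    exact mul_le_mul b1 b2 (norm_nonneg _) (by positivity)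
  have h1 := norm_torusIntegral_le_of_norm_le_const hbd
  have hpi : ‖((Real.pi * I : ℂ) ^ n)⁻¹‖ = (Real.pi ^ n)⁻¹ := by
    rw [norm_inv, norm_pow, norm_mul, Complex.norm_I, mul_one, Complex.norm_real,
      Real.norm_of_nonneg Real.pi_pos.le]
  rw [norm_mul, hpi]
  have h2 : (∏ _i : Fin n, |κ|) = κ ^ n := by
    rw [Finset.prod_const, Finset.card_univ, Fintype.card_fin, abs_of_pos hκ]
  rw [h2] at h1
  have hp : (0:ℝ) < Real.pi ^ n := pow_pos Real.pi_pos n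
  have e1 : (7 * U ^ κ / κ * CZ) ^ n = (7 / κ * CZ) ^ n * U ^ (κ * n) := by
    rw [show 7 * U ^ κ / κ * CZ = (7 / κ * CZ) * U ^ κ by ring, mul_pow]
    congr 1
    rw [← Real.rpow_natCast, ← Real.rpow_mul hU0.le]
  have e2 : U ^ (κ * n) * U ^ (8 * ((n : ℝ) + 1) ^ 2 * κ) ≤ U ^ (10 * ((n : ℝ) + 1) ^ 2 * κ) := by
    rw [← Real.rpow_add hU0]
    refine Real.rpow_le_rpow_of_exponent_le hU ?_
    have hn : (0 : ℝ) ≤ n := Nat.cast_nonneg n
    have h3 : (n : ℝ) ≤ 2 * ((n : ℝ) + 1) ^ 2 := by nlinarith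
    nlinarith
  calc (Real.pi ^ n)⁻¹ * ‖∯ w in T((0 : Fin n → ℂ), fun _ => κ), Fh x y u w‖ ≤
        (Real.pi ^ n)⁻¹ * ((2 * Real.pi) ^ n * κ ^ n *
          ((7 * U ^ κ / κ * CZ) ^ n * (C1 * U ^ (8 * ((n : ℝ) + 1) ^ 2 * κ)))) :=
        mul_le_mul_of_nonneg_left h1 (by positivity)
    _ = (2 * κ) ^ n * ((7 / κ * CZ) ^ n * C1) * (U ^ (κ * n) * U ^ (8 * ((n : ℝ) + 1) ^ 2 * κ)) := by
        rw [e1, mul_pow 2 Real.pi, mul_pow 2 κ]
        field_simp
    _ ≤ _ := mul_le_mul_of_nonneg_left e2 (by positivity)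

theorem hhn_cont1 {n : ℕ} {x : ℝ} {y : Fin n → ℝ} {T : Set (Fin 4 → ℂ)}
    (h : ∀ u ∈ T, ((x, y), u) ∈ RgU n) : ContinuousOn (HHn x y) T := by
  have h2 : ContinuousOn (fun u : Fin 4 → ℂ => ((x, y), u)) T := by
    fun_prop
  have h3 := ContinuousOn.comp (g := fun p : (ℝ × (Fin n → ℝ)) × (Fin 4 → ℂ) => HHn p.1.1 p.1.2 p.2)
    (f := fun u : Fin 4 → ℂ => ((x, y), u)) (t := RgU n) (hhn_cont n) h2 h
  exact h3

end HolBAux

open HolBAux

theorem hhn_hol (n : ℕ) (κ : ℝ) (hκ : 0 < κ) (hκ1 : κ ≤ 1 / 1000) (B : ℝ) : ∃ C : ℝ, 0 < C ∧ ∀ (U x : ℝ) (y : Fin n → ℝ),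
    1 ≤ U → U ≤ x → x ≤ 16 * U → (∀ j, U ≤ y j) → (∀ j, y j ≤ 16 * U) → GoodN κ (U ^ κ) (B * U ^ κ) x y →
    Hol4 (U ^ κ) (C * U ^ (10 * ((n : ℝ) + 1) ^ 2 * κ)) (HHn x y) := by
  obtain ⟨C, hC, h⟩ := hhn_bd n κ hκ hκ1 B
  refine ⟨C, hC, fun U x y hU _ _ hy1 hy2 hG => ?_⟩
  have hL1 : 1 ≤ U ^ κ := Real.one_le_rpow hU hκ.le
  have hs : ∀ u ∈ Bx (U ^ κ), ((x, y), u) ∈ RgU n := by
    intro u hu
    refine ⟨fun j => ?_, fun i => (hu i).1.trans (by norm_num), fun i j => ?_, fun i j hij => ?_⟩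
    · show 0 < y j
      linarith [hy1 j]
    · have a1 := (hu i).2
      have a2 := (hG.1 j).1
      show |(u i).im| + 1 / 4 < |y j - x|
      linarith
    · have a2 := (hG.2 i j hij).1
      show 1 / 2 < |y i - y j|
      linarith
  exact ⟨hhn_cont1 hs, fun f S hS hf hfS => hhn_diff x y f S hS hf (fun z hz => hs _ (hfS z hz)),
    h U x y hU hy1 hy2 hG⟩

theorem hhn_hol1 {n : ℕ} (x : ℝ) (y : Fin n → ℝ) (hy : ∀ j, 0 < y j) (hxy : ∀ j, 1 < |y j - x|)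
    (hyy : ∀ i j, i ≠ j → 1 < |y i - y j|) : ∃ B : ℝ, Hol4 (1 / 2) B (HHn x y) := by
  have hs : ∀ u : Fin 4 → ℂ, (∀ i, |(u i).re| ≤ 1 / 10 ∧ |(u i).im| ≤ 1 / 2) → ((x, y), u) ∈ RgU n := by
    intro u hu
    refine ⟨hy, fun i => (hu i).1.trans_lt (by norm_num), fun i j => ?_, fun i j hij => ?_⟩
    · have a1 := (hu i).2
      have a2 := hxy j
      show |(u i).im| + 1 / 4 < |y j - x|
      linarith
    · have a2 := hyy i j hij
      show 1 / 2 < |y i - y j|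
      linarith
  have hs' : ∀ u ∈ Bx (1 / 2), ((x, y), u) ∈ RgU n := fun u hu =>
    hs u fun i => ⟨(hu i).1.le, (hu i).2.le⟩
  set K : Set (Fin 4 → ℂ) := Set.univ.pi fun _ => (Set.Icc (-(1 / 10) : ℝ) (1 / 10) ×ℂ Set.Icc (-(1 / 2) : ℝ) (1 / 2))
    with hK
  have hKc : IsCompact K := isCompact_univ_pi fun _ => isCompact_Icc.reProdIm isCompact_Icc
  have hKs : ∀ u ∈ K, ((x, y), u) ∈ RgU n := by
    intro u hu
    refine hs u fun i => ?_
    have h1 := hu i (Set.mem_univ i)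
    exact ⟨abs_le.2 h1.1, abs_le.2 h1.2⟩
  obtain ⟨B, hB⟩ := hKc.exists_bound_of_continuousOn (hhn_cont1 hKs)
  refine ⟨B, hhn_cont1 hs', fun f S hS hf hfS => hhn_diff x y f S hS hf (fun z hz => hs' _ (hfS z hz)),
    fun u hu => hB u ?_⟩
  intro i _
  exact ⟨abs_le.1 (hu i).1.le, abs_le.1 (hu i).2.le⟩

end Pool.Agent.P07318g
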