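import Pool.Agent.Lib.P07318g.Defs
import Pool.Agent.Lib.P07318f.LargeS
import Pool.Agent.Lib.P07318s.PiSum

/-!
# Large sieve for tuples of reduced fractions

PROOF. Copy `P07318f/LargeS.lean` (137 lines), with products over `j`. `Summable ‖c‖` : `‖c q‖ ≤ B₀ ∏ ww δ U (q j)` (`ww_summable`, `summable_pi_prod_real`).
`box_ms` (P07318s/BoxMS, any `n`) with `ω q j = lgr (q j).1` (`∏ ex (h j) (q j)` is the exponential of `-∑ h j lgr (q j)`, `H = U`):
`∫ ‖∑‖² ≤ ∑_{q,q'} ‖c q‖ ‖c q'‖ ∏_j bb U (lgr (q j) - lgr (q' j))`; with `k = ∏ kap (q j)`, `r = ∏ hgt (q j)^(-1/2)` (`r² = ∏ hgt⁻¹`) :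
`‖c q‖ ‖c q'‖ ≤ 1/2 (k r² B²) k' + 1/2 (k' r'² B'²) k` (`LargeSAux.pair_le`); `k r² = kn δ U q`. Then for each `q`
`∑_{q'} ∏_j ofReal (kap (q' j) bb U (lgr (q' j) - lgr (q j))) = ∏_j ∑_{q'} .. ≤ (ofReal (C U^(1+2δ)))^n` (`tsum_pi_prod_ennreal`, `spaced_sum` with `V = U`).
Symmetry as in `LargeS`.
-/

set_option autoImplicit false

namespace Pool.Agent.P07318g

open MeasureTheory Complex Pool.Agent.P07318s Pool.Agent.P07318f

namespace LSnAux

lemma exp_prod {n : ℕ} (α : Fin n → ℝ) (q : Fin n → Q) :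
    cexp (((-(∑ j, α j * lgr (q j).1) : ℝ) : ℂ) * I) = ∏ j, ex (α j) (q j).1 := by
  unfold ex
  rw [← Complex.exp_sum]
  congr 1
  push_cast
  rw [← Finset.sum_mul, Finset.sum_neg_distrib]

lemma prod_split {n : ℕ} (δ U : ℝ) (q : Fin n → Q) :
    (∏ j, (kap δ U (hgt (q j).1) * (hgt (q j).1) ^ (-(1 / 2) : ℝ))) =
      (∏ j, kap δ U (hgt (q j).1)) * ∏ j, (hgt (q j).1) ^ (-(1 / 2) : ℝ) :=
  Finset.prod_mul_distrib

lemma kn_eq {n : ℕ} (δ U : ℝ) (q : Fin n → Q) :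
    kn δ U q = (∏ j, kap δ U (hgt (q j).1)) * (∏ j, (hgt (q j).1) ^ (-(1 / 2) : ℝ)) ^ 2 := by
  unfold kn
  rw [Finset.prod_mul_distrib, ← Finset.prod_pow]
  congr 1
  refine Finset.prod_congr rfl fun j _ => ?_
  rw [← Real.rpow_natCast, ← Real.rpow_mul (hgt_pos (q j).1).le]
  norm_num
  exact (Real.rpow_neg_one _).symm

end LSnAux

open LSnAux in
theorem large_sieve_n (n : ℕ) (δ : ℝ) (hδ : 0 < δ) (hδ2 : δ ≤ 1 / 2) : ∃ C : ℝ, 0 < C ∧ ∀ (U : ℝ) (β : Fin n → ℝ), 1 ≤ U →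
    ∀ (c : (Fin n → Q) → ℂ) (B : (Fin n → Q) → ℝ) (B₀ : ℝ), (∀ q, 0 ≤ B q) → (∀ q, B q ≤ B₀) →
    (∀ q, ‖c q‖ ≤ (∏ j, (kap δ U (hgt (q j).1) * (hgt (q j).1) ^ (-(1 / 2) : ℝ))) * B q) →
    (Summable fun q : Fin n → Q => ‖c q‖) ∧
    ∫⁻ h in Set.Icc β (fun j => β j + U), ‖∑' q : Fin n → Q, c q * ∏ j, ex (h j) (q j).1‖ₑ ^ 2 ≤
      ENNReal.ofReal (C * U ^ ((n : ℝ) * (1 + 2 * δ))) * ∑' q : Fin n → Q, ENNReal.ofReal (kn δ U q * B q ^ 2) := by
  obtain ⟨C, hC, hsp⟩ := spaced_sum δ hδ hδ2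
  refine ⟨C ^ n, by positivity, fun U β hU c B B₀ hB0 hB hc => ?_⟩
  have hU0 : 0 ≤ U := by linarith
  have hsum : Summable fun q : Fin n → Q => ‖c q‖ := by
    have h1 := summable_pi_prod_real (k := n) (fun _ q => ww δ U q)
      (fun _ => ww_summable hδ hδ2 hU) (fun _ q => ww_nonneg hU0 q)
    refine Summable.of_nonneg_of_le (fun q => norm_nonneg _) (fun q => ?_) (h1.mul_right B₀)
    refine (hc q).trans ?_
    have h2 : 0 ≤ ∏ j, ww δ U (q j) := Finset.prod_nonneg fun j _ => ww_nonneg hU0 _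
    exact mul_le_mul_of_nonneg_left (hB q) h2
  refine ⟨hsum, ?_⟩
  have hbox := box_ms c hsum (fun q j => lgr (q j).1) β hU0
  simp only [exp_prod] at hbox
  refine hbox.trans ?_
  set K : (Fin n → Q) → ℝ := fun q => ∏ j, kap δ U (hgt (q j).1) with hK
  set R : (Fin n → Q) → ℝ := fun q => ∏ j, (hgt (q j).1) ^ (-(1 / 2) : ℝ) with hR
  set T : (Fin n → Q) → ℝ := fun q => kn δ U q * B q ^ 2 with hT
  set bn : (Fin n → Q) → (Fin n → Q) → ℝ :=
    fun q q' => ∏ j, bb U (lgr (q j).1 + (-lgr (q' j).1)) with hbn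
  have hK0 : ∀ q, 0 ≤ K q := fun q => Finset.prod_nonneg fun j _ => kap_nonneg hU0 (hgt_pos _).le
  have hR0 : ∀ q, 0 ≤ R q := fun q =>
    Finset.prod_nonneg fun j _ => Real.rpow_nonneg (hgt_pos _).le _
  have hT0 : ∀ q, 0 ≤ T q := fun q => mul_nonneg (kn_nonneg hU0 q) (sq_nonneg _)
  have hb0 : ∀ q q', 0 ≤ bn q q' := fun q q' => Finset.prod_nonneg fun j _ => bb_nonneg hU0 _
  have hbs : ∀ q q', bn q' q = bn q q' := by
    intro q q'
    refine Finset.prod_congr rfl fun j _ => ?_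
    rw [← bb_neg]
    congr 1
    ring
  have h1 : ∀ q q' : Fin n → Q, ‖c q‖ₑ * ‖c q'‖ₑ *
      ∏ j, ENNReal.ofReal (bb U (lgr (q j).1 - lgr (q' j).1)) ≤
      ENNReal.ofReal (1 / 2) * (ENNReal.ofReal (T q) * ENNReal.ofReal (K q' * bn q' q)) +
      ENNReal.ofReal (1 / 2) * (ENNReal.ofReal (T q') * ENNReal.ofReal (K q * bn q q')) := by
    intro q q'
    have h2 := LargeSAux.pair_le (hK0 q) (hK0 q') (hR0 q) (hR0 q') (hB0 q) (hB0 q')
      (norm_nonneg (c q)) (norm_nonneg (c q'))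
      ((hc q).trans (by rw [prod_split])) ((hc q').trans (by rw [prod_split]))
    have hTe : ∀ p, K p * R p ^ 2 * B p ^ 2 = T p := by
      intro p
      simp only [hT]
      rw [kn_eq]
    rw [hTe, hTe] at h2
    have e0 : ∏ j, ENNReal.ofReal (bb U (lgr (q j).1 - lgr (q' j).1)) =
        ENNReal.ofReal (bn q q') := by
      rw [← ENNReal.ofReal_prod_of_nonneg fun j _ => bb_nonneg hU0 _]
      simp only [hbn, sub_eq_add_neg]
    rw [e0, hbs q q', ← ofReal_norm, ← ofReal_norm, ← ENNReal.ofReal_mul (norm_nonneg _),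
      ← ENNReal.ofReal_mul (by positivity), ← ENNReal.ofReal_mul (hT0 q), ← ENNReal.ofReal_mul (hT0 q'),
      ← ENNReal.ofReal_mul (by norm_num), ← ENNReal.ofReal_mul (by norm_num),
      ← ENNReal.ofReal_add (by have := hT0 q; have := hK0 q'; have := hb0 q q'; positivity)
        (by have := hT0 q'; have := hK0 q; have := hb0 q q'; positivity)]
    refine ENNReal.ofReal_le_ofReal ?_
    have := mul_le_mul_of_nonneg_right h2 (hb0 q q')
    refine this.trans (le_of_eq ?_)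
    ring
  refine (ENNReal.tsum_le_tsum fun q => ENNReal.tsum_le_tsum fun q' => h1 q q').trans ?_
  set S := ENNReal.ofReal (C ^ n * U ^ ((n : ℝ) * (1 + 2 * δ))) with hSdef
  have hS : ∀ q : Fin n → Q, ∑' q' : Fin n → Q, ENNReal.ofReal (K q' * bn q' q) ≤ S := by
    intro q
    have e1 : ∀ q' : Fin n → Q, ENNReal.ofReal (K q' * bn q' q) =
        ∏ j, ENNReal.ofReal (kap δ U (hgt (q' j).1) * bb U (lgr (q' j).1 + (-lgr (q j).1))) := by
      intro q'
      rw [← ENNReal.ofReal_prod_of_nonneg fun j _ =>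
        mul_nonneg (kap_nonneg hU0 (hgt_pos _).le) (bb_nonneg hU0 _), Finset.prod_mul_distrib]
    simp only [e1]
    rw [tsum_pi_prod_ennreal fun (j : Fin n) (p : Q) =>
      ENNReal.ofReal (kap δ U (hgt p.1) * bb U (lgr p.1 + (-lgr (q j).1)))]
    have e2 : ∏ j : Fin n, ∑' p : Q,
        ENNReal.ofReal (kap δ U (hgt p.1) * bb U (lgr p.1 + (-lgr (q j).1))) ≤
        ∏ _j : Fin n, ENNReal.ofReal (C * U ^ (1 + 2 * δ)) := by
      refine Finset.prod_le_prod' fun j _ => ?_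
      exact hsp U U (-lgr (q j).1) hU hU0 le_rfl
    refine e2.trans (le_of_eq ?_)
    rw [Finset.prod_const, Finset.card_univ, Fintype.card_fin,
      ← ENNReal.ofReal_pow (by positivity), hSdef, mul_pow]
    congr 2
    rw [← Real.rpow_natCast, ← Real.rpow_mul hU0, mul_comm]
  have h2 : ∑' q : Fin n → Q, ∑' q' : Fin n → Q, ENNReal.ofReal (1 / 2) * (ENNReal.ofReal (T q) *
        ENNReal.ofReal (K q' * bn q' q)) ≤
      ENNReal.ofReal (1 / 2) * (S * ∑' q : Fin n → Q, ENNReal.ofReal (T q)) := by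
    simp only [ENNReal.tsum_mul_left]
    refine mul_le_mul_right ?_ _
    rw [← ENNReal.tsum_mul_left]
    refine ENNReal.tsum_le_tsum fun q => ?_
    rw [mul_comm S]
    exact mul_le_mul_right (hS q) _
  have h3 : ∑' q : Fin n → Q, ∑' q' : Fin n → Q, ENNReal.ofReal (1 / 2) * (ENNReal.ofReal (T q') *
        ENNReal.ofReal (K q * bn q q')) ≤
      ENNReal.ofReal (1 / 2) * (S * ∑' q : Fin n → Q, ENNReal.ofReal (T q)) := by
    rw [ENNReal.tsum_comm]
    exact h2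
  have h4 : ∑' q : Fin n → Q, ∑' q' : Fin n → Q, (ENNReal.ofReal (1 / 2) * (ENNReal.ofReal (T q) *
        ENNReal.ofReal (K q' * bn q' q)) +
      ENNReal.ofReal (1 / 2) * (ENNReal.ofReal (T q') * ENNReal.ofReal (K q * bn q q'))) =
      (∑' q : Fin n → Q, ∑' q' : Fin n → Q, ENNReal.ofReal (1 / 2) * (ENNReal.ofReal (T q) *
        ENNReal.ofReal (K q' * bn q' q))) +
      ∑' q : Fin n → Q, ∑' q' : Fin n → Q, ENNReal.ofReal (1 / 2) * (ENNReal.ofReal (T q') *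
        ENNReal.ofReal (K q * bn q q')) := by
    rw [← ENNReal.tsum_add]
    exact tsum_congr fun q => ENNReal.tsum_add
  rw [h4]
  refine (add_le_add h2 h3).trans (le_of_eq ?_)
  rw [← add_mul, ← ENNReal.ofReal_add (by norm_num) (by norm_num)]
  norm_num [hT]

end Pool.Agent.P07318g
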