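import Pool.Agent.Lib.P07318g.GGb
import Pool.Agent.Lib.P07318s.PiSum

/-!
# The dual sum over the tuples with a long fraction

PROOF. Let `G₁ x = G x ek U m x` (`‖G₁‖ = ‖G‖`; `G` is integrable: bounded support, `≤ ‖ζ‖⁴` continuous). For `u = x - x'` put `K(u) = ∑_q kap/h ex u q` `= Dk δ U 0 u` (all heights are `≥ 1 > 0`),
`D(u) = Dk δ U Y u`; `K - D` is the sum over `hgt q ≤ Y`. As in `LongPartAux.dual_hasSum` (`∫∫` and `∑` may be interchanged: `∑_q kn δ U q = (∑ kap/h)^n < ∞`, `dk_trivial`, `summable_pi_prod_real`):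
`∑_q tl Y q kn δ U q |∫ G₁ ex x (rp q)|² = ∫∫ G₁(x) conj G₁(x') S(x - x')`, `S(u) = ∑_q tl Y q kn δ U q ex u (rp q) = K(u)^n - (K(u) - D(u))^n`
(`ex_rp`; `1 - tl Y q = ∏_j 1[hgt (q j) ≤ Y]`; `hasSum_pi_prod`). `|K|, |K - D| ≤ K₀ = C U^δ` (`dk_trivial`), so `|S(u)| ≤ n K₀^(n-1) |D(u)|` (`K^n - L^n = (K - L) ∑ K^i L^(n-1-i)`:
`Commute.geom_sum₂_mul` / `mul_geom_sum₂`...), and `gg_bound` gives `≤ n K₀^(n-1) C U^(2-c+3δ)`. For `n = 0` the left side is `0`. (`c` is that of `gg_bound`.)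
-/

set_option autoImplicit false

namespace Pool.Agent.P07318g

open MeasureTheory Complex Pool.Agent.P07318s Pool.Agent.P07318f

namespace PosNAux

open LongPartAux (ek_cont ex_cont ex_sub)

lemma ek_cont' (U : ℝ) (k : ℤ) : Continuous (ek U k) := by
  unfold ek
  fun_prop

lemma hi {G : ℝ → ℂ} (hG : Integrable G) (U : ℝ) (m : ℤ) (p : ℕ+ × ℕ+) :
    Integrable (fun t => G t * ex t p * ek U m t) := by
  refine hG.mono ((hG.aestronglyMeasurable.mul (ex_cont p).aestronglyMeasurable).mul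
    (ek_cont' U m).aestronglyMeasurable) (Filter.Eventually.of_forall fun t => ?_)
  rw [norm_mul, norm_mul, norm_ek, norm_ex, mul_one, mul_one]

/-- duality, general weights -/
lemma dual {ι : Type} [Countable ι] {w : ι → ℝ} {P : ι → ℕ+ × ℕ+} {G : ℝ → ℂ} (hw0 : ∀ i, 0 ≤ w i)
    (hw : Summable w) (hG : Integrable G) (U : ℝ) (m : ℤ) :
    HasSum (fun q : ι => ((w q * ‖∫ x, G x * ex x (P q) * ek U m x‖ ^ 2 : ℝ) : ℂ))
      (∫ z : ℝ × ℝ, (G z.1 * ek U m z.1) * (starRingEnd ℂ) (G z.2 * ek U m z.2) *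
        ∑' q, (w q : ℂ) * ex (z.1 - z.2) (P q)) := by
  have hi1 := fun q => hi hG U m (P q)
  have hi2 : ∀ q : ι, Integrable (fun t => (starRingEnd ℂ) (G t * ex t (P q) * ek U m t)) := by
    intro q
    refine (hi1 q).mono ?_ (Filter.Eventually.of_forall fun t => ?_)
    · exact Complex.continuous_conj.comp_aestronglyMeasurable (hi1 q).aestronglyMeasurable
    · rw [RCLike.norm_conj]
  set F : ι → ℝ × ℝ → ℂ := fun q z => (w q : ℂ) *
    ((G z.1 * ex z.1 (P q) * ek U m z.1) * (starRingEnd ℂ) (G z.2 * ex z.2 (P q) * ek U m z.2)) with hF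
  have hFint : ∀ q, Integrable (F q) := by
    intro q
    exact ((hi1 q).mul_prod (hi2 q)).const_mul _
  have hFn : ∀ q z, ‖F q z‖ = w q * (‖G z.1‖ * ‖G z.2‖) := by
    intro q z
    rw [hF]
    simp only
    rw [norm_mul, norm_mul, Complex.norm_real, Real.norm_of_nonneg (hw0 q), RCLike.norm_conj]
    simp only [norm_mul, norm_ek, norm_ex, mul_one]
  have hFI : ∀ q, ∫ z, ‖F q z‖ = w q * ((∫ t, ‖G t‖) * ∫ t, ‖G t‖) := by
    intro q
    rw [← integral_prod_mul (μ := volume) (ν := volume) (fun t => ‖G t‖) (fun t => ‖G t‖),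
      ← integral_const_mul]
    exact integral_congr_ae (Filter.Eventually.of_forall fun z => hFn q z)
  have hFsum : Summable fun q => ∫ z, ‖F q z‖ := by
    refine (hw.mul_right ((∫ t, ‖G t‖) * ∫ t, ‖G t‖)).congr fun q => ?_
    rw [hFI]
  have h1 := hasSum_integral_of_summable_integral_norm hFint hFsum
  have h2 : ∫ z, (∑' q, F q z) =
      ∫ z : ℝ × ℝ, (G z.1 * ek U m z.1) * (starRingEnd ℂ) (G z.2 * ek U m z.2) *
        ∑' q, (w q : ℂ) * ex (z.1 - z.2) (P q) := by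
    refine integral_congr_ae (Filter.Eventually.of_forall fun z => ?_)
    simp only
    rw [← tsum_mul_left]
    refine tsum_congr fun q => ?_
    rw [hF]
    simp only
    rw [ex_sub, map_mul, map_mul, map_mul]
    ring
  rw [h2] at h1
  refine h1.congr_fun ?_
  intro q
  have h3 : ∫ z, F q z = (w q : ℂ) *
      ((∫ t, G t * ex t (P q) * ek U m t) * ∫ t, (starRingEnd ℂ) (G t * ex t (P q) * ek U m t)) := by
    rw [← integral_prod_mul (μ := volume) (ν := volume) (fun t => G t * ex t (P q) * ek U m t)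
      (fun t => (starRingEnd ℂ) (G t * ex t (P q) * ek U m t)), ← integral_const_mul]
    rfl
  rw [h3, integral_conj, Complex.mul_conj, Complex.normSq_eq_norm_sq]
  push_cast
  rfl

lemma dual_enorm {ι : Type} [Countable ι] {w : ι → ℝ} {P : ι → ℕ+ × ℕ+} {G : ℝ → ℂ}
    (hw0 : ∀ i, 0 ≤ w i) (hw : Summable w) (hG : Integrable G) (U : ℝ) (m : ℤ) :
    ∑' q : ι, ENNReal.ofReal (w q) * ‖∫ x, G x * ex x (P q) * ek U m x‖ₑ ^ 2 ≤
      ∫⁻ z : ℝ × ℝ, ‖G z.1‖ₑ * (‖G z.2‖ₑ * ‖∑' q, (w q : ℂ) * ex (z.1 - z.2) (P q)‖ₑ) := by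
  have h1 := dual (P := P) hw0 hw hG U m
  have h2 : Summable (fun q : ι => w q * ‖∫ x, G x * ex x (P q) * ek U m x‖ ^ 2) := by
    exact_mod_cast h1.summable
  have h3 : (∫ z : ℝ × ℝ, (G z.1 * ek U m z.1) * (starRingEnd ℂ) (G z.2 * ek U m z.2) *
        ∑' q, (w q : ℂ) * ex (z.1 - z.2) (P q)) =
      ((∑' q : ι, w q * ‖∫ x, G x * ex x (P q) * ek U m x‖ ^ 2 : ℝ) : ℂ) := by
    rw [← h1.tsum_eq, Complex.ofReal_tsum]
  have h0 : ∀ q, 0 ≤ w q * ‖∫ x, G x * ex x (P q) * ek U m x‖ ^ 2 := fun q =>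
    mul_nonneg (hw0 q) (by positivity)
  have h5 : ∀ q : ι, ENNReal.ofReal (w q) * ‖∫ x, G x * ex x (P q) * ek U m x‖ₑ ^ 2 =
      ENNReal.ofReal (w q * ‖∫ x, G x * ex x (P q) * ek U m x‖ ^ 2) := by
    intro q
    rw [ENNReal.ofReal_mul (hw0 q), ENNReal.ofReal_pow (norm_nonneg _), ofReal_norm]
  rw [tsum_congr h5, ← ENNReal.ofReal_tsum_of_nonneg h0 h2]
  have h4 : ENNReal.ofReal (∑' q : ι, w q * ‖∫ x, G x * ex x (P q) * ek U m x‖ ^ 2) =
      ‖∫ z : ℝ × ℝ, (G z.1 * ek U m z.1) * (starRingEnd ℂ) (G z.2 * ek U m z.2) *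
        ∑' q, (w q : ℂ) * ex (z.1 - z.2) (P q)‖ₑ := by
    rw [h3, ← ofReal_norm, Complex.norm_real, Real.norm_of_nonneg (tsum_nonneg h0)]
  rw [h4]
  refine (enorm_integral_le_lintegral_enorm _).trans (le_of_eq ?_)
  refine lintegral_congr fun z => ?_
  rw [enorm_mul, enorm_mul, mul_assoc]
  congr 1
  · rw [← ofReal_norm, ← ofReal_norm, norm_mul, norm_ek, mul_one]
  · congr 1
    rw [← ofReal_norm, ← ofReal_norm, RCLike.norm_conj, norm_mul, norm_ek, mul_one]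

lemma pow_sub_bound (a b : ℂ) (n : ℕ) {M : ℝ} (ha : ‖a‖ ≤ M) (hb : ‖b‖ ≤ M) :
    ‖a ^ n - b ^ n‖ ≤ n * M ^ (n - 1) * ‖a - b‖ := by
  have hM : 0 ≤ M := (norm_nonneg _).trans ha
  rw [← (Commute.all a b).geom_sum₂_mul n, norm_mul]
  refine mul_le_mul_of_nonneg_right ?_ (norm_nonneg _)
  refine (norm_sum_le _ _).trans ?_
  have h : ∀ i ∈ Finset.range n, ‖a ^ i * b ^ (n - 1 - i)‖ ≤ M ^ (n - 1) := by
    intro i hi
    rw [Finset.mem_range] at hi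
    rw [norm_mul, norm_pow, norm_pow]
    calc ‖a‖ ^ i * ‖b‖ ^ (n - 1 - i) ≤ M ^ i * M ^ (n - 1 - i) :=
          mul_le_mul (pow_le_pow_left₀ (norm_nonneg _) ha i) (pow_le_pow_left₀ (norm_nonneg _) hb _)
            (by positivity) (by positivity)
      _ = M ^ (n - 1) := by
          rw [← pow_add]
          congr 1
          omega
  refine (Finset.sum_le_sum h).trans (le_of_eq ?_)
  rw [Finset.sum_const, Finset.card_range, nsmul_eq_mul]

/-- the kernel of all tuples with a long fraction -/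
lemma kernel (n : ℕ) {δ U Y M : ℝ} (hU : 0 ≤ U) (hs : Summable fun q : Q => kap δ U (hgt q.1) * (hgt q.1)⁻¹)
    (hM : ∑' q : Q, kap δ U (hgt q.1) * (hgt q.1)⁻¹ ≤ M) (u : ℝ) :
    ‖∑' q : Fin n → Q, ((tl Y q * kn δ U q : ℝ) : ℂ) * ex u (rp q).1‖ ≤
      n * M ^ (n - 1) * ‖Dk δ U Y u‖ := by
  have hk0 : ∀ q : Q, 0 ≤ kap δ U (hgt q.1) * (hgt q.1)⁻¹ := fun q =>
    mul_nonneg (kap_nonneg hU (hgt_pos q.1).le) (inv_nonneg.2 (hgt_pos q.1).le)
  set f : Q → ℂ := fun q => ((kap δ U (hgt q.1) * (hgt q.1)⁻¹ : ℝ) : ℂ) * ex u q.1 with hf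
  set g : Q → ℂ := fun q => if Y < hgt q.1 then 0 else f q with hg
  have hfn : ∀ q, ‖f q‖ = kap δ U (hgt q.1) * (hgt q.1)⁻¹ := by
    intro q
    rw [hf]
    simp only
    rw [norm_mul, norm_ex, mul_one, Complex.norm_real, Real.norm_of_nonneg (hk0 q)]
  have hgn : ∀ q, ‖g q‖ ≤ kap δ U (hgt q.1) * (hgt q.1)⁻¹ := by
    intro q
    rw [hg]
    simp only
    split_ifs
    · rw [norm_zero]
      exact hk0 q
    · exact (hfn q).le
  have hfs : Summable fun q => ‖f q‖ := hs.congr fun q => (hfn q).symm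
  have hgs : Summable fun q => ‖g q‖ :=
    Summable.of_nonneg_of_le (fun q => norm_nonneg _) hgn hs
  have h1 := hasSum_pi_prod (k := n) (fun _ => f) (fun _ => hfs)
  have h2 := hasSum_pi_prod (k := n) (fun _ => g) (fun _ => hgs)
  have h3 := h1.sub h2
  rw [Finset.prod_const, Finset.prod_const, Finset.card_univ, Fintype.card_fin] at h3
  have h4 : ∀ q : Fin n → Q, ((tl Y q * kn δ U q : ℝ) : ℂ) * ex u (rp q).1 =
      ∏ j, f (q j) - ∏ j, g (q j) := by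
    intro q
    have hp : ∏ j, f (q j) = (kn δ U q : ℂ) * ex u (rp q).1 := by
      rw [ex_rp, hf]
      unfold kn
      rw [Finset.prod_mul_distrib]
      push_cast
      rfl
    by_cases hq : ∃ j, Y < hgt (q j).1
    · obtain ⟨j, hj⟩ := hq
      have hz : ∏ j, g (q j) = 0 := by
        refine Finset.prod_eq_zero (Finset.mem_univ j) ?_
        rw [hg]
        simp only
        rw [if_pos hj]
      rw [hz, sub_zero, tl_one hj, one_mul, hp]
    · push Not at hq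
      have he : ∏ j, g (q j) = ∏ j, f (q j) := by
        refine Finset.prod_congr rfl fun j _ => ?_
        rw [hg]
        simp only
        rw [if_neg (not_lt.2 (hq j))]
      rw [he, sub_self, tl_zero hq, zero_mul]
      simp
  rw [tsum_congr h4, h3.tsum_eq]
  have hF : ‖∑' q, f q‖ ≤ M := by
    refine (norm_tsum_le_tsum_norm hfs).trans ?_
    rw [tsum_congr hfn]
    exact hM
  have hGG : ‖∑' q, g q‖ ≤ M := by
    refine (norm_tsum_le_tsum_norm hgs).trans (le_trans ?_ hM)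
    exact hgs.tsum_le_tsum hgn hs
  have hD : ∑' q, f q - ∑' q, g q = Dk δ U Y u := by
    rw [← (hfs.of_norm).tsum_sub (hgs.of_norm)]
    unfold Dk
    refine tsum_congr fun q => ?_
    rw [hg, hf]
    simp only
    split_ifs
    · rw [sub_zero]
    · rw [sub_self]
  rw [← hD]
  exact pow_sub_bound _ _ n hF hGG

lemma G_integrable {U α : ℝ} {G : ℝ → ℂ} (hG : Measurable G)
    (h1 : ∀ x, x < α - U → G x = 0) (h2 : ∀ x, α + 4 * U < x → G x = 0)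
    (h3 : ∀ x : ℝ, ‖G x‖ ≤ ‖riemannZeta (1 / 2 + x * I)‖ ^ 4) : Integrable G := by
  have hc : IntegrableOn (fun x : ℝ => ‖riemannZeta (1 / 2 + x * I)‖ ^ 4)
      (Set.Icc (α - U) (α + 4 * U)) :=
    LongPartAux.zeta_cont4.continuousOn.integrableOn_compact isCompact_Icc
  refine ((integrable_indicator_iff measurableSet_Icc).2 hc).mono' hG.aestronglyMeasurable
    (Filter.Eventually.of_forall fun x => ?_)
  by_cases hx : x ∈ Set.Icc (α - U) (α + 4 * U)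
  · rw [Set.indicator_of_mem hx]
    exact h3 x
  · rw [Set.indicator_of_notMem hx]
    have h0 : G x = 0 := by
      rw [Set.mem_Icc, not_and_or, not_le, not_le] at hx
      rcases hx with hx | hx
      · exact h1 x hx
      · exact h2 x hx
    rw [h0, norm_zero]

end PosNAux

open PosNAux

theorem tail_pos (n : ℕ) (δ₀ : ℝ) (hδ₀ : 0 < δ₀) (hδ₁ : δ₀ ≤ 1) : ∃ c : ℝ, 0 < c ∧ ∀ δ : ℝ, 0 < δ → δ ≤ 1 / 2 →
    ∃ C : ℝ, 0 < C ∧ ∀ (U Y α : ℝ) (G : ℝ → ℂ) (m : ℤ), 1 ≤ U → U ^ δ₀ ≤ Y → Y ≤ U → 2 * U ≤ α → α ≤ 6 * U → Measurable G →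
    (∀ x, x < α - U → G x = 0) → (∀ x, α + 4 * U < x → G x = 0) →
    (∀ x : ℝ, ‖G x‖ ≤ ‖riemannZeta (1 / 2 + x * I)‖ ^ 4) →
    ∑' q : Fin n → Q, ENNReal.ofReal (tl Y q * kn δ U q) * ‖∫ x, G x * ex x (rp q).1 * ek U m x‖ₑ ^ 2 ≤
      ENNReal.ofReal (C * U ^ (2 - c + ((n : ℝ) + 3) * δ)) := by
  obtain ⟨c, hc, h⟩ := gg_bound δ₀ hδ₀ hδ₁
  refine ⟨c, hc, fun δ hδ hδ2 => ?_⟩
  obtain ⟨C₁, hC₁, hg⟩ := h δ hδ hδ2
  obtain ⟨C₂, hC₂, hd⟩ := dk_trivial δ hδ hδ2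
  refine ⟨n * C₂ ^ (n - 1) * C₁ + 1, by positivity, ?_⟩
  intro U Y α G m hU hY1 hY2 hα1 hα2 hG h1 h2 h3
  have hU0 : 0 < U := by linarith
  obtain ⟨hs, hM⟩ := hd U hU
  have hGi := G_integrable hG h1 h2 h3
  have hw0 : ∀ q : Fin n → Q, 0 ≤ tl Y q * kn δ U q := fun q =>
    mul_nonneg (tl_nonneg Y q) (kn_nonneg hU0.le q)
  have hk0 : ∀ q : Q, 0 ≤ kap δ U (hgt q.1) * (hgt q.1)⁻¹ := fun q =>
    mul_nonneg (kap_nonneg hU0.le (hgt_pos q.1).le) (inv_nonneg.2 (hgt_pos q.1).le)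
  have hkn : Summable fun q : Fin n → Q => kn δ U q :=
    summable_pi_prod_real (fun _ (q : Q) => kap δ U (hgt q.1) * (hgt q.1)⁻¹) (fun _ => hs)
      (fun _ q => hk0 q)
  have hw : Summable fun q : Fin n → Q => tl Y q * kn δ U q := by
    refine Summable.of_nonneg_of_le hw0 (fun q => ?_) hkn
    exact mul_le_of_le_one_left (kn_nonneg hU0.le q) (tl_le_one Y q)
  have h4 := dual_enorm (P := fun q : Fin n → Q => (rp q).1) hw0 hw hGi U m
  refine h4.trans ?_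
  set M : ℝ := C₂ * U ^ δ with hMdef
  have hM0 : 0 ≤ M := by positivity
  have h5 : ∫⁻ z : ℝ × ℝ, ‖G z.1‖ₑ * (‖G z.2‖ₑ *
        ‖∑' q : Fin n → Q, ((tl Y q * kn δ U q : ℝ) : ℂ) * ex (z.1 - z.2) (rp q).1‖ₑ) ≤
      ∫⁻ z : ℝ × ℝ, ENNReal.ofReal (n * M ^ (n - 1)) *
        (‖G z.1‖ₑ * (‖G z.2‖ₑ * ‖Dk δ U Y (z.1 - z.2)‖ₑ)) := by
    refine lintegral_mono fun z => ?_
    have h6 := kernel n (Y := Y) hU0.le hs hM (z.1 - z.2)
    have h7 : ‖∑' q : Fin n → Q, ((tl Y q * kn δ U q : ℝ) : ℂ) * ex (z.1 - z.2) (rp q).1‖ₑ ≤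
        ENNReal.ofReal (n * M ^ (n - 1)) * ‖Dk δ U Y (z.1 - z.2)‖ₑ := by
      rw [← ofReal_norm, ← ofReal_norm, ← ENNReal.ofReal_mul (by positivity)]
      exact ENNReal.ofReal_le_ofReal h6
    calc ‖G z.1‖ₑ * (‖G z.2‖ₑ *
        ‖∑' q : Fin n → Q, ((tl Y q * kn δ U q : ℝ) : ℂ) * ex (z.1 - z.2) (rp q).1‖ₑ) ≤
        ‖G z.1‖ₑ * (‖G z.2‖ₑ * (ENNReal.ofReal (n * M ^ (n - 1)) * ‖Dk δ U Y (z.1 - z.2)‖ₑ)) := by
          gcongr
      _ = _ := by ring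
  refine h5.trans ?_
  rw [lintegral_const_mul' _ _ ENNReal.ofReal_ne_top]
  have h8 := hg U Y α G hU hY1 hY2 hα1 hα2 hG h1 h2 h3
  refine (mul_le_mul_right h8 _).trans ?_
  rw [← ENNReal.ofReal_mul (by positivity)]
  refine ENNReal.ofReal_le_ofReal ?_
  have h9 : M ^ (n - 1) ≤ C₂ ^ (n - 1) * U ^ ((n : ℝ) * δ) := by
    rw [hMdef, mul_pow]
    refine mul_le_mul_of_nonneg_left ?_ (by positivity)
    rw [← Real.rpow_natCast, ← Real.rpow_mul hU0.le]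
    refine Real.rpow_le_rpow_of_exponent_le hU ?_
    rw [mul_comm δ]
    refine mul_le_mul_of_nonneg_right ?_ hδ.le
    exact_mod_cast Nat.sub_le n 1
  have e : U ^ (2 - c + ((n : ℝ) + 3) * δ) = U ^ ((n : ℝ) * δ) * U ^ (2 - c + 3 * δ) := by
    rw [← Real.rpow_add hU0]
    congr 1
    ring
  rw [e]
  have hp1 : 0 ≤ U ^ ((n : ℝ) * δ) * U ^ (2 - c + 3 * δ) := by positivity
  calc (n : ℝ) * M ^ (n - 1) * (C₁ * U ^ (2 - c + 3 * δ)) ≤
        n * (C₂ ^ (n - 1) * U ^ ((n : ℝ) * δ)) * (C₁ * U ^ (2 - c + 3 * δ)) := by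
        refine mul_le_mul_of_nonneg_right (mul_le_mul_of_nonneg_left h9 (Nat.cast_nonneg _)) (by positivity)
    _ = (n * C₂ ^ (n - 1) * C₁) * (U ^ ((n : ℝ) * δ) * U ^ (2 - c + 3 * δ)) := by ring
    _ ≤ (n * C₂ ^ (n - 1) * C₁ + 1) * (U ^ ((n : ℝ) * δ) * U ^ (2 - c + 3 * δ)) :=
        mul_le_mul_of_nonneg_right (by linarith) hp1

end Pool.Agent.P07318g
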