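import Pool.Agent.Lib.P07318g.SepN
import Pool.Agent.Lib.P07318g.PosN

/-!
# The long fractions

PROOF. `dual_sieve` with `Ψ x q = G x * ex x (rp q).1`, `g = ‖G‖`. Pointwise identity (for `x` with `G x ≠ 0`, `h` in the box: `y_j = x + (h_j - α) ≥ U > 0`): as
`wn y (h - α) q · ex x (rp q) = ∏_j (hgt^(-1/2) Om (hgt (q j)) (y j) ex (y j) (q j))` (`ex_rp`, `lgr_add_aux`), the sum over all `q` is `∏ Fd (y j)` (`Fd_eq`, `hasSum_pi_prod`,
`cfQ_summable`), the sum over `q` with all `hgt (q j) ≤ Y` is `∏ FdSmall Y (y j)`, and `tl Y q = 1 - ∏_j 1[hgt (q j) ≤ Y]`, so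
`∑_q tl Y q wn y (h-α) q Ψ x q = G x (∏ Fd (y j) - ∏ FdSmall Y (y j))`. Then `tail_pos` for each `m = ∑ k j` and `∑_k ∏ pk (k j) = (∑ pk)^n` (`tsum_pi_prod_ennreal`,
`LongPartAux.pk_summable`): the total is `≤ C U^(n(1+2δ) + 2 - c₀ + (n+3)δ)`; `δ = min (c₀/(8(n+1))) (1/2)` gives the claim with `c = c₀/4` (`3n+3 ≤ 6(n+1)`).
-/

set_option autoImplicit false

namespace Pool.Agent.P07318g

open MeasureTheory Complex Pool.Agent.P07318s Pool.Agent.P07318f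

namespace LongNAux

/-- the full term -/
noncomputable def ft (y : ℝ) (q : Q) : ℂ :=
  (((hgt q.1) ^ (-(1 / 2) : ℝ) * Om (hgt q.1) y : ℝ) : ℂ) * ex y q.1

/-- the term of small height -/
noncomputable def st (Y y : ℝ) (q : Q) : ℂ := if Y < hgt q.1 then 0 else ft y q

lemma ft_norm (y : ℝ) (q : Q) : ‖ft y q‖ = (hgt q.1) ^ (-(1 / 2) : ℝ) * Om (hgt q.1) y :=
  LongPartAux.full_norm y q

lemma ft_summable {y : ℝ} (hy : 0 < y) : Summable fun q => ‖ft y q‖ :=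
  (cfQ_summable hy).congr fun q => (ft_norm y q).symm

lemma st_summable {Y y : ℝ} (hy : 0 < y) : Summable fun q => ‖st Y y q‖ := by
  refine Summable.of_nonneg_of_le (fun q => norm_nonneg _) (fun q => ?_) (ft_summable hy)
  unfold st
  split_ifs
  · rw [norm_zero]
    exact norm_nonneg _
  · exact le_rfl

lemma tl_mul {n : ℕ} (Y : ℝ) (y : Fin n → ℝ) (q : Fin n → Q) :
    (tl Y q : ℂ) * ∏ j, ft (y j) (q j) = ∏ j, ft (y j) (q j) - ∏ j, st Y (y j) (q j) := by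
  by_cases h : ∃ j, Y < hgt (q j).1
  · obtain ⟨j, hj⟩ := h
    rw [tl_one hj]
    have h1 : ∏ j, st Y (y j) (q j) = 0 := by
      refine Finset.prod_eq_zero (Finset.mem_univ j) ?_
      unfold st
      rw [if_pos hj]
    rw [h1]
    simp
  · push Not at h
    rw [tl_zero h]
    have h1 : ∏ j, st Y (y j) (q j) = ∏ j, ft (y j) (q j) := by
      refine Finset.prod_congr rfl fun j _ => ?_
      unfold st
      rw [if_neg (not_lt.2 (h j))]
    rw [h1]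
    simp

lemma wn_mul {n : ℕ} (x : ℝ) (y τ : Fin n → ℝ) (hy : ∀ j, y j = x + τ j) (q : Fin n → Q) :
    wn y τ q * ex x (rp q).1 = ∏ j, ft (y j) (q j) := by
  unfold wn
  rw [ex_rp, ← Finset.prod_mul_distrib]
  refine Finset.prod_congr rfl fun j _ => ?_
  unfold ft
  have h : ex (y j) (q j).1 = ex x (q j).1 * ex (τ j) (q j).1 := by
    rw [hy j]
    exact lgr_add_aux x (τ j) (q j).1
  rw [h]
  ring

lemma tsum_id {n : ℕ} {Y x : ℝ} {y τ : Fin n → ℝ} (hy : ∀ j, y j = x + τ j) (hy0 : ∀ j, 0 < y j) (g : ℂ) :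
    ∑' q : Fin n → Q, (tl Y q : ℂ) * wn y τ q * (g * ex x (rp q).1) =
      g * ((∏ j, Fd (y j)) - ∏ j, FdSmall Y (y j)) := by
  have h1 := hasSum_pi_prod (fun j => ft (y j)) fun j => ft_summable (hy0 j)
  have h2 := hasSum_pi_prod (fun j => st Y (y j)) fun j => st_summable (hy0 j)
  have h3 := (h1.sub h2).mul_left g
  have e1 : ∀ j, ∑' q, ft (y j) q = Fd (y j) := fun j => (Fd_eq (hy0 j)).symm
  have e2 : ∀ j, ∑' q, st Y (y j) q = FdSmall Y (y j) := fun j => rfl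
  simp only [e1, e2] at h3
  rw [← h3.tsum_eq]
  refine tsum_congr fun q => ?_
  rw [← tl_mul, ← wn_mul x y τ hy q]
  ring

end LongNAux

open LongNAux in
theorem long_n (n : ℕ) (δ₀ : ℝ) (hδ₀ : 0 < δ₀) (hδ₁ : δ₀ ≤ 1) : ∃ c C : ℝ, 0 < c ∧ 0 < C ∧ ∀ (U Y α : ℝ) (β : Fin n → ℝ)
    (G : ℝ → ℂ), 1 ≤ U → U ^ δ₀ ≤ Y → Y ≤ U → 2 * U ≤ α → α ≤ 6 * U → (∀ j, 2 * U ≤ β j) → (∀ j, β j ≤ 6 * U) → Measurable G →
    (∀ x, x < α - U → G x = 0) → (∀ x, α + 4 * U < x → G x = 0) →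
    (∀ x : ℝ, ‖G x‖ ≤ ‖riemannZeta (1 / 2 + x * I)‖ ^ 4) →
    ∫⁻ h in Set.Icc β (fun j => β j + U), ‖∫ x, G x * ((∏ j, Fd (x + (h j - α))) -
        ∏ j, FdSmall Y (x + (h j - α)))‖ₑ ^ 2 ≤ ENNReal.ofReal (C * U ^ ((n : ℝ) + 2 - c)) := by
  obtain ⟨c₀, hc₀, htail⟩ := tail_pos n δ₀ hδ₀ hδ₁
  obtain ⟨δ, hδe⟩ : ∃ δ, δ = min (c₀ / (8 * ((n : ℝ) + 1))) (1 / 2) := ⟨_, rfl⟩
  have hn0 : (0 : ℝ) < (n : ℝ) + 1 := by positivity
  have hδ : 0 < δ := by rw [hδe]; positivity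
  have hδ2 : δ ≤ 1 / 2 := by rw [hδe]; exact min_le_right _ _
  have hδc : δ * (8 * ((n : ℝ) + 1)) ≤ c₀ := by
    rw [← le_div_iff₀ (by positivity), hδe]
    exact min_le_left _ _
  obtain ⟨Ct, hCt, htail⟩ := htail δ hδ hδ2
  obtain ⟨Cd, hCd, hdual⟩ := dual_sieve n δ hδ hδ2
  have hps : Summable pk := LongPartAux.pk_summable
  set P : ℝ := ∑' k, pk k with hP
  have hP0 : 0 ≤ P := tsum_nonneg fun k => (pk_pos k).le
  refine ⟨c₀ / 4, Cd * (P ^ n * Ct) + 1, by positivity, by positivity, ?_⟩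
  intro U Y α β G hU hY1 hY2 hα1 hα2 hβ1 hβ2 hGm hG1 hG2 hG3
  have hU0 : 0 < U := by linarith
  have hrange : ∀ t, G t ≠ 0 → α - U ≤ t ∧ t ≤ α + 4 * U := by
    intro t ht
    constructor
    · by_contra h
      push Not at h
      exact ht (hG1 t h)
    · by_contra h
      push Not at h
      exact ht (hG2 t h)
  -- integrability
  have hGi : Integrable G := by
    have hc : Continuous (fun x : ℝ => ‖riemannZeta (1 / 2 + x * I)‖ ^ 4) := LongPartAux.zeta_cont4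
    have h1 : IntegrableOn (fun x : ℝ => ‖riemannZeta (1 / 2 + x * I)‖ ^ 4) (Set.Icc (α - U) (α + 4 * U)) :=
      hc.continuousOn.integrableOn_compact isCompact_Icc
    have h2 := (integrable_indicator_iff measurableSet_Icc).2 h1
    refine h2.mono' hGm.aestronglyMeasurable (Filter.Eventually.of_forall fun t => ?_)
    by_cases ht : t ∈ Set.Icc (α - U) (α + 4 * U)
    · rw [Set.indicator_of_mem ht]
      exact hG3 t
    · rw [Set.indicator_of_notMem ht]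
      have h0 : G t = 0 := by
        by_contra h
        exact ht (hrange t h)
      rw [h0, norm_zero]
  have hnorm : ∀ x (q : Fin n → Q), ‖G x * ex x (rp q).1‖ = ‖G x‖ := by
    intro x q
    rw [norm_mul, norm_ex, mul_one]
  have hΨi : ∀ q : Fin n → Q, Integrable fun x => G x * ex x (rp q).1 := by
    intro q
    refine hGi.mono (hGi.aestronglyMeasurable.mul (LongPartAux.ex_cont (rp q).1).aestronglyMeasurable)
      (Filter.Eventually.of_forall fun t => ?_)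
    rw [hnorm]
  have hΨr : ∀ x (q : Fin n → Q), G x * ex x (rp q).1 ≠ 0 → α - U ≤ x ∧ x ≤ α + 4 * U := by
    intro x q h
    exact hrange x fun h0 => h (by rw [h0, zero_mul])
  have hmain := hdual U Y α β (fun x q => G x * ex x (rp q).1) (fun x => ‖G x‖) hU hα1 hα2 hβ1 hβ2
    hΨi hGi.norm (fun x q => (hnorm x q).le) hΨr
  have hid : ∀ h ∈ Set.Icc β (fun j => β j + U), (∫ x, G x * ((∏ j, Fd (x + (h j - α))) -
        ∏ j, FdSmall Y (x + (h j - α)))) = ∫ x, ∑' q : Fin n → Q,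
        (tl Y q : ℂ) * wn (fun j => x + (h j - α)) (fun j => h j - α) q * (G x * ex x (rp q).1) := by
    intro h hh
    refine integral_congr_ae (Filter.Eventually.of_forall fun x => ?_)
    simp only
    by_cases hx : G x = 0
    · simp [hx]
    · have h1 := hrange x hx
      rw [tsum_id (x := x) (y := fun j => x + (h j - α)) (τ := fun j => h j - α) (fun j => rfl) (fun j => ?_)]
      have h2 := hh.1 j
      have h3 := hβ1 j
      linarith [h1.1]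
  have hle : ∫⁻ h in Set.Icc β (fun j => β j + U), ‖∫ x, G x * ((∏ j, Fd (x + (h j - α))) -
        ∏ j, FdSmall Y (x + (h j - α)))‖ₑ ^ 2 ≤ ∫⁻ h in Set.Icc β (fun j => β j + U), ‖∫ x, ∑' q : Fin n → Q,
        (tl Y q : ℂ) * wn (fun j => x + (h j - α)) (fun j => h j - α) q * (G x * ex x (rp q).1)‖ₑ ^ 2 := by
    refine le_of_eq (setLIntegral_congr_fun measurableSet_Icc fun h hh => ?_)
    rw [hid h hh]
  refine hle.trans (hmain.trans ?_)
  have hk : ∀ k : Fin n → ℤ, (∏ j, ENNReal.ofReal (pk (k j))) *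
        ∑' q : Fin n → Q, ENNReal.ofReal (tl Y q * kn δ U q) * ‖∫ x, G x * ex x (rp q).1 * ek U (∑ j, k j) x‖ₑ ^ 2 ≤
      (∏ j, ENNReal.ofReal (pk (k j))) * ENNReal.ofReal (Ct * U ^ (2 - c₀ + ((n : ℝ) + 3) * δ)) := fun k =>
    mul_le_mul_right (htail U Y α G (∑ j, k j) hU hY1 hY2 hα1 hα2 hGm hG1 hG2 hG3) _
  have hsum : ∑' k : Fin n → ℤ, (∏ j, ENNReal.ofReal (pk (k j))) = ENNReal.ofReal (P ^ n) := by
    rw [tsum_pi_prod_ennreal (fun _ : Fin n => fun k : ℤ => ENNReal.ofReal (pk k)), Finset.prod_const,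
      Finset.card_univ, Fintype.card_fin, ← ENNReal.ofReal_tsum_of_nonneg (fun k => (pk_pos k).le) hps,
      ENNReal.ofReal_pow hP0]
  have hfin : ENNReal.ofReal (Cd * U ^ ((n : ℝ) * (1 + 2 * δ))) * ∑' k : Fin n → ℤ, (∏ j, ENNReal.ofReal (pk (k j))) *
        ∑' q : Fin n → Q, ENNReal.ofReal (tl Y q * kn δ U q) * ‖∫ x, G x * ex x (rp q).1 * ek U (∑ j, k j) x‖ₑ ^ 2 ≤
      ENNReal.ofReal (Cd * U ^ ((n : ℝ) * (1 + 2 * δ))) * (ENNReal.ofReal (P ^ n) *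
        ENNReal.ofReal (Ct * U ^ (2 - c₀ + ((n : ℝ) + 3) * δ))) := by
    refine mul_le_mul_right ?_ _
    refine (ENNReal.tsum_le_tsum hk).trans (le_of_eq ?_)
    rw [ENNReal.tsum_mul_right, hsum]
  refine hfin.trans ?_
  rw [← ENNReal.ofReal_mul (by positivity), ← ENNReal.ofReal_mul (by positivity)]
  refine ENNReal.ofReal_le_ofReal ?_
  have e1 : U ^ ((n : ℝ) * (1 + 2 * δ)) * U ^ (2 - c₀ + ((n : ℝ) + 3) * δ) ≤ U ^ ((n : ℝ) + 2 - c₀ / 4) := by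
    rw [← Real.rpow_add hU0]
    refine Real.rpow_le_rpow_of_exponent_le hU ?_
    nlinarith
  have e2 : 0 ≤ U ^ ((n : ℝ) + 2 - c₀ / 4) := by positivity
  have e3 : 0 ≤ Cd * (P ^ n * Ct) := by positivity
  calc Cd * U ^ ((n : ℝ) * (1 + 2 * δ)) * (P ^ n * (Ct * U ^ (2 - c₀ + ((n : ℝ) + 3) * δ))) =
        Cd * (P ^ n * Ct) * (U ^ ((n : ℝ) * (1 + 2 * δ)) * U ^ (2 - c₀ + ((n : ℝ) + 3) * δ)) := by ring
    _ ≤ Cd * (P ^ n * Ct) * U ^ ((n : ℝ) + 2 - c₀ / 4) := mul_le_mul_of_nonneg_left e1 e3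
    _ ≤ (Cd * (P ^ n * Ct) + 1) * U ^ ((n : ℝ) + 2 - c₀ / 4) := mul_le_mul_of_nonneg_right (by linarith) e2

end Pool.Agent.P07318g
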