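import Pool.Agent.Lib.P07318g.Defs
import Pool.Agent.Lib.P07318f.TwAvg

/-!
# The main terms of one fraction against a character

PROOF. `h = hgt q`, `M = ∫ Ω MM ek`, `N = ∫ Ω ‖ζ‖⁴ ex ek`. On the support `U ≤ x ≤ 8U` (`Adm`: `Ω x = 0` for `x ≥ 8U`) `‖MM x q‖ ≤ C (8U)^(1/9000) h^(-7/18)` (`mm_bound`, `-(1/2)+1/9 = -7/18`), so
`‖M‖ ≤ C U^(1+1/9000) h^(-7/18)` (see `TailAux.norm_Jx` in P07318f/TailMM.lean).
(i) `h > U^(1/1000)`: `‖M‖² ≤ C U^(2+2/9000-7/9000) ≤ C U^(2-1/2000)`. (ii) `h ≤ U^(1/1000)`, `|m| ≤ U^(1/1000)`: the function `Ω_m x = Ω x ek U m x / (1+|m|)^8` is admissible (`Adm U Δ`): the `i`-th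
derivative of `ek U m` is bounded by `(2π|m|/(32U))^i ≤ (|m| Δ⁻¹)^i`, Leibniz: `∑ C(j,i) Δ^(-i) (|m| Δ⁻¹)^(j-i) = ((1+|m|) Δ⁻¹)^j ≤ (1+|m|)^8 Δ^(-j)`. `tw_avg` with `a = q.1.1`, `b = q.1.2 ≤ h`:
`‖N - M‖ ≤ (1+|m|)^8 C U^(1-1/25) ≤ C (2 U^(1/1000))^8 U^(1-1/25)`, so `‖M‖² ≤ 2‖N‖² + 2‖N-M‖² ≤ 2‖N‖² + C U^(2-2/25+16/1000)`. (iii) `h ≤ U^(1/1000)`, `|m| > U^(1/1000)`:
`‖M‖² ≤ C U^(2+2/9000) ≤ C U^(2+1/4000)`.
-/

set_option autoImplicit false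

namespace Pool.Agent.P07318g

open MeasureTheory Complex Pool.Agent.P07318s Pool.Agent.P07318f

namespace PsiBAux

lemma iter_exp (c : ℂ) (k : ℕ) :
    iteratedDeriv k (fun x : ℝ => cexp (c * x)) = fun x : ℝ => c ^ k * cexp (c * x) := by
  induction k with
  | zero => simp
  | succ k ih =>
    rw [iteratedDeriv_succ, ih]
    funext x
    have h1 : HasDerivAt (fun x : ℝ => c * (x : ℂ)) c x := by
      simpa using (Complex.ofRealCLM.hasDerivAt (x := x)).const_mul c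
    have h2 : HasDerivAt (fun x : ℝ => c ^ k * cexp (c * x)) (c ^ k * (cexp (c * x) * c)) x :=
      h1.cexp.const_mul _
    rw [h2.deriv]
    ring

/-- the frequency -/
noncomputable def fr (U : ℝ) (m : ℤ) : ℂ := ((2 * Real.pi * m / (32 * U) : ℝ) : ℂ) * I

lemma ek_eq (U : ℝ) (m : ℤ) : ek U m = fun x : ℝ => cexp (fr U m * x) := by
  funext x
  unfold ek fr
  congr 1
  push_cast
  ring

lemma fr_norm {U Δ : ℝ} (hU : 1 ≤ U) (hΔ : 0 < Δ) (hΔU : Δ ≤ U) (m : ℤ) :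
    ‖fr U m‖ ≤ |(m : ℝ)| * Δ⁻¹ := by
  unfold fr
  have hU0 : 0 < U := by linarith
  rw [norm_mul, Complex.norm_I, mul_one, Complex.norm_real, Real.norm_eq_abs, abs_div, abs_mul,
    abs_of_pos (by positivity : (0 : ℝ) < 2 * Real.pi), abs_of_pos (by positivity : 0 < 32 * U)]
  rw [← div_eq_mul_inv, div_le_div_iff₀ (by positivity) hΔ]
  have h1 : 2 * Real.pi * Δ ≤ 32 * U := by
    have := Real.pi_lt_d2
    nlinarith [Real.pi_pos]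
  calc 2 * Real.pi * |(m : ℝ)| * Δ = |(m : ℝ)| * (2 * Real.pi * Δ) := by ring
    _ ≤ |(m : ℝ)| * (32 * U) := mul_le_mul_of_nonneg_left h1 (abs_nonneg _)

lemma ek_cd (U : ℝ) (m : ℤ) (n : WithTop ℕ∞) : ContDiff ℝ n (ek U m) := by
  rw [ek_eq]
  have h1 : ContDiff ℝ n (fun x : ℝ => fr U m * (x : ℂ)) :=
    contDiff_const.mul Complex.ofRealCLM.contDiff
  exact h1.cexp

lemma ek_iter {U Δ : ℝ} (hU : 1 ≤ U) (hΔ : 0 < Δ) (hΔU : Δ ≤ U) (m : ℤ) (k : ℕ) (x : ℝ) :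
    ‖iteratedDeriv k (ek U m) x‖ ≤ (|(m : ℝ)| * Δ⁻¹) ^ k := by
  have h1 : ‖cexp (fr U m * x)‖ = 1 := by
    have := norm_ek U m x
    rw [ek_eq] at this
    exact this
  rw [ek_eq, iter_exp]
  simp only [norm_mul, norm_pow, h1, mul_one]
  exact pow_le_pow_left₀ (norm_nonneg _) (fr_norm hU hΔ hΔU m) k

/-- the modified weight -/
noncomputable def Om4 (U : ℝ) (m : ℤ) (Ω : ℝ → ℂ) (x : ℝ) : ℂ :=
  Ω x * ek U m x * (((1 + |(m : ℝ)|) ^ 8 : ℝ) : ℂ)⁻¹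

lemma adm_Om4 {U Δ : ℝ} (hU : 1 ≤ U) (hΔ : 0 < Δ) (hΔU : Δ ≤ U) {Ω : ℝ → ℂ}
    (hΩ : Adm U Δ Ω) (m : ℤ) : Adm U Δ (Om4 U m Ω) := by
  have hm0 : 0 ≤ |(m : ℝ)| := abs_nonneg _
  have hK : (0 : ℝ) < (1 + |(m : ℝ)|) ^ 8 := by positivity
  refine ⟨(hΩ.1.mul (ek_cd U m 8)).mul contDiff_const, ?_, ?_, ?_⟩
  · intro x hx
    unfold Om4
    rw [hΩ.2.1 x hx]
    simp
  · intro x hx
    unfold Om4
    rw [hΩ.2.2.1 x hx]
    simp
  · intro j hj x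
    have hj' : ((j : ℕ) : WithTop ℕ∞) ≤ 8 := by exact_mod_cast hj
    have e1 : iteratedDeriv j (Om4 U m Ω) x =
        iteratedDeriv j (fun y => Ω y * ek U m y) x * (((1 + |(m : ℝ)|) ^ 8 : ℝ) : ℂ)⁻¹ := by
      unfold Om4
      rw [iteratedDeriv_mul_const_field]
    have e2 : iteratedDeriv j (fun y => Ω y * ek U m y) x =
        ∑ i ∈ Finset.range (j + 1), j.choose i * iteratedDeriv i Ω x *
          iteratedDeriv (j - i) (ek U m) x :=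
      iteratedDeriv_fun_mul (hΩ.1.contDiffAt.of_le hj') (ek_cd U m j).contDiffAt
    rw [e1, e2, norm_mul, norm_inv, Complex.norm_real, Real.norm_of_nonneg hK.le,
      ← div_eq_mul_inv, div_le_iff₀ hK]
    calc ‖∑ i ∈ Finset.range (j + 1), (j.choose i : ℂ) * iteratedDeriv i Ω x *
          iteratedDeriv (j - i) (ek U m) x‖
        ≤ ∑ i ∈ Finset.range (j + 1), (j.choose i : ℝ) * (Δ⁻¹) ^ i *
          (|(m : ℝ)| * Δ⁻¹) ^ (j - i) := by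
          refine (norm_sum_le _ _).trans (Finset.sum_le_sum fun i hi => ?_)
          have hi' : i ≤ j := Nat.lt_succ_iff.1 (Finset.mem_range.1 hi)
          rw [norm_mul, norm_mul, Complex.norm_natCast]
          have a1 := hΩ.2.2.2 i (by omega) x
          have a2 := ek_iter hU hΔ hΔU m (j - i) x
          gcongr
      _ = ∑ i ∈ Finset.range (j + 1), (Δ⁻¹) ^ i *
          (|(m : ℝ)| * Δ⁻¹) ^ (j - i) * (j.choose i : ℝ) := by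
          refine Finset.sum_congr rfl fun i _ => ?_
          ring
      _ = (1 + |(m : ℝ)|) ^ j * (Δ⁻¹) ^ j := by
          rw [← add_pow, ← mul_pow]
          congr 1
          ring
      _ ≤ (1 + |(m : ℝ)|) ^ 8 * (Δ⁻¹) ^ j := by
          gcongr
          · linarith
      _ = _ := by ring

lemma M_bound {C U : ℝ} (hC : 0 < C) (hU : 1 ≤ U) {Ω : ℝ → ℂ}
    (hb : ∀ (x : ℝ) (a b : ℕ+), 1 ≤ x → Nat.Coprime (a : ℕ) (b : ℕ) →
      ‖MM x a b‖ ≤ C * x ^ (1 / 9000 : ℝ) * ((a : ℕ) * (b : ℕ) : ℝ) ^ (-(1 / 2) + 1 / 9 : ℝ))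
    (hΩ1 : ∀ x, ‖Ω x‖ ≤ 1) (hs : ∀ x, Ω x ≠ 0 → U ≤ x ∧ x ≤ 8 * U) (q : Q) (m : ℤ) :
    ‖∫ x, Ω x * MM x q.1.1 q.1.2 * ek U m x‖ ≤
      56 * C * (U ^ (1 + 1 / 9000 : ℝ) * (hgt q.1) ^ (-(7 / 18) : ℝ)) := by
  have hU0 : 0 < U := by linarith
  have h0 : ∫ x, Ω x * MM x q.1.1 q.1.2 * ek U m x =
      ∫ x in Set.Icc U (8 * U), Ω x * MM x q.1.1 q.1.2 * ek U m x := by
    rw [setIntegral_eq_integral_of_forall_compl_eq_zero]
    intro x hx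
    have : Ω x = 0 := by
      by_contra h
      exact hx (hs x h)
    rw [this]
    ring
  rw [h0]
  have hh : 0 ≤ (hgt q.1) ^ (-(7 / 18) : ℝ) := Real.rpow_nonneg (hgt_pos _).le _
  have h1 : ∀ x ∈ Set.Icc U (8 * U), ‖Ω x * MM x q.1.1 q.1.2 * ek U m x‖ ≤
      8 * C * U ^ (1 / 9000 : ℝ) * (hgt q.1) ^ (-(7 / 18) : ℝ) := by
    intro x hx
    rw [norm_mul, norm_mul, norm_ek, mul_one]
    have h2 := hb x q.1.1 q.1.2 (by linarith [hx.1]) q.2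
    have h3 : x ^ (1 / 9000 : ℝ) ≤ 8 * U ^ (1 / 9000 : ℝ) := by
      calc x ^ (1 / 9000 : ℝ) ≤ (8 * U) ^ (1 / 9000 : ℝ) :=
            Real.rpow_le_rpow (by linarith [hx.1]) hx.2 (by norm_num)
        _ = 8 ^ (1 / 9000 : ℝ) * U ^ (1 / 9000 : ℝ) := Real.mul_rpow (by norm_num) hU0.le
        _ ≤ 8 ^ (1 : ℝ) * U ^ (1 / 9000 : ℝ) := by
            apply mul_le_mul_of_nonneg_right _ (by positivity)
            exact Real.rpow_le_rpow_of_exponent_le (by norm_num) (by norm_num)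
        _ = _ := by rw [Real.rpow_one]
    have h4 : ((q.1.1 : ℕ) * (q.1.2 : ℕ) : ℝ) ^ (-(1 / 2) + 1 / 9 : ℝ) =
        (hgt q.1) ^ (-(7 / 18) : ℝ) := by
      unfold hgt
      norm_num
    rw [h4] at h2
    calc ‖Ω x‖ * ‖MM x q.1.1 q.1.2‖ ≤ 1 * (C * x ^ (1 / 9000 : ℝ) *
          (hgt q.1) ^ (-(7 / 18) : ℝ)) := mul_le_mul (hΩ1 x) h2 (norm_nonneg _) zero_le_one
      _ ≤ 1 * (C * (8 * U ^ (1 / 9000 : ℝ)) * (hgt q.1) ^ (-(7 / 18) : ℝ)) := by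
          gcongr
      _ = _ := by ring
  refine (norm_setIntegral_le_of_norm_le_const (by simp) h1).trans (le_of_eq ?_)
  rw [Measure.real, Real.volume_Icc, ENNReal.toReal_ofReal (by linarith), Real.rpow_add hU0,
    Real.rpow_one]
  ring

end PsiBAux

open PsiBAux

theorem psi_bound : ∃ C : ℝ, 0 < C ∧ ∀ (U Δ : ℝ) (Ω : ℝ → ℂ) (q : Q) (m : ℤ), 1 ≤ U → U ^ (1 - 1 / 1000 : ℝ) ≤ Δ →
    Δ ≤ U → Adm U Δ Ω → (∀ x, Ω x ≠ 0 → U ≤ x) →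
    ‖∫ x, Ω x * MM x q.1.1 q.1.2 * ek U m x‖ ^ 2 ≤
      2 * ‖∫ x, Ω x * ((‖riemannZeta (1 / 2 + x * I)‖ ^ 4 : ℝ) : ℂ) * ex x q.1 * ek U m x‖ ^ 2 +
      C * (U ^ (2 - 1 / 2000 : ℝ) + if U ^ (1 / 1000 : ℝ) < |(m : ℝ)| then U ^ (2 + 1 / 4000 : ℝ) else 0) := by
  obtain ⟨C₁, hC₁, hb⟩ := mm_bound
  obtain ⟨C₂, hC₂, hav⟩ := tw_avg
  refine ⟨(56 * C₁) ^ 2 + 2 * (256 * C₂) ^ 2, by positivity, ?_⟩
  intro U Δ Ω q m hU hΔ hΔU hΩ hs
  have hU0 : 0 < U := by linarith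
  have hΔ0 : 0 < Δ := lt_of_lt_of_le (by positivity) hΔ
  have hΩ1 : ∀ x, ‖Ω x‖ ≤ 1 := by
    intro x
    have := hΩ.2.2.2 0 (by norm_num) x
    simpa using this
  have hs' : ∀ x, Ω x ≠ 0 → U ≤ x ∧ x ≤ 8 * U := by
    intro x hx
    refine ⟨hs x hx, ?_⟩
    by_contra h
    push Not at h
    exact hx (hΩ.2.2.1 x h.le)
  have hM := M_bound hC₁ hU hb hΩ1 hs' q m
  set M : ℂ := ∫ x, Ω x * MM x q.1.1 q.1.2 * ek U m x with hMd
  set N : ℂ := ∫ x, Ω x * ((‖riemannZeta (1 / 2 + x * I)‖ ^ 4 : ℝ) : ℂ) * ex x q.1 * ek U m x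
    with hNd
  have hh1 := one_le_hgt q.1
  have hh0 := hgt_pos q.1
  have hp1 : 0 ≤ U ^ (2 - 1 / 2000 : ℝ) := by positivity
  have hp2 : 0 ≤ U ^ (2 + 1 / 4000 : ℝ) := by positivity
  have hite : 0 ≤ (if U ^ (1 / 1000 : ℝ) < |(m : ℝ)| then U ^ (2 + 1 / 4000 : ℝ) else 0) := by
    split_ifs
    · exact hp2
    · exact le_rfl
  have hN0 : 0 ≤ 2 * ‖N‖ ^ 2 := by positivity
  have hA0 : 0 ≤ (56 * C₁) ^ 2 := by positivity
  have hB0 : 0 ≤ 2 * (256 * C₂) ^ 2 := by positivity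
  have hM2 : ‖M‖ ^ 2 ≤ (56 * C₁) ^ 2 * (U ^ (2 + 2 / 9000 : ℝ) *
      (hgt q.1) ^ (-(7 / 9) : ℝ)) := by
    refine (pow_le_pow_left₀ (norm_nonneg _) hM 2).trans (le_of_eq ?_)
    rw [mul_pow (56 * C₁), mul_pow (U ^ (1 + 1 / 9000 : ℝ)),
      ← Real.rpow_natCast (U ^ (1 + 1 / 9000 : ℝ)), ← Real.rpow_mul hU0.le,
      ← Real.rpow_natCast ((hgt q.1) ^ (-(7 / 18) : ℝ)), ← Real.rpow_mul hh0.le]
    norm_num
  by_cases h1 : U ^ (1 / 1000 : ℝ) < hgt q.1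
  · have h2 : (hgt q.1) ^ (-(7 / 9) : ℝ) ≤ U ^ (-(7 / 9000) : ℝ) := by
      calc (hgt q.1) ^ (-(7 / 9) : ℝ) ≤ (U ^ (1 / 1000 : ℝ)) ^ (-(7 / 9) : ℝ) :=
            Real.rpow_le_rpow_of_nonpos (by positivity) h1.le (by norm_num)
        _ = _ := by
            rw [← Real.rpow_mul hU0.le]
            norm_num
    have h3 : U ^ (2 + 2 / 9000 : ℝ) * (hgt q.1) ^ (-(7 / 9) : ℝ) ≤ U ^ (2 - 1 / 2000 : ℝ) := by
      calc U ^ (2 + 2 / 9000 : ℝ) * (hgt q.1) ^ (-(7 / 9) : ℝ) ≤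
            U ^ (2 + 2 / 9000 : ℝ) * U ^ (-(7 / 9000) : ℝ) :=
            mul_le_mul_of_nonneg_left h2 (by positivity)
        _ = U ^ (2 + 2 / 9000 + -(7 / 9000) : ℝ) := (Real.rpow_add hU0 _ _).symm
        _ ≤ _ := Real.rpow_le_rpow_of_exponent_le hU (by norm_num)
    have h4 := mul_le_mul_of_nonneg_left h3 hA0
    have h5 := mul_nonneg hB0 hp1
    have h6 := mul_nonneg (add_nonneg hA0 hB0) hite
    linarith
  · push Not at h1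
    by_cases h2 : U ^ (1 / 1000 : ℝ) < |(m : ℝ)|
    · rw [if_pos h2]
      have h3 : U ^ (2 + 2 / 9000 : ℝ) * (hgt q.1) ^ (-(7 / 9) : ℝ) ≤ U ^ (2 + 1 / 4000 : ℝ) := by
        calc U ^ (2 + 2 / 9000 : ℝ) * (hgt q.1) ^ (-(7 / 9) : ℝ) ≤ U ^ (2 + 2 / 9000 : ℝ) * 1 := by
              apply mul_le_mul_of_nonneg_left _ (by positivity)
              exact Real.rpow_le_one_of_one_le_of_nonpos hh1 (by norm_num)
          _ = U ^ (2 + 2 / 9000 : ℝ) := mul_one _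
          _ ≤ _ := Real.rpow_le_rpow_of_exponent_le hU (by norm_num)
      have h4 := mul_le_mul_of_nonneg_left h3 hA0
      have h5 := mul_nonneg hB0 hp2
      have h6 := mul_nonneg (add_nonneg hA0 hB0) hp1
      linarith
    · rw [if_neg h2, add_zero]
      push Not at h2
      have hb1 : (1 : ℝ) ≤ ((q.1.2 : ℕ) : ℝ) := by exact_mod_cast q.1.2.pos
      have ha1 : (1 : ℝ) ≤ ((q.1.1 : ℕ) : ℝ) := by exact_mod_cast q.1.1.pos
      have hab : ((q.1.1 : ℕ) : ℝ) * ((q.1.2 : ℕ) : ℝ) ≤ U ^ (1 / 1000 : ℝ) := h1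
      have ha : ((q.1.1 : ℕ) : ℝ) ≤ U ^ (1 / 1000 : ℝ) :=
        (le_mul_of_one_le_right (by linarith) hb1).trans hab
      have hb' : ((q.1.2 : ℕ) : ℝ) ≤ U ^ (1 / 1000 : ℝ) :=
        (le_mul_of_one_le_left (by linarith) ha1).trans hab
      have h3 := hav U Δ (Om4 U m Ω) q.1.1 q.1.2 hU hΔ hΔU (adm_Om4 hU hΔ0 hΔU hΩ m) q.2 ha hb'
      have hK : (0 : ℝ) < (1 + |(m : ℝ)|) ^ 8 := by positivity
      have hK' : (((1 + |(m : ℝ)|) ^ 8 : ℝ) : ℂ) ≠ 0 := by exact_mod_cast hK.ne'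
      have e1 : ∫ x : ℝ, Om4 U m Ω x * ((‖riemannZeta (1 / 2 + x * I)‖ ^ 4 : ℝ) : ℂ) *
          ex x (q.1.1, q.1.2) = N * (((1 + |(m : ℝ)|) ^ 8 : ℝ) : ℂ)⁻¹ := by
        rw [hNd, ← integral_mul_const]
        refine integral_congr_ae (Filter.Eventually.of_forall fun x => ?_)
        simp only [Om4]
        ring
      have e2 : ∫ x : ℝ, Om4 U m Ω x * MM x q.1.1 q.1.2 =
          M * (((1 + |(m : ℝ)|) ^ 8 : ℝ) : ℂ)⁻¹ := by
        rw [hMd, ← integral_mul_const]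
        refine integral_congr_ae (Filter.Eventually.of_forall fun x => ?_)
        simp only [Om4]
        ring
      rw [e1, e2, ← sub_mul, norm_mul, norm_inv, Complex.norm_real, Real.norm_of_nonneg hK.le,
        ← div_eq_mul_inv, div_le_iff₀ hK] at h3
      have h4 : (1 + |(m : ℝ)|) ^ 8 ≤ 256 * U ^ (8 / 1000 : ℝ) := by
        have h5 : (1 : ℝ) ≤ U ^ (1 / 1000 : ℝ) := Real.one_le_rpow hU (by norm_num)
        calc (1 + |(m : ℝ)|) ^ 8 ≤ (2 * U ^ (1 / 1000 : ℝ)) ^ 8 :=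
              pow_le_pow_left₀ (by positivity) (by linarith) 8
          _ = 256 * U ^ (8 / 1000 : ℝ) := by
              rw [mul_pow, ← Real.rpow_natCast (U ^ (1 / 1000 : ℝ)), ← Real.rpow_mul hU0.le]
              norm_num
      have h5 : ‖N - M‖ ≤ 256 * C₂ * U ^ (1 - 1 / 25 + 8 / 1000 : ℝ) := by
        calc ‖N - M‖ ≤ C₂ * U ^ (1 - 1 / 25 : ℝ) * (1 + |(m : ℝ)|) ^ 8 := h3
          _ ≤ C₂ * U ^ (1 - 1 / 25 : ℝ) * (256 * U ^ (8 / 1000 : ℝ)) := by gcongr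
          _ = _ := by
              rw [Real.rpow_add hU0]
              ring
      have h6 : ‖N - M‖ ^ 2 ≤ (256 * C₂) ^ 2 * U ^ (2 - 1 / 2000 : ℝ) := by
        calc ‖N - M‖ ^ 2 ≤ (256 * C₂ * U ^ (1 - 1 / 25 + 8 / 1000 : ℝ)) ^ 2 :=
              pow_le_pow_left₀ (norm_nonneg _) h5 2
          _ = (256 * C₂) ^ 2 * U ^ ((1 - 1 / 25 + 8 / 1000) * 2 : ℝ) := by
              rw [mul_pow, ← Real.rpow_natCast (U ^ (1 - 1 / 25 + 8 / 1000 : ℝ)),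
                ← Real.rpow_mul hU0.le]
              norm_num
          _ ≤ _ := by
              apply mul_le_mul_of_nonneg_left _ (by positivity)
              exact Real.rpow_le_rpow_of_exponent_le hU (by norm_num)
      have h7 : ‖M‖ ^ 2 ≤ 2 * ‖N‖ ^ 2 + 2 * ‖N - M‖ ^ 2 := by
        have h8 : ‖M‖ ≤ ‖N‖ + ‖N - M‖ := by
          have : M = N - (N - M) := by ring
          calc ‖M‖ = ‖N - (N - M)‖ := by rw [← this]
            _ ≤ _ := norm_sub_le _ _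
        nlinarith [norm_nonneg M, norm_nonneg N, norm_nonneg (N - M), sq_nonneg (‖N‖ - ‖N - M‖)]
      have h8 := mul_nonneg hA0 hp1
      linarith

end Pool.Agent.P07318g
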