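import Pool.Agent.Lib.P07318g.LSn
import Pool.Agent.Lib.P07318f.FourSep

/-!
# Separation of the variables and the large sieve

PROOF. Copy of the corresponding parts of P07318f/LongPart.lean (`fdbig_hasSum`, `int_hasSum`, `Ak`, `int_bound`, `cs`, `hAk`, `hmain`) for tuples. `y_j = x + (h_j - α) ∈ [U, 16U]` if
`α - U ≤ x ≤ α + 4U`, `h_j ∈ [β_j, β_j + U]`, `2U ≤ β_j ≤ 6U`. By `four_sep` : `Om (hgt (q j)) y_j = ∑_k ω_k(hgt (q j)) ek U k x ek U k (h_j - α)` (`ek_add`), so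
`wn y (h - α) q = ∑_{k : Fin n → ℤ} ∏_j [ω_{k j}(hgt (q j)) hgt^(-1/2) ek U (k j) (h j - α) ex (h j - α) (q j)] · ek U (∑ k j) x` (product of the `n` series: `hasSum_pi_prod` of
P07318s/PiSum; `∏_j ek U (k j) x = ek U (∑ k j) x`), absolutely convergent together with the sum over `q`:
`‖ω_k(h) h^(-1/2)‖ ≤ C pk k · ww δ U q`, both summable (`LongPartAux.pk_summable`, `ww_summable`, `summable_pi_prod_real`). Interchange with `∫ dx` (`∫ ‖Ψ x q‖ dx ≤ ∫ g`):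
the integral is `∑_k ∏_j ek U (k j) (h j - α) · A_k(h)`, `A_k(h) = ∑_q c_k(q) ∏_j ex (h j) (q j)`,
`c_k(q) = tl Y q ∏_j [ω_{k j}(hgt (q j)) hgt^(-1/2) ex (-α) (q j)] · J_k(q)`, `J_k(q) = ∫ Ψ x q ek U (∑ k j) x dx`. Cauchy-Schwarz over `k : Fin n → ℤ` with the weights
`∏ pk (k j)` (`LongPartAux.cs` for a countable index type): `‖..‖² ≤ (∑_k ∏ pk) ∑_k (∏ pk)⁻¹ ‖A_k(h)‖²`, `large_sieve_n` with
`B q = C^n ∏ pk (k j) · tl Y q ‖J_k(q)‖`: `∫ ‖A_k‖² ≤ C U^(n(1+2δ)) ∑_q kn δ U q (C^n ∏ pk)² tl Y q² ‖J_k(q)‖²`, `tl² = tl`. (`∑_k ∏ pk (k j) = (∑ pk)^n < ∞`: `tsum_pi_prod_ennreal`.)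
Measurability of `A_k` in `h`: continuous (`continuous_tsum`).
-/

set_option autoImplicit false

namespace Pool.Agent.P07318g

open MeasureTheory Complex Pool.Agent.P07318s Pool.Agent.P07318f

namespace SepNAux

lemma pk_summable : Summable pk := LongPartAux.pk_summable

lemma ek_cont (U : ℝ) (k : ℤ) : Continuous (ek U k) := by
  unfold ek
  fun_prop

lemma ex_cont (p : ℕ+ × ℕ+) : Continuous (fun x : ℝ => ex x p) := by
  unfold ex
  fun_prop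

lemma ek_prod {n : ℕ} (U : ℝ) (k : Fin n → ℤ) (x : ℝ) : ∏ j, ek U (k j) x = ek U (∑ j, k j) x := by
  unfold ek
  rw [← Complex.exp_sum]
  congr 1
  push_cast
  rw [← Finset.sum_mul, ← Finset.sum_div, ← Finset.sum_mul, ← Finset.mul_sum]

/-- Cauchy-Schwarz for series -/
lemma cs {ι : Type*} [Countable ι] [MeasurableSpace ι] [MeasurableSingletonClass ι]
    (p b : ι → ENNReal) (hp0 : ∀ k, p k ≠ 0) (hp1 : ∀ k, p k ≠ ⊤) :
    (∑' k, b k) ^ 2 ≤ (∑' k, p k) * ∑' k, (p k)⁻¹ * b k ^ 2 := by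
  have h1 := ENNReal.lintegral_mul_le_Lp_mul_Lq (Measure.count : Measure ι)
    (Real.HolderConjugate.two_two) (f := fun k => p k ^ (1 / 2 : ℝ))
    (g := fun k => (p k ^ (1 / 2 : ℝ))⁻¹ * b k) (measurable_of_countable _).aemeasurable
    (measurable_of_countable _).aemeasurable
  simp only [Pi.mul_apply, lintegral_count] at h1
  have h2 : ∀ k, p k ^ (1 / 2 : ℝ) * ((p k ^ (1 / 2 : ℝ))⁻¹ * b k) = b k := by
    intro k
    rw [← mul_assoc, ENNReal.mul_inv_cancel, one_mul]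
    · intro h
      rw [ENNReal.rpow_eq_zero_iff] at h
      rcases h with ⟨h, _⟩ | ⟨h, _⟩
      · exact hp0 k h
      · exact hp1 k h
    · intro h
      rw [ENNReal.rpow_eq_top_iff] at h
      rcases h with ⟨h, _⟩ | ⟨h, _⟩
      · exact hp0 k h
      · exact hp1 k h
  have h3 : ∀ k, (p k ^ (1 / 2 : ℝ)) ^ (2 : ℝ) = p k := by
    intro k
    rw [← ENNReal.rpow_mul]
    norm_num
  have h4 : ∀ k, ((p k ^ (1 / 2 : ℝ))⁻¹ * b k) ^ (2 : ℝ) = (p k)⁻¹ * b k ^ 2 := by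
    intro k
    rw [ENNReal.mul_rpow_of_nonneg _ _ (by norm_num), ENNReal.inv_rpow, h3]
    congr 1
    exact ENNReal.rpow_two _
  simp only [h2, h3, h4] at h1
  calc (∑' k, b k) ^ 2 ≤ ((∑' k, p k) ^ (1 / 2 : ℝ) * (∑' k, (p k)⁻¹ * b k ^ 2) ^ (1 / 2 : ℝ)) ^ 2 := by
        gcongr
    _ = (∑' k, p k) * ∑' k, (p k)⁻¹ * b k ^ 2 := by
        rw [mul_pow, ← ENNReal.rpow_two, ← ENNReal.rpow_two, ← ENNReal.rpow_mul, ← ENNReal.rpow_mul]
        norm_num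

/-- the coefficients after the separation -/
noncomputable def co {n : ℕ} (Y α : ℝ) (ω : ℤ → ℝ → ℂ) (k : Fin n → ℤ) (q : Fin n → Q) : ℂ :=
  (tl Y q : ℂ) * ∏ j, (ω (k j) (hgt (q j).1) * (((hgt (q j).1) ^ (-(1 / 2) : ℝ) : ℝ) : ℂ) * ex (-α) (q j).1)

lemma co_norm {n : ℕ} {Y α δ U C : ℝ} {ω : ℤ → ℝ → ℂ} (hU : 0 ≤ U)
    (hω : ∀ (k : ℤ) (h : ℝ), 1 ≤ h → ‖ω k h‖ ≤ C / (1 + (k : ℝ) ^ 2) * kap δ U h)
    (k : Fin n → ℤ) (q : Fin n → Q) :
    ‖co Y α ω k q‖ ≤ tl Y q * ((∏ j, (C * pk (k j))) * ∏ j, ww δ U (q j)) := by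
  unfold co
  rw [norm_mul, Complex.norm_real, Real.norm_of_nonneg (tl_nonneg Y q)]
  refine mul_le_mul_of_nonneg_left ?_ (tl_nonneg Y q)
  rw [norm_prod, ← Finset.prod_mul_distrib]
  refine Finset.prod_le_prod (fun j _ => norm_nonneg _) (fun j _ => ?_)
  rw [norm_mul, norm_mul, norm_ex, mul_one, Complex.norm_real,
    Real.norm_of_nonneg (Real.rpow_nonneg (hgt_pos (q j).1).le _)]
  have h1 := hω (k j) (hgt (q j).1) (one_le_hgt (q j).1)
  calc ‖ω (k j) (hgt (q j).1)‖ * (hgt (q j).1) ^ (-(1 / 2) : ℝ) ≤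
        (C / (1 + ((k j : ℤ) : ℝ) ^ 2) * kap δ U (hgt (q j).1)) * (hgt (q j).1) ^ (-(1 / 2) : ℝ) :=
        mul_le_mul_of_nonneg_right h1 (Real.rpow_nonneg (hgt_pos (q j).1).le _)
    _ = C * pk (k j) * ww δ U (q j) := by unfold pk ww; ring

lemma co_norm' {n : ℕ} {Y α δ U C : ℝ} {ω : ℤ → ℝ → ℂ} (hC : 0 ≤ C) (hU : 0 ≤ U)
    (hω : ∀ (k : ℤ) (h : ℝ), 1 ≤ h → ‖ω k h‖ ≤ C / (1 + (k : ℝ) ^ 2) * kap δ U h)
    (k : Fin n → ℤ) (q : Fin n → Q) :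
    ‖co Y α ω k q‖ ≤ (∏ j, (C * pk (k j))) * ∏ j, ww δ U (q j) := by
  refine (co_norm hU hω k q).trans ?_
  have h1 : 0 ≤ (∏ j, (C * pk (k j))) * ∏ j, ww δ U (q j) :=
    mul_nonneg (Finset.prod_nonneg fun j _ => mul_nonneg hC (pk_pos _).le)
      (Finset.prod_nonneg fun j _ => ww_nonneg hU _)
  calc tl Y q * _ ≤ 1 * _ := mul_le_mul_of_nonneg_right (tl_le_one Y q) h1
    _ = _ := one_mul _

lemma co_zsummable {n : ℕ} {δ U C : ℝ} (hδ : 0 < δ) (hδ2 : δ ≤ 1 / 2) (hU : 1 ≤ U) (hC : 0 ≤ C) :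
    Summable (fun z : (Fin n → Q) × (Fin n → ℤ) =>
      (∏ j, ww δ U (z.1 j)) * ∏ j, (C * pk (z.2 j))) := by
  have h1 := summable_pi_prod_real (k := n) (fun _ q => ww δ U q)
    (fun _ => ww_summable hδ hδ2 hU) (fun _ q => ww_nonneg (by linarith) q)
  have h2 := summable_pi_prod_real (k := n) (fun _ k => C * pk k)
    (fun _ => pk_summable.mul_left C) (fun _ k => mul_nonneg hC (pk_pos k).le)
  exact Summable.mul_of_nonneg h1 h2
    (fun q => Finset.prod_nonneg fun j _ => ww_nonneg (by linarith) _)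
    (fun k => Finset.prod_nonneg fun j _ => mul_nonneg hC (pk_pos _).le)

/-- expansion of one coefficient -/
lemma wn_hasSum {n : ℕ} {Y α δ U C x : ℝ} {h : Fin n → ℝ} {ω : ℤ → ℝ → ℂ}
    (hC : 0 ≤ C) (hU : 0 ≤ U)
    (hω : ∀ (k : ℤ) (h : ℝ), 1 ≤ h → ‖ω k h‖ ≤ C / (1 + (k : ℝ) ^ 2) * kap δ U h)
    (hs : ∀ h' : ℝ, 1 ≤ h' → ∀ j, HasSum (fun k : ℤ => ω k h' * ek U k (x + (h j - α)))
      (Om h' (x + (h j - α)) : ℂ)) (q : Fin n → Q) :
    HasSum (fun k : Fin n → ℤ => co Y α ω k q *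
        ((∏ j, ek U (k j) (h j - α)) * ∏ j, ex (h j) (q j).1) * ek U (∑ j, k j) x)
      ((tl Y q : ℂ) * wn (fun j => x + (h j - α)) (fun j => h j - α) q) := by
  have h1 : HasSum (fun k : Fin n → ℤ => ∏ j, (ω (k j) (hgt (q j).1) * ek U (k j) (x + (h j - α))))
      (∏ j, (Om (hgt (q j).1) (x + (h j - α)) : ℂ)) := by
    have h2 := hasSum_pi_prod (k := n)
      (fun j k => ω k (hgt (q j).1) * ek U k (x + (h j - α))) (fun j => by
        refine Summable.of_nonneg_of_le (fun k => norm_nonneg _) (fun k => ?_)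
          ((pk_summable.mul_left C).mul_right (kap δ U (hgt (q j).1)))
        rw [norm_mul, norm_ek, mul_one]
        refine (hω k (hgt (q j).1) (one_le_hgt (q j).1)).trans (le_of_eq ?_)
        unfold pk
        ring)
    have h3 : (∏ j, ∑' k, ω k (hgt (q j).1) * ek U k (x + (h j - α))) =
        ∏ j, (Om (hgt (q j).1) (x + (h j - α)) : ℂ) :=
      Finset.prod_congr rfl fun j _ => (hs (hgt (q j).1) (one_le_hgt (q j).1) j).tsum_eq
    rw [h3] at h2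
    exact h2
  have h2 := h1.mul_left ((tl Y q : ℂ) *
    ∏ j, ((((hgt (q j).1) ^ (-(1 / 2) : ℝ) : ℝ) : ℂ) * ex (h j - α) (q j).1))
  have h3 : (tl Y q : ℂ) * wn (fun j => x + (h j - α)) (fun j => h j - α) q =
      (tl Y q : ℂ) * (∏ j, ((((hgt (q j).1) ^ (-(1 / 2) : ℝ) : ℝ) : ℂ) * ex (h j - α) (q j).1)) *
        ∏ j, (Om (hgt (q j).1) (x + (h j - α)) : ℂ) := by
    unfold wn
    rw [mul_assoc, ← Finset.prod_mul_distrib]
    congr 1
    refine Finset.prod_congr rfl fun j _ => ?_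
    push_cast
    ring
  rw [h3]
  refine h2.congr_fun ?_
  intro k
  unfold co
  rw [← ek_prod, mul_assoc, mul_assoc, mul_assoc, mul_assoc, ← Finset.prod_mul_distrib,
    ← Finset.prod_mul_distrib, ← Finset.prod_mul_distrib, ← Finset.prod_mul_distrib]
  congr 1
  refine Finset.prod_congr rfl fun j _ => ?_
  rw [ek_add, show h j - α = h j + -α by ring, lgr_add_aux]
  ring

/-- the transforms -/
noncomputable def J {n : ℕ} (U : ℝ) (Ψ : ℝ → (Fin n → Q) → ℂ) (k : Fin n → ℤ) (q : Fin n → Q) : ℂ :=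
  ∫ x, Ψ x q * ek U (∑ j, k j) x

lemma J_int {n : ℕ} {U : ℝ} {Ψ : ℝ → (Fin n → Q) → ℂ} (hΨ : ∀ q, Integrable fun x => Ψ x q)
    (k : Fin n → ℤ) (q : Fin n → Q) : Integrable (fun x => Ψ x q * ek U (∑ j, k j) x) := by
  refine (hΨ q).mono ((hΨ q).aestronglyMeasurable.mul (ek_cont U _).aestronglyMeasurable)
    (Filter.Eventually.of_forall fun t => ?_)
  rw [norm_mul, norm_ek, mul_one]

lemma J_norm {n : ℕ} {U : ℝ} {Ψ : ℝ → (Fin n → Q) → ℂ} {g : ℝ → ℝ} (hg : Integrable g)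
    (hΨ : ∀ q, Integrable fun x => Ψ x q)
    (hb : ∀ x q, ‖Ψ x q‖ ≤ g x) (k : Fin n → ℤ) (q : Fin n → Q) : ‖J U Ψ k q‖ ≤ ∫ x, g x := by
  unfold J
  refine (norm_integral_le_integral_norm _).trans ?_
  refine integral_mono (J_int hΨ k q).norm hg fun x => ?_
  simp only
  rw [norm_mul, norm_ek, mul_one]
  exact hb x q

lemma int_hasSum {n : ℕ} {Y α δ U C : ℝ} {h : Fin n → ℝ} {ω : ℤ → ℝ → ℂ}
    {Ψ : ℝ → (Fin n → Q) → ℂ} {g : ℝ → ℝ}
    (hδ : 0 < δ) (hδ2 : δ ≤ 1 / 2) (hU : 1 ≤ U) (hC : 0 ≤ C)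
    (hω : ∀ (k : ℤ) (h : ℝ), 1 ≤ h → ‖ω k h‖ ≤ C / (1 + (k : ℝ) ^ 2) * kap δ U h)
    (hΨ : ∀ q, Integrable fun x => Ψ x q) (hg : Integrable g) (hb : ∀ x q, ‖Ψ x q‖ ≤ g x)
    (hs : ∀ x q, Ψ x q ≠ 0 → ∀ h' : ℝ, 1 ≤ h' → ∀ j,
      HasSum (fun k : ℤ => ω k h' * ek U k (x + (h j - α))) (Om h' (x + (h j - α)) : ℂ)) :
    HasSum (fun z : (Fin n → Q) × (Fin n → ℤ) => co Y α ω z.2 z.1 *
        ((∏ j, ek U (z.2 j) (h j - α)) * ∏ j, ex (h j) (z.1 j).1) * J U Ψ z.2 z.1)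
      (∫ x, ∑' q : Fin n → Q, (tl Y q : ℂ) * wn (fun j => x + (h j - α)) (fun j => h j - α) q * Ψ x q) := by
  set F : (Fin n → Q) × (Fin n → ℤ) → ℝ → ℂ := fun z x => co Y α ω z.2 z.1 *
    ((∏ j, ek U (z.2 j) (h j - α)) * ∏ j, ex (h j) (z.1 j).1) *
      (Ψ x z.1 * ek U (∑ j, z.2 j) x) with hF
  have hFn : ∀ z x, ‖F z x‖ = ‖co Y α ω z.2 z.1‖ * ‖Ψ x z.1‖ := by
    intro z x
    rw [hF]
    simp only
    rw [norm_mul, norm_mul, norm_mul, norm_mul, norm_prod, norm_prod]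
    simp only [norm_ek, norm_ex, Finset.prod_const_one, mul_one]
  have hgnn : ∀ x, 0 ≤ g x := fun x =>
    (norm_nonneg _).trans (hb x (fun _ => ⟨(1, 1), by simp⟩))
  have hFle : ∀ z x, ‖F z x‖ ≤ ((∏ j, ww δ U (z.1 j)) * ∏ j, (C * pk (z.2 j))) * g x := by
    intro z x
    rw [hFn, mul_comm (∏ j, ww δ U (z.1 j))]
    exact mul_le_mul (co_norm' hC (by linarith) hω z.2 z.1) (hb x z.1) (norm_nonneg _)
      (mul_nonneg (Finset.prod_nonneg fun j _ => mul_nonneg hC (pk_pos _).le)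
        (Finset.prod_nonneg fun j _ => ww_nonneg (by linarith) _))
  have hFint : ∀ z, Integrable (F z) := fun z => (J_int hΨ z.2 z.1).const_mul _
  have hzs := co_zsummable (n := n) (δ := δ) (U := U) (C := C) hδ hδ2 hU hC
  have hFsum : Summable fun z => ∫ x, ‖F z x‖ := by
    refine Summable.of_nonneg_of_le (fun z => integral_nonneg fun t => norm_nonneg _) (fun z => ?_)
      (hzs.mul_right (∫ x, g x))
    rw [← integral_const_mul]
    exact integral_mono (hFint z).norm (hg.const_mul _) fun x => hFle z x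
  have h1 := hasSum_integral_of_summable_integral_norm hFint hFsum
  have h2 : ∫ x, (∑' z, F z x) = ∫ x, ∑' q : Fin n → Q,
      (tl Y q : ℂ) * wn (fun j => x + (h j - α)) (fun j => h j - α) q * Ψ x q := by
    refine integral_congr_ae (Filter.Eventually.of_forall fun x => ?_)
    simp only
    by_cases hx : ∃ q, Ψ x q ≠ 0
    · obtain ⟨q0, hq0⟩ := hx
      have hsum : Summable (fun z => F z x) := by
        refine Summable.of_norm_bounded (hzs.mul_right (g x)) (fun z => hFle z x)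
      have hfib : ∀ q : Fin n → Q, HasSum (fun k : Fin n → ℤ => F (q, k) x)
          ((tl Y q : ℂ) * wn (fun j => x + (h j - α)) (fun j => h j - α) q * Ψ x q) := by
        intro q
        have h3 := (wn_hasSum (Y := Y) hC (by linarith) hω (hs x q0 hq0) q).mul_right (Ψ x q)
        refine h3.congr_fun ?_
        intro k
        rw [hF]
        simp only
        ring
      exact ((hsum.hasSum.prod_fiberwise hfib).tsum_eq).symm
    · push Not at hx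
      simp [hF, hx]
  rw [h2] at h1
  refine h1.congr_fun ?_
  intro z
  unfold J
  rw [← integral_const_mul]

/-- the inner sums -/
noncomputable def Ak {n : ℕ} (Y α U : ℝ) (ω : ℤ → ℝ → ℂ) (Ψ : ℝ → (Fin n → Q) → ℂ) (k : Fin n → ℤ)
    (h : Fin n → ℝ) : ℂ :=
  ∑' q : Fin n → Q, (co Y α ω k q * J U Ψ k q) * ∏ j, ex (h j) (q j).1

lemma cJ_summable {n : ℕ} {Y α δ U C : ℝ} {ω : ℤ → ℝ → ℂ} {Ψ : ℝ → (Fin n → Q) → ℂ} {g : ℝ → ℝ}
    (hδ : 0 < δ) (hδ2 : δ ≤ 1 / 2) (hU : 1 ≤ U) (hC : 0 ≤ C)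
    (hω : ∀ (k : ℤ) (h : ℝ), 1 ≤ h → ‖ω k h‖ ≤ C / (1 + (k : ℝ) ^ 2) * kap δ U h)
    (hΨ : ∀ q, Integrable fun x => Ψ x q) (hg : Integrable g) (hb : ∀ x q, ‖Ψ x q‖ ≤ g x)
    (k : Fin n → ℤ) : Summable (fun q : Fin n → Q => ‖co Y α ω k q * J U Ψ k q‖) := by
  have h1 := summable_pi_prod_real (k := n) (fun _ q => ww δ U q)
    (fun _ => ww_summable hδ hδ2 hU) (fun _ q => ww_nonneg (by linarith) q)
  refine Summable.of_nonneg_of_le (fun q => norm_nonneg _) (fun q => ?_)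
    ((h1.mul_left (∏ j, (C * pk (k j)))).mul_right (∫ x, g x))
  rw [norm_mul]
  exact mul_le_mul (co_norm' hC (by linarith) hω k q) (J_norm hg hΨ hb k q) (norm_nonneg _)
    (mul_nonneg (Finset.prod_nonneg fun j _ => mul_nonneg hC (pk_pos _).le)
      (Finset.prod_nonneg fun j _ => ww_nonneg (by linarith) _))

lemma norm_exprod {n : ℕ} (h : Fin n → ℝ) (q : Fin n → Q) : ‖∏ j, ex (h j) (q j).1‖ = 1 := by
  rw [norm_prod]
  simp only [norm_ex, Finset.prod_const_one]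

lemma Ak_cont {n : ℕ} {Y α U : ℝ} {ω : ℤ → ℝ → ℂ} {Ψ : ℝ → (Fin n → Q) → ℂ} (k : Fin n → ℤ)
    (hs : Summable (fun q : Fin n → Q => ‖co Y α ω k q * J U Ψ k q‖)) :
    Continuous (Ak Y α U ω Ψ k) := by
  unfold Ak
  refine continuous_tsum (fun q => continuous_const.mul ?_) hs (fun q h => ?_)
  · exact continuous_finsetProd _ fun j _ => (ex_cont (q j).1).comp (continuous_apply j)
  · rw [norm_mul, norm_exprod, mul_one]

lemma int_bound {n : ℕ} {Y α δ U C : ℝ} {h : Fin n → ℝ} {ω : ℤ → ℝ → ℂ}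
    {Ψ : ℝ → (Fin n → Q) → ℂ} {g : ℝ → ℝ}
    (hδ : 0 < δ) (hδ2 : δ ≤ 1 / 2) (hU : 1 ≤ U) (hC : 0 ≤ C)
    (hω : ∀ (k : ℤ) (h : ℝ), 1 ≤ h → ‖ω k h‖ ≤ C / (1 + (k : ℝ) ^ 2) * kap δ U h)
    (hΨ : ∀ q, Integrable fun x => Ψ x q) (hg : Integrable g) (hb : ∀ x q, ‖Ψ x q‖ ≤ g x)
    (hs : ∀ x q, Ψ x q ≠ 0 → ∀ h' : ℝ, 1 ≤ h' → ∀ j,
      HasSum (fun k : ℤ => ω k h' * ek U k (x + (h j - α))) (Om h' (x + (h j - α)) : ℂ)) :
    ‖∫ x, ∑' q : Fin n → Q, (tl Y q : ℂ) * wn (fun j => x + (h j - α)) (fun j => h j - α) q * Ψ x q‖ₑ ≤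
      ∑' k : Fin n → ℤ, ‖Ak Y α U ω Ψ k h‖ₑ := by
  have h1 := int_hasSum (Y := Y) hδ hδ2 hU hC hω hΨ hg hb hs
  have h2 : HasSum (fun z : (Fin n → ℤ) × (Fin n → Q) => co Y α ω z.1 z.2 *
        ((∏ j, ek U (z.1 j) (h j - α)) * ∏ j, ex (h j) (z.2 j).1) * J U Ψ z.1 z.2)
      (∫ x, ∑' q : Fin n → Q, (tl Y q : ℂ) * wn (fun j => x + (h j - α)) (fun j => h j - α) q * Ψ x q) := by
    have h3 := (Equiv.prodComm (Fin n → ℤ) (Fin n → Q)).hasSum_iff.2 h1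
    exact h3
  have hfib : ∀ k : Fin n → ℤ, HasSum (fun q : Fin n → Q => co Y α ω k q *
        ((∏ j, ek U (k j) (h j - α)) * ∏ j, ex (h j) (q j).1) * J U Ψ k q)
      ((∏ j, ek U (k j) (h j - α)) * Ak Y α U ω Ψ k h) := by
    intro k
    have hs2 : Summable (fun q : Fin n → Q => (co Y α ω k q * J U Ψ k q) * ∏ j, ex (h j) (q j).1) := by
      refine Summable.of_norm_bounded (cJ_summable (Y := Y) (α := α) hδ hδ2 hU hC hω hΨ hg hb k)
        (fun q => ?_)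
      rw [norm_mul, norm_exprod, mul_one]
    have h4 := hs2.hasSum.mul_left (∏ j, ek U (k j) (h j - α))
    refine h4.congr_fun ?_
    intro q
    ring
  have h5 := h2.prod_fiberwise hfib
  rw [← h5.tsum_eq]
  refine enorm_tsum_le_tsum_enorm.trans (le_of_eq ?_)
  refine tsum_congr fun k => ?_
  rw [enorm_mul]
  have h6 : ‖∏ j, ek U (k j) (h j - α)‖ₑ = 1 := by
    rw [← ofReal_norm, norm_prod]
    simp only [norm_ek, Finset.prod_const_one, ENNReal.ofReal_one]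
  rw [h6, one_mul]

lemma tl_sq {n : ℕ} (Y : ℝ) (q : Fin n → Q) : tl Y q ^ 2 = tl Y q := by
  unfold tl
  split_ifs <;> norm_num

end SepNAux

open SepNAux in
theorem dual_sieve (n : ℕ) (δ : ℝ) (hδ : 0 < δ) (hδ2 : δ ≤ 1 / 2) : ∃ C : ℝ, 0 < C ∧ ∀ (U Y α : ℝ) (β : Fin n → ℝ)
    (Ψ : ℝ → (Fin n → Q) → ℂ) (g : ℝ → ℝ), 1 ≤ U → 2 * U ≤ α → α ≤ 6 * U → (∀ j, 2 * U ≤ β j) → (∀ j, β j ≤ 6 * U) →
    (∀ q, Integrable fun x => Ψ x q) → Integrable g → (∀ x q, ‖Ψ x q‖ ≤ g x) →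
    (∀ x q, Ψ x q ≠ 0 → α - U ≤ x ∧ x ≤ α + 4 * U) →
    ∫⁻ h in Set.Icc β (fun j => β j + U), ‖∫ x, ∑' q : Fin n → Q,
        (tl Y q : ℂ) * wn (fun j => x + (h j - α)) (fun j => h j - α) q * Ψ x q‖ₑ ^ 2 ≤
      ENNReal.ofReal (C * U ^ ((n : ℝ) * (1 + 2 * δ))) * ∑' k : Fin n → ℤ, (∏ j, ENNReal.ofReal (pk (k j))) *
        ∑' q : Fin n → Q, ENNReal.ofReal (tl Y q * kn δ U q) * ‖∫ x, Ψ x q * ek U (∑ j, k j) x‖ₑ ^ 2 := by
  obtain ⟨Cω, hCω, hsep⟩ := four_sep δ hδ hδ2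
  obtain ⟨Cl, hCl, hls⟩ := large_sieve_n n δ hδ hδ2
  set P : ℝ := ∑' k, pk k with hP
  have hP0 : 0 ≤ P := tsum_nonneg fun k => (pk_pos k).le
  refine ⟨P ^ n * ((Cω ^ n) ^ 2 * Cl) + 1, by positivity, ?_⟩
  intro U Y α β Ψ g hU hα1 hα2 hβ1 hβ2 hΨ hg hb hrange
  have hU0 : 0 < U := by linarith
  obtain ⟨ω, hω1, hω2⟩ := hsep U hU
  set p : (Fin n → ℤ) → ENNReal := fun k => ∏ j, ENNReal.ofReal (pk (k j)) with hp
  have hp0 : ∀ k, p k ≠ 0 := by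
    intro k
    rw [hp]
    simp only
    rw [Finset.prod_ne_zero_iff]
    intro j _
    rw [ne_eq, ENNReal.ofReal_eq_zero, not_le]
    exact pk_pos _
  have hp1 : ∀ k, p k ≠ ⊤ := by
    intro k
    rw [hp]
    exact ENNReal.prod_ne_top fun j _ => ENNReal.ofReal_ne_top
  have hpr : ∀ k, p k = ENNReal.ofReal (∏ j, pk (k j)) := by
    intro k
    rw [ENNReal.ofReal_prod_of_nonneg fun j _ => (pk_pos _).le]
  have hpt : ∀ h ∈ Set.Icc β (fun j => β j + U), ‖∫ x, ∑' q : Fin n → Q,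
      (tl Y q : ℂ) * wn (fun j => x + (h j - α)) (fun j => h j - α) q * Ψ x q‖ₑ ^ 2 ≤
      (∑' k, p k) * ∑' k, (p k)⁻¹ * ‖Ak Y α U ω Ψ k h‖ₑ ^ 2 := by
    intro h hh
    have h1 := int_bound (Y := Y) (α := α) (h := h) hδ hδ2 hU hCω.le hω1 hΨ hg hb (by
      intro x q hxq h' hh' j
      have h2 := hrange x q hxq
      have h3 := hh.1 j
      have h4 := hh.2 j
      simp only at h4
      have h5 := hβ1 j
      have h6 := hβ2 j
      exact hω2 h' hh' (x + (h j - α)) (by linarith) (by linarith))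
    refine le_trans ?_ (cs p (fun k => ‖Ak Y α U ω Ψ k h‖ₑ) hp0 hp1)
    gcongr
  have hPe : ∑' k, p k = ENNReal.ofReal (P ^ n) := by
    rw [hp]
    rw [tsum_pi_prod_ennreal (fun (_ : Fin n) (k : ℤ) => ENNReal.ofReal (pk k)), Finset.prod_const,
      Finset.card_univ, Fintype.card_fin, ENNReal.ofReal_pow hP0, hP,
      ENNReal.ofReal_tsum_of_nonneg (fun k => (pk_pos k).le) pk_summable]
  set S : (Fin n → ℤ) → ENNReal := fun k => ∑' q : Fin n → Q,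
    ENNReal.ofReal (tl Y q * kn δ U q) * ‖∫ x, Ψ x q * ek U (∑ j, k j) x‖ₑ ^ 2 with hS
  have hAk : ∀ k : Fin n → ℤ, ∫⁻ h in Set.Icc β (fun j => β j + U), ‖Ak Y α U ω Ψ k h‖ₑ ^ 2 ≤
      ENNReal.ofReal (Cl * U ^ ((n : ℝ) * (1 + 2 * δ))) *
        (ENNReal.ofReal ((∏ j, (Cω * pk (k j))) ^ 2) * S k) := by
    intro k
    have hpr0 : 0 ≤ ∏ j, (Cω * pk (k j)) :=
      Finset.prod_nonneg fun j _ => mul_nonneg hCω.le (pk_pos _).le
    have hI0 : 0 ≤ ∫ x, g x := (norm_nonneg _).trans (J_norm (U := U) hg hΨ hb k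
      (fun _ => ⟨(1, 1), by simp⟩))
    obtain ⟨_, hls2⟩ := hls U β hU (fun q => co Y α ω k q * J U Ψ k q)
      (fun q => (∏ j, (Cω * pk (k j))) * (tl Y q * ‖J U Ψ k q‖))
      ((∏ j, (Cω * pk (k j))) * ∫ x, g x)
      (fun q => mul_nonneg hpr0 (mul_nonneg (tl_nonneg _ _) (norm_nonneg _)))
      (fun q => by
        refine mul_le_mul_of_nonneg_left ?_ hpr0
        calc tl Y q * ‖J U Ψ k q‖ ≤ 1 * ∫ x, g x :=
              mul_le_mul (tl_le_one _ _) (J_norm hg hΨ hb k q) (norm_nonneg _) zero_le_one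
          _ = _ := one_mul _)
      (fun q => by
        rw [norm_mul]
        have h1 := co_norm (Y := Y) (α := α) hU0.le hω1 k q
        calc ‖co Y α ω k q‖ * ‖J U Ψ k q‖ ≤
              (tl Y q * ((∏ j, (Cω * pk (k j))) * ∏ j, ww δ U (q j))) * ‖J U Ψ k q‖ :=
              mul_le_mul_of_nonneg_right h1 (norm_nonneg _)
          _ = _ := by unfold ww; ring)
    refine hls2.trans ?_
    refine mul_le_mul_right ?_ _
    rw [hS]
    simp only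
    rw [← ENNReal.tsum_mul_left]
    refine le_of_eq (tsum_congr fun q => ?_)
    have h3 : ‖∫ x, Ψ x q * ek U (∑ j, k j) x‖ₑ ^ 2 = ENNReal.ofReal (‖J U Ψ k q‖ ^ 2) := by
      rw [ENNReal.ofReal_pow (norm_nonneg _), ofReal_norm]
      rfl
    rw [h3, ← ENNReal.ofReal_mul (mul_nonneg (tl_nonneg _ _) (kn_nonneg hU0.le q)),
      ← ENNReal.ofReal_mul (by positivity)]
    congr 1
    rw [mul_pow, mul_pow, tl_sq]
    ring
  have hmain : ∫⁻ h in Set.Icc β (fun j => β j + U), ‖∫ x, ∑' q : Fin n → Q,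
      (tl Y q : ℂ) * wn (fun j => x + (h j - α)) (fun j => h j - α) q * Ψ x q‖ₑ ^ 2 ≤
      ENNReal.ofReal (P ^ n) * (ENNReal.ofReal ((Cω ^ n) ^ 2) *
        (ENNReal.ofReal (Cl * U ^ ((n : ℝ) * (1 + 2 * δ))) * ∑' k, p k * S k)) := by
    have h1 : ∫⁻ h in Set.Icc β (fun j => β j + U), ‖∫ x, ∑' q : Fin n → Q,
        (tl Y q : ℂ) * wn (fun j => x + (h j - α)) (fun j => h j - α) q * Ψ x q‖ₑ ^ 2 ≤
        ∫⁻ h in Set.Icc β (fun j => β j + U), ENNReal.ofReal (P ^ n) *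
          ∑' k, (p k)⁻¹ * ‖Ak Y α U ω Ψ k h‖ₑ ^ 2 := by
      refine setLIntegral_mono' measurableSet_Icc (fun h hh => ?_)
      rw [← hPe]
      exact hpt h hh
    refine h1.trans ?_
    have hmeas : ∀ k : Fin n → ℤ, Measurable (fun h => (p k)⁻¹ * ‖Ak Y α U ω Ψ k h‖ₑ ^ 2) := by
      intro k
      exact ((Ak_cont k (cJ_summable hδ hδ2 hU hCω.le hω1 hΨ hg hb k)).measurable.enorm.pow_const
        2).const_mul _
    rw [lintegral_const_mul _ (Measurable.tsum hmeas)]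
    refine mul_le_mul_right ?_ _
    rw [lintegral_tsum (fun k => (hmeas k).aemeasurable)]
    rw [← ENNReal.tsum_mul_left, ← ENNReal.tsum_mul_left]
    refine ENNReal.tsum_le_tsum fun k => ?_
    rw [lintegral_const_mul _
      ((Ak_cont k (cJ_summable hδ hδ2 hU hCω.le hω1 hΨ hg hb k)).measurable.enorm.pow_const 2)]
    refine (mul_le_mul_right (hAk k) _).trans (le_of_eq ?_)
    have hprod : ∏ j, (Cω * pk (k j)) = Cω ^ n * ∏ j, pk (k j) := by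
      rw [Finset.prod_mul_distrib, Finset.prod_const, Finset.card_univ, Fintype.card_fin]
    have hpk0 : 0 ≤ ∏ j, pk (k j) := Finset.prod_nonneg fun j _ => (pk_pos _).le
    have e : ENNReal.ofReal ((∏ j, (Cω * pk (k j))) ^ 2) =
        ENNReal.ofReal ((Cω ^ n) ^ 2) * (p k * p k) := by
      rw [hpr, ← ENNReal.ofReal_mul hpk0, ← ENNReal.ofReal_mul (by positivity), hprod]
      congr 1
      ring
    rw [e]
    calc (p k)⁻¹ * (ENNReal.ofReal (Cl * U ^ ((n : ℝ) * (1 + 2 * δ))) *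
          (ENNReal.ofReal ((Cω ^ n) ^ 2) * (p k * p k) * S k)) =
          ((p k)⁻¹ * p k) * (ENNReal.ofReal ((Cω ^ n) ^ 2) *
            (ENNReal.ofReal (Cl * U ^ ((n : ℝ) * (1 + 2 * δ))) * (p k * S k))) := by ring
      _ = _ := by rw [ENNReal.inv_mul_cancel (hp0 k) (hp1 k), one_mul]
  refine hmain.trans ?_
  rw [← mul_assoc, ← mul_assoc, ← ENNReal.ofReal_mul (by positivity),
    ← ENNReal.ofReal_mul (by positivity)]
  refine mul_le_mul_left ?_ _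
  refine ENNReal.ofReal_le_ofReal ?_
  have hpos : 0 ≤ U ^ ((n : ℝ) * (1 + 2 * δ)) := by positivity
  calc P ^ n * (Cω ^ n) ^ 2 * (Cl * U ^ ((n : ℝ) * (1 + 2 * δ))) =
        P ^ n * ((Cω ^ n) ^ 2 * Cl) * U ^ ((n : ℝ) * (1 + 2 * δ)) := by ring
    _ ≤ (P ^ n * ((Cω ^ n) ^ 2 * Cl) + 1) * U ^ ((n : ℝ) * (1 + 2 * δ)) :=
        mul_le_mul_of_nonneg_right (by linarith) hpos

end Pool.Agent.P07318g
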