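import Pool.Agent.Lib.P07318g.TwN
import Pool.Agent.Lib.P07318f.SmoothMain

/-!
# The short fractions

PROOF. `SmoothMainAux.small_finite` (P07318f/SmoothMain.lean): the set `s` of `q : Q` with `hgt q ≤ Y` is finite with at most `Y²` elements; `S = Fintype.piFinset (fun _ : Fin n => s)` is the set of tuples with
`tl Y q = 0`, at most `Y^(2n) ≤ U^(2/1000)` elements. `∏ FdSmall Y (x+τ j) = ∑_{q ∈ S} ∏_j (hgt^(-1/2) Om (hgt (q j)) (x+τ j) ex (x+τ j) (q j))` (`Finset.prod_univ_sum`) `= ∑_{q ∈ S} wn (x+τ) τ q ex x (rp q)`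
(`lgr_add_aux`, `ex_rp`), and `∑'_q (1 - tl Y q) wn .. MM = ∑_{q ∈ S} wn .. MM`. For `q ∈ S` with `(a,b) = rp q`: `a, b ≤ hgt (rp q) ≤ ∏ hgt (q j) ≤ Y^n ≤ U^(1/1000)` (`hgt_rp_le`), so `tw_n n (1/1000)` with
`h j = hgt (q j)` gives the error `C U^(1-1/25+1/1000)` (the factors `hgt^(-1/2)`, `ex τ` have norm `≤ 1`). Total `≤ C U^(2/1000+1-1/25+1/1000) ≤ C U^(1-1/40)`.
All integrands are integrable (continuous on the support of `Ω`, which is contained in `[U/2, 8U]`; `mm_cont`, `LongPartAux.Om_cont`).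
-/

set_option autoImplicit false

namespace Pool.Agent.P07318g

open MeasureTheory Complex Pool.Agent.P07318s Pool.Agent.P07318f

namespace SmallNAux

open SmoothMainAux

/-- the coefficient of a tuple -/
noncomputable def cs {n : ℕ} (τ : Fin n → ℝ) (q : Fin n → Q) : ℂ := ∏ j, cq (τ j) (q j)

theorem norm_cs_le {n : ℕ} (τ : Fin n → ℝ) (q : Fin n → Q) : ‖cs τ q‖ ≤ 1 := by
  unfold cs
  rw [norm_prod]
  exact Finset.prod_le_one (fun j _ => norm_nonneg _) fun j _ => norm_cq_le _ _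

/-- the weights of a tuple -/
noncomputable def os {n : ℕ} (x : ℝ) (τ : Fin n → ℝ) (q : Fin n → Q) : ℂ :=
  ∏ j, (Om (hgt (q j).1) (x + τ j) : ℂ)

theorem wn_eq {n : ℕ} (x : ℝ) (τ : Fin n → ℝ) (q : Fin n → Q) :
    wn (fun j => x + τ j) τ q = cs τ q * os x τ q := by
  unfold wn cs os cq
  rw [← Finset.prod_mul_distrib]
  refine Finset.prod_congr rfl fun j _ => ?_
  push_cast
  ring

theorem prod_fd {n : ℕ} {s : Finset Q} {Y : ℝ} (hs : ∀ q, q ∈ s ↔ ¬ Y < hgt q.1) (x : ℝ)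
    (τ : Fin n → ℝ) : ∏ j, FdSmall Y (x + τ j) =
      ∑ q ∈ Fintype.piFinset (fun _ : Fin n => s), cs τ q * (os x τ q * ex x (rp q).1) := by
  have h1 : ∀ j : Fin n, FdSmall Y (x + τ j) =
      ∑ q ∈ s, cq (τ j) q * ((Om (hgt q.1) (x + τ j) : ℂ) * ex x q.1) := fun j => fdSmall_eq hs x (τ j)
  rw [Finset.prod_congr rfl fun j _ => h1 j, Finset.prod_univ_sum]
  refine Finset.sum_congr rfl fun q _ => ?_
  unfold cs os
  rw [ex_rp, ← Finset.prod_mul_distrib, ← Finset.prod_mul_distrib]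

theorem mem_S {n : ℕ} {s : Finset Q} {Y : ℝ} (hs : ∀ q, q ∈ s ↔ ¬ Y < hgt q.1) (q : Fin n → Q) :
    q ∈ Fintype.piFinset (fun _ : Fin n => s) ↔ ∀ j, ¬ Y < hgt (q j).1 := by
  rw [Fintype.mem_piFinset]
  exact forall_congr' fun j => hs (q j)

theorem tsum_S {n : ℕ} {s : Finset Q} {Y : ℝ} (hs : ∀ q, q ∈ s ↔ ¬ Y < hgt q.1) (x : ℝ)
    (τ : Fin n → ℝ) :
    ∑' q : Fin n → Q, ((1 - tl Y q : ℝ) : ℂ) * wn (fun j => x + τ j) τ q * MM x (rp q).1.1 (rp q).1.2 =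
      ∑ q ∈ Fintype.piFinset (fun _ : Fin n => s), cs τ q * (os x τ q * MM x (rp q).1.1 (rp q).1.2) := by
  rw [tsum_eq_sum (s := Fintype.piFinset (fun _ : Fin n => s))]
  · refine Finset.sum_congr rfl fun q hq => ?_
    rw [mem_S hs] at hq
    rw [tl_zero (fun j => not_lt.mp (hq j)), wn_eq]
    push_cast
    ring
  · intro q hq
    rw [mem_S hs] at hq
    push Not at hq
    obtain ⟨j, hj⟩ := hq
    rw [tl_one hj]
    simp

end SmallNAux

open SmallNAux SmoothMainAux in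
theorem small_n (n : ℕ) : ∃ C : ℝ, 0 < C ∧ ∀ (U Y Δ : ℝ) (τ : Fin n → ℝ) (Ω : ℝ → ℂ), 1 ≤ U → 1 ≤ Y → Y ^ n ≤ U ^ (1 / 1000 : ℝ) →
    U ^ (1 - 1 / 1000 : ℝ) ≤ Δ → Δ ≤ U → Adm U Δ Ω → (∀ x, Ω x ≠ 0 → ∀ j, U / 2 ≤ x + τ j ∧ x + τ j ≤ 16 * U) →
    ‖(∫ x : ℝ, Ω x * ((‖riemannZeta (1 / 2 + x * I)‖ ^ 4 : ℝ) : ℂ) * ∏ j, FdSmall Y (x + τ j)) -
      ∫ x : ℝ, Ω x * ∑' q : Fin n → Q, ((1 - tl Y q : ℝ) : ℂ) * wn (fun j => x + τ j) τ q * MM x (rp q).1.1 (rp q).1.2‖ ≤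
      C * U ^ (1 - 1 / 40 : ℝ) := by
  obtain ⟨C, hC, htw⟩ := tw_n n (1 / 1000) (by norm_num)
  refine ⟨C, hC, ?_⟩
  intro U Y Δ τ Ω hU hY hYn hΔ1 hΔ2 hAdm hsupp
  have hU0 : 0 < U := by linarith
  have hY0 : 0 ≤ Y := by linarith
  have hΩc : Continuous Ω := hAdm.1.continuous
  have hΩ1 : ∀ x, ‖Ω x‖ ≤ 1 := fun x => by simpa using hAdm.2.2.2 0 (by norm_num) x
  obtain ⟨s, hs, hcard⟩ := small_finite Y hY0
  set S : Finset (Fin n → Q) := Fintype.piFinset (fun _ : Fin n => s) with hS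
  set K : Set ℝ := Set.Icc (U / 2) (8 * U) ∩ ⋂ j : Fin n, {x : ℝ | U / 2 ≤ x + τ j} with hKdef
  have hKc : IsCompact K := isCompact_Icc.inter_right
    (isClosed_iInter fun j => isClosed_le continuous_const (continuous_id.add continuous_const))
  have hK : ∀ x, Ω x ≠ 0 → x ∈ K := by
    intro x hx
    refine ⟨⟨?_, ?_⟩, ?_⟩
    · by_contra hc
      push Not at hc
      exact hx (hAdm.2.1 x hc.le)
    · by_contra hc
      push Not at hc
      exact hx (hAdm.2.2.1 x hc.le)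
    · rw [Set.mem_iInter]
      exact fun j => (hsupp x hx j).1
  have hK0 : ∀ x ∈ K, 0 < x := fun x hx => by
    have := hx.1.1
    linarith
  have hK2 : ∀ x ∈ K, ∀ j, 0 < x + τ j := fun x hx j => by
    have h1 : U / 2 ≤ x + τ j := (Set.mem_iInter.mp hx.2) j
    linarith
  set Z4 : ℝ → ℂ := fun x => ((‖riemannZeta (1 / 2 + x * I)‖ ^ 4 : ℝ) : ℂ) with hZ4
  have hZ4c : Continuous Z4 := Complex.continuous_ofReal.comp ((zeta_half_cont.norm).pow 4)
  have hos : ∀ q : Fin n → Q, ContinuousOn (fun x => os x τ q) K := by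
    intro q
    unfold os
    refine continuousOn_finset_prod _ fun j _ => ?_
    refine Complex.continuous_ofReal.comp_continuousOn ?_
    exact (om_cont (one_le_hgt (q j).1)).comp (f := fun x : ℝ => x + τ j) (by fun_prop)
      (fun x hx => hK2 x hx j)
  have hMMc : ∀ q : Q, ContinuousOn (fun x => P07318f.MM x q.1.1 q.1.2) K := fun q =>
    (mm_cont q.1.1 q.1.2 q.2).mono fun x hx => hK0 x hx
  have iA : ∀ q : Fin n → Q, Integrable (fun x => Ω x * os x τ q * Z4 x * ex x (rp q).1) := by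
    intro q
    have h1 := cont_int hΩc hΩ1 hKc hK (g := fun x => os x τ q * (Z4 x * ex x (rp q).1))
      ((hos q).mul (hZ4c.mul (Cont_ex_continuous (rp q).1)).continuousOn)
    refine h1.congr (Filter.Eventually.of_forall fun x => ?_)
    simp only
    ring
  have iB : ∀ q : Fin n → Q, Integrable (fun x => Ω x * os x τ q * MM x (rp q).1.1 (rp q).1.2) := by
    intro q
    have h1 := cont_int hΩc hΩ1 hKc hK (g := fun x => os x τ q * MM x (rp q).1.1 (rp q).1.2)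
      ((hos q).mul (hMMc (rp q)))
    refine h1.congr (Filter.Eventually.of_forall fun x => ?_)
    simp only
    ring
  have eA : ∫ x : ℝ, Ω x * Z4 x * ∏ j, FdSmall Y (x + τ j) =
      ∑ q ∈ S, cs τ q * ∫ x, Ω x * os x τ q * Z4 x * ex x (rp q).1 := by
    have h1 : ∀ x, Ω x * Z4 x * ∏ j, FdSmall Y (x + τ j) =
        ∑ q ∈ S, cs τ q * (Ω x * os x τ q * Z4 x * ex x (rp q).1) := by
      intro x
      rw [prod_fd hs, Finset.mul_sum]
      refine Finset.sum_congr rfl fun q _ => ?_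
      ring
    rw [integral_congr_ae (Filter.Eventually.of_forall h1),
      integral_finset_sum _ fun q _ => (iA q).const_mul _]
    exact Finset.sum_congr rfl fun q _ => integral_const_mul _ _
  have eB : ∫ x : ℝ, Ω x * ∑' q : Fin n → Q, ((1 - tl Y q : ℝ) : ℂ) * wn (fun j => x + τ j) τ q *
        MM x (rp q).1.1 (rp q).1.2 =
      ∑ q ∈ S, cs τ q * ∫ x, Ω x * os x τ q * MM x (rp q).1.1 (rp q).1.2 := by
    have h1 : ∀ x, Ω x * ∑' q : Fin n → Q, ((1 - tl Y q : ℝ) : ℂ) * wn (fun j => x + τ j) τ q *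
        MM x (rp q).1.1 (rp q).1.2 =
        ∑ q ∈ S, cs τ q * (Ω x * os x τ q * MM x (rp q).1.1 (rp q).1.2) := by
      intro x
      rw [tsum_S hs, Finset.mul_sum]
      refine Finset.sum_congr rfl fun q _ => ?_
      ring
    rw [integral_congr_ae (Filter.Eventually.of_forall h1),
      integral_finset_sum _ fun q _ => (iB q).const_mul _]
    exact Finset.sum_congr rfl fun q _ => integral_const_mul _ _
  rw [eA, eB, ← Finset.sum_sub_distrib]
  have hb : ∀ q ∈ S, ‖cs τ q * (∫ x, Ω x * os x τ q * Z4 x * ex x (rp q).1) -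
      cs τ q * ∫ x, Ω x * os x τ q * MM x (rp q).1.1 (rp q).1.2‖ ≤
      C * U ^ (1 - 1 / 25 + 1 / 1000 : ℝ) := by
    intro q hq
    have hq' := (mem_S hs q).1 hq
    have hh : hgt (rp q).1 ≤ U ^ (1 / 1000 : ℝ) := by
      refine (hgt_rp_le q).trans (le_trans ?_ hYn)
      calc ∏ j, hgt (q j).1 ≤ ∏ _j : Fin n, Y :=
            Finset.prod_le_prod (fun j _ => (hgt_pos _).le) fun j _ => not_lt.mp (hq' j)
        _ = Y ^ n := by simp
    have h12 := small_aux (rp q) (not_lt.mpr hh)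
    have h2 := htw U Δ τ (fun j => hgt (q j).1) Ω (rp q).1.1 (rp q).1.2 hU hΔ1 hΔ2 hAdm (rp q).2
      h12.1 h12.2 (fun j => one_le_hgt _) hsupp
    rw [← mul_sub, norm_mul]
    calc _ ≤ 1 * (C * U ^ (1 - 1 / 25 + 1 / 1000 : ℝ)) :=
          mul_le_mul (norm_cs_le τ q) h2 (norm_nonneg _) zero_le_one
      _ = _ := one_mul _
  refine (norm_sum_le_of_le S hb).trans ?_
  rw [Finset.sum_const, nsmul_eq_mul]
  have hSc : (S.card : ℝ) ≤ U ^ (2 / 1000 : ℝ) := by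
    rw [hS, Fintype.card_piFinset_const]
    push_cast
    calc (s.card : ℝ) ^ n ≤ (Y ^ 2) ^ n := pow_le_pow_left₀ (Nat.cast_nonneg _) hcard n
      _ = (Y ^ n) ^ 2 := by rw [← pow_mul, ← pow_mul, mul_comm]
      _ ≤ (U ^ (1 / 1000 : ℝ)) ^ 2 := pow_le_pow_left₀ (pow_nonneg hY0 n) hYn 2
      _ = U ^ (2 / 1000 : ℝ) := by
          rw [← Real.rpow_natCast, ← Real.rpow_mul hU0.le]
          norm_num
  calc (S.card : ℝ) * (C * U ^ (1 - 1 / 25 + 1 / 1000 : ℝ))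
      ≤ U ^ (2 / 1000 : ℝ) * (C * U ^ (1 - 1 / 25 + 1 / 1000 : ℝ)) :=
        mul_le_mul_of_nonneg_right hSc (by positivity)
    _ = C * (U ^ (2 / 1000 : ℝ) * U ^ (1 - 1 / 25 + 1 / 1000 : ℝ)) := by ring
    _ = C * U ^ (2 / 1000 + (1 - 1 / 25 + 1 / 1000) : ℝ) := by rw [← Real.rpow_add hU0]
    _ ≤ C * U ^ (1 - 1 / 40 : ℝ) :=
        mul_le_mul_of_nonneg_left (Real.rpow_le_rpow_of_exponent_le hU (by norm_num)) hC.le

end Pool.Agent.P07318g
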