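import Pool.Agent.Lib.P07318g.SepN
import Pool.Agent.Lib.P07318g.PosN
import Pool.Agent.Lib.P07318g.PsiB

/-!
# The tail of the main terms

PROOF. `dual_sieve` with `Ψ x q = Ω x * MM x (rp q).1.1 (rp q).1.2` : integrable (`mm_cont`, `Ω` vanishes for `x < U` and for `x ≥ 8U`), `‖Ψ x q‖ ≤ g x = C (8U)^(1/9000)` on `[U, 8U]` (`mm_bound`, the power of the
height is `≤ 1`), `0` elsewhere. For `k : Fin n → ℤ`, `m = ∑ k j`: `psi_bound` (`q := rp q`):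
`‖∫ Ψ ek‖² ≤ 2 ‖∫ Ω ‖ζ‖⁴ ex x (rp q) ek‖² + C (U^(2-1/2000) + 1[|m| > U^(1/1000)] U^(2+1/4000))`. First part: `tail_pos` with `G = Ω ‖ζ‖⁴`: `≤ 2 C U^(2-c₀+(n+3)δ)`. Second part:
`∑_q tl kn ≤ (∑ kap/h)^n ≤ C U^(nδ)` (`dk_trivial`, `tsum_pi_prod_ennreal`). Sum over `k`: `∑_k ∏ pk (k j) = P^n`, and
`1[|∑ k j| > U^(1/1000)] ≤ U^(-1/2000) |∑ k j|^(1/2) ≤ U^(-1/2000) ∑_j |k j|^(1/2)`, `∑_k ∏ pk (k i) |k j|^(1/2) = P^(n-1) ∑_k pk k |k|^(1/2) < ∞` : the part with `U^(2+1/4000)` contributes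
`≤ C U^(nδ + 2 + 1/4000 - 1/2000) = C U^(nδ+2-1/4000)`. Total `≤ C U^(n(1+2δ)) (U^(2-c₀+(n+3)δ) + U^(2-1/4000+nδ))`; with `δ = min(c₀, 1/4000)/(8(n+1))`: claim with `c = min(c₀, 1/4000)/4`.
-/

set_option autoImplicit false

namespace Pool.Agent.P07318g

open MeasureTheory Complex Pool.Agent.P07318s Pool.Agent.P07318f

namespace TailNAux

/-- `pk` with an additional square root -/
noncomputable def pwt (k : ℤ) : ℝ := pk k * √(1 + |(k : ℝ)|)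

lemma pwt_nonneg (k : ℤ) : 0 ≤ pwt k := mul_nonneg (pk_pos k).le (Real.sqrt_nonneg _)

lemma pwt_summable : Summable pwt := by
  have h1 : Summable (fun k : ℤ => 2 * |(k : ℝ)| ^ (-(3 / 2) : ℝ)) :=
    (Real.summable_abs_int_rpow (by norm_num)).mul_left 2
  have h2 : Summable (fun k : ℤ => if k = 0 then (1 : ℝ) else 0) := (hasSum_ite_eq 0 1).summable
  refine Summable.of_nonneg_of_le pwt_nonneg (fun k => ?_) (h1.add h2)
  unfold pwt pk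
  by_cases hk : k = 0
  · subst hk
    simp
  · rw [if_neg hk, add_zero]
    have hk1 : (1 : ℝ) ≤ |(k : ℝ)| := by exact_mod_cast Int.one_le_abs hk
    have hk0 : (0 : ℝ) < |(k : ℝ)| := by linarith
    have e1 : √(1 + |(k : ℝ)|) ≤ 2 * √|(k : ℝ)| := by
      rw [Real.sqrt_le_left (by positivity), mul_pow, Real.sq_sqrt hk0.le]
      linarith
    have e2 : 1 / (1 + (k : ℝ) ^ 2) ≤ 1 / |(k : ℝ)| ^ 2 := by
      rw [sq_abs]
      apply one_div_le_one_div_of_le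
      · have := pow_pos hk0 2
        rwa [sq_abs] at this
      · linarith
    have e3 : |(k : ℝ)| ^ (-(3 / 2) : ℝ) = 1 / |(k : ℝ)| ^ 2 * √|(k : ℝ)| := by
      rw [Real.sqrt_eq_rpow, one_div, ← Real.rpow_natCast, ← Real.rpow_neg hk0.le,
        ← Real.rpow_add hk0]
      norm_num
    rw [e3]
    calc 1 / (1 + (k : ℝ) ^ 2) * √(1 + |(k : ℝ)|) ≤ 1 / |(k : ℝ)| ^ 2 * (2 * √|(k : ℝ)|) :=
          mul_le_mul e2 e1 (Real.sqrt_nonneg _) (by positivity)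
      _ = _ := by ring

lemma one_add_sum_le {n : ℕ} (f : Fin n → ℝ) (hf : ∀ j, 0 ≤ f j) :
    1 + ∑ j, f j ≤ ∏ j, (1 + f j) := by
  induction n with
  | zero => simp
  | succ n ih =>
    rw [Fin.sum_univ_succ, Fin.prod_univ_succ]
    have h1 := ih (fun j => f j.succ) (fun j => hf j.succ)
    have h2 := hf 0
    have h3 : 0 ≤ ∑ j : Fin n, f j.succ := Finset.sum_nonneg fun j _ => hf j.succ
    nlinarith

lemma sum_abs_le {n : ℕ} (k : Fin n → ℤ) :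
    |((∑ j, k j : ℤ) : ℝ)| ≤ ∏ j, (1 + |(k j : ℝ)|) := by
  have h1 := one_add_sum_le (fun j => |(k j : ℝ)|) (fun j => abs_nonneg _)
  have h2 : |((∑ j, k j : ℤ) : ℝ)| ≤ ∑ j, |(k j : ℝ)| := by
    push_cast
    exact Finset.abs_sum_le_sum_abs _ _
  linarith

lemma prod_ge_one {n : ℕ} (k : Fin n → ℤ) : (1 : ℝ) ≤ ∏ j, √(1 + |(k j : ℝ)|) := by
  have h : ∏ j : Fin n, (1 : ℝ) ≤ ∏ j, √(1 + |(k j : ℝ)|) := by
    apply Finset.prod_le_prod (fun _ _ => zero_le_one)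
    intro j _
    rw [Real.one_le_sqrt]
    linarith [abs_nonneg (k j : ℝ)]
  simpa using h

/-- the error term of one character -/
lemma err_le {n : ℕ} {U : ℝ} (hU : 1 ≤ U) (k : Fin n → ℤ) :
    U ^ (2 - 1 / 2000 : ℝ) + (if U ^ (1 / 1000 : ℝ) < |((∑ j, k j : ℤ) : ℝ)| then
      U ^ (2 + 1 / 4000 : ℝ) else 0) ≤ 2 * U ^ (2 - 1 / 4000 : ℝ) * ∏ j, √(1 + |(k j : ℝ)|) := by
  have hU0 : 0 < U := by linarith
  have hp := prod_ge_one k
  have h1 : U ^ (2 - 1 / 2000 : ℝ) ≤ U ^ (2 - 1 / 4000 : ℝ) :=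
    Real.rpow_le_rpow_of_exponent_le hU (by norm_num)
  have h0 : 0 < U ^ (2 - 1 / 4000 : ℝ) := by positivity
  have h2 : U ^ (2 - 1 / 2000 : ℝ) ≤ U ^ (2 - 1 / 4000 : ℝ) * ∏ j, √(1 + |(k j : ℝ)|) := by
    nlinarith
  have h3 : (if U ^ (1 / 1000 : ℝ) < |((∑ j, k j : ℤ) : ℝ)| then U ^ (2 + 1 / 4000 : ℝ) else 0) ≤
      U ^ (2 - 1 / 4000 : ℝ) * ∏ j, √(1 + |(k j : ℝ)|) := by
    split_ifs with h
    · have h4 : √(U ^ (1 / 1000 : ℝ)) ≤ √(∏ j, (1 + |(k j : ℝ)|)) :=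
        Real.sqrt_le_sqrt (h.le.trans (sum_abs_le k))
      have h5 : √(∏ j, (1 + |(k j : ℝ)|)) = ∏ j, √(1 + |(k j : ℝ)|) := by
        rw [Real.sqrt_eq_rpow, ← Real.finsetProd_rpow _ _ (fun j _ => by positivity)]
        refine Finset.prod_congr rfl fun j _ => ?_
        rw [Real.sqrt_eq_rpow]
      have h6 : √(U ^ (1 / 1000 : ℝ)) = U ^ (1 / 2000 : ℝ) := by
        rw [Real.sqrt_eq_rpow, ← Real.rpow_mul hU0.le]
        norm_num
      rw [h5, h6] at h4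
      have h7 : U ^ (2 + 1 / 4000 : ℝ) = U ^ (2 - 1 / 4000 : ℝ) * U ^ (1 / 2000 : ℝ) := by
        rw [← Real.rpow_add hU0]
        norm_num
      rw [h7]
      exact mul_le_mul_of_nonneg_left h4 h0.le
    · positivity
  linarith

lemma sum_kn {n : ℕ} {δ U K : ℝ} (hU : 0 ≤ U) (Y : ℝ)
    (hs : Summable fun q : Q => kap δ U (hgt q.1) * (hgt q.1)⁻¹)
    (hK : ∑' q : Q, kap δ U (hgt q.1) * (hgt q.1)⁻¹ ≤ K) :
    ∑' q : Fin n → Q, ENNReal.ofReal (tl Y q * kn δ U q) ≤ ENNReal.ofReal (K ^ n) := by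
  have h0 : ∀ q : Q, 0 ≤ kap δ U (hgt q.1) * (hgt q.1)⁻¹ := fun q =>
    mul_nonneg (kap_nonneg hU (hgt_pos q.1).le) (inv_nonneg.2 (hgt_pos q.1).le)
  have hK0 : 0 ≤ K := (tsum_nonneg h0).trans hK
  have h1 : ∀ q : Fin n → Q, ENNReal.ofReal (tl Y q * kn δ U q) ≤
      ∏ j, ENNReal.ofReal (kap δ U (hgt (q j).1) * (hgt (q j).1)⁻¹) := by
    intro q
    rw [← ENNReal.ofReal_prod_of_nonneg (fun j _ => h0 (q j))]
    apply ENNReal.ofReal_le_ofReal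
    exact mul_le_of_le_one_left (kn_nonneg hU q) (tl_le_one Y q)
  refine (ENNReal.tsum_le_tsum h1).trans ?_
  rw [tsum_pi_prod_ennreal (fun (_ : Fin n) (q : Q) => ENNReal.ofReal (kap δ U (hgt q.1) * (hgt q.1)⁻¹)),
    Finset.prod_const, Finset.card_univ, Fintype.card_fin, ENNReal.ofReal_pow hK0]
  apply pow_le_pow_left'
  rw [← ENNReal.ofReal_tsum_of_nonneg h0 hs]
  exact ENNReal.ofReal_le_ofReal hK

lemma sq_le {a b E : ℝ} (ha : 0 ≤ a) (hb : 0 ≤ b) (h : a ^ 2 ≤ 2 * b ^ 2 + E) (hE : 0 ≤ E) :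
    ENNReal.ofReal a ^ 2 ≤ 2 * ENNReal.ofReal b ^ 2 + ENNReal.ofReal E := by
  rw [← ENNReal.ofReal_pow ha, ← ENNReal.ofReal_pow hb]
  have h2 : (2 : ENNReal) = ENNReal.ofReal 2 := by simp
  rw [h2, ← ENNReal.ofReal_mul (by norm_num), ← ENNReal.ofReal_add (by positivity) hE]
  exact ENNReal.ofReal_le_ofReal h

end TailNAux

open TailNAux in
theorem tail_n (n : ℕ) (δ₀ : ℝ) (hδ₀ : 0 < δ₀) (hδ₁ : δ₀ ≤ 1) : ∃ c C : ℝ, 0 < c ∧ 0 < C ∧ ∀ (U Y Δ α : ℝ) (β : Fin n → ℝ)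
    (Ω : ℝ → ℂ), 1 ≤ U → U ^ δ₀ ≤ Y → Y ≤ U → U ^ (1 - 1 / 1000 : ℝ) ≤ Δ → Δ ≤ U → 2 * U ≤ α → α ≤ 6 * U →
    (∀ j, 2 * U ≤ β j) → (∀ j, β j ≤ 6 * U) → Adm U Δ Ω →
    (∀ x, Ω x ≠ 0 → U ≤ x ∧ α - U ≤ x ∧ x ≤ α + 4 * U) →
    ∫⁻ h in Set.Icc β (fun j => β j + U), ‖∫ x, Ω x * ∑' q : Fin n → Q,
        (tl Y q : ℂ) * wn (fun j => x + (h j - α)) (fun j => h j - α) q * MM x (rp q).1.1 (rp q).1.2‖ₑ ^ 2 ≤
      ENNReal.ofReal (C * U ^ ((n : ℝ) + 2 - c)) := by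
  obtain ⟨c₀, hc₀, htp⟩ := tail_pos n δ₀ hδ₀ hδ₁
  set m₀ : ℝ := min c₀ (1 / 4000) with hm₀
  have hm0 : 0 < m₀ := lt_min hc₀ (by norm_num)
  have hm1 : m₀ ≤ c₀ := min_le_left _ _
  have hm2 : m₀ ≤ 1 / 4000 := min_le_right _ _
  have hn1 : (0 : ℝ) < n + 1 := by positivity
  obtain ⟨δ, hδd⟩ : ∃ δ : ℝ, δ = m₀ / (8 * (n + 1)) := ⟨_, rfl⟩
  have hδ : 0 < δ := by rw [hδd]; positivity
  have hδn : δ * (8 * (n + 1)) = m₀ := by rw [hδd]; field_simp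
  have hδ2 : δ ≤ 1 / 2 := by
    have : (0 : ℝ) ≤ δ * n := by positivity
    nlinarith
  obtain ⟨C₁, hC₁, hds⟩ := dual_sieve n δ hδ hδ2
  obtain ⟨C₂, hC₂, htail⟩ := htp δ hδ hδ2
  obtain ⟨C₃, hC₃, hpsi⟩ := psi_bound
  obtain ⟨C₄, hC₄, hdk⟩ := dk_trivial δ hδ hδ2
  obtain ⟨C₅, hC₅, hmm⟩ := mm_bound
  set W : ℝ := ∑' k : ℤ, pwt k with hW
  have hW0 : 0 ≤ W := tsum_nonneg pwt_nonneg
  have hWE : ∑' k : ℤ, ENNReal.ofReal (pwt k) = ENNReal.ofReal W := by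
    rw [hW]
    exact (ENNReal.ofReal_tsum_of_nonneg pwt_nonneg pwt_summable).symm
  refine ⟨m₀ / 4, C₁ * (2 * C₂ + 2 * C₃ * C₄ ^ n) * W ^ n + 1, by positivity, by positivity, ?_⟩
  intro U Y Δ α β Ω hU hY hYU hΔ hΔU hα1 hα2 hβ1 hβ2 hAdm hs
  have hU0 : 0 < U := by linarith
  have hΩc : Continuous Ω := hAdm.1.continuous
  have hΩ1 : ∀ x, ‖Ω x‖ ≤ 1 := by
    intro x
    have := hAdm.2.2.2 0 (by norm_num) x
    simpa using this
  have hs2 : ∀ x, Ω x ≠ 0 → U ≤ x ∧ x ≤ 8 * U := by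
    intro x hx
    refine ⟨(hs x hx).1, ?_⟩
    by_contra h
    exact hx (hAdm.2.2.1 x (by linarith))
  have hΩ0 : ∀ x, x ∉ Set.Icc U (8 * U) → Ω x = 0 := by
    intro x hx
    by_contra h
    exact hx (hs2 x h)
  -- the functions
  set Ψ : ℝ → (Fin n → Q) → ℂ := fun x q => Ω x * MM x (rp q).1.1 (rp q).1.2 with hΨ
  set M : ℝ := C₅ * (8 * U) ^ (1 / 9000 : ℝ) with hM
  have hM0 : 0 ≤ M := by rw [hM]; positivity
  have hΨb : ∀ x q, ‖Ψ x q‖ ≤ (Set.Icc U (8 * U)).indicator (fun _ => M) x := by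
    intro x q
    by_cases hx : x ∈ Set.Icc U (8 * U)
    · rw [Set.indicator_of_mem hx, hΨ]
      simp only
      rw [norm_mul]
      have h1 := hmm x (rp q).1.1 (rp q).1.2 (by linarith [hx.1]) (rp q).2
      have h2 : (((rp q).1.1 : ℕ) * ((rp q).1.2 : ℕ) : ℝ) ^ (-(1 / 2) + 1 / 9 : ℝ) ≤ 1 := by
        apply Real.rpow_le_one_of_one_le_of_nonpos (one_le_hgt (rp q).1) (by norm_num)
      have h3 : x ^ (1 / 9000 : ℝ) ≤ (8 * U) ^ (1 / 9000 : ℝ) :=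
        Real.rpow_le_rpow (by linarith [hx.1]) hx.2 (by norm_num)
      have h4 : ‖MM x (rp q).1.1 (rp q).1.2‖ ≤ M := by
        refine h1.trans ?_
        have hx0 : 0 ≤ x := by linarith [hx.1]
        calc C₅ * x ^ (1 / 9000 : ℝ) * (((rp q).1.1 : ℕ) * ((rp q).1.2 : ℕ) : ℝ) ^
              (-(1 / 2) + 1 / 9 : ℝ) ≤ C₅ * x ^ (1 / 9000 : ℝ) * 1 :=
              mul_le_mul_of_nonneg_left h2 (by positivity)
          _ = C₅ * x ^ (1 / 9000 : ℝ) := mul_one _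
          _ ≤ M := mul_le_mul_of_nonneg_left h3 hC₅.le
      calc ‖Ω x‖ * ‖MM x (rp q).1.1 (rp q).1.2‖ ≤ 1 * M :=
            mul_le_mul (hΩ1 x) h4 (norm_nonneg _) zero_le_one
        _ = M := one_mul M
    · rw [Set.indicator_of_notMem hx, hΨ]
      simp only
      rw [hΩ0 x hx, zero_mul, norm_zero]
  have hg : Integrable ((Set.Icc U (8 * U)).indicator (fun _ : ℝ => M)) := by
    rw [integrable_indicator_iff measurableSet_Icc]
    exact integrableOn_const (C := M) (by exact measure_Icc_lt_top.ne)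
  have hΨi : ∀ q, Integrable fun x => Ψ x q := by
    intro q
    have h1 : ContinuousOn (fun x => Ψ x q) (Set.Icc U (8 * U)) := by
      simp only [hΨ]
      refine hΩc.continuousOn.mul ?_
      refine (mm_cont (rp q).1.1 (rp q).1.2 (rp q).2).mono ?_
      intro x hx
      exact lt_of_lt_of_le hU0 hx.1
    have h2 : IntegrableOn (fun x => Ψ x q) (Set.Icc U (8 * U)) :=
      h1.integrableOn_compact isCompact_Icc
    refine (integrableOn_iff_integrable_of_support_subset ?_).1 h2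
    intro x hx
    by_contra hcon
    apply hx
    simp only [hΨ]
    rw [hΩ0 x hcon, zero_mul]
  have hΨs : ∀ x q, Ψ x q ≠ 0 → α - U ≤ x ∧ x ≤ α + 4 * U := by
    intro x q h
    have : Ω x ≠ 0 := by
      intro h0
      apply h
      simp only [hΨ]
      rw [h0, zero_mul]
    exact (hs x this).2
  have hmain := hds U Y α β Ψ _ hU hα1 hα2 hβ1 hβ2 hΨi hg hΨb hΨs
  have hLHS : ∀ h : Fin n → ℝ, ∫ x, Ω x * ∑' q : Fin n → Q,
        (tl Y q : ℂ) * wn (fun j => x + (h j - α)) (fun j => h j - α) q * MM x (rp q).1.1 (rp q).1.2 =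
      ∫ x, ∑' q : Fin n → Q,
        (tl Y q : ℂ) * wn (fun j => x + (h j - α)) (fun j => h j - α) q * Ψ x q := by
    intro h
    refine integral_congr_ae (Filter.Eventually.of_forall fun x => ?_)
    simp only
    rw [← tsum_mul_left]
    refine tsum_congr fun q => ?_
    simp only [hΨ]
    ring
  simp only [hLHS]
  refine hmain.trans ?_
  -- one character
  set G : ℝ → ℂ := fun x => Ω x * ((‖riemannZeta (1 / 2 + x * I)‖ ^ 4 : ℝ) : ℂ) with hG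
  have hGm : Measurable G := by
    refine hΩc.measurable.mul ?_
    exact Complex.measurable_ofReal.comp LongPartAux.zeta_cont4.measurable
  have hG1 : ∀ x, x < α - U → G x = 0 := by
    intro x hx
    have : Ω x = 0 := by
      by_contra h
      linarith [(hs x h).2.1]
    simp only [hG]
    rw [this, zero_mul]
  have hG2 : ∀ x, α + 4 * U < x → G x = 0 := by
    intro x hx
    have : Ω x = 0 := by
      by_contra h
      linarith [(hs x h).2.2]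
    simp only [hG]
    rw [this, zero_mul]
  have hG3 : ∀ x : ℝ, ‖G x‖ ≤ ‖riemannZeta (1 / 2 + x * I)‖ ^ 4 := by
    intro x
    simp only [hG]
    rw [norm_mul, Complex.norm_real, Real.norm_of_nonneg (by positivity)]
    exact mul_le_of_le_one_left (by positivity) (hΩ1 x)
  set A : ℝ := C₂ * U ^ (2 - c₀ + ((n : ℝ) + 3) * δ) with hA
  have hA0 : 0 ≤ A := by rw [hA]; positivity
  set K : ℝ := (C₄ * U ^ δ) ^ n with hK
  have hK0 : 0 ≤ K := by rw [hK]; positivity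
  have hone : ∀ k : Fin n → ℤ, ∑' q : Fin n → Q, ENNReal.ofReal (tl Y q * kn δ U q) *
      ‖∫ x, Ψ x q * ek U (∑ j, k j) x‖ₑ ^ 2 ≤
      ENNReal.ofReal ((2 * A + 2 * C₃ * U ^ (2 - 1 / 4000 : ℝ) * K) * ∏ j, √(1 + |(k j : ℝ)|)) := by
    intro k
    have hp := prod_ge_one k
    set E : ℝ := C₃ * (2 * U ^ (2 - 1 / 4000 : ℝ) * ∏ j, √(1 + |(k j : ℝ)|)) with hE
    have hE0 : 0 ≤ E := by rw [hE]; positivity
    have h1 : ∀ q : Fin n → Q, ‖∫ x, Ψ x q * ek U (∑ j, k j) x‖ₑ ^ 2 ≤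
        2 * ‖∫ x, G x * ex x (rp q).1 * ek U (∑ j, k j) x‖ₑ ^ 2 + ENNReal.ofReal E := by
      intro q
      have h2 := hpsi U Δ Ω (rp q) (∑ j, k j) hU hΔ hΔU hAdm (fun x hx => (hs x hx).1)
      have h3 := err_le hU k
      have h4 : ‖∫ x, Ψ x q * ek U (∑ j, k j) x‖ ^ 2 ≤
          2 * ‖∫ x, G x * ex x (rp q).1 * ek U (∑ j, k j) x‖ ^ 2 + E := by
        refine h2.trans ?_
        have h5 := mul_le_mul_of_nonneg_left h3 hC₃.le
        simp only [hG, hE]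
        linarith
      rw [← ofReal_norm, ← ofReal_norm]
      exact sq_le (norm_nonneg _) (norm_nonneg _) h4 hE0
    calc ∑' q : Fin n → Q, ENNReal.ofReal (tl Y q * kn δ U q) *
        ‖∫ x, Ψ x q * ek U (∑ j, k j) x‖ₑ ^ 2 ≤
        ∑' q : Fin n → Q, ENNReal.ofReal (tl Y q * kn δ U q) *
          (2 * ‖∫ x, G x * ex x (rp q).1 * ek U (∑ j, k j) x‖ₑ ^ 2 + ENNReal.ofReal E) := by
          refine ENNReal.tsum_le_tsum fun q => ?_
          gcongr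
          exact h1 q
      _ = 2 * (∑' q : Fin n → Q, ENNReal.ofReal (tl Y q * kn δ U q) *
            ‖∫ x, G x * ex x (rp q).1 * ek U (∑ j, k j) x‖ₑ ^ 2) +
          (∑' q : Fin n → Q, ENNReal.ofReal (tl Y q * kn δ U q)) * ENNReal.ofReal E := by
          rw [← ENNReal.tsum_mul_left, ← ENNReal.tsum_mul_right, ← ENNReal.tsum_add]
          refine tsum_congr fun q => ?_
          ring
      _ ≤ 2 * ENNReal.ofReal A + ENNReal.ofReal K * ENNReal.ofReal E := by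
          gcongr
          · exact htail U Y α G (∑ j, k j) hU hY hYU hα1 hα2 hGm hG1 hG2 hG3
          · exact sum_kn hU0.le Y (hdk U hU).1 (hdk U hU).2
      _ = ENNReal.ofReal (2 * A + K * E) := by
          rw [ENNReal.ofReal_add (by positivity) (by positivity), ENNReal.ofReal_mul hK0,
            ENNReal.ofReal_mul (by norm_num : (0 : ℝ) ≤ 2)]
          norm_num
      _ ≤ _ := by
          apply ENNReal.ofReal_le_ofReal
          rw [hE]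
          have : 2 * A ≤ 2 * A * ∏ j, √(1 + |(k j : ℝ)|) :=
            le_mul_of_one_le_right (by positivity) hp
          nlinarith
  set R : ℝ := 2 * A + 2 * C₃ * U ^ (2 - 1 / 4000 : ℝ) * K with hR
  have hR0 : 0 ≤ R := by rw [hR]; positivity
  have hsum : ∑' k : Fin n → ℤ, (∏ j, ENNReal.ofReal (pk (k j))) *
      ∑' q : Fin n → Q, ENNReal.ofReal (tl Y q * kn δ U q) * ‖∫ x, Ψ x q * ek U (∑ j, k j) x‖ₑ ^ 2 ≤
      ENNReal.ofReal (R * W ^ n) := by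
    have h1 : ∀ k : Fin n → ℤ, (∏ j, ENNReal.ofReal (pk (k j))) *
        ∑' q : Fin n → Q, ENNReal.ofReal (tl Y q * kn δ U q) *
          ‖∫ x, Ψ x q * ek U (∑ j, k j) x‖ₑ ^ 2 ≤
        ENNReal.ofReal R * ∏ j, ENNReal.ofReal (pwt (k j)) := by
      intro k
      have hk : (∏ j, ENNReal.ofReal (pk (k j))) *
          ∑' q : Fin n → Q, ENNReal.ofReal (tl Y q * kn δ U q) *
            ‖∫ x, Ψ x q * ek U (∑ j, k j) x‖ₑ ^ 2 ≤ (∏ j, ENNReal.ofReal (pk (k j))) *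
          ENNReal.ofReal (R * ∏ j, √(1 + |(k j : ℝ)|)) := by
        gcongr
        exact hone k
      refine hk.trans (le_of_eq ?_)
      rw [← ENNReal.ofReal_prod_of_nonneg (fun j _ => (pk_pos _).le),
        ← ENNReal.ofReal_prod_of_nonneg (fun j _ => pwt_nonneg _),
        ← ENNReal.ofReal_mul (Finset.prod_nonneg fun j _ => (pk_pos _).le), ← ENNReal.ofReal_mul hR0]
      congr 1
      unfold pwt
      rw [Finset.prod_mul_distrib]
      ring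
    refine (ENNReal.tsum_le_tsum h1).trans (le_of_eq ?_)
    rw [ENNReal.tsum_mul_left, tsum_pi_prod_ennreal (fun (_ : Fin n) (l : ℤ) => ENNReal.ofReal (pwt l)),
      Finset.prod_const, Finset.card_univ, Fintype.card_fin, hWE, ENNReal.ofReal_mul hR0,
      ENNReal.ofReal_pow hW0]
  have hfin : ENNReal.ofReal (C₁ * U ^ ((n : ℝ) * (1 + 2 * δ))) *
      ∑' k : Fin n → ℤ, (∏ j, ENNReal.ofReal (pk (k j))) * ∑' q : Fin n → Q,
        ENNReal.ofReal (tl Y q * kn δ U q) * ‖∫ x, Ψ x q * ek U (∑ j, k j) x‖ₑ ^ 2 ≤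
      ENNReal.ofReal (C₁ * U ^ ((n : ℝ) * (1 + 2 * δ))) * ENNReal.ofReal (R * W ^ n) := by
    gcongr
  refine hfin.trans ?_
  rw [← ENNReal.ofReal_mul (by positivity)]
  apply ENNReal.ofReal_le_ofReal
  -- exponents
  have e1 : U ^ ((n : ℝ) * (1 + 2 * δ)) * U ^ (2 - c₀ + ((n : ℝ) + 3) * δ) ≤
      U ^ ((n : ℝ) + 2 - m₀ / 4) := by
    rw [← Real.rpow_add hU0]
    apply Real.rpow_le_rpow_of_exponent_le hU
    nlinarith
  have e2 : U ^ ((n : ℝ) * (1 + 2 * δ)) * (U ^ (2 - 1 / 4000 : ℝ) * (U ^ δ) ^ n) ≤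
      U ^ ((n : ℝ) + 2 - m₀ / 4) := by
    rw [← Real.rpow_natCast (U ^ δ) n, ← Real.rpow_mul hU0.le, ← Real.rpow_add hU0,
      ← Real.rpow_add hU0]
    apply Real.rpow_le_rpow_of_exponent_le hU
    nlinarith
  have e3 : C₁ * U ^ ((n : ℝ) * (1 + 2 * δ)) * (R * W ^ n) =
      C₁ * (2 * C₂ * (U ^ ((n : ℝ) * (1 + 2 * δ)) * U ^ (2 - c₀ + ((n : ℝ) + 3) * δ)) +
        2 * C₃ * C₄ ^ n * (U ^ ((n : ℝ) * (1 + 2 * δ)) * (U ^ (2 - 1 / 4000 : ℝ) * (U ^ δ) ^ n))) *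
        W ^ n := by
    rw [hR, hA, hK, mul_pow]
    ring
  rw [e3]
  have hT0 : 0 ≤ U ^ ((n : ℝ) + 2 - m₀ / 4) := by positivity
  calc C₁ * (2 * C₂ * (U ^ ((n : ℝ) * (1 + 2 * δ)) * U ^ (2 - c₀ + ((n : ℝ) + 3) * δ)) +
        2 * C₃ * C₄ ^ n * (U ^ ((n : ℝ) * (1 + 2 * δ)) * (U ^ (2 - 1 / 4000 : ℝ) * (U ^ δ) ^ n))) *
        W ^ n ≤ C₁ * (2 * C₂ * U ^ ((n : ℝ) + 2 - m₀ / 4) +
          2 * C₃ * C₄ ^ n * U ^ ((n : ℝ) + 2 - m₀ / 4)) * W ^ n := by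
        gcongr
    _ = C₁ * (2 * C₂ + 2 * C₃ * C₄ ^ n) * W ^ n * U ^ ((n : ℝ) + 2 - m₀ / 4) := by ring
    _ ≤ (C₁ * (2 * C₂ + 2 * C₃ * C₄ ^ n) * W ^ n + 1) * U ^ ((n : ℝ) + 2 - m₀ / 4) := by
        apply mul_le_mul_of_nonneg_right _ hT0
        linarith

end Pool.Agent.P07318g
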