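import Pool.Agent.Lib.P07318g.FixN
import Pool.Agent.Lib.P07318g.LongN
import Pool.Agent.Lib.P07318g.TailN
import Pool.Agent.Lib.P07318g.AfeN

/-!
# The smoothed moment

PROOF. `Y = U^(1/(1000(n+1)))` (`δ₀ = 1/(1000(n+1))` in `long_n`, `tail_n`; `Y^n ≤ U^(1/1000)`). `fix_n` for each good `h`, integrate over the good `h` in the box: the sum of four functions `a₁ + a₂ + a₄ + c`; `a₁`, `a₂` are a.e. measurable
(`par_meas` with `f j y = ‖ζ(1/2+iy)‖²`, `Fd`, `FdSmall Y`; `(∏ ..: ℝ) = ∏ (.. : ℂ)`; `Fd_continuousOn`, `fs_cont`; restrict to the good set, `good_meas`), so `lintegral_add_left'` gives the sum of the integrals (the constant first, `a₄` last).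
`∫ a₁ ≤ C U^(n+1-1/4)` (`afe_n`). For `a = a₂, a₄`: `a ≤ (t a² + t⁻¹)/2`-type bound in `ENNReal` with `t = U^(-1+c/2)`: `∫ a ≤ t ∫ a² + t⁻¹ U^n ≤ C U^(n+1-c/2)` (`long_n`, `tail_n`; the volume of the box is `U^n`). The constant: `≤ C U^(n+1-1/1000)`.
Result with `c = min(c₁/2, c₂/2, 1/1000)`.
-/

set_option autoImplicit false

namespace Pool.Agent.P07318g

open MeasureTheory Complex Pool.Agent.P07318s Pool.Agent.P07318f

namespace SmoothNAux

theorem le_sq (a : ENNReal) {t : ℝ} (ht : 0 < t) :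
    a ≤ ENNReal.ofReal t * a ^ 2 + ENNReal.ofReal t⁻¹ := by
  rcases le_total a (ENNReal.ofReal t⁻¹) with h | h
  · exact h.trans le_add_self
  · have h1 : (1 : ENNReal) ≤ ENNReal.ofReal t * a := by
      calc (1 : ENNReal) = ENNReal.ofReal t * ENNReal.ofReal t⁻¹ := by
            rw [← ENNReal.ofReal_mul ht.le, mul_inv_cancel₀ ht.ne', ENNReal.ofReal_one]
        _ ≤ _ := by gcongr
    calc a = 1 * a := (one_mul a).symm
      _ ≤ (ENNReal.ofReal t * a) * a := by gcongr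
      _ = ENNReal.ofReal t * a ^ 2 := by ring
      _ ≤ _ := le_self_add

theorem vol_box {n : ℕ} {U : ℝ} (hU : 0 ≤ U) (β : Fin n → ℝ) :
    volume (Set.Icc β (fun j => β j + U)) = ENNReal.ofReal (U ^ n) := by
  rw [Real.volume_Icc_pi]
  simp only [add_sub_cancel_left, Finset.prod_const, Finset.card_univ, Fintype.card_fin]
  rw [ENNReal.ofReal_pow hU]

theorem l1_le {n : ℕ} {U C c : ℝ} (hU : 1 ≤ U) (hC : 0 < C) (β : Fin n → ℝ) (a : (Fin n → ℝ) → ENNReal)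
    (h : ∫⁻ h in Set.Icc β (fun j => β j + U), a h ^ 2 ≤ ENNReal.ofReal (C * U ^ ((n : ℝ) + 2 - c))) :
    ∫⁻ h in Set.Icc β (fun j => β j + U), a h ≤ ENNReal.ofReal ((C + 1) * U ^ ((n : ℝ) + 1 - c / 2)) := by
  have hU0 : 0 < U := by linarith
  set t : ℝ := U ^ (-1 + c / 2 : ℝ) with ht
  have ht0 : 0 < t := Real.rpow_pos_of_pos hU0 _
  have hti : t⁻¹ = U ^ (1 - c / 2 : ℝ) := by
    rw [ht, ← Real.rpow_neg hU0.le]
    congr 1
    ring
  calc ∫⁻ h in Set.Icc β (fun j => β j + U), a h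
      ≤ ∫⁻ h in Set.Icc β (fun j => β j + U), (ENNReal.ofReal t * a h ^ 2 + ENNReal.ofReal t⁻¹) :=
        lintegral_mono fun h => le_sq (a h) ht0
    _ = ENNReal.ofReal t * (∫⁻ h in Set.Icc β (fun j => β j + U), a h ^ 2) +
        ENNReal.ofReal t⁻¹ * ENNReal.ofReal (U ^ n) := by
        rw [lintegral_add_right _ measurable_const, lintegral_const_mul' _ _ ENNReal.ofReal_ne_top,
          setLIntegral_const, vol_box hU0.le]
    _ ≤ ENNReal.ofReal t * ENNReal.ofReal (C * U ^ ((n : ℝ) + 2 - c)) +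
        ENNReal.ofReal t⁻¹ * ENNReal.ofReal (U ^ n) := by gcongr
    _ = ENNReal.ofReal ((C + 1) * U ^ ((n : ℝ) + 1 - c / 2)) := by
        rw [← ENNReal.ofReal_mul ht0.le, ← ENNReal.ofReal_mul (by positivity),
          ← ENNReal.ofReal_add (by positivity) (by positivity)]
        congr 1
        have e1 : t * U ^ ((n : ℝ) + 2 - c) = U ^ ((n : ℝ) + 1 - c / 2) := by
          rw [ht, ← Real.rpow_add hU0]
          congr 1
          ring
        have e2 : t⁻¹ * U ^ n = U ^ ((n : ℝ) + 1 - c / 2) := by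
          rw [hti, ← Real.rpow_natCast, ← Real.rpow_add hU0]
          congr 1
          ring
        calc t * (C * U ^ ((n : ℝ) + 2 - c)) + t⁻¹ * U ^ n = C * (t * U ^ ((n : ℝ) + 2 - c)) + t⁻¹ * U ^ n := by
              ring
          _ = _ := by rw [e1, e2]; ring

theorem enorm_le4 {z a b d : ℂ} {c : ℝ} (hc : 0 ≤ c) (h : ‖z‖ ≤ ‖a‖ + ‖b‖ + ‖d‖ + c) :
    ‖z‖ₑ ≤ ENNReal.ofReal c + (‖a‖ₑ + (‖b‖ₑ + ‖d‖ₑ)) := by
  rw [← ofReal_norm, ← ofReal_norm, ← ofReal_norm, ← ofReal_norm, ← ENNReal.ofReal_add (by positivity) (by positivity),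
    ← ENNReal.ofReal_add (by positivity) (by positivity), ← ENNReal.ofReal_add (by positivity) (by positivity)]
  apply ENNReal.ofReal_le_ofReal
  linarith

end SmoothNAux

theorem smooth_n (n : ℕ) (B : ℝ) : ∃ c C : ℝ, 0 < c ∧ 0 < C ∧ ∀ (U Δ α : ℝ) (β : Fin n → ℝ) (Ω : ℝ → ℂ), 1 ≤ U →
    U ^ (1 - 1 / 1000 : ℝ) ≤ Δ → Δ ≤ U → 2 * U ≤ α → α ≤ 6 * U → (∀ j, 2 * U ≤ β j) → (∀ j, β j ≤ 6 * U) → Adm U Δ Ω →
    (∀ x, Ω x ≠ 0 → U ≤ x ∧ α - U ≤ x ∧ x ≤ α + 4 * U) →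
    ∫⁻ h in {h ∈ Set.Icc β (fun j => β j + U) | GoodN (kp n) (U ^ kp n) (B * U ^ kp n) α h}, ‖En Ω α h‖ₑ ≤
      ENNReal.ofReal (C * U ^ ((n : ℝ) + 1 - c)) := by
  classical
  set δ₀ : ℝ := 1 / (1000 * ((n : ℝ) + 1)) with hδ₀
  have hn0 : (0 : ℝ) ≤ n := Nat.cast_nonneg n
  have hδ0 : 0 < δ₀ := by positivity
  have hδ1 : δ₀ ≤ 1 := by
    rw [hδ₀, div_le_one (by positivity)]
    nlinarith
  have hδn : δ₀ * n ≤ 1 / 1000 := by
    rw [hδ₀, div_mul_eq_mul_div, one_mul, div_le_div_iff₀ (by positivity) (by norm_num)]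
    nlinarith
  obtain ⟨C1, hC1, hafe⟩ := afe_n n
  obtain ⟨c2, C2, hc2, hC2, hlong⟩ := long_n n δ₀ hδ0 hδ1
  obtain ⟨c3, C3, hc3, hC3, htail⟩ := tail_n n δ₀ hδ0 hδ1
  obtain ⟨C4, hC4, hfix⟩ := fix_n n B
  refine ⟨min (min (c2 / 2) (c3 / 2)) (1 / 1000), C4 + (C1 + ((C2 + 1) + (C3 + 1))),
    lt_min (lt_min (by positivity) (by positivity)) (by norm_num), by positivity, ?_⟩
  intro U Δ α β Ω hU hΔ1 hΔ2 hα1 hα2 hβ1 hβ2 hAdm hsupp
  set c : ℝ := min (min (c2 / 2) (c3 / 2)) (1 / 1000) with hc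
  have hcc1 : c ≤ 1 / 1000 := min_le_right _ _
  have hcc2 : c ≤ c2 / 2 := (min_le_left _ _).trans (min_le_left _ _)
  have hcc3 : c ≤ c3 / 2 := (min_le_left _ _).trans (min_le_right _ _)
  have hU0 : 0 < U := by linarith
  have hΩc : Continuous Ω := hAdm.1.continuous
  have hΩ1 : ∀ x, ‖Ω x‖ ≤ 1 := fun x => by simpa using hAdm.2.2.2 0 (by norm_num) x
  set Y : ℝ := U ^ δ₀ with hY
  have hY1 : 1 ≤ Y := Real.one_le_rpow hU hδ0.le
  have hYU : Y ≤ U := by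
    calc Y ≤ U ^ (1:ℝ) := Real.rpow_le_rpow_of_exponent_le hU hδ1
      _ = U := Real.rpow_one U
  have hYn : Y ^ n ≤ U ^ (1 / 1000 : ℝ) := by
    rw [hY, ← Real.rpow_natCast, ← Real.rpow_mul hU0.le]
    exact Real.rpow_le_rpow_of_exponent_le hU hδn
  set G : ℝ → ℂ := fun x => Ω x * ((‖riemannZeta (1 / 2 + x * I)‖ ^ 4 : ℝ) : ℂ) with hG
  have hGc : Continuous G := hΩc.mul (Complex.continuous_ofReal.comp ((AfeNAux.zcont.norm).pow 4))
  have hG1 : ∀ x, x < α - U → G x = 0 := by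
    intro x hx
    have : Ω x = 0 := by
      by_contra h0
      have := (hsupp _ h0).2.1
      linarith
    simp [hG, this]
  have hG2 : ∀ x, α + 4 * U < x → G x = 0 := by
    intro x hx
    have : Ω x = 0 := by
      by_contra h0
      have := (hsupp _ h0).2.2
      linarith
    simp [hG, this]
  have hG3 : ∀ x : ℝ, ‖G x‖ ≤ ‖riemannZeta (1 / 2 + x * I)‖ ^ 4 := by
    intro x
    simp only [hG]
    rw [norm_mul, Complex.norm_real, Real.norm_of_nonneg (by positivity)]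
    exact mul_le_of_le_one_left (by positivity) (hΩ1 _)
  set P : Set (Fin n → ℝ) := {h ∈ Set.Icc β (fun j => β j + U) | GoodN (kp n) (U ^ kp n) (B * U ^ kp n) α h} with hP
  have hPm : MeasurableSet P := measurableSet_Icc.inter (good_meas _ _ _ _)
  have hA := hafe U α β G hU hα1 hα2 hβ1 hβ2 hGc.measurable hG1 hG2 hG3
  have hL := SmoothNAux.l1_le hU hC2 β _ (hlong U Y α β G hU le_rfl hYU hα1 hα2 hβ1 hβ2 hGc.measurable hG1 hG2 hG3)
  have hT := SmoothNAux.l1_le hU hC3 β _ (htail U Y Δ α β Ω hU le_rfl hYU hΔ1 hΔ2 hα1 hα2 hβ1 hβ2 hAdm hsupp)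
  have hfd : ContinuousOn Fd (Set.Ioi 0) := Fd_continuousOn
  have hz2 : ContinuousOn (fun y : ℝ => ((‖riemannZeta (1 / 2 + (y : ℂ) * I)‖ ^ 2 : ℝ) : ℂ)) (Set.Ioi 0) :=
    (Complex.continuous_ofReal.comp ((AfeNAux.zcont.norm).pow 2)).continuousOn
  have hm1 : AEMeasurable (fun h : Fin n → ℝ => ‖∫ x, G x * (((∏ j, ‖riemannZeta (1 / 2 + ((x + (h j - α) : ℝ) : ℂ) * I)‖ ^ 2 : ℝ) : ℂ) -
        ∏ j, Fd (x + (h j - α)))‖ₑ) (volume.restrict (Set.Icc β fun j => β j + U)) := by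
    have h1 := (par_meas U α β G
      (fun _ y => ((‖riemannZeta (1 / 2 + (y : ℂ) * I)‖ ^ 2 : ℝ) : ℂ)) (fun _ => Fd) hU0 hGc.measurable hG1
      hβ1 (fun _ => hz2) (fun _ => hfd)).enorm
    refine h1.congr (Filter.Eventually.of_forall fun h => ?_)
    simp only [Complex.ofReal_prod]
  have hm2 : AEMeasurable (fun h : Fin n → ℝ => ‖∫ x, G x * ((∏ j, Fd (x + (h j - α))) -
        ∏ j, FdSmall Y (x + (h j - α)))‖ₑ) (volume.restrict (Set.Icc β fun j => β j + U)) :=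
    (par_meas U α β G (fun _ => Fd) (fun _ => FdSmall Y) hU0 hGc.measurable hG1
      hβ1 (fun _ => hfd) (fun _ => fs_cont Y)).enorm
  have hpt : ∀ h ∈ P, ‖En Ω α h‖ₑ ≤ ENNReal.ofReal (C4 * U ^ (1 - 1 / 1000 : ℝ)) +
      (‖∫ x, G x * (((∏ j, ‖riemannZeta (1 / 2 + ((x + (h j - α) : ℝ) : ℂ) * I)‖ ^ 2 : ℝ) : ℂ) -
        ∏ j, Fd (x + (h j - α)))‖ₑ + (‖∫ x, G x * ((∏ j, Fd (x + (h j - α))) -
        ∏ j, FdSmall Y (x + (h j - α)))‖ₑ + ‖∫ x, Ω x * ∑' q : Fin n → Q,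
        (tl Y q : ℂ) * wn (fun j => x + (h j - α)) (fun j => h j - α) q * MM x (rp q).1.1 (rp q).1.2‖ₑ)) := by
    intro h hh
    exact SmoothNAux.enorm_le4 (by positivity)
      (hfix U Y Δ α β h Ω hU hY1 hYn hΔ1 hΔ2 hα1 hα2 hβ1 hβ2 hh.1 hAdm hsupp hh.2)
  refine (setLIntegral_mono' hPm hpt).trans ?_
  refine (lintegral_mono_set (Set.sep_subset _ _)).trans ?_
  rw [lintegral_add_left measurable_const, lintegral_add_left' hm1, lintegral_add_left' hm2,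
    setLIntegral_const, SmoothNAux.vol_box hU0.le]
  have r0 : C4 * U ^ (1 - 1 / 1000 : ℝ) * U ^ n ≤ C4 * U ^ ((n : ℝ) + 1 - c) := by
    have e1 : U ^ (1 - 1 / 1000 : ℝ) * U ^ n = U ^ ((n : ℝ) + 1 - 1 / 1000) := by
      rw [← Real.rpow_natCast, ← Real.rpow_add hU0]
      congr 1
      ring
    rw [mul_assoc, e1]
    exact mul_le_mul_of_nonneg_left (Real.rpow_le_rpow_of_exponent_le hU (by linarith)) hC4.le
  have r1 : C1 * U ^ ((n : ℝ) + 1 - 1 / 4) ≤ C1 * U ^ ((n : ℝ) + 1 - c) :=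
    mul_le_mul_of_nonneg_left (Real.rpow_le_rpow_of_exponent_le hU (by linarith)) hC1.le
  have r2 : (C2 + 1) * U ^ ((n : ℝ) + 1 - c2 / 2) ≤ (C2 + 1) * U ^ ((n : ℝ) + 1 - c) :=
    mul_le_mul_of_nonneg_left (Real.rpow_le_rpow_of_exponent_le hU (by linarith)) (by positivity)
  have r3 : (C3 + 1) * U ^ ((n : ℝ) + 1 - c3 / 2) ≤ (C3 + 1) * U ^ ((n : ℝ) + 1 - c) :=
    mul_le_mul_of_nonneg_left (Real.rpow_le_rpow_of_exponent_le hU (by linarith)) (by positivity)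
  refine (add_le_add le_rfl (add_le_add hA (add_le_add hL hT))).trans ?_
  rw [← ENNReal.ofReal_mul (by positivity), ← ENNReal.ofReal_add (by positivity) (by positivity),
    ← ENNReal.ofReal_add (by positivity) (by positivity), ← ENNReal.ofReal_add (by positivity) (by positivity)]
  apply ENNReal.ofReal_le_ofReal
  nlinarith

end Pool.Agent.P07318g
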