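import Pool.Agent.Lib.P07318g.Defs
import Pool.Agent.Lib.P07318f.Trunc

/-!
# Sums of the main terms of the twisted fourth moment with general coefficients

Copy of `sum_mi`, `tt_crude` (P07318f/SumMI.lean) and `TruncAux.ttD_cont`, `ttZ_cont` (P07318f/Trunc.lean) with the
coefficients `c i`, `r i : Q`.
-/

set_option autoImplicit false

namespace Pool.Agent.P07318g

open MeasureTheory Complex Pool.Agent.P07318s Pool.Agent.P07318f

namespace SumAAux

open SumMIAux TruncAux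

variable {ι : Type} [Countable ι]

theorem exch {α : Type*} [MeasurableSpace α] {μ : Measure α} (c : ι → ℂ) (hc : Summable fun i => ‖c i‖) (F : ι → α → ℂ)
    (B : ℝ) (hF : ∀ i, Integrable (F i) μ) (hB : ∀ i, ∫ v, ‖F i v‖ ∂μ ≤ B) :
    HasSum (fun i => c i * ∫ v, F i v ∂μ) (∫ v, ∑' i, c i * F i v ∂μ) := by
  have h1 : ∀ i, Integrable (fun v => c i * F i v) μ := fun i => (hF i).const_mul _
  have h2 : Summable fun i => ∫ v, ‖c i * F i v‖ ∂μ := by
    refine Summable.of_nonneg_of_le (fun q => integral_nonneg fun v => norm_nonneg _) (fun i => ?_)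
      (hc.mul_right B)
    have e : ∀ v, ‖c i * F i v‖ = ‖c i‖ * ‖F i v‖ := fun v => norm_mul _ _
    simp_rw [e]
    rw [integral_const_mul]
    exact mul_le_mul_of_nonneg_left (hB i) (norm_nonneg _)
  have h3 := hasSum_integral_of_summable_integral_norm h1 h2
  simpa only [integral_const_mul] using h3

omit [Countable ι] in
theorem tt_d (c : ι → ℂ) (r : ι → Q) {s : ℂ} (hs : ‖s‖ = rho) (v : ℝ) :
    ∑' i, c i *
      DD (r i).1.1 (r i).1.2 (uD s (cz + v * I) 0) (uD s (cz + v * I) 1) (uD s (cz + v * I) 2)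
        (uD s (cz + v * I) 3) = TA c r (uD s (cz + v * I)) := by
  unfold TA
  rw [← tsum_mul_left]
  refine tsum_congr fun i => ?_
  rw [(dd_summable (r i).1.1 (r i).1.2 (uD_mem hs v)).2]
  ring

theorem sum_d (c : ι → ℂ) (r : ι → Q) (hc : Summable fun i => ‖c i‖) {x : ℝ} {s : ℂ} (hx : 1 ≤ x) (hs : ‖s‖ = rho) :
    HasSum (fun i => c i * Dint s x (r i).1.1 (r i).1.2) (DA (TA c r) s x) := by
  obtain ⟨C, hC, h⟩ := mi_int_d
  have hpos : 0 ≤ C * x ^ (1 / 10000 : ℝ) := by positivity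
  have key := exch c hc (μ := volume) (fun (i : ι) (v : ℝ) =>
      Gw s (cz + v * I) / (cz + v * I) * X2 x (2 * (cz + v * I)) *
      DD (r i).1.1 (r i).1.2 (uD s (cz + v * I) 0) (uD s (cz + v * I) 1) (uD s (cz + v * I) 2)
        (uD s (cz + v * I) 3)) (C * x ^ (1 / 10000 : ℝ))
    (fun i => (h x s (r i).1.1 (r i).1.2 hx hs (r i).2).1) (fun i => by
      refine (h x s (r i).1.1 (r i).1.2 hx hs (r i).2).2.trans ?_
      refine mul_le_of_le_one_right hpos ?_
      exact Real.rpow_le_one_of_one_le_of_nonpos (one_le_hgt (r i).1) (by norm_num))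
  have k2 := key.mul_left ((2 * Real.pi : ℂ)⁻¹)
  have e : (2 * Real.pi : ℂ)⁻¹ * (∫ v : ℝ, ∑' i, c i *
      (Gw s (cz + v * I) / (cz + v * I) * X2 x (2 * (cz + v * I)) *
      DD (r i).1.1 (r i).1.2 (uD s (cz + v * I) 0) (uD s (cz + v * I) 1) (uD s (cz + v * I) 2)
        (uD s (cz + v * I) 3))) = DA (TA c r) s x := by
    unfold DA
    congr 1
    refine integral_congr_ae (Filter.Eventually.of_forall fun v => ?_)
    simp only
    rw [← tt_d c r hs v, ← tsum_mul_left]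
    exact tsum_congr fun i => by ring
  rw [e] at k2
  have e2 : ∀ i : ι, Dint s x (r i).1.1 (r i).1.2 = (2 * Real.pi : ℂ)⁻¹ * ∫ v : ℝ,
      Gw s (cz + v * I) / (cz + v * I) * X2 x (2 * (cz + v * I)) *
      DD (r i).1.1 (r i).1.2 (uD s (cz + v * I) 0) (uD s (cz + v * I) 1) (uD s (cz + v * I) 2)
        (uD s (cz + v * I) 3) := fun i => rfl
  refine k2.congr_fun fun i => ?_
  rw [e2]
  ring

theorem sum_z (c : ι → ℂ) (r : ι → Q) (hc : Summable fun i => ‖c i‖) {x : ℝ} {s α β : ℂ} (hx : 1 ≤ x)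
    (hs : ‖s‖ = rho) (hα : α = s ∨ α = 2 * s) (hβ : β = s ∨ β = 2 * s) :
    HasSum (fun i => c i * Zint s α β x (r i).1.1 (r i).1.2) (ZA (TA c r) s α β x) := by
  obtain ⟨C, hC, h⟩ := mi_int_z
  have hpos : 0 ≤ C * x ^ (1 / 10000 : ℝ) := by positivity
  have key := exch c hc (μ := volume) (fun (i : ι) (v : ℝ × ℝ × ℝ) =>
      Zker s α β x (cw + v.1 * I) (cz + v.2.1 * I) (cz + v.2.2 * I) *
      (riemannZeta (1 - α - β - 2 * (cw + v.1 * I)) *
        EE (r i).1.1 (r i).1.2 (uZ s α β (cw + v.1 * I) (cz + v.2.1 * I) (cz + v.2.2 * I) 0)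
          (uZ s α β (cw + v.1 * I) (cz + v.2.1 * I) (cz + v.2.2 * I) 1)
          (uZ s α β (cw + v.1 * I) (cz + v.2.1 * I) (cz + v.2.2 * I) 2)
          (uZ s α β (cw + v.1 * I) (cz + v.2.1 * I) (cz + v.2.2 * I) 3))) (C * x ^ (1 / 10000 : ℝ))
    (fun i => (h x s α β (r i).1.1 (r i).1.2 hx hs hα hβ (r i).2).1) (fun i => by
      refine (h x s α β (r i).1.1 (r i).1.2 hx hs hα hβ (r i).2).2.trans ?_
      refine mul_le_of_le_one_right hpos ?_
      exact Real.rpow_le_one_of_one_le_of_nonpos (one_le_hgt (r i).1) (by norm_num))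
  have k2 := key.mul_left (((2 * Real.pi : ℂ) ^ 3)⁻¹)
  have e : ((2 * Real.pi : ℂ) ^ 3)⁻¹ * (∫ v : ℝ × ℝ × ℝ, ∑' i, c i *
      (Zker s α β x (cw + v.1 * I) (cz + v.2.1 * I) (cz + v.2.2 * I) *
      (riemannZeta (1 - α - β - 2 * (cw + v.1 * I)) *
        EE (r i).1.1 (r i).1.2 (uZ s α β (cw + v.1 * I) (cz + v.2.1 * I) (cz + v.2.2 * I) 0)
          (uZ s α β (cw + v.1 * I) (cz + v.2.1 * I) (cz + v.2.2 * I) 1)
          (uZ s α β (cw + v.1 * I) (cz + v.2.1 * I) (cz + v.2.2 * I) 2)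
          (uZ s α β (cw + v.1 * I) (cz + v.2.1 * I) (cz + v.2.2 * I) 3)))) = ZA (TA c r) s α β x := by
    unfold ZA
    congr 1
    refine integral_congr_ae (Filter.Eventually.of_forall fun v => ?_)
    simp only
    unfold TA
    rw [uZ_sum, ← tsum_mul_left, ← tsum_mul_left]
    refine tsum_congr fun i => ?_
    ring
  rw [e] at k2
  have e2 : ∀ i : ι, Zint s α β x (r i).1.1 (r i).1.2 = ((2 * Real.pi : ℂ) ^ 3)⁻¹ * ∫ v : ℝ × ℝ × ℝ,
      Zker s α β x (cw + v.1 * I) (cz + v.2.1 * I) (cz + v.2.2 * I) *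
      (riemannZeta (1 - α - β - 2 * (cw + v.1 * I)) *
        EE (r i).1.1 (r i).1.2 (uZ s α β (cw + v.1 * I) (cz + v.2.1 * I) (cz + v.2.2 * I) 0)
          (uZ s α β (cw + v.1 * I) (cz + v.2.1 * I) (cz + v.2.2 * I) 1)
          (uZ s α β (cw + v.1 * I) (cz + v.2.1 * I) (cz + v.2.2 * I) 2)
          (uZ s α β (cw + v.1 * I) (cz + v.2.1 * I) (cz + v.2.2 * I) 3)) := fun i => rfl
  refine k2.congr_fun fun i => ?_
  rw [e2]
  ring

omit [Countable ι] in
/-- bound of a weighted sum -/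
theorem wsum_le {c : ι → ℂ} (hc : Summable fun i => ‖c i‖) {B : ℝ} (E : ι → ℂ) (hE : ∀ i, ‖E i‖ ≤ B) :
    ‖∑' i, c i * E i‖ ≤ B * ∑' i, ‖c i‖ := by
  have h1 : ∀ i, ‖c i * E i‖ ≤ B * ‖c i‖ := fun i => by
    rw [norm_mul, mul_comm]
    exact mul_le_mul_of_nonneg_right (hE i) (norm_nonneg _)
  have h2 : Summable fun i => ‖c i * E i‖ :=
    Summable.of_nonneg_of_le (fun i => norm_nonneg _) h1 (hc.mul_left B)
  refine (norm_tsum_le_tsum_norm h2).trans ?_
  rw [← tsum_mul_left]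
  exact h2.tsum_le_tsum h1 (hc.mul_left B)

end SumAAux

open SumAAux SumMIAux TruncAux

theorem sum_a {ι : Type} [Countable ι] (c : ι → ℂ) (r : ι → Q) (hc : Summable fun i => ‖c i‖) (x : ℝ) (s : ℂ)
    (hx : 1 ≤ x) (hs : ‖s‖ = rho) :
    (Summable fun i => ‖c i * MI s x (r i).1.1 (r i).1.2‖) ∧
    ∑' i, c i * MI s x (r i).1.1 (r i).1.2 =
      DA (TA c r) s x + (ZA (TA c r) s s s x + ZA (TA c r) s s (2 * s) x +
        (ZA (TA c r) s (2 * s) s x + ZA (TA c r) s (2 * s) (2 * s) x)) := by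
  constructor
  · obtain ⟨C, hC, h⟩ := mi_bound
    have hpos : 0 ≤ C * x ^ (1 / 10000 : ℝ) := by positivity
    refine Summable.of_nonneg_of_le (fun i => norm_nonneg _) (fun i => ?_)
      (hc.mul_right (C * x ^ (1 / 10000 : ℝ)))
    rw [norm_mul]
    refine mul_le_mul_of_nonneg_left ?_ (norm_nonneg _)
    refine (h x s (r i).1.1 (r i).1.2 hx hs (r i).2).trans ?_
    refine mul_le_of_le_one_right hpos ?_
    exact Real.rpow_le_one_of_one_le_of_nonpos (one_le_hgt (r i).1) (by norm_num)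
  · have h := (sum_d c r hc hx hs).add (((sum_z c r hc hx hs (Or.inl rfl) (Or.inl rfl)).add
      (sum_z c r hc hx hs (Or.inl rfl) (Or.inr rfl))).add ((sum_z c r hc hx hs (Or.inr rfl) (Or.inl rfl)).add
      (sum_z c r hc hx hs (Or.inr rfl) (Or.inr rfl))))
    rw [← h.tsum_eq]
    refine tsum_congr fun i => ?_
    unfold MI
    ring

theorem ta_crude : ∃ C : ℝ, 0 < C ∧ ∀ {ι : Type} [Countable ι] (c : ι → ℂ) (r : ι → Q) (S : ℝ) (s : ℂ),
    (Summable fun i => ‖c i‖) → ∑' i, ‖c i‖ ≤ S → ‖s‖ = rho →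
    (∀ v : ℝ, ‖TA c r (uD s (cz + v * I))‖ ≤ C * S) ∧
    ∀ α β : ℂ, (α = s ∨ α = 2 * s) → (β = s ∨ β = 2 * s) → ∀ v1 v2 v3 : ℝ,
      ‖TA c r (uZ s α β (cw + v1 * I) (cz + v2 * I) (cz + v3 * I))‖ ≤ C * S * (1 + |v1|) := by
  obtain ⟨Cd, hCd, hdd⟩ := dd_bound (1 / 10 ^ 6) (by norm_num)
  obtain ⟨Ce, hCe, hee⟩ := ee_bound (1 / 10 ^ 6) (by norm_num)
  obtain ⟨Cz, hCz, hzz⟩ := zeta_b
  refine ⟨Cd + Cz * 3 * Ce, by positivity, ?_⟩
  intro ι _ c r S s hc hS hs
  have hs0 : 0 ≤ ∑' i, ‖c i‖ := tsum_nonneg fun i => norm_nonneg _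
  have hS0 : 0 ≤ S := hs0.trans hS
  constructor
  · intro v
    rw [← tt_d c r hs v]
    have h1 := SumAAux.wsum_le hc (B := Cd) (fun i => DD (r i).1.1 (r i).1.2 (uD s (cz + v * I) 0)
      (uD s (cz + v * I) 1) (uD s (cz + v * I) 2) (uD s (cz + v * I) 3)) (fun i => by
        refine (hdd (r i).1.1 (r i).1.2 _ (r i).2 (uD_re hs v)).trans ?_
        refine mul_le_of_le_one_right hCd.le ?_
        exact Real.rpow_le_one_of_one_le_of_nonpos (one_le_hgt (r i).1) (by norm_num))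
    refine h1.trans ?_
    have h2 : Cd * ∑' i, ‖c i‖ ≤ Cd * S := mul_le_mul_of_nonneg_left hS hCd.le
    have h3 : 0 ≤ Cz * 3 * Ce * S := by positivity
    linarith [h2, h3]
  · intro α β hα hβ v1 v2 v3
    obtain ⟨⟨a1, a2⟩, ⟨a3, a4⟩, a5⟩ := two_cases hs hα
    obtain ⟨⟨b1, b2⟩, ⟨b3, b4⟩, b5⟩ := two_cases hs hβ
    obtain ⟨s1, s2⟩ := re_rho hs
    have hz : ‖riemannZeta (1 - α - β - 2 * (cw + v1 * I))‖ ≤ Cz * (3 * (1 + |v1|)) := by
      have hre : (1 - α - β - 2 * ((cw : ℂ) + v1 * I)).re = 1 - α.re - β.re - 1 / 16 := by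
        simp [cw]
        norm_num
      have him : (1 - α - β - 2 * ((cw : ℂ) + v1 * I)).im = - α.im - β.im - 2 * v1 := by
        simp [cw]
      refine (hzz _ ?_ ?_ ?_).trans ?_
      · rw [hre]
        norm_num at a1 a2 b1 b2 ⊢
        linarith
      · rw [hre]
        norm_num at a1 a2 b1 b2 ⊢
        linarith
      · have h1 := Complex.abs_re_le_norm (1 - α - β - 2 * ((cw : ℂ) + v1 * I) - 1)
        rw [sub_re, hre, one_re] at h1
        refine le_trans ?_ h1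
        rw [le_abs]
        right
        norm_num at a1 a2 b1 b2 ⊢
        linarith
      · rw [him]
        refine mul_le_mul_of_nonneg_left ?_ hCz.le
        have h1 : |-α.im - β.im - 2 * v1| ≤ |α.im| + |β.im| + 2 * |v1| := by
          have e : -α.im - β.im - 2 * v1 = -(α.im + β.im + 2 * v1) := by ring
          rw [e, abs_neg]
          refine (abs_add_three _ _ _).trans ?_
          rw [abs_mul, abs_two]
        have h2 : |α.im| ≤ 1 / 2 := abs_le.2 ⟨by norm_num at a3 ⊢; linarith, by norm_num at a4 ⊢; linarith⟩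
        have h3 : |β.im| ≤ 1 / 2 := abs_le.2 ⟨by norm_num at b3 ⊢; linarith, by norm_num at b4 ⊢; linarith⟩
        have h4 := abs_nonneg v1
        linarith
    unfold TA
    rw [uZ_sum, norm_mul]
    have h1 := SumAAux.wsum_le hc (B := Ce) (fun i => EE (r i).1.1 (r i).1.2
      (uZ s α β (cw + v1 * I) (cz + v2 * I) (cz + v3 * I) 0)
      (uZ s α β (cw + v1 * I) (cz + v2 * I) (cz + v3 * I) 1)
      (uZ s α β (cw + v1 * I) (cz + v2 * I) (cz + v3 * I) 2)
      (uZ s α β (cw + v1 * I) (cz + v2 * I) (cz + v3 * I) 3)) (fun i => by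
        have r1 := uZ_re1 (α := α) hs hβ v1 v2 v3
        have r3 := uZ_re3 (β := β) hs hα v1 v2 v3
        refine (hee (r i).1.1 (r i).1.2 _ (r i).2 (uZ_re03 hs hα _ _ _) (uZ_re12 hs hβ _ _ _)
          (uZ_re02 hs hα hβ _ _ _) r1.1 r1.2 r3.1 r3.2).trans ?_
        refine mul_le_of_le_one_right hCe.le ?_
        exact Real.rpow_le_one_of_one_le_of_nonpos (one_le_hgt (r i).1) (by norm_num))
    have h2 := h1.trans (mul_le_mul_of_nonneg_left hS hCe.le)
    have h3 := mul_le_mul hz h2 (norm_nonneg _) (by positivity)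
    refine h3.trans ?_
    have h4 : 0 ≤ Cd * S * (1 + |v1|) := by positivity
    have h5 : Cz * (3 * (1 + |v1|)) * (Ce * S) = Cz * 3 * Ce * S * (1 + |v1|) := by
      ring
    rw [h5, add_mul, add_mul]
    linarith

theorem ta_cont_d {ι : Type} [Countable ι] (c : ι → ℂ) (r : ι → Q) (hc : Summable fun i => ‖c i‖) (s : ℂ)
    (hs : ‖s‖ = rho) : Continuous fun v : ℝ => TA c r (uD s (cz + v * I)) := by
  obtain ⟨Cd, hCd, hdd⟩ := dd_bound (1 / 10 ^ 6) (by norm_num)
  have e : (fun v : ℝ => TA c r (uD s (cz + v * I))) = fun v : ℝ =>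
      ∑' i, c i *
      DD (r i).1.1 (r i).1.2 (uD s (cz + v * I) 0) (uD s (cz + v * I) 1) (uD s (cz + v * I) 2)
        (uD s (cz + v * I) 3) := by
    funext v
    exact (tt_d c r hs v).symm
  rw [e]
  refine continuous_tsum (fun i => ?_) (hc.mul_right Cd) (fun i v => ?_)
  · refine continuous_const.mul ?_
    have e2 : (fun v : ℝ => DD (r i).1.1 (r i).1.2 (uD s (cz + v * I) 0) (uD s (cz + v * I) 1)
        (uD s (cz + v * I) 2) (uD s (cz + v * I) 3)) = fun v : ℝ =>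
        riemannZeta (1 + uD s (cz + v * I) 1 + uD s (cz + v * I) 3) *
        EE (r i).1.1 (r i).1.2 (uD s (cz + v * I) 0) (uD s (cz + v * I) 1)
        (uD s (cz + v * I) 2) (uD s (cz + v * I) 3) := by
      funext v
      exact (dd_summable (r i).1.1 (r i).1.2 (uD_mem hs v)).2
    rw [e2]
    refine Continuous.mul ?_ ?_
    · have hc := uD_cont s
      refine zeta_cont ?_ ?_
      · exact (continuous_const.add ((continuous_apply 1).comp hc)).add
          ((continuous_apply 3).comp hc)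
      · intro v h
        have h4 := (uD_mem hs v).2.2.2
        have h5 : uD s (cz + v * I) 1 + uD s (cz + v * I) 3 = 0 := by linear_combination h
        rw [h5] at h4
        simp at h4
    · exact (ee_cont (r i).1.1 (r i).1.2).comp_continuous (uD_cont s) (fun v => uD_memE hs v)
  · rw [norm_mul]
    refine mul_le_mul_of_nonneg_left ?_ (norm_nonneg _)
    refine (hdd (r i).1.1 (r i).1.2 _ (r i).2 (uD_re hs v)).trans ?_
    refine mul_le_of_le_one_right hCd.le ?_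
    exact Real.rpow_le_one_of_one_le_of_nonpos (one_le_hgt (r i).1) (by norm_num)

theorem ta_cont_z {ι : Type} [Countable ι] (c : ι → ℂ) (r : ι → Q) (hc : Summable fun i => ‖c i‖) (s α β : ℂ)
    (hs : ‖s‖ = rho) (hα : α = s ∨ α = 2 * s) (hβ : β = s ∨ β = 2 * s) :
    Continuous fun v : ℝ × ℝ × ℝ => TA c r (uZ s α β (cw + v.1 * I) (cz + v.2.1 * I) (cz + v.2.2 * I)) := by
  obtain ⟨Ce, hCe, hee⟩ := ee_bound (1 / 10 ^ 6) (by norm_num)
  have hcu := uZ_cont s α β
  unfold TA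
  refine Continuous.mul ?_ ?_
  · refine zeta_cont ?_ ?_
    · exact (continuous_const.add ((continuous_apply 1).comp hcu)).add
        ((continuous_apply 3).comp hcu)
    · intro v h
      exact uZ_ne13 hs hα hβ v.1 v.2.1 v.2.2 (by linear_combination h)
  · refine continuous_tsum (u := fun i => ‖c i‖ * Ce) (fun i => ?_)
      (hc.mul_right Ce) (fun i v => ?_)
    · exact continuous_const.mul ((ee_cont (r i).1.1 (r i).1.2).comp_continuous hcu
        (fun v => uZ_memE hs hα hβ v.1 v.2.1 v.2.2))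
    · rw [norm_mul]
      refine mul_le_mul_of_nonneg_left ?_ (norm_nonneg _)
      have r1 := uZ_re1 (α := α) hs hβ v.1 v.2.1 v.2.2
      have r3 := uZ_re3 (β := β) hs hα v.1 v.2.1 v.2.2
      refine (hee (r i).1.1 (r i).1.2 _ (r i).2 (uZ_re03 hs hα _ _ _) (uZ_re12 hs hβ _ _ _)
        (uZ_re02 hs hα hβ _ _ _) r1.1 r1.2 r3.1 r3.2).trans ?_
      refine mul_le_of_le_one_right hCe.le ?_
      exact Real.rpow_le_one_of_one_le_of_nonpos (one_le_hgt (r i).1) (by norm_num)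

end Pool.Agent.P07318g
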