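import Pool.Agent.Lib.P07318g.SumA
import Pool.Agent.Lib.P07318f.Trunc

/-!
# Truncation, general coefficients

Copy of `trunc_d`, `trunc_z` (P07318f/Trunc.lean) with `TT x y`, `HH x y` replaced by `TA c r`, `H`: the hypothesis `hres` replaces `res_three`, `Hol4` replaces `hh_hol`, `ta_crude` replaces `tt_crude`,
`ta_cont_d`, `ta_cont_z` replace `ttD_cont`, `ttZ_cont`. Inside the range of integration the difference is `≤ C E U^(1/1000)` (`‖Gw/w X2‖ ≤ C U^(1/1000) exp(-v²/2)`, `|Pi4| ≥ 10^(-24)`), outside it is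
`≤ C S U^(1/1000) exp(-U^(2κ)/1024) ≤ C S U^(-N)` (`TruncAux.growth'` with `a = N + 1/1000`).
-/

set_option autoImplicit false

namespace Pool.Agent.P07318g

open MeasureTheory Complex Pool.Agent.P07318s Pool.Agent.P07318f

open TruncAux SumMIAux

namespace TruncAAux

theorem comb {a b e f p : ℝ} (h1 : 0 ≤ a * p) (h2 : 0 ≤ b * p) (h3 : 0 ≤ e) (h4 : 0 ≤ f) :
    a * p * e + b * p * f ≤ ((a + b) * p + 1) * (e + f) := by
  nlinarith [mul_nonneg h1 h4, mul_nonneg h2 h3]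


theorem rr_close' {T H : (Fin 4 → ℂ) → ℂ} {u : Fin 4 → ℂ} {E : ℝ} (hP : ((1 / 10 ^ 6) ^ 4 : ℝ) ≤ ‖Pi4 u‖)
    (h : ‖Pi4 u * T u - H u‖ ≤ E) :
    ‖T u - RR H u‖ ≤ 10 ^ 24 * E := by
  have hpos : (0 : ℝ) < ‖Pi4 u‖ := lt_of_lt_of_le (by positivity) hP
  have hne : Pi4 u ≠ 0 := norm_pos_iff.1 hpos
  have e : T u - RR H u = (Pi4 u * T u - H u) / Pi4 u := by
    unfold RR
    field_simp
  rw [e, norm_div, div_le_iff₀ hpos]
  have hE : 0 ≤ E := (norm_nonneg _).trans h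
  calc ‖Pi4 u * T u - H u‖ ≤ E := h
    _ = 10 ^ 24 * E * (1 / 10 ^ 6) ^ 4 := by ring
    _ ≤ _ := mul_le_mul_of_nonneg_left hP (by positivity)

theorem tail_b {U κ N C : ℝ} (hU : 1 ≤ U)
    (h : U ^ (N + 1 / 1000) * Real.exp (-((U ^ κ) ^ 2 / 1024)) ≤ C) :
    U ^ (1 / 1000 : ℝ) * Real.exp (-((U ^ κ) ^ 2 / 1024)) ≤ C * U ^ (-N) := by
  have hU0 : 0 < U := by linarith
  have e : U ^ (1 / 1000 : ℝ) = U ^ (-N) * U ^ (N + 1 / 1000) := by
    rw [← Real.rpow_add hU0]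
    congr 1
    ring
  rw [e]
  calc U ^ (-N) * U ^ (N + 1 / 1000) * Real.exp (-((U ^ κ) ^ 2 / 1024))
      = U ^ (-N) * (U ^ (N + 1 / 1000) * Real.exp (-((U ^ κ) ^ 2 / 1024))) := by ring
    _ ≤ U ^ (-N) * C := by gcongr
    _ = _ := by ring

theorem trunc_ad (κ N : ℝ) (hκ : 0 < κ) (hκ1 : κ ≤ 1 / 1000) : ∃ C : ℝ, 0 < C ∧ ∀ {ι : Type} [Countable ι]
    (c : ι → ℂ) (r : ι → Q) (H : (Fin 4 → ℂ) → ℂ) (U x E B S : ℝ) (s : ℂ), 1 ≤ U → U ≤ x → x ≤ 16 * U → ‖s‖ = rho →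
    (Summable fun i => ‖c i‖) → ∑' i, ‖c i‖ ≤ S → 0 ≤ E → Hol4 (U ^ κ) B H →
    (∀ u ∈ Bx (U ^ κ), u ∈ RegE → u 1 + u 3 ≠ 0 → ‖Pi4 u * TA c r u - H u‖ ≤ E) →
    ‖DA (TA c r) s x - DT H s x (U ^ κ)‖ ≤ C * (E * U ^ (1 / 1000 : ℝ) + S * U ^ (-N)) := by
  obtain ⟨C3, hC3, h3⟩ := ta_crude
  obtain ⟨C4, hC4, h4⟩ := kD_bound
  obtain ⟨C5, hC5, h5⟩ := growth' (κ := κ) (a := N + 1 / 1000) (c := 1024) hκ (by norm_num)
  set IG : ℝ := ∫ v, gs v with hIG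
  have hIG0 : 0 ≤ IG := integral_nonneg gs_nonneg
  refine ⟨(C4 * 10 ^ 24 + C4 * C3 * C5) * IG + 1, by positivity, ?_⟩
  intro ι _ c r H U x E B S s hU hx1 hx2 hs hc hS hE hHol h1
  have hU0 : 0 < U := by linarith
  have hx0 : 0 < x := by linarith
  have hS0 : 0 ≤ S := (tsum_nonneg fun i => norm_nonneg _).trans hS
  set L : ℝ := U ^ κ with hL
  have hL1 : 1 ≤ L := Real.one_le_rpow hU hκ.le
  have hF1c : Continuous fun v : ℝ => kD s x v * TA c r (uD s (cz + v * I)) :=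
    (kD_cont s hx0).mul (ta_cont_d c r hc s hs)
  have hF1b : ∀ v : ℝ, ‖kD s x v * TA c r (uD s (cz + v * I))‖ ≤
      C4 * U ^ (1 / 1000 : ℝ) * Real.exp (-(v ^ 2 / 2)) * (C3 * S) := by
    intro v
    rw [norm_mul]
    have a1 := h4 U x s v hU hx1 hx2 hs
    have a2 := (h3 c r S s hc hS hs).1 v
    exact mul_le_mul a1 a2 (norm_nonneg _) (by positivity)
  have hF1i : Integrable fun v : ℝ => kD s x v * TA c r (uD s (cz + v * I)) := by
    refine (gs_int.const_mul (C4 * U ^ (1 / 1000 : ℝ) * (C3 * S))).mono'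
      hF1c.aestronglyMeasurable (Filter.Eventually.of_forall fun v => ?_)
    refine (hF1b v).trans ?_
    have : Real.exp (-(v ^ 2 / 2)) ≤ gs v := by
      unfold gs
      apply Real.exp_le_exp.2
      nlinarith [sq_nonneg v]
    calc C4 * U ^ (1 / 1000 : ℝ) * Real.exp (-(v ^ 2 / 2)) * (C3 * S)
        ≤ C4 * U ^ (1 / 1000 : ℝ) * gs v * (C3 * S) := by gcongr
      _ = _ := by ring
  have hmem : ∀ v ∈ Set.Icc (-(L / 2)) (L / 2), uD s (cz + v * I) ∈ Bx L :=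
    fun v hv => uD_box hs hL1 (abs_le.2 hv)
  have hF2c : ContinuousOn (fun v : ℝ => kD s x v * RR H (uD s (cz + v * I)))
      (Set.Icc (-(L / 2)) (L / 2)) := by
    refine (kD_cont s hx0).continuousOn.mul ?_
    unfold RR
    refine ContinuousOn.div ?_ (Pi4_cont.comp (uD_cont s)).continuousOn ?_
    · exact hHol.cont.comp (uD_cont s).continuousOn hmem
    · intro v _
      exact norm_pos_iff.1 (lt_of_lt_of_le (by positivity) (uD_low hs v))
  have hF2i : IntegrableOn (fun v : ℝ => kD s x v * RR H (uD s (cz + v * I)))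
      (Set.Ioc (-(L / 2)) (L / 2)) :=
    (hF2c.integrableOn_compact isCompact_Icc).mono_set Set.Ioc_subset_Icc_self
  have key := trunc_abs (μ := volume) (S := Set.Ioc (-(L / 2)) (L / 2)) measurableSet_Ioc hF1i hF2i
    gs_int gs_nonneg (a := C4 * 10 ^ 24 * (E * U ^ (1 / 1000 : ℝ)))
    (b := C4 * C3 * C5 * (S * U ^ (-N))) (by positivity) (by positivity) ?_ ?_
  · have e1 : DA (TA c r) s x - DT H s x L = (2 * Real.pi : ℂ)⁻¹ *
        ((∫ v : ℝ, kD s x v * TA c r (uD s (cz + v * I))) -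
          ∫ v in Set.Ioc (-(L / 2)) (L / 2), kD s x v * RR H (uD s (cz + v * I))) := by
      unfold DA DT
      rw [intervalIntegral.integral_of_le (by linarith), mul_sub]
      rfl
    rw [e1, norm_mul]
    have hpi : ‖(2 * Real.pi : ℂ)⁻¹‖ ≤ 1 := by
      rw [norm_inv, norm_mul, Complex.norm_real, Real.norm_of_nonneg Real.pi_pos.le]
      apply inv_le_one_of_one_le₀
      simp
      linarith [Real.pi_gt_three]
    have p1 : 0 ≤ E * U ^ (1 / 1000 : ℝ) := by positivity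
    have p2 : 0 ≤ S * U ^ (-N) := by positivity
    have q1 : 0 ≤ C4 * 10 ^ 24 * IG := by positivity
    have q2 : 0 ≤ C4 * C3 * C5 * IG := by positivity
    calc _ ≤ 1 * ((C4 * 10 ^ 24 * (E * U ^ (1 / 1000 : ℝ)) + C4 * C3 * C5 * (S * U ^ (-N))) * IG) :=
          mul_le_mul hpi key (norm_nonneg _) one_pos.le
      _ = C4 * 10 ^ 24 * IG * (E * U ^ (1 / 1000 : ℝ)) + C4 * C3 * C5 * IG * (S * U ^ (-N)) := by ring
      _ ≤ _ := comb q1 q2 p1 p2
  · intro v hv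
    have hv' : v ∈ Set.Icc (-(L / 2)) (L / 2) := Set.Ioc_subset_Icc_self hv
    have h13 : uD s (cz + v * I) 1 + uD s (cz + v * I) 3 ≠ 0 := by
      intro h
      have := (uD_mem hs v).2.2.2
      rw [h] at this
      simp at this
    have a1 := rr_close' (T := TA c r) (H := H) (uD_low hs v)
      (h1 _ (hmem v hv') (uD_memE hs v) h13)
    have a2 := h4 U x s v hU hx1 hx2 hs
    rw [← mul_sub, norm_mul]
    have a3 : Real.exp (-(v ^ 2 / 2)) ≤ gs v := by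
      unfold gs
      apply Real.exp_le_exp.2
      nlinarith [sq_nonneg v]
    have hg := gs_nonneg v
    calc _ ≤ (C4 * U ^ (1 / 1000 : ℝ) * Real.exp (-(v ^ 2 / 2))) *
          (10 ^ 24 * E) :=
          mul_le_mul a2 a1 (norm_nonneg _) (by positivity)
      _ ≤ (C4 * U ^ (1 / 1000 : ℝ) * gs v) * (10 ^ 24 * E) := by gcongr
      _ = _ := by ring
  · intro v hv
    refine (hF1b v).trans ?_
    have hv2 : L ^ 2 / 4 ≤ v ^ 2 := by
      simp only [Set.mem_Ioc, not_and_or, not_lt, not_le] at hv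
      rcases hv with hv | hv <;> nlinarith
    have a1 : Real.exp (-(v ^ 2 / 2)) ≤ Real.exp (-(L ^ 2 / 1024)) * gs v := by
      unfold gs
      rw [← Real.exp_add]
      apply Real.exp_le_exp.2
      nlinarith [sq_nonneg L]
    have a2 : U ^ (1 / 1000 : ℝ) * Real.exp (-(L ^ 2 / 1024)) ≤ C5 * U ^ (-N) := tail_b hU (h5 U hU)
    have hg := gs_nonneg v
    calc C4 * U ^ (1 / 1000 : ℝ) * Real.exp (-(v ^ 2 / 2)) * (C3 * S)
        ≤ C4 * U ^ (1 / 1000 : ℝ) * (Real.exp (-(L ^ 2 / 1024)) * gs v) * (C3 * S) := by gcongr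
      _ = C4 * C3 * S * (U ^ (1 / 1000 : ℝ) * Real.exp (-(L ^ 2 / 1024))) * gs v := by ring
      _ ≤ C4 * C3 * S * (C5 * U ^ (-N)) * gs v := by gcongr
      _ = _ := by ring

theorem trunc_az (κ N : ℝ) (hκ : 0 < κ) (hκ1 : κ ≤ 1 / 1000) : ∃ C : ℝ, 0 < C ∧ ∀ {ι : Type} [Countable ι]
    (c : ι → ℂ) (r : ι → Q) (H : (Fin 4 → ℂ) → ℂ) (U x E B S : ℝ) (s : ℂ), 1 ≤ U → U ≤ x → x ≤ 16 * U → ‖s‖ = rho →
    (Summable fun i => ‖c i‖) → ∑' i, ‖c i‖ ≤ S → 0 ≤ E → Hol4 (U ^ κ) B H →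
    (∀ u ∈ Bx (U ^ κ), u ∈ RegE → u 1 + u 3 ≠ 0 → ‖Pi4 u * TA c r u - H u‖ ≤ E) →
    ∀ α β : ℂ, (α = s ∨ α = 2 * s) → (β = s ∨ β = 2 * s) →
      ‖ZA (TA c r) s α β x - ZT H s α β x (U ^ κ)‖ ≤ C * (E * U ^ (1 / 1000 : ℝ) + S * U ^ (-N)) := by
  obtain ⟨C3, hC3, h3⟩ := ta_crude
  obtain ⟨C4, hC4, h4⟩ := kZ_bound
  obtain ⟨C5, hC5, h5⟩ := growth' (κ := κ) (a := N + 1 / 1000) (c := 1024) hκ (by norm_num)
  set IG : ℝ := ∫ v, g3 v with hIG
  have hg0 : ∀ v, 0 ≤ g3 v := fun v => (Real.exp_pos _).le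
  have hIG0 : 0 ≤ IG := integral_nonneg hg0
  refine ⟨(C4 * 10 ^ 24 + C4 * (C3 * 4) * C5) * IG + 1, by positivity, ?_⟩
  intro ι _ c r H U x E B S s hU hx1 hx2 hs hc hS hE hHol h1 α β hα hβ
  have hU0 : 0 < U := by linarith
  have hx0 : 0 < x := by linarith
  have hS0 : 0 ≤ S := (tsum_nonneg fun i => norm_nonneg _).trans hS
  set L : ℝ := U ^ κ with hL
  have hL1 : 1 ≤ L := Real.one_le_rpow hU hκ.le
  set uu' : ℝ × ℝ × ℝ → Fin 4 → ℂ := fun v =>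
    uZ s α β (cw + v.1 * I) (cz + v.2.1 * I) (cz + v.2.2 * I) with huu
  have huc : Continuous uu' := uZ_cont s α β
  have hF1c : Continuous fun v => kZ s α β x v * TA c r (uu' v) :=
    (kZ_cont s α β hx0).mul (ta_cont_z c r hc s α β hs hα hβ)
  have hQ0 : ∀ v, 0 ≤ Qs v := fun v => by unfold Qs; positivity
  have hF1b : ∀ v, ‖kZ s α β x v * TA c r (uu' v)‖ ≤
      C4 * U ^ (1 / 1000 : ℝ) * (C3 * 4 * S) * Real.exp (-(Qs v / 8)) := by
    intro v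
    rw [norm_mul]
    have a1 := h4 U x s α β v hU hx1 hx2 hs hα hβ
    have a2 := (h3 c r S s hc hS hs).2 α β hα hβ v.1 v.2.1 v.2.2
    have a3 := one_add_le v.1
    have a4 : Real.exp (v.1 ^ 2 / 8) * Real.exp (-(Qs v / 4)) ≤ Real.exp (-(Qs v / 8)) := by
      rw [← Real.exp_add]
      apply Real.exp_le_exp.2
      have : v.1 ^ 2 ≤ Qs v := by unfold Qs; nlinarith [sq_nonneg v.2.1, sq_nonneg v.2.2]
      linarith
    calc _ ≤ (C4 * U ^ (1 / 1000 : ℝ) * Real.exp (-(Qs v / 4))) * (C3 * S * (1 + |v.1|)) :=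
          mul_le_mul a1 a2 (norm_nonneg _) (by positivity)
      _ ≤ (C4 * U ^ (1 / 1000 : ℝ) * Real.exp (-(Qs v / 4))) *
          (C3 * S * (4 * Real.exp (v.1 ^ 2 / 8))) := by gcongr
      _ = C4 * U ^ (1 / 1000 : ℝ) * (C3 * 4 * S) *
          (Real.exp (v.1 ^ 2 / 8) * Real.exp (-(Qs v / 4))) := by ring
      _ ≤ _ := by gcongr
  have hF1i : Integrable fun v => kZ s α β x v * TA c r (uu' v) := by
    refine (g3_int.const_mul (C4 * U ^ (1 / 1000 : ℝ) * (C3 * 4 * S))).mono'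
      hF1c.aestronglyMeasurable (Filter.Eventually.of_forall fun v => ?_)
    refine (hF1b v).trans ?_
    have : Real.exp (-(Qs v / 8)) ≤ g3 v := by
      unfold g3
      apply Real.exp_le_exp.2
      have := hQ0 v
      linarith
    gcongr
  set J : Set ℝ := Set.Icc (-(L / 8)) (L / 8) with hJ
  set J' : Set ℝ := Set.Ioc (-(L / 8)) (L / 8) with hJ'
  have hJJ : J' ⊆ J := Set.Ioc_subset_Icc_self
  have hmem : ∀ v ∈ J ×ˢ (J ×ˢ J), uu' v ∈ Bx L := by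
    rintro ⟨v1, v2, v3⟩ ⟨m1, m2, m3⟩
    exact uZ_box hs hα hβ hL1 (abs_le.2 m1) (abs_le.2 m2) (abs_le.2 m3)
  have hF2c : ContinuousOn (fun v => kZ s α β x v * RR H (uu' v)) (J ×ˢ (J ×ˢ J)) := by
    refine (kZ_cont s α β hx0).continuousOn.mul ?_
    unfold RR
    refine ContinuousOn.div ?_ (Pi4_cont.comp huc).continuousOn ?_
    · exact hHol.cont.comp huc.continuousOn hmem
    · intro v _
      exact norm_pos_iff.1 (lt_of_lt_of_le (by positivity) (uZ_low hs hα hβ v.1 v.2.1 v.2.2))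
  have hcomp : IsCompact (J ×ˢ (J ×ˢ J)) :=
    isCompact_Icc.prod (isCompact_Icc.prod isCompact_Icc)
  have hsub : J' ×ˢ (J' ×ˢ J') ⊆ J ×ˢ (J ×ˢ J) := Set.prod_mono hJJ (Set.prod_mono hJJ hJJ)
  have hF2i : IntegrableOn (fun v => kZ s α β x v * RR H (uu' v)) (J' ×ˢ (J' ×ˢ J')) :=
    (hF2c.integrableOn_compact hcomp).mono_set hsub
  have hmS : MeasurableSet (J' ×ˢ (J' ×ˢ J')) :=
    measurableSet_Ioc.prod (measurableSet_Ioc.prod measurableSet_Ioc)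
  have key := trunc_abs (μ := volume) (S := J' ×ˢ (J' ×ˢ J')) hmS hF1i hF2i
    g3_int hg0 (a := C4 * 10 ^ 24 * (E * U ^ (1 / 1000 : ℝ)))
    (b := C4 * (C3 * 4) * C5 * (S * U ^ (-N))) (by positivity) (by positivity) ?_ ?_
  · have eI : (∫ v1 in (-(L / 8))..(L / 8), ∫ v2 in (-(L / 8))..(L / 8),
        ∫ v3 in (-(L / 8))..(L / 8), Zker s α β x (cw + v1 * I) (cz + v2 * I) (cz + v3 * I) *
        RR H (uZ s α β (cw + v1 * I) (cz + v2 * I) (cz + v3 * I))) =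
        ∫ v in J' ×ˢ (J' ×ˢ J'), kZ s α β x v * RR H (uu' v) := by
      have hle : -(L / 8) ≤ L / 8 := by linarith
      have hF2i' : IntegrableOn (fun v => kZ s α β x v * RR H (uu' v))
          (J' ×ˢ (J' ×ˢ J')) (volume.prod volume) := hF2i
      have e0 := setIntegral_prod (μ := (volume : Measure ℝ)) (ν := (volume : Measure (ℝ × ℝ)))
        (fun v => kZ s α β x v * RR H (uu' v)) hF2i'
      have e0' : ∫ v in J' ×ˢ (J' ×ˢ J'), kZ s α β x v * RR H (uu' v) =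
        ∫ v1 in J', ∫ p in J' ×ˢ J', kZ s α β x (v1, p) * RR H (uu' (v1, p)) := e0
      rw [e0', intervalIntegral.integral_of_le hle]
      refine setIntegral_congr_fun measurableSet_Ioc (fun v1 hv1 => ?_)
      rw [intervalIntegral.integral_of_le hle]
      have hc2 : ContinuousOn (fun p : ℝ × ℝ => kZ s α β x (v1, p) * RR H (uu' (v1, p)))
          (J ×ˢ J) := by
        refine hF2c.comp (f := fun p : ℝ × ℝ => (v1, p)) (by fun_prop) ?_
        intro p hp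
        exact ⟨hJJ hv1, hp⟩
      have hi2 : IntegrableOn (fun p : ℝ × ℝ => kZ s α β x (v1, p) * RR H (uu' (v1, p)))
          (J' ×ˢ J') (volume.prod volume) :=
        (hc2.integrableOn_compact (isCompact_Icc.prod isCompact_Icc)).mono_set
          (Set.prod_mono hJJ hJJ)
      have e2 := setIntegral_prod (μ := (volume : Measure ℝ)) (ν := (volume : Measure ℝ))
        (fun p : ℝ × ℝ => kZ s α β x (v1, p) * RR H (uu' (v1, p))) hi2
      have e2' : ∫ p in J' ×ˢ J', kZ s α β x (v1, p) * RR H (uu' (v1, p)) =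
        ∫ v2 in J', ∫ v3 in J', kZ s α β x (v1, v2, v3) * RR H (uu' (v1, v2, v3)) := e2
      rw [e2']
      refine setIntegral_congr_fun measurableSet_Ioc (fun v2 _ => ?_)
      rw [intervalIntegral.integral_of_le hle]
      rfl
    have e1 : ZA (TA c r) s α β x - ZT H s α β x L = ((2 * Real.pi : ℂ) ^ 3)⁻¹ *
        ((∫ v, kZ s α β x v * TA c r (uu' v)) -
          ∫ v in J' ×ˢ (J' ×ˢ J'), kZ s α β x v * RR H (uu' v)) := by
      unfold ZA ZT
      rw [eI, mul_sub]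
      rfl
    rw [e1, norm_mul]
    have hpi : ‖((2 * Real.pi : ℂ) ^ 3)⁻¹‖ ≤ 1 := by
      rw [norm_inv, norm_pow, norm_mul, Complex.norm_real, Real.norm_of_nonneg Real.pi_pos.le]
      apply inv_le_one_of_one_le₀
      apply one_le_pow₀
      simp
      linarith [Real.pi_gt_three]
    have p1 : 0 ≤ E * U ^ (1 / 1000 : ℝ) := by positivity
    have p2 : 0 ≤ S * U ^ (-N) := by positivity
    have q1 : 0 ≤ C4 * 10 ^ 24 * IG := by positivity
    have q2 : 0 ≤ C4 * (C3 * 4) * C5 * IG := by positivity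
    calc _ ≤ 1 * ((C4 * 10 ^ 24 * (E * U ^ (1 / 1000 : ℝ)) +
          C4 * (C3 * 4) * C5 * (S * U ^ (-N))) * IG) :=
          mul_le_mul hpi key (norm_nonneg _) one_pos.le
      _ = C4 * 10 ^ 24 * IG * (E * U ^ (1 / 1000 : ℝ)) +
          C4 * (C3 * 4) * C5 * IG * (S * U ^ (-N)) := by ring
      _ ≤ _ := comb q1 q2 p1 p2
  · intro v hv
    have hv' := hsub hv
    have a1 := rr_close' (T := TA c r) (H := H) (uZ_low hs hα hβ v.1 v.2.1 v.2.2)
      (h1 _ (hmem v hv') (uZ_memE hs hα hβ v.1 v.2.1 v.2.2)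
        (uZ_ne13 hs hα hβ v.1 v.2.1 v.2.2))
    have a2 := h4 U x s α β v hU hx1 hx2 hs hα hβ
    rw [← mul_sub, norm_mul]
    have a3 : Real.exp (-(Qs v / 4)) ≤ g3 v := by
      unfold g3
      apply Real.exp_le_exp.2
      have := hQ0 v
      linarith
    have hg := hg0 v
    calc _ ≤ (C4 * U ^ (1 / 1000 : ℝ) * Real.exp (-(Qs v / 4))) *
          (10 ^ 24 * E) :=
          mul_le_mul a2 a1 (norm_nonneg _) (by positivity)
      _ ≤ (C4 * U ^ (1 / 1000 : ℝ) * g3 v) * (10 ^ 24 * E) := by gcongr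
      _ = _ := by ring
  · intro v hv
    refine (hF1b v).trans ?_
    have hv2 : L ^ 2 / 64 ≤ Qs v := by
      have hor : v.1 ∉ J' ∨ v.2.1 ∉ J' ∨ v.2.2 ∉ J' := by
        by_contra hcon
        push Not at hcon
        exact hv ⟨hcon.1, hcon.2.1, hcon.2.2⟩
      have hone : ∀ t : ℝ, t ∉ J' → L ^ 2 / 64 ≤ t ^ 2 := by
        intro t ht
        simp only [hJ', Set.mem_Ioc, not_and_or, not_lt, not_le] at ht
        rcases ht with ht | ht <;> nlinarith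
      unfold Qs
      rcases hor with h | h | h
      · have := hone _ h
        nlinarith [sq_nonneg v.2.1, sq_nonneg v.2.2]
      · have := hone _ h
        nlinarith [sq_nonneg v.1, sq_nonneg v.2.2]
      · have := hone _ h
        nlinarith [sq_nonneg v.1, sq_nonneg v.2.1]
    have a1 : Real.exp (-(Qs v / 8)) ≤ Real.exp (-(L ^ 2 / 1024)) * g3 v := by
      unfold g3
      rw [← Real.exp_add]
      apply Real.exp_le_exp.2
      linarith
    have a2 : U ^ (1 / 1000 : ℝ) * Real.exp (-(L ^ 2 / 1024)) ≤ C5 * U ^ (-N) := tail_b hU (h5 U hU)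
    have hg := hg0 v
    calc C4 * U ^ (1 / 1000 : ℝ) * (C3 * 4 * S) * Real.exp (-(Qs v / 8))
        ≤ C4 * U ^ (1 / 1000 : ℝ) * (C3 * 4 * S) * (Real.exp (-(L ^ 2 / 1024)) * g3 v) := by
          gcongr
      _ = C4 * (C3 * 4) * S * (U ^ (1 / 1000 : ℝ) * Real.exp (-(L ^ 2 / 1024))) * g3 v := by ring
      _ ≤ C4 * (C3 * 4) * S * (C5 * U ^ (-N)) * g3 v := by gcongr
      _ = _ := by ring

end TruncAAux

open TruncAAux

theorem trunc_a (κ N : ℝ) (hκ : 0 < κ) (hκ1 : κ ≤ 1 / 1000) : ∃ C : ℝ, 0 < C ∧ ∀ {ι : Type} [Countable ι]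
    (c : ι → ℂ) (r : ι → Q) (H : (Fin 4 → ℂ) → ℂ) (U x E B S : ℝ) (s : ℂ), 1 ≤ U → U ≤ x → x ≤ 16 * U → ‖s‖ = rho →
    (Summable fun i => ‖c i‖) → ∑' i, ‖c i‖ ≤ S → 0 ≤ E → Hol4 (U ^ κ) B H →
    (∀ u ∈ Bx (U ^ κ), u ∈ RegE → u 1 + u 3 ≠ 0 → ‖Pi4 u * TA c r u - H u‖ ≤ E) →
    ‖DA (TA c r) s x - DT H s x (U ^ κ)‖ ≤ C * (E * U ^ (1 / 1000 : ℝ) + S * U ^ (-N)) ∧
    ∀ α β : ℂ, (α = s ∨ α = 2 * s) → (β = s ∨ β = 2 * s) →
      ‖ZA (TA c r) s α β x - ZT H s α β x (U ^ κ)‖ ≤ C * (E * U ^ (1 / 1000 : ℝ) + S * U ^ (-N)) := by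
  obtain ⟨C1, hC1, h1⟩ := trunc_ad κ N hκ hκ1
  obtain ⟨C2, hC2, h2⟩ := trunc_az κ N hκ hκ1
  refine ⟨C1 + C2, by positivity, ?_⟩
  intro ι _ c r H U x E B S s hU hx1 hx2 hs hc hS hE hHol hr
  have hS0 : 0 ≤ S := (tsum_nonneg fun i => norm_nonneg _).trans hS
  have p1 : 0 ≤ E * U ^ (1 / 1000 : ℝ) + S * U ^ (-N) := by positivity
  refine ⟨(h1 c r H U x E B S s hU hx1 hx2 hs hc hS hE hHol hr).trans ?_, fun α β hα hβ =>
    (h2 c r H U x E B S s hU hx1 hx2 hs hc hS hE hHol hr α β hα hβ).trans ?_⟩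
  · exact mul_le_mul_of_nonneg_right (by linarith) p1
  · exact mul_le_mul_of_nonneg_right (by linarith) p1

end Pool.Agent.P07318g
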