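import Pool.Agent.Lib.P07318g.Defs
import Pool.Agent.Lib.P07318f.TwOm

/-!
# The twisted fourth moment with the weights of the free factors

PROOF. Induction on `n`, for every `ε` at once; copy of P07318f/TwOm.lean (475 lines) with the line `Re w = ε/2` instead of `c0 = 1/1000` (if `ε > 1` use `ε = 1`).
`n = 0`: `tw_avg` (for every `ε ≥ 0`). Step `n → n+1`: `∏_{j : Fin (n+1)} = Om (h 0) (x + τ 0) · ∏_{j : Fin n} Om (h j.succ) (x + τ j.succ)`. `om_mellin` for the first factor with `c = ε/2`, Fubini: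
both integrals are `π⁻¹ ∫_v exp(w²)/w (h 0)^(-w) ζ(1+2w) [∫ Ω(x) X2 (x+τ 0) w (..) dx] dv`, and `Ω_w(x) = Ω(x) X2 (x+τ 0) w / (C₁ (1+|v|)^8 U^(ε/2))` is admissible (`TwOmAux.adm_Om3`, with `c0`
replaced by `ε/2`); induction hypothesis for `Ω_w` with `ε/2`: error `≤ C U^(ε/2 + 1 - 1/25 + ε/2) ∫ exp(c²-v²) (1+|v|)^8 |ζ(1+2w)|/|w| dv`. Integrability of
`x ↦ Ω(x) ∏ Om (h j.succ)(x + τ j.succ) (..)` (`A1`, `A2` in `TwOm`): `Om` is continuous on `(0, ∞)` (`LongPartAux.Om_cont`), `x + τ j ≥ U/2` on the support.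
-/

set_option autoImplicit false

namespace Pool.Agent.P07318g

open MeasureTheory Complex Pool.Agent.P07318s Pool.Agent.P07318f

namespace TwNAux

open Twist4Aux

/-- the point on the line -/
noncomputable def wv (c v : ℝ) : ℂ := (c : ℂ) + v * I

theorem wv_re (c v : ℝ) : (wv c v).re = c := by simp [wv]

theorem norm_wv {c : ℝ} (hc : 0 < c) (hc1 : c ≤ 1) (v : ℝ) : ‖wv c v‖ ≤ 1 + |v| := by
  unfold wv
  refine (norm_add_le _ _).trans ?_
  rw [norm_mul, Complex.norm_I, Complex.norm_real, Complex.norm_real, Real.norm_eq_abs,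
    Real.norm_eq_abs, abs_of_pos hc]
  linarith

theorem c_le_norm {c : ℝ} (hc : 0 < c) (v : ℝ) : c ≤ ‖wv c v‖ := by
  have h := Complex.abs_re_le_norm (wv c v)
  rw [wv_re, abs_of_pos hc] at h
  exact h

theorem norm_X2 {c : ℝ} {x : ℝ} (hx : 0 < x) (v : ℝ) :
    ‖X2 x (wv c v)‖ = (x / (2 * Real.pi)) ^ c := by
  unfold X2
  rw [Complex.norm_cpow_eq_rpow_re_of_pos (by positivity), wv_re]

theorem X2_le {c : ℝ} (hc : 0 < c) (hc1 : c ≤ 1) {U x : ℝ} (hU : 1 ≤ U) (h1 : U / 2 ≤ x)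
    (h2 : x ≤ 16 * U) (v : ℝ) :
    ‖X2 x (wv c v)‖ ≤ 16 * U ^ c := by
  have hx : 0 < x := by linarith
  have hp : (1 : ℝ) ≤ 2 * Real.pi := by linarith [Real.pi_gt_three]
  rw [norm_X2 hx]
  calc (x / (2 * Real.pi)) ^ c ≤ (16 * U) ^ c := by
        apply Real.rpow_le_rpow (by positivity) _ hc.le
        exact (div_le_self hx.le hp).trans h2
    _ = 16 ^ c * U ^ c := Real.mul_rpow (by norm_num) (by linarith)
    _ ≤ 16 ^ (1 : ℝ) * U ^ c := by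
        apply mul_le_mul_of_nonneg_right _ (by positivity)
        exact Real.rpow_le_rpow_of_exponent_le (by norm_num) hc1
    _ = _ := by rw [Real.rpow_one]

theorem iter_le {c : ℝ} (hc : 0 < c) (hc1 : c ≤ 1) {U x : ℝ} (hU : 1 ≤ U) (hx1 : U / 2 ≤ x)
    (hx2 : x ≤ 16 * U) (v : ℝ) {k : ℕ}
    (hk : k ≤ 8) {Δ : ℝ} (hΔ : 0 < Δ) (hΔU : Δ ≤ U) :
    ‖iteratedDeriv k (fun y : ℝ => X2 y (wv c v)) x‖ ≤
      16 * (9 * (1 + |v|)) ^ 8 * U ^ c * (2 * Δ⁻¹) ^ k := by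
  have hx : 0 < x := by linarith
  have hV : (1 : ℝ) ≤ 1 + |v| := by linarith [abs_nonneg v]
  have hd := TwOmAux.norm_dp (c := wv c v) hk hV (norm_wv hc hc1 v)
  have e : ((2 * Real.pi : ℝ) : ℂ) ^ (-(wv c v)) * (dp (wv c v) k * (x : ℂ) ^ (wv c v - k)) =
      dp (wv c v) k * X2 x (wv c v) * ((x : ℂ) ^ k)⁻¹ := by
    rw [X2_split hx, Complex.cpow_sub _ _ (by exact_mod_cast hx.ne'), Complex.cpow_natCast,
      div_eq_mul_inv]
    ring
  rw [iter_X2 (wv c v) k hx, e, norm_mul, norm_mul, norm_inv, norm_pow, Complex.norm_real,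
    Real.norm_of_nonneg hx.le, ← inv_pow]
  have h6 : x⁻¹ ≤ 2 * Δ⁻¹ := by
    rw [← div_eq_mul_inv, inv_eq_one_div, div_le_div_iff₀ hx hΔ]
    linarith
  have h7 := X2_le hc hc1 hU hx1 hx2 v
  have h8 : x⁻¹ ^ k ≤ (2 * Δ⁻¹) ^ k := pow_le_pow_left₀ (by positivity) h6 k
  calc ‖dp (wv c v) k‖ * ‖X2 x (wv c v)‖ * x⁻¹ ^ k
      ≤ (9 * (1 + |v|)) ^ 8 * (16 * U ^ c) * (2 * Δ⁻¹) ^ k := by gcongr
    _ = _ := by ring

/-- the normalisation -/
noncomputable def K1 (c U v : ℝ) : ℝ := 16 * (9 * (1 + |v|)) ^ 8 * 3 ^ 8 * U ^ c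

theorem K1_pos {c U : ℝ} (hU : 1 ≤ U) (v : ℝ) : 0 < K1 c U v := by
  unfold K1; positivity

/-- the modified weight -/
noncomputable def Om3 (c U τ v : ℝ) (Ω : ℝ → ℂ) (x : ℝ) : ℂ :=
  Ω x * X2 (x + τ) (wv c v) * ((K1 c U v : ℝ) : ℂ)⁻¹

theorem cdiff_shift {c x τ : ℝ} (hx : 0 < x + τ) (v : ℝ) (n : WithTop ℕ∞) :
    ContDiffAt ℝ n (fun y : ℝ => X2 (y + τ) (wv c v)) x := by
  have h1 : ContDiffAt ℝ n (fun y : ℝ => y + τ) x := contDiffAt_id.add contDiffAt_const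
  exact ContDiffAt.comp (g := fun y : ℝ => X2 y (wv c v)) (f := fun y : ℝ => y + τ) x
    (cdiff_X2 (wv c v) hx n) h1

theorem supp_cl {U τ : ℝ} {Ω : ℝ → ℂ}
    (hτ : ∀ x, Ω x ≠ 0 → U / 2 ≤ x + τ ∧ x + τ ≤ 16 * U) :
    ∀ x ∈ tsupport Ω, U / 2 ≤ x + τ ∧ x + τ ≤ 16 * U := by
  have hc : IsClosed {x : ℝ | U / 2 ≤ x + τ ∧ x + τ ≤ 16 * U} := by
    have h1 : IsClosed {x : ℝ | U / 2 ≤ x + τ} :=
      isClosed_le continuous_const (continuous_id.add continuous_const)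
    have h2 : IsClosed {x : ℝ | x + τ ≤ 16 * U} :=
      isClosed_le (continuous_id.add continuous_const) continuous_const
    exact h1.inter h2
  intro x hx
  exact closure_minimal (fun y hy => hτ y hy) hc hx

theorem adm_Om3 {c : ℝ} (hc : 0 < c) (hc1 : c ≤ 1) {U Δ τ : ℝ} (hU : 1 ≤ U) (hΔ : 0 < Δ)
    (hΔU : Δ ≤ U) {Ω : ℝ → ℂ}
    (hΩ : Adm U Δ Ω) (hτ : ∀ x, Ω x ≠ 0 → U / 2 ≤ x + τ ∧ x + τ ≤ 16 * U) (v : ℝ) :
    Adm U Δ (Om3 c U τ v Ω) := by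
  have hK := K1_pos (c := c) hU v
  have hcl := supp_cl hτ
  have hev : ∀ x, x ∉ tsupport Ω → Om3 c U τ v Ω =ᶠ[nhds x] fun _ => 0 := by
    intro x hx
    have h1 := notMem_tsupport_iff_eventuallyEq.1 hx
    filter_upwards [h1] with y hy
    unfold Om3
    rw [hy]
    simp
  refine ⟨?_, ?_, ?_, ?_⟩
  · rw [contDiff_iff_contDiffAt]
    intro x
    by_cases hx : x ∈ tsupport Ω
    · have h1 := (hcl x hx).1
      have h2 : ContDiffAt ℝ 8 (fun y : ℝ => X2 (y + τ) (wv c v)) x :=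
        cdiff_shift (by linarith) v 8
      exact ((hΩ.1.contDiffAt).mul h2).mul contDiffAt_const
    · exact contDiffAt_const.congr_of_eventuallyEq (hev x hx)
  · intro x hx
    unfold Om3
    rw [hΩ.2.1 x hx]
    simp
  · intro x hx
    unfold Om3
    rw [hΩ.2.2.1 x hx]
    simp
  · intro j hj x
    by_cases hx : x ∈ tsupport Ω
    · obtain ⟨hx1, hx2⟩ := hcl x hx
      have hj' : ((j : ℕ) : WithTop ℕ∞) ≤ 8 := by exact_mod_cast hj
      have h2 : ContDiffAt ℝ j (fun y : ℝ => X2 (y + τ) (wv c v)) x :=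
        cdiff_shift (by linarith) v j
      have e1 : iteratedDeriv j (Om3 c U τ v Ω) x =
          iteratedDeriv j (fun y => Ω y * X2 (y + τ) (wv c v)) x * ((K1 c U v : ℝ) : ℂ)⁻¹ := by
        unfold Om3
        rw [iteratedDeriv_mul_const_field]
      have e2 : iteratedDeriv j (fun y => Ω y * X2 (y + τ) (wv c v)) x =
          ∑ i ∈ Finset.range (j + 1),
          j.choose i * iteratedDeriv i Ω x *
            iteratedDeriv (j - i) (fun y => X2 (y + τ) (wv c v)) x :=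
        iteratedDeriv_fun_mul (hΩ.1.contDiffAt.of_le hj') h2
      rw [e1, e2, norm_mul, norm_inv, Complex.norm_real, Real.norm_of_nonneg hK.le,
        ← div_eq_mul_inv, div_le_iff₀ hK]
      calc ‖∑ i ∈ Finset.range (j + 1), (j.choose i : ℂ) * iteratedDeriv i Ω x *
            iteratedDeriv (j - i) (fun y => X2 (y + τ) (wv c v)) x‖
          ≤ ∑ i ∈ Finset.range (j + 1), (j.choose i : ℝ) * (Δ⁻¹) ^ i *
            (16 * (9 * (1 + |v|)) ^ 8 * U ^ c * (2 * Δ⁻¹) ^ (j - i)) := by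
            refine (norm_sum_le _ _).trans (Finset.sum_le_sum fun i hi => ?_)
            have hi' : i ≤ j := Nat.lt_succ_iff.1 (Finset.mem_range.1 hi)
            rw [norm_mul, norm_mul, Complex.norm_natCast]
            have a1 := hΩ.2.2.2 i (by omega) x
            have a2 := iter_le hc hc1 hU hx1 hx2 v (k := j - i) (by omega) hΔ hΔU
            have a3 : iteratedDeriv (j - i) (fun y => X2 (y + τ) (wv c v)) x =
                iteratedDeriv (j - i) (fun y => X2 y (wv c v)) (x + τ) := by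
              have := iteratedDeriv_comp_add_const (n := j - i) (f := fun y => X2 y (wv c v))
                (s := τ)
              exact congrFun this x
            rw [a3]
            gcongr
        _ = 16 * (9 * (1 + |v|)) ^ 8 * U ^ c * ∑ i ∈ Finset.range (j + 1), (Δ⁻¹) ^ i *
            (2 * Δ⁻¹) ^ (j - i) * (j.choose i : ℝ) := by
            rw [Finset.mul_sum]
            refine Finset.sum_congr rfl fun i _ => ?_
            ring
        _ = 16 * (9 * (1 + |v|)) ^ 8 * U ^ c * (3 ^ j * (Δ⁻¹) ^ j) := by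
            rw [← add_pow, ← mul_pow]
            congr 2
            ring
        _ ≤ 16 * (9 * (1 + |v|)) ^ 8 * U ^ c * (3 ^ 8 * (Δ⁻¹) ^ j) := by
            gcongr
            · norm_num
        _ = _ := by unfold K1; ring
    · rw [(hev x hx).iteratedDeriv_eq]
      have : iteratedDeriv j (fun _ : ℝ => (0 : ℂ)) x = 0 := by
        cases j with
        | zero => simp
        | succ j => simp
      rw [this, norm_zero]
      positivity

/-- the kernel in `v` -/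
noncomputable def Ev (c h v : ℝ) : ℂ :=
  cexp ((wv c v) ^ 2) / wv c v * ((h : ℂ) ^ (-(wv c v)) * riemannZeta (1 + 2 * wv c v))

theorem om_eq {c : ℝ} (hc : 0 < c) {h y : ℝ} (hh : 1 ≤ h) (hy : 0 < y) :
    (Om h y : ℂ) = (Real.pi : ℂ)⁻¹ * ∫ v : ℝ, Ev c h v * X2 y (wv c v) := by
  have := (om_mellin hc hh hy).2
  rw [this]
  congr 1
  refine integral_congr_ae (Filter.Eventually.of_forall fun v => ?_)
  simp only [Ev, wv]
  ring

theorem Ev_int {c : ℝ} (hc : 0 < c) {h : ℝ} (hh : 1 ≤ h) : Integrable (Ev c h) := by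
  have := (om_mellin hc hh (y := 2 * Real.pi) (by positivity)).1
  refine this.congr (Filter.Eventually.of_forall fun v => ?_)
  simp only [Ev, wv]
  rw [X2_pi]
  ring

theorem Ev_bound {c : ℝ} (hc : 0 < c) (hc1 : c ≤ 1) :
    ∃ C : ℝ, 0 < C ∧ ∀ h v : ℝ, 1 ≤ h → ‖Ev c h v‖ ≤ C * Real.exp (-v ^ 2) := by
  obtain ⟨C, hC, hz⟩ := zeta_bound_re (2 * c) (by linarith)
  refine ⟨3 * c⁻¹ * C, by positivity, fun h v hh => ?_⟩
  unfold Ev
  rw [norm_mul, norm_div, norm_mul]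
  have h1 : ‖cexp ((wv c v) ^ 2)‖ ≤ 3 * Real.exp (-v ^ 2) := by
    rw [Complex.norm_exp]
    have e : ((wv c v) ^ 2).re = c ^ 2 + (-v ^ 2) := by
      simp [wv, pow_two]
      ring
    rw [e, Real.exp_add]
    apply mul_le_mul_of_nonneg_right _ (Real.exp_pos _).le
    have : c ^ 2 ≤ 1 := by nlinarith
    calc Real.exp (c ^ 2) ≤ Real.exp 1 := Real.exp_le_exp.2 this
      _ ≤ 3 := by linarith [Real.exp_one_lt_d9]
  have h2 : ‖(h : ℂ) ^ (-(wv c v))‖ ≤ 1 := by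
    rw [Complex.norm_cpow_eq_rpow_re_of_pos (by linarith), Complex.neg_re, wv_re]
    exact Real.rpow_le_one_of_one_le_of_nonpos hh (by linarith)
  have h3 : ‖riemannZeta (1 + 2 * wv c v)‖ ≤ C := by
    apply hz
    have : (1 + 2 * wv c v).re = 1 + 2 * c := by simp [wv]
    rw [this]
  have h4 := c_le_norm hc v
  have h5 : ‖cexp ((wv c v) ^ 2)‖ / ‖wv c v‖ ≤ 3 * Real.exp (-v ^ 2) * c⁻¹ := by
    rw [div_eq_mul_inv]
    apply mul_le_mul h1 _ (by positivity) (by positivity)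
    exact inv_anti₀ hc h4
  calc ‖cexp ((wv c v) ^ 2)‖ / ‖wv c v‖ * (‖(h : ℂ) ^ (-(wv c v))‖ * ‖riemannZeta (1 + 2 * wv c v)‖)
      ≤ 3 * Real.exp (-v ^ 2) * c⁻¹ * (1 * C) := by gcongr
    _ = _ := by ring

theorem fub {c : ℝ} (hc : 0 < c) (hc1 : c ≤ 1) {h : ℝ} (hh : 1 ≤ h) {U τ : ℝ} (hU : 1 ≤ U)
    {A : ℝ → ℂ} (hA : Integrable A)
    (hs : ∀ x, A x ≠ 0 → U / 2 ≤ x + τ ∧ x + τ ≤ 16 * U) :
    (Integrable fun v : ℝ => Ev c h v * ∫ x : ℝ, A x * X2 (x + τ) (wv c v)) ∧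
    ∫ x : ℝ, A x * (Om h (x + τ) : ℂ) =
      (Real.pi : ℂ)⁻¹ * ∫ v : ℝ, Ev c h v * ∫ x : ℝ, A x * X2 (x + τ) (wv c v) := by
  have hprod : Integrable (fun z : ℝ × ℝ => A z.1 * Ev c h z.2) (volume.prod volume) :=
    hA.mul_prod (Ev_int hc hh)
  have hmeas : Measurable fun z : ℝ × ℝ => X2 (z.1 + τ) (wv c z.2) := by
    unfold X2 wv
    fun_prop
  have hf : Integrable (Function.uncurry fun x v : ℝ => A x * Ev c h v * X2 (x + τ) (wv c v))
      (volume.prod volume) := by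
    refine (hprod.norm.mul_const (16 * U ^ c)).mono'
      (hprod.aestronglyMeasurable.mul hmeas.aestronglyMeasurable) ?_
    refine Filter.Eventually.of_forall fun z => ?_
    simp only [Function.uncurry]
    rw [norm_mul]
    by_cases hz : A z.1 = 0
    · rw [hz]
      simp
    · obtain ⟨h1, h2⟩ := hs z.1 hz
      exact mul_le_mul_of_nonneg_left (X2_le hc hc1 hU h1 h2 z.2) (norm_nonneg _)
  have hpi : (Real.pi : ℂ) ≠ 0 := by exact_mod_cast Real.pi_ne_zero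
  have e1 : ∀ x : ℝ, A x * (Om h (x + τ) : ℂ) =
      (Real.pi : ℂ)⁻¹ * ∫ v : ℝ, A x * Ev c h v * X2 (x + τ) (wv c v) := by
    intro x
    by_cases hx : A x = 0
    · simp [hx]
    · have h1 := (hs x hx).1
      rw [om_eq hc hh (show 0 < x + τ by linarith)]
      have : ∀ v, A x * Ev c h v * X2 (x + τ) (wv c v) =
          A x * (Ev c h v * X2 (x + τ) (wv c v)) := fun v => by ring
      simp_rw [this]
      rw [integral_const_mul]
      ring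
  have e2 : ∀ v : ℝ, Ev c h v * ∫ x : ℝ, A x * X2 (x + τ) (wv c v) =
      ∫ x : ℝ, A x * Ev c h v * X2 (x + τ) (wv c v) := by
    intro v
    rw [← integral_const_mul]
    refine integral_congr_ae (Filter.Eventually.of_forall fun x => ?_)
    simp only
    ring
  refine ⟨?_, ?_⟩
  · simp_rw [e2]
    exact hf.integral_prod_right
  · simp_rw [e1, e2]
    rw [integral_const_mul, integral_integral_swap hf]

/-- the product of the weights -/
noncomputable def Pm {n : ℕ} (h τ : Fin n → ℝ) (x : ℝ) : ℂ := ∏ j, (Om (h j) (x + τ j) : ℂ)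

/-- the bound -/
def Bnd (n : ℕ) (ε C : ℝ) : Prop :=
  ∀ (U Δ : ℝ) (τ h : Fin n → ℝ) (Ω : ℝ → ℂ) (a b : ℕ+), 1 ≤ U →
    U ^ (1 - 1 / 1000 : ℝ) ≤ Δ → Δ ≤ U → Adm U Δ Ω → Nat.Coprime (a : ℕ) (b : ℕ) →
    ((a : ℕ) : ℝ) ≤ U ^ (1 / 1000 : ℝ) → ((b : ℕ) : ℝ) ≤ U ^ (1 / 1000 : ℝ) → (∀ j, 1 ≤ h j) →
    (∀ x, Ω x ≠ 0 → ∀ j, U / 2 ≤ x + τ j ∧ x + τ j ≤ 16 * U) →
    ‖(∫ x : ℝ, Ω x * (∏ j, (Om (h j) (x + τ j) : ℂ)) *
        ((‖riemannZeta (1 / 2 + x * I)‖ ^ 4 : ℝ) : ℂ) * ex x (a, b)) -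
      ∫ x : ℝ, Ω x * (∏ j, (Om (h j) (x + τ j) : ℂ)) * MM x a b‖ ≤ C * U ^ (1 - 1 / 25 + ε)

theorem Bnd_zero {ε : ℝ} (hε : 0 < ε) : ∃ C : ℝ, 0 < C ∧ Bnd 0 ε C := by
  obtain ⟨C, hC, hav⟩ := tw_avg
  refine ⟨C, hC, ?_⟩
  intro U Δ τ h Ω a b hU hΔ hΔU hΩ hab ha hb hh hτ
  simp only [Finset.univ_eq_empty, Finset.prod_empty, mul_one]
  refine (hav U Δ Ω a b hU hΔ hΔU hΩ hab ha hb).trans ?_
  refine mul_le_mul_of_nonneg_left ?_ hC.le
  exact Real.rpow_le_rpow_of_exponent_le hU (by linarith)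

theorem Bnd_succ {n : ℕ} {ε C : ℝ} (hε : 0 < ε) (hC : 0 < C) (hB : Bnd n (ε / 2) C) :
    ∃ C' : ℝ, 0 < C' ∧ Bnd (n + 1) ε C' := by
  obtain ⟨c, hcε, hc, hc1⟩ : ∃ c : ℝ, c ≤ ε / 2 ∧ 0 < c ∧ c ≤ 1 :=
    ⟨min (ε / 2) 1, min_le_left _ _, lt_min (by linarith) one_pos, min_le_right _ _⟩
  obtain ⟨C', hC', hE⟩ := Ev_bound hc hc1
  set IG : ℝ := ∫ v : ℝ, (1 + |v|) ^ 8 * Real.exp (-v ^ 2) with hIG
  have hIG0 : 0 ≤ IG := integral_nonneg fun v => by positivity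
  set C9 : ℝ := 16 * 9 ^ 8 * 3 ^ 8 with hC9
  have hC9p : 0 < C9 := by rw [hC9]; norm_num
  refine ⟨C' * C * C9 * IG + 1, by positivity, ?_⟩
  intro U Δ τ h Ω a b hU hΔ hΔU hΩ hab ha hb hh hτ
  have hU0 : 0 < U := by linarith
  have hΔ0 : 0 < Δ := lt_of_lt_of_le (by positivity) hΔ
  -- the functions
  set Z : ℝ → ℂ := fun x => ((‖riemannZeta (1 / 2 + x * I)‖ ^ 4 : ℝ) : ℂ) * ex x (a, b) with hZ
  set P : ℝ → ℂ := fun x => ∏ j : Fin n, (Om (h j.succ) (x + τ j.succ) : ℂ) with hP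
  have hzc : Continuous Z := by
    have h1 : Continuous fun x : ℝ => riemannZeta (1 / 2 + x * I) := by
      rw [continuous_iff_continuousAt]
      intro x
      have hne : (1 / 2 + x * I : ℂ) ≠ 1 := by
        intro h
        have := congrArg Complex.re h
        simp at this
      have h2 : ContinuousAt riemannZeta (1 / 2 + x * I) :=
        (differentiableAt_riemannZeta hne).continuousAt
      exact ContinuousAt.comp (f := fun x : ℝ => (1 / 2 + x * I : ℂ)) h2 (by fun_prop)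
    exact (Complex.continuous_ofReal.comp (h1.norm.pow 4)).mul (ex_cont (a, b))
  have hcl : ∀ j, ∀ x ∈ tsupport Ω, U / 2 ≤ x + τ j ∧ x + τ j ≤ 16 * U :=
    fun j => supp_cl fun x hx => hτ x hx j
  have hts : tsupport Ω ⊆ Set.Icc (U / 2) (8 * U) := by
    refine closure_minimal (fun x hx => ?_) isClosed_Icc
    by_contra hx'
    rw [Set.mem_Icc, not_and_or, not_le, not_le] at hx'
    rcases hx' with h1 | h1
    · exact hx (hΩ.2.1 x h1.le)
    · exact hx (hΩ.2.2.1 x h1.le)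
  have hKc : IsCompact (tsupport Ω) :=
    isCompact_Icc.of_isClosed_subset (isClosed_tsupport Ω) hts
  have hPc : ContinuousOn P (tsupport Ω) := by
    rw [hP]
    refine continuousOn_finsetProd _ fun j _ => ?_
    refine Complex.continuous_ofReal.comp_continuousOn ?_
    have h1 := LongPartAux.Om_cont (hh j.succ)
    refine h1.comp (f := fun x : ℝ => x + τ j.succ) (by fun_prop) fun x hx => ?_
    have := (hcl j.succ x hx).1
    exact Set.mem_Ioi.2 (by linarith)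
  have hint : ∀ g : ℝ → ℂ, ContinuousOn g (tsupport Ω) → Integrable fun x => Ω x * g x := by
    intro g hg
    have h1 : IntegrableOn (fun x => Ω x * g x) (tsupport Ω) :=
      ContinuousOn.integrableOn_compact hKc ((hΩ.1.continuous).continuousOn.mul hg)
    rw [integrableOn_iff_integrable_of_support_subset] at h1
    · exact h1
    · intro x hx
      exact subset_tsupport Ω (left_ne_zero_of_mul hx)
  set A1 : ℝ → ℂ := fun x => Ω x * (P x * Z x) with hA1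
  set A2 : ℝ → ℂ := fun x => Ω x * (P x * MM x a b) with hA2
  have hi1 : Integrable A1 := hint _ (hPc.mul hzc.continuousOn)
  have hi2 : Integrable A2 := hint _ (hPc.mul ((mm_cont a b hab).mono fun x hx =>
    Set.mem_Ioi.2 (lt_of_lt_of_le (by linarith) (hts hx).1)))
  have hs1 : ∀ x, A1 x ≠ 0 → U / 2 ≤ x + τ 0 ∧ x + τ 0 ≤ 16 * U :=
    fun x hx => hτ x (left_ne_zero_of_mul hx) 0
  have hs2 : ∀ x, A2 x ≠ 0 → U / 2 ≤ x + τ 0 ∧ x + τ 0 ≤ 16 * U :=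
    fun x hx => hτ x (left_ne_zero_of_mul hx) 0
  obtain ⟨f1i, f1⟩ := fub hc hc1 (hh 0) hU hi1 hs1
  obtain ⟨f2i, f2⟩ := fub hc hc1 (hh 0) hU hi2 hs2
  have e1 : (∫ x : ℝ, Ω x * (∏ j, (Om (h j) (x + τ j) : ℂ)) *
      ((‖riemannZeta (1 / 2 + x * I)‖ ^ 4 : ℝ) : ℂ) * ex x (a, b)) =
      ∫ x : ℝ, A1 x * (Om (h 0) (x + τ 0) : ℂ) := by
    refine integral_congr_ae (Filter.Eventually.of_forall fun x => ?_)
    simp only [hA1, hZ, hP]
    rw [Fin.prod_univ_succ]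
    ring
  have e2 : (∫ x : ℝ, Ω x * (∏ j, (Om (h j) (x + τ j) : ℂ)) * MM x a b) =
      ∫ x : ℝ, A2 x * (Om (h 0) (x + τ 0) : ℂ) := by
    refine integral_congr_ae (Filter.Eventually.of_forall fun x => ?_)
    simp only [hA2, hP]
    rw [Fin.prod_univ_succ]
    ring
  rw [e1, e2, f1, f2, ← mul_sub, ← integral_sub f1i f2i, norm_mul]
  -- the inner difference
  have hin : ∀ v : ℝ, ‖(∫ x : ℝ, A1 x * X2 (x + τ 0) (wv c v)) -
      ∫ x : ℝ, A2 x * X2 (x + τ 0) (wv c v)‖ ≤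
      K1 c U v * (C * U ^ (1 - 1 / 25 + ε / 2 : ℝ)) := by
    intro v
    have hK := K1_pos (c := c) hU v
    have hKc : ((K1 c U v : ℝ) : ℂ) ≠ 0 := by exact_mod_cast hK.ne'
    have h1 := hB U Δ (fun j => τ j.succ) (fun j => h j.succ) (Om3 c U (τ 0) v Ω) a b hU hΔ hΔU
      (adm_Om3 hc hc1 hU hΔ0 hΔU hΩ (fun x hx => hτ x hx 0) v) hab ha hb (fun j => hh j.succ)
      (fun x hx j => hτ x (by
        intro h0
        apply hx
        unfold Om3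
        rw [h0]
        simp) j.succ)
    have g1 : (∫ x : ℝ, A1 x * X2 (x + τ 0) (wv c v)) = ((K1 c U v : ℝ) : ℂ) *
        ∫ x : ℝ, Om3 c U (τ 0) v Ω x * (∏ j : Fin n, (Om (h j.succ) (x + τ j.succ) : ℂ)) *
          ((‖riemannZeta (1 / 2 + x * I)‖ ^ 4 : ℝ) : ℂ) * ex x (a, b) := by
      rw [← integral_const_mul]
      refine integral_congr_ae (Filter.Eventually.of_forall fun x => ?_)
      simp only [hA1, hZ, hP, Om3]
      field_simp
    have g2 : (∫ x : ℝ, A2 x * X2 (x + τ 0) (wv c v)) = ((K1 c U v : ℝ) : ℂ) *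
        ∫ x : ℝ, Om3 c U (τ 0) v Ω x * (∏ j : Fin n, (Om (h j.succ) (x + τ j.succ) : ℂ)) *
          MM x a b := by
      rw [← integral_const_mul]
      refine integral_congr_ae (Filter.Eventually.of_forall fun x => ?_)
      simp only [hA2, hP, Om3]
      field_simp
    rw [g1, g2, ← mul_sub, norm_mul, Complex.norm_real, Real.norm_of_nonneg hK.le]
    exact mul_le_mul_of_nonneg_left h1 hK.le
  have hK2 : ∀ v : ℝ, K1 c U v = C9 * ((1 + |v|) ^ 8 * U ^ c) := by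
    intro v
    unfold K1
    rw [hC9]
    ring
  have hb1 : ‖∫ v : ℝ, (Ev c (h 0) v * ∫ x : ℝ, A1 x * X2 (x + τ 0) (wv c v)) -
      Ev c (h 0) v * ∫ x : ℝ, A2 x * X2 (x + τ 0) (wv c v)‖ ≤
      ∫ v : ℝ, C' * C * C9 * (U ^ c * U ^ (1 - 1 / 25 + ε / 2 : ℝ)) *
        ((1 + |v|) ^ 8 * Real.exp (-v ^ 2)) := by
    refine norm_integral_le_of_norm_le (TwOmAux.poly_gauss.const_mul _)
      (Filter.Eventually.of_forall fun v => ?_)
    rw [← mul_sub, norm_mul]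
    calc ‖Ev c (h 0) v‖ * ‖(∫ x : ℝ, A1 x * X2 (x + τ 0) (wv c v)) -
          ∫ x : ℝ, A2 x * X2 (x + τ 0) (wv c v)‖
        ≤ (C' * Real.exp (-v ^ 2)) * (K1 c U v * (C * U ^ (1 - 1 / 25 + ε / 2 : ℝ))) := by
          have a1 := hE (h 0) v (hh 0)
          have a2 := hin v
          gcongr
      _ = _ := by rw [hK2]; ring
  rw [integral_const_mul, ← hIG] at hb1
  have hpi : ‖(Real.pi : ℂ)⁻¹‖ ≤ 1 := by
    rw [norm_inv, Complex.norm_real, Real.norm_of_nonneg Real.pi_pos.le]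
    exact inv_le_one_of_one_le₀ (by linarith [Real.pi_gt_three])
  have hpow : U ^ c * U ^ (1 - 1 / 25 + ε / 2 : ℝ) ≤ U ^ (1 - 1 / 25 + ε : ℝ) := by
    rw [← Real.rpow_add hU0]
    apply Real.rpow_le_rpow_of_exponent_le hU
    linarith
  calc ‖(Real.pi : ℂ)⁻¹‖ * ‖∫ v : ℝ, (Ev c (h 0) v * ∫ x : ℝ, A1 x * X2 (x + τ 0) (wv c v)) -
      Ev c (h 0) v * ∫ x : ℝ, A2 x * X2 (x + τ 0) (wv c v)‖
      ≤ 1 * (C' * C * C9 * (U ^ c * U ^ (1 - 1 / 25 + ε / 2 : ℝ)) * IG) := by gcongr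
    _ = C' * C * C9 * IG * (U ^ c * U ^ (1 - 1 / 25 + ε / 2 : ℝ)) := by ring
    _ ≤ C' * C * C9 * IG * U ^ (1 - 1 / 25 + ε : ℝ) := by gcongr
    _ ≤ _ := by
        have : 0 ≤ U ^ (1 - 1 / 25 + ε : ℝ) := by positivity
        nlinarith

theorem Bnd_all (n : ℕ) : ∀ ε : ℝ, 0 < ε → ∃ C : ℝ, 0 < C ∧ Bnd n ε C := by
  induction n with
  | zero => exact fun ε hε => Bnd_zero hε
  | succ n ih =>
    intro ε hε
    obtain ⟨C, hC, hB⟩ := ih (ε / 2) (by linarith)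
    exact Bnd_succ hε hC hB

end TwNAux

theorem tw_n (n : ℕ) (ε : ℝ) (hε : 0 < ε) : ∃ C : ℝ, 0 < C ∧ ∀ (U Δ : ℝ) (τ h : Fin n → ℝ) (Ω : ℝ → ℂ) (a b : ℕ+), 1 ≤ U →
    U ^ (1 - 1 / 1000 : ℝ) ≤ Δ → Δ ≤ U → Adm U Δ Ω → Nat.Coprime (a : ℕ) (b : ℕ) → ((a : ℕ) : ℝ) ≤ U ^ (1 / 1000 : ℝ) →
    ((b : ℕ) : ℝ) ≤ U ^ (1 / 1000 : ℝ) → (∀ j, 1 ≤ h j) → (∀ x, Ω x ≠ 0 → ∀ j, U / 2 ≤ x + τ j ∧ x + τ j ≤ 16 * U) →
    ‖(∫ x : ℝ, Ω x * (∏ j, (Om (h j) (x + τ j) : ℂ)) * ((‖riemannZeta (1 / 2 + x * I)‖ ^ 4 : ℝ) : ℂ) * ex x (a, b)) -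
      ∫ x : ℝ, Ω x * (∏ j, (Om (h j) (x + τ j) : ℂ)) * MM x a b‖ ≤ C * U ^ (1 - 1 / 25 + ε) :=
  TwNAux.Bnd_all n ε hε

end Pool.Agent.P07318g
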